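import Pool.Agent.helper43.SBI.Gen2

set_option autoImplicit false

/-!
# SBI-5e : views in general position are dense
-/

namespace Pool.Agent.helper43.SBI

open Pool.Agent.helper82.SB Filter Topology

theorem NZPoly.isOpen {φ : E3 → ℝ} (h : NZPoly φ) : IsOpen {f : E3 | φ f ≠ 0} := by
  obtain ⟨⟨p, hp⟩, -⟩ := h
  have hc : Continuous φ := by
    have : φ = fun v => MvPolynomial.eval v p := funext hp
    rw [this]; exact p.continuous_eval
  exact isOpen_ne_fun hc continuous_const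

theorem NZPoly.dense {φ : E3 → ℝ} (h : NZPoly φ) : Dense {f : E3 | φ f ≠ 0} := by
  rw [dense_iff_inter_open]
  intro U hU hne
  obtain ⟨v, hv, hv'⟩ := exists_common_nonroot {()} (fun _ => φ) (fun _ _ => h) U hU hne
  exact ⟨v, hv, hv' () (Finset.mem_singleton_self ())⟩

/-- If `P` then `φ f ≠ 0`. -/
def CondSet (P : Prop) (φ : E3 → ℝ) : Set E3 := {f | P → φ f ≠ 0}

theorem condSet_isOpen {P : Prop} {φ : E3 → ℝ} (h : P → NZPoly φ) : IsOpen (CondSet P φ) := by
  by_cases hP : P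
  · have : CondSet P φ = {f | φ f ≠ 0} := by
      ext f; exact ⟨fun hf => hf hP, fun hf _ => hf⟩
    rw [this]; exact (h hP).isOpen
  · have : CondSet P φ = Set.univ := by
      ext f; exact ⟨fun _ => Set.mem_univ f, fun _ h' => absurd h' hP⟩
    rw [this]; exact isOpen_univ

theorem condSet_dense {P : Prop} {φ : E3 → ℝ} (h : P → NZPoly φ) : Dense (CondSet P φ) := by
  by_cases hP : P
  · have : CondSet P φ = {f | φ f ≠ 0} := by
      ext f; exact ⟨fun hf => hf hP, fun hf _ => hf⟩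
    rw [this]; exact (h hP).dense
  · have : CondSet P φ = Set.univ := by
      ext f; exact ⟨fun _ => Set.mem_univ f, fun _ h' => absurd h' hP⟩
    rw [this]; exact dense_univ

theorem edge_ne_zero (K : PolyKnot) (i : ℤ) : edge K.P i ≠ 0 := by
  intro h
  apply K.corner i
  have : K.P (i + 1) - K.P i = 0 := h
  rw [this]
  exact SameRay.zero_right _

theorem exists_indep {a : E3} (ha : a ≠ 0) : ∃ w : E3, ∀ p q : ℝ, p • a + q • w = 0 → p = 0 ∧ q = 0 := by
  obtain ⟨k, hk⟩ : ∃ k, a k ≠ 0 := by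
    by_contra hcon
    push Not at hcon
    exact ha (funext hcon)
  obtain ⟨l, hl⟩ : ∃ l : Fin 3, l ≠ k := ⟨k + 1, by fin_cases k <;> decide⟩
  refine ⟨Pi.single l 1, fun p q h => ?_⟩
  have h1 := congrFun h k
  have h2 := congrFun h l
  simp only [Pi.add_apply, Pi.smul_apply, smul_eq_mul, Pi.zero_apply, Pi.single_eq_same, mul_one,
    Pi.single_eq_of_ne (Ne.symm hl), mul_zero, add_zero] at h1 h2
  have hp : p = 0 := (mul_eq_zero.1 h1).resolve_right hk
  rw [hp, zero_mul, zero_add] at h2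
  exact ⟨hp, h2⟩

theorem nz_line (v E : E3) (hE : E ≠ 0) (h : ∀ c : ℝ, v ≠ c • E) :
    NZPoly (fun f => det3 f v E) := by
  refine nzpoly_det3 v E fun p q hpq => ?_
  have hp : p = 0 := by
    by_contra hp
    apply h (-(p⁻¹ * q))
    have h1 : p⁻¹ • (p • v + q • E) = 0 := by rw [hpq, smul_zero]
    rw [smul_add, smul_smul, smul_smul, inv_mul_cancel₀ hp, one_smul] at h1
    rw [neg_smul]
    exact eq_neg_of_add_eq_zero_left h1
  rw [hp, zero_smul, zero_add] at hpq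
  exact ⟨hp, (smul_eq_zero.1 hpq).resolve_right hE⟩

/-- SBI-5e. Views are dense. More generally, for a finite set `E` of views the directions which are views and in general
position to all of them are dense. [Conditions on `f`: `ViewCond` (finitely many, by periodicity
it is enough to take `i, j, l ∈ [0, n)`; independence of `f` and `E_i` is implied by one more
determinant with an auxiliary vector), `det3 e f E_i ≠ 0`, and for every crossing `Under K e i j`
and every `l` with the point `p = P_i + xpos K e i j • E_i` (or `p = P_j + xpos K e j i • E_j`) not on the line of edge `l`: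
`det3 f (p - P_l) E_l ≠ 0`. If `p` is on the line of `l` then `gam s₂ = p + b f` on edge `l` gives `b = 0`
by independence.] -/
theorem dense_pairGen (K : PolyKnot) (E : Finset E3) (hE : ∀ e ∈ E, View K e) :
    Dense {f : E3 | View K f ∧ ∀ e ∈ E, PairGen K e f} := by
  choose w hw using fun i : ℤ => exists_indep (edge_ne_zero K i)
  let S1 : ℤ × ℤ × ℤ → Set E3 := fun q =>
    CondSet True (fun f => det3 f (edge K.P q.1) (w q.1)) ∩
    (CondSet (∀ c : ℝ, K.P q.1 - K.P q.2.1 ≠ c • edge K.P q.2.1)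
      (fun f => det3 f (K.P q.1 - K.P q.2.1) (edge K.P q.2.1)) ∩
    CondSet (det3 (K.P q.2.1 - K.P q.1) (edge K.P q.1) (edge K.P q.2.1) ≠ 0 ∧
      det3 (K.P q.2.2 - K.P q.1) (edge K.P q.1) (edge K.P q.2.2) ≠ 0 ∧
      ¬ ((∃ c : ℝ, edge K.P q.2.1 = c • edge K.P q.2.2) ∧
        ∃ c : ℝ, K.P q.2.1 - K.P q.2.2 = c • edge K.P q.2.2))
      (quadForm K q.1 q.2.1 q.2.2))
  let pt : ℤ → ℤ → E3 → E3 := fun i j e => K.P i + xpos K e i j • edge K.P i
  let S2 : (ℤ × ℤ × ℤ) × E → Set E3 := fun q =>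
    CondSet True (fun f => det3 f (edge K.P q.1.1) (q.2 : E3)) ∩
    CondSet (∀ c : ℝ, pt q.1.1 q.1.2.1 q.2 - K.P q.1.2.2 ≠ c • edge K.P q.1.2.2)
      (fun f => det3 f (pt q.1.1 q.1.2.1 q.2 - K.P q.1.2.2) (edge K.P q.1.2.2))
  have hA : ∀ i : ℤ, True → NZPoly (fun f => det3 f (edge K.P i) (w i)) := fun i _ =>
    nzpoly_det3 _ _ (hw i)
  have hB : ∀ i j : ℤ, (∀ c : ℝ, K.P i - K.P j ≠ c • edge K.P j) →
      NZPoly (fun f => det3 f (K.P i - K.P j) (edge K.P j)) := fun i j h =>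
    nz_line _ _ (edge_ne_zero K j) h
  have hC : ∀ i j l : ℤ, (det3 (K.P j - K.P i) (edge K.P i) (edge K.P j) ≠ 0 ∧
      det3 (K.P l - K.P i) (edge K.P i) (edge K.P l) ≠ 0 ∧
      ¬ ((∃ c : ℝ, edge K.P j = c • edge K.P l) ∧ ∃ c : ℝ, K.P j - K.P l = c • edge K.P l)) →
      NZPoly (quadForm K i j l) := fun i j l h => quadForm_nz K i j l h.1 h.2.1 h.2.2
  have hD : ∀ (i : ℤ) (e : E), True → NZPoly (fun f => det3 f (edge K.P i) (e : E3)) :=
    fun i e _ => nzpoly_det3 _ _ fun p q hpq => by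
      rw [add_comm] at hpq
      exact ((hE e e.2).indep i q p hpq).symm
  have hF : ∀ (i j l : ℤ) (e : E), (∀ c : ℝ, pt i j e - K.P l ≠ c • edge K.P l) →
      NZPoly (fun f => det3 f (pt i j e - K.P l) (edge K.P l)) := fun i j l e h =>
    nz_line _ _ (edge_ne_zero K l) h
  have hall : Dense (⋂ q, Sum.elim S1 S2 q) := by
    refine dense_iInter_of_isOpen (fun q => ?_) (fun q => ?_)
    · rcases q with q | q
      · exact (condSet_isOpen (hA q.1)).inter ((condSet_isOpen (hB q.1 q.2.1)).inter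
          (condSet_isOpen (hC q.1 q.2.1 q.2.2)))
      · exact (condSet_isOpen (hD q.1.1 q.2)).inter
          (condSet_isOpen (hF q.1.1 q.1.2.1 q.1.2.2 q.2))
    · rcases q with q | q
      · exact (condSet_dense (hA q.1)).inter_of_isOpen_left
          ((condSet_dense (hB q.1 q.2.1)).inter_of_isOpen_left
            (condSet_dense (hC q.1 q.2.1 q.2.2)) (condSet_isOpen (hB q.1 q.2.1)))
          (condSet_isOpen (hA q.1))
      · exact (condSet_dense (hD q.1.1 q.2)).inter_of_isOpen_left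
          (condSet_dense (hF q.1.1 q.1.2.1 q.1.2.2 q.2)) (condSet_isOpen (hD q.1.1 q.2))
  refine hall.mono fun f hf => ?_
  rw [Set.mem_iInter] at hf
  have f1 : ∀ q, f ∈ S1 q := fun q => hf (Sum.inl q)
  have f2 : ∀ q, f ∈ S2 q := fun q => hf (Sum.inr q)
  have hind : ∀ i, ∀ p q : ℝ, p • f + q • edge K.P i = 0 → p = 0 ∧ q = 0 := by
    intro i p q hpq
    have h1 : det3 f (edge K.P i) (w i) ≠ 0 := (f1 (i, 0, 0)).1 trivial
    have h2 : det3 (p • f + q • edge K.P i) (edge K.P i) (w i) =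
        p * det3 f (edge K.P i) (w i) := by
      simp only [det3, Pi.add_apply, Pi.smul_apply, smul_eq_mul]; ring
    have h3 : det3 (p • f + q • edge K.P i) (edge K.P i) (w i) = 0 := by
      rw [hpq]; simp [det3]
    rw [h2] at h3
    have hp : p = 0 := (mul_eq_zero.1 h3).resolve_right h1
    rw [hp, zero_smul, zero_add] at hpq
    exact ⟨hp, (smul_eq_zero.1 hpq).resolve_right (edge_ne_zero K i)⟩
  refine ⟨view_of_cond K f ⟨hind, fun i j h => (f1 (i, j, 0)).2.1 h,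
    fun i j l h1 h2 h3 => (f1 (i, j, l)).2.2 ⟨h1, h2, h3⟩⟩, fun e he => ⟨fun i => ?_, ?_⟩⟩
  · have h1 : det3 f (edge K.P i) e ≠ 0 := (f2 ((i, 0, 0), ⟨e, he⟩)).1 trivial
    have h2 : det3 e f (edge K.P i) = det3 f (edge K.P i) e := by simp only [det3]; ring
    rw [h2]; exact h1
  · intro s s₁ s₂ a b h1 h2
    by_contra hab
    push Not at hab
    obtain ⟨ha, hb⟩ := hab
    -- the point `gam K s` is at a crossing
    obtain ⟨j, hj⟩ : ∃ j : ℤ, gam K s = pt ⌊s⌋ j e := by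
      have hV := hE e he
      rcases lt_or_gt_of_ne ha with hneg | hpos
      · have hO : Over K e s₁ s := ⟨-a, by linarith, by rw [h1, neg_smul, add_neg_cancel_right]⟩
        have h3 := (hV.over_iff s₁ s).1 hO
        refine ⟨⌊s₁⌋, ?_⟩
        show gam K s = K.P ⌊s⌋ + xpos K e ⌊s⌋ ⌊s₁⌋ • edge K.P ⌊s⌋
        rw [← h3.2.2]; rfl
      · have hO : Over K e s s₁ := ⟨a, hpos, h1⟩
        have h3 := (hV.over_iff s s₁).1 hO
        refine ⟨⌊s₁⌋, ?_⟩
        show gam K s = K.P ⌊s⌋ + xpos K e ⌊s⌋ ⌊s₁⌋ • edge K.P ⌊s⌋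
        rw [← h3.2.1]; rfl
    have h4 : K.P ⌊s₂⌋ + Int.fract s₂ • edge K.P ⌊s₂⌋ = pt ⌊s⌋ j e + b • f := by
      rw [← hj]; exact h2
    by_cases hline : ∀ c : ℝ, pt ⌊s⌋ j e - K.P ⌊s₂⌋ ≠ c • edge K.P ⌊s₂⌋
    · have h5 : det3 f (pt ⌊s⌋ j e - K.P ⌊s₂⌋) (edge K.P ⌊s₂⌋) ≠ 0 :=
        (f2 ((⌊s⌋, j, ⌊s₂⌋), ⟨e, he⟩)).2 hline
      have h6 : pt ⌊s⌋ j e - K.P ⌊s₂⌋ = Int.fract s₂ • edge K.P ⌊s₂⌋ - b • f := by
        rw [sub_eq_sub_iff_add_eq_add, ← h4, add_comm]
      apply h5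
      rw [h6]
      simp only [det3, Pi.sub_apply, Pi.smul_apply, smul_eq_mul]; ring
    · push Not at hline
      obtain ⟨c, hc⟩ := hline
      have h6 : b • f + (c - Int.fract s₂) • edge K.P ⌊s₂⌋ = 0 := by
        rw [sub_smul, ← hc]
        have h7 : b • f = K.P ⌊s₂⌋ + Int.fract s₂ • edge K.P ⌊s₂⌋ - pt ⌊s⌋ j e := by
          rw [h4, add_sub_cancel_left]
        rw [h7]; abel
      exact hb (hind _ _ _ h6).1

theorem view_dense (K : PolyKnot) (b : E3) (ε : ℝ) (hε : 0 < ε) :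
    ∃ e, View K e ∧ ‖e - b‖ < ε := by
  obtain ⟨e, he, h⟩ := (dense_pairGen K ∅ (by simp)).exists_dist_lt b hε
  exact ⟨e, he.1, by rwa [← dist_eq_norm, dist_comm]⟩

theorem exists_view (K : PolyKnot) : ∃ f, View K f := by
  obtain ⟨f, hf⟩ := (dense_pairGen K ∅ (by simp)).nonempty
  exact ⟨f, hf.1⟩

theorem PairGen.symm {K : PolyKnot} {e f : E3} (h : PairGen K e f) : PairGen K f e := by
  refine ⟨fun i h0 => h.det i ?_, fun s s₁ s₂ a b h1 h2 => (h.cross s s₂ s₁ b a h2 h1).symm⟩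
  rw [← neg_eq_zero, ← h0]
  simp only [det3]
  ring

end Pool.Agent.helper43.SBI
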