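import Pool.Agent.helper43.SBI.Crossing

set_option autoImplicit false

/-!
# SBI-14 : renumbering and subdivision
-/

namespace Pool.Agent.helper43.SBI

open Pool.Agent.helper82.SB Filter Topology

variable {Y G : Type*} [Group G] [MulAction G Y]

section shift

variable {K L : PolyKnot} {m : ℤ}

theorem rot_edge (h : ∀ i, L.P i = K.P (i + m)) (i : ℤ) : edge L.P i = edge K.P (i + m) := by
  unfold edge
  rw [h, h]
  congr 2
  ring

theorem rot_gam (h : ∀ i, L.P i = K.P (i + m)) (s : ℝ) : gam L s = gam K (s + m) := by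
  unfold gam
  rw [h, rot_edge h, Int.floor_add_intCast, Int.fract_add_intCast]

theorem rot_over (h : ∀ i, L.P i = K.P (i + m)) (e : E3) (s s' : ℝ) :
    Over L e s s' ↔ Over K e (s + m) (s' + m) := by
  unfold Over
  simp only [rot_gam h]

theorem rot_xpos (h : ∀ i, L.P i = K.P (i + m)) (e : E3) (i j : ℤ) :
    xpos L e i j = xpos K e (i + m) (j + m) := by
  unfold xpos
  rw [h, h, rot_edge h, rot_edge h]

theorem rot_alt (h : ∀ i, L.P i = K.P (i + m)) (e : E3) (i j : ℤ) :
    alt L e i j = alt K e (i + m) (j + m) := by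
  unfold alt
  rw [h, h, rot_edge h, rot_edge h]

theorem rot_under (h : ∀ i, L.P i = K.P (i + m)) (e : E3) (i j : ℤ) :
    Under L e i j ↔ Under K e (i + m) (j + m) := by
  unfold Under
  rw [rot_xpos h, rot_xpos h, rot_alt h, rot_edge h, rot_edge h]

theorem rot_sgn (h : ∀ i, L.P i = K.P (i + m)) (e : E3) (i j : ℤ) :
    sgn L e i j = sgn K e (i + m) (j + m) := by
  unfold sgn
  rw [rot_edge h, rot_edge h]

theorem rot_hasFull (Q : AQ Y G) (F : Set (Set Y)) (hn : L.n = K.n) (h : ∀ i, L.P i = K.P (i + m))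
    (e : E3) (hK : HasFull Q F K e) : HasFull Q F L e := by
  obtain ⟨hV, c, hc, hf⟩ := hK
  refine ⟨⟨?_, ?_⟩, fun s => c (s + m), ⟨?_, ?_, ?_⟩, ?_⟩
  · intro i j x a h0 h1 he
    rw [h, h, rot_edge h] at he
    exact hV.vert _ _ _ _ h0 h1 he
  · intro i j l hij hil hx
    rw [rot_under h] at hij hil
    rw [rot_xpos h, rot_xpos h] at hx
    have := hV.triple _ _ _ hij hil hx
    rw [hn]
    have e1 : j + m - (l + m) = j - l := by ring
    rwa [e1] at this
  · intro s
    have e1 : s + (L.n : ℝ) + m = (s + m) + K.n := by rw [hn]; ring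
    show c (s + (L.n : ℝ) + m) = _
    rw [e1]
    exact hc.per _
  · intro s hs
    have h1 : ∀ s', ¬ Over K e (s + m) s' := by
      intro s' hs'
      apply hs (s' - m)
      rw [rot_over h]
      rwa [sub_add_cancel]
    have h2 := hc.const _ h1
    have h3 : Tendsto (fun r : ℝ => r + m) (𝓝 s) (𝓝 (s + m)) := by
      exact (continuous_add_const (m : ℝ)).tendsto s
    exact h3.eventually h2
  · intro s s' hs
    rw [rot_over h] at hs
    obtain ⟨a, ha1, ha2⟩ := hc.jump _ _ hs
    have h3 : Tendsto (fun r : ℝ => r + m) (𝓝 s) (𝓝 (s + m)) := by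
      exact (continuous_add_const (m : ℝ)).tendsto s
    refine ⟨a, ?_, ?_⟩
    · have h4 : Tendsto (fun r : ℝ => r + m) (𝓝[<] s) (𝓝[<] (s + m)) := by
        apply tendsto_nhdsWithin_of_tendsto_nhds_of_eventually_within
        · exact h3.mono_left nhdsWithin_le_nhds
        · filter_upwards [self_mem_nhdsWithin] with r hr
          simpa using hr
      exact h4.eventually ha1
    · have h4 : Tendsto (fun r : ℝ => r + m) (𝓝[>] s) (𝓝[>] (s + m)) := by
        apply tendsto_nhdsWithin_of_tendsto_nhds_of_eventually_within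
        · exact h3.mono_left nhdsWithin_le_nhds
        · filter_upwards [self_mem_nhdsWithin] with r hr
          simpa using hr
      have h5 := h4.eventually ha2
      rw [Int.floor_add_intCast, Int.floor_add_intCast, ← rot_sgn h] at h5
      exact h5
  · intro A hA
    obtain ⟨s, hs1, hs2⟩ := hf A hA
    refine ⟨s - m, ?_, ?_⟩
    · intro s' hs'
      rw [rot_over h, sub_add_cancel] at hs'
      exact hs1 _ hs'
    · show c (s - m + m) ∉ A
      rwa [sub_add_cancel]

end shift

/-- SBI-14a. Renumbering the vertices. [`gam L s = gam K (s + 1)`; the colouring is `s ↦ c (s ± 1)`.] -/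
theorem hasFull_rotate (Q : AQ Y G) (F : Set (Set Y)) (K L : PolyKnot) (hn : L.n = K.n)
    (h : ∀ i, L.P i = K.P (i + 1)) (e : E3) : HasFull Q F L e ↔ HasFull Q F K e := by
  constructor
  · have h' : ∀ i, K.P i = L.P (i + (-1)) := by
      intro i
      rw [h]
      congr 1
      ring
    exact rot_hasFull Q F hn.symm h' e
  · exact rot_hasFull Q F hn h e

end Pool.Agent.helper43.SBI
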