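import Pool.Agent.helper43.SBI.Crossing

set_option autoImplicit false

/-!
# SBI-14b, c : subdivision
-/

namespace Pool.Agent.helper43.SBI

open Pool.Agent.helper82.SB Filter Topology

variable {Y G : Type*} [Group G] [MulAction G Y]

/-- piecewise linear interpolation of a strictly increasing sequence -/
theorem interp_iso (A : ℤ → ℝ) (hA : StrictMono A) (hlo : ∀ y : ℝ, ∃ i, A i ≤ y)
    (hhi : ∀ y : ℝ, ∃ i, y < A i) :
    ∃ φ : ℝ ≃o ℝ, ∀ s, φ s = A ⌊s⌋ + Int.fract s * (A (⌊s⌋ + 1) - A ⌊s⌋) := by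
  set f : ℝ → ℝ := fun s => A ⌊s⌋ + Int.fract s * (A (⌊s⌋ + 1) - A ⌊s⌋) with hf
  have hstep : ∀ i, 0 < A (i + 1) - A i := fun i => sub_pos.2 (hA (lt_add_one i))
  have hlow : ∀ s, A ⌊s⌋ ≤ f s := fun s => by
    have := mul_nonneg (Int.fract_nonneg s) (hstep ⌊s⌋).le
    simp only [hf]
    linarith
  have hupp : ∀ s, f s < A (⌊s⌋ + 1) := fun s => by
    have := mul_lt_mul_of_pos_right (Int.fract_lt_one s) (hstep ⌊s⌋)
    simp only [hf]
    linarith
  have hmono : StrictMono f := by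
    intro s t hst
    rcases (Int.floor_mono hst.le).lt_or_eq with h | h
    · refine (hupp s).trans_le (le_trans ?_ (hlow t))
      exact hA.monotone (by omega)
    · have h2 : Int.fract s < Int.fract t := by
        rw [← Int.self_sub_floor, ← Int.self_sub_floor, h]
        linarith
      simp only [hf]
      rw [h]
      have := mul_lt_mul_of_pos_right h2 (hstep ⌊t⌋)
      linarith
  have hsurj : Function.Surjective f := by
    intro y
    obtain ⟨i, hi, hmax⟩ := Int.exists_greatest_of_bdd (P := fun i => A i ≤ y)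
      (by
        obtain ⟨b, hb⟩ := hhi y
        refine ⟨b, fun z hz => ?_⟩
        by_contra hcon
        push Not at hcon
        have := hA hcon
        linarith) (hlo y)
    have hi' : y < A (i + 1) := by
      by_contra hcon
      push Not at hcon
      have := hmax (i + 1) hcon
      omega
    have hs := hstep i
    have h0 : 0 ≤ (y - A i) / (A (i + 1) - A i) := div_nonneg (by linarith) hs.le
    have h1 : (y - A i) / (A (i + 1) - A i) < 1 := by
      rw [div_lt_one hs]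
      linarith
    have hfl : ⌊(i : ℝ) + (y - A i) / (A (i + 1) - A i)⌋ = i := by
      rw [Int.floor_intCast_add, Int.floor_eq_zero_iff.2 ⟨h0, h1⟩, add_zero]
    refine ⟨i + (y - A i) / (A (i + 1) - A i), ?_⟩
    simp only [hf]
    rw [← Int.self_sub_floor, hfl]
    field_simp
    ring
  exact ⟨StrictMono.orderIsoOfSurjective f hmono hsurj, fun s => rfl⟩

/-- data of the subdivision -/
theorem subdiv_data (K L : PolyKnot) (hn : L.n = K.n + 1)
    (h : ∀ i : ℤ, 0 ≤ i → i < K.n → L.P i = K.P i)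
    (h' : L.P K.n ∈ openSegment ℝ (K.P (K.n - 1)) (K.P K.n)) :
    ∃ A : ℤ → ℝ, (∀ i, A (i + L.n) = A i + K.n) ∧ (∀ i : ℤ, ∃ j : ℤ, A j = i) ∧
      ∀ i : ℤ, ∃ (j : ℤ) (p p' : ℝ), 0 ≤ p ∧ p < p' ∧ p' ≤ 1 ∧ A i = j + p ∧ A (i + 1) = j + p' ∧
        L.P i = K.P j + p • edge K.P j ∧ L.P (i + 1) = K.P j + p' • edge K.P j := by
  obtain ⟨a, b, ha, hb, hab, hQ⟩ := h'
  have hK3 := K.three
  have hb1 : b < 1 := by linarith
  have hLn : (L.n : ℤ) = K.n + 1 := by rw [hn]; push_cast; ring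
  have hLpos : (0 : ℤ) < L.n := by rw [hLn]; positivity
  have hQ' : L.P K.n = K.P (K.n - 1) + b • edge K.P (K.n - 1) := by
    rw [← hQ, edge, sub_add_cancel, smul_sub, show a = 1 - b by linarith, sub_smul, one_smul]
    abel
  -- the sequence
  let A : ℤ → ℝ := fun i => (i / (L.n : ℤ) : ℤ) * (K.n : ℝ) +
    (if i % (L.n : ℤ) < K.n then ((i % (L.n : ℤ) : ℤ) : ℝ) else K.n - 1 + b)
  have hA : ∀ q r : ℤ, 0 ≤ r → r < K.n → A (q * L.n + r) = q * K.n + r := by
    intro q r h0 h1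
    have e1 : (q * (L.n : ℤ) + r) / (L.n : ℤ) = q := by
      rw [add_comm, Int.add_mul_ediv_right _ _ hLpos.ne', Int.ediv_eq_zero_of_lt h0 (by omega)]
      ring
    have e2 : (q * (L.n : ℤ) + r) % (L.n : ℤ) = r := by
      rw [add_comm, Int.add_mul_emod_self_right]
      exact Int.emod_eq_of_lt h0 (by omega)
    simp only [A]
    rw [e1, e2, if_pos h1]
  have hA' : ∀ q : ℤ, A (q * L.n + K.n) = q * K.n + (K.n - 1 + b) := by
    intro q
    have e1 : (q * (L.n : ℤ) + K.n) / (L.n : ℤ) = q := by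
      rw [add_comm, Int.add_mul_ediv_right _ _ hLpos.ne',
        Int.ediv_eq_zero_of_lt (by positivity) (by omega)]
      ring
    have e2 : (q * (L.n : ℤ) + K.n) % (L.n : ℤ) = K.n := by
      rw [add_comm, Int.add_mul_emod_self_right]
      exact Int.emod_eq_of_lt (by positivity) (by omega)
    simp only [A]
    rw [e1, e2, if_neg (lt_irrefl _)]
  have hdec : ∀ i : ℤ, ∃ q r : ℤ, i = q * L.n + r ∧ 0 ≤ r ∧ (r < K.n ∨ r = K.n) := by
    intro i
    refine ⟨i / L.n, i % L.n, ?_, Int.emod_nonneg _ hLpos.ne', ?_⟩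
    · have := Int.emod_add_mul_ediv i L.n
      linarith
    · have := Int.emod_lt_of_pos i hLpos
      omega
  refine ⟨A, ?_, ?_, ?_⟩
  · intro i
    obtain ⟨q, r, hi, h0, h1⟩ := hdec i
    rcases h1 with h1 | h1
    · rw [hi, show q * (L.n : ℤ) + r + L.n = (q + 1) * L.n + r by ring, hA _ _ h0 h1, hA _ _ h0 h1]
      push_cast
      ring
    · rw [hi, h1, show q * (L.n : ℤ) + K.n + L.n = (q + 1) * L.n + K.n by ring, hA', hA']
      push_cast
      ring
  · intro i
    have hKpos : (0 : ℤ) < K.n := by omega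
    refine ⟨(i / K.n) * L.n + i % K.n, ?_⟩
    rw [hA _ _ (Int.emod_nonneg _ hKpos.ne') (Int.emod_lt_of_pos _ hKpos)]
    have := Int.emod_add_mul_ediv i K.n
    have h2 : ((i % (K.n : ℤ) + K.n * (i / K.n) : ℤ) : ℝ) = i := by rw [this]
    push_cast at h2
    linarith
  · intro i
    obtain ⟨q, r, hi, h0, h1⟩ := hdec i
    have hLP : ∀ t : ℤ, L.P (q * L.n + t) = L.P t := fun t => by rw [add_comm]; exact P_add L t q
    have hKP : ∀ t : ℤ, K.P (q * K.n + t) = K.P t := fun t => by rw [add_comm]; exact P_add K t q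
    have hKE : ∀ t : ℤ, edge K.P (q * K.n + t) = edge K.P t := fun t => by
      rw [add_comm]; exact edge_add K t q
    have hedge : ∀ t : ℤ, K.P t + (1 : ℝ) • edge K.P t = K.P (t + 1) := fun t => by
      rw [edge, one_smul]; abel
    have hKn : K.P K.n = K.P 0 := by
      have := K.per 0
      rwa [zero_add] at this
    have hLn0 : L.P L.n = L.P 0 := by
      have := L.per 0
      rwa [zero_add] at this
    rcases h1 with h1 | h1
    · rcases lt_or_eq_of_le (show r ≤ K.n - 1 by omega) with h2 | h2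
      · -- `r < n - 1`
        refine ⟨q * K.n + r, 0, 1, le_rfl, one_pos, le_rfl, ?_, ?_, ?_, ?_⟩
        · rw [hi, hA _ _ h0 h1]; push_cast; ring
        · rw [hi, add_assoc, hA _ _ (by omega) (by omega)]; push_cast; ring
        · rw [hi, hLP, hKP, h _ h0 h1, zero_smul, add_zero]
        · rw [hi, add_assoc, hLP, hKP, hKE, hedge, h _ (by omega) (by omega)]
      · -- `r = n - 1`
        refine ⟨q * K.n + r, 0, b, le_rfl, hb, hb1.le, ?_, ?_, ?_, ?_⟩
        · rw [hi, hA _ _ h0 h1]; push_cast; ring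
        · rw [hi, add_assoc, show r + 1 = K.n by omega, hA', h2]; push_cast; ring
        · rw [hi, hLP, hKP, h _ h0 h1, zero_smul, add_zero]
        · rw [hi, add_assoc, hLP, hKP, hKE, show r + 1 = K.n by omega, hQ', h2]
    · -- `r = n`
      refine ⟨q * K.n + (K.n - 1), b, 1, hb.le, hb1, le_rfl, ?_, ?_, ?_, ?_⟩
      · rw [hi, h1, hA']; push_cast; ring
      · have e1 : i + 1 = (q + 1) * L.n + 0 := by rw [hi, h1, hLn]; ring
        rw [e1, hA _ _ le_rfl (by omega)]; push_cast; ring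
      · rw [hi, h1, hLP, hKP, hKE, hQ']
      · have e1 : i + 1 = q * L.n + L.n := by rw [hi, h1, hLn]; ring
        rw [e1, hLP, hLn0, h 0 le_rfl (by omega), hKP, hKE, hedge, sub_add_cancel, hKn]

/-- The change of the parameter under a subdivision of the last edge: an increasing homeomorphism `φ` of `ℝ`
with `φ (s + (n + 1)) = φ s + n`, `φ s = s` on `[0, n - 1]`, affine on `[n - 1, n]` and `[n, n + 1]`, and
`gam L s = gam K (φ s)`. -/
theorem exists_reparam (K L : PolyKnot) (hn : L.n = K.n + 1)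
    (h : ∀ i : ℤ, 0 ≤ i → i < K.n → L.P i = K.P i)
    (h' : L.P K.n ∈ openSegment ℝ (K.P (K.n - 1)) (K.P K.n)) :
    ∃ φ : ℝ ≃o ℝ, (∀ s, φ (s + L.n) = φ s + K.n) ∧ (∀ s, gam L s = gam K (φ s)) ∧
      (∀ i : ℤ, ∃ j : ℤ, φ j = i) ∧
      ∀ s, ∃ a : ℝ, 0 < a ∧ edge L.P ⌊s⌋ = a • edge K.P ⌊φ s⌋ := by
  obtain ⟨A, hper, hint, hdat⟩ := subdiv_data K L hn h h'
  have hK3 := K.three
  have hmono : StrictMono A := by
    apply strictMono_int_of_lt_succ
    intro i
    obtain ⟨j, p, p', h0, h1, h2, h3, h4, -, -⟩ := hdat i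
    rw [h3, h4]
    linarith
  have hlo : ∀ y : ℝ, ∃ i, A i ≤ y := fun y => by
    obtain ⟨j, hj⟩ := hint ⌊y⌋
    exact ⟨j, by rw [hj]; exact Int.floor_le y⟩
  have hhi : ∀ y : ℝ, ∃ i, y < A i := fun y => by
    obtain ⟨j, hj⟩ := hint (⌊y⌋ + 1)
    exact ⟨j, by rw [hj]; push_cast; exact Int.lt_floor_add_one y⟩
  obtain ⟨φ, hφ⟩ := interp_iso A hmono hlo hhi
  -- position of `φ s`
  have hpos : ∀ s, ∃ (j : ℤ) (p p' : ℝ), 0 ≤ p ∧ p < p' ∧ p' ≤ 1 ∧
      φ s = j + (p + Int.fract s * (p' - p)) ∧ edge L.P ⌊s⌋ = (p' - p) • edge K.P j ∧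
      L.P ⌊s⌋ = K.P j + p • edge K.P j := by
    intro s
    obtain ⟨j, p, p', h0, h1, h2, h3, h4, h5, h6⟩ := hdat ⌊s⌋
    refine ⟨j, p, p', h0, h1, h2, ?_, ?_, h5⟩
    · rw [hφ, h3, h4]; ring
    · rw [edge, h5, h6, sub_smul]; abel
  refine ⟨φ, ?_, ?_, ?_, ?_⟩
  · intro s
    have e1 : ⌊s + (L.n : ℝ)⌋ = ⌊s⌋ + L.n := by
      have := Int.floor_add_intCast s (L.n : ℤ)
      push_cast at this
      exact this
    have e2 : Int.fract (s + (L.n : ℝ)) = Int.fract s := by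
      rw [← Int.self_sub_floor, e1, ← Int.self_sub_floor]
      push_cast
      ring
    rw [hφ, hφ, e1, e2, show ⌊s⌋ + (L.n : ℤ) + 1 = (⌊s⌋ + 1) + L.n by ring, hper, hper]
    ring
  · intro s
    obtain ⟨j, p, p', h0, h1, h2, h3, h4, h5⟩ := hpos s
    have f0 := Int.fract_nonneg s
    have f1 := (Int.fract_lt_one s).le
    rw [h3, gam_edge K j _ (by nlinarith) (by nlinarith)]
    rw [gam, h4, h5, smul_smul, add_assoc, ← add_smul]
  · intro i
    obtain ⟨j, hj⟩ := hint i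
    refine ⟨j, ?_⟩
    rw [hφ, Int.floor_intCast, Int.fract_intCast, zero_mul, add_zero, hj]
  · intro s
    obtain ⟨j, p, p', h0, h1, h2, h3, h4, -⟩ := hpos s
    have f0 := Int.fract_nonneg s
    have f1 := Int.fract_lt_one s
    refine ⟨p' - p, by linarith, ?_⟩
    have e1 : ⌊φ s⌋ = j := by
      rw [h3, Int.floor_intCast_add, Int.floor_eq_zero_iff.2 ⟨by nlinarith, by nlinarith⟩,
        add_zero]
    rw [e1, h4]

/-- SBI-14b. A view of the subdivided polygon is a view of the polygon. [`view_iff`] -/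
theorem view_of_subdivide (K L : PolyKnot) (hn : L.n = K.n + 1)
    (h : ∀ i : ℤ, 0 ≤ i → i < K.n → L.P i = K.P i)
    (h' : L.P K.n ∈ openSegment ℝ (K.P (K.n - 1)) (K.P K.n)) (e : E3) (hV : View L e) : View K e := by
  obtain ⟨φ, -, hgam, hint, -⟩ := exists_reparam K L hn h h'
  rw [view_iff] at hV ⊢
  refine ⟨fun i s c hc => ?_, fun s s₁ s₂ c₁ c₂ hc1 hc2 e1 e2 => ?_⟩
  · obtain ⟨j, hj⟩ := hint i
    obtain ⟨s', rfl⟩ := φ.surjective s
    rw [← hj, ← hgam, ← hgam] at hc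
    exact hV.1 j s' c hc
  · obtain ⟨s', rfl⟩ := φ.surjective s
    obtain ⟨s₁', rfl⟩ := φ.surjective s₁
    obtain ⟨s₂', rfl⟩ := φ.surjective s₂
    rw [← hgam, ← hgam] at e1 e2
    exact hV.2 s' s₁' s₂' c₁ c₂ hc1 hc2 e1 e2

/-- transport of colourings under a change of the parameter -/
theorem fcol_transport (Q : AQ Y G) {K₁ K₂ : PolyKnot} {e : E3} (φ : ℝ ≃o ℝ)
    (hper : ∀ s, φ (s + K₁.n) = φ s + K₂.n) (hov : ∀ s s', Over K₁ e s s' ↔ Over K₂ e (φ s) (φ s'))
    (hsgn : ∀ s s', sgn K₁ e ⌊s⌋ ⌊s'⌋ = sgn K₂ e ⌊φ s⌋ ⌊φ s'⌋) {c : ℝ → Y} (hc : FCol Q K₂ e c) :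
    FCol Q K₁ e (c ∘ φ) := by
  have hcont : Continuous φ := φ.continuous
  have hno : ∀ s, (∀ s', ¬ Over K₁ e s s') → ∀ t, ¬ Over K₂ e (φ s) t := by
    intro s hs t ht
    obtain ⟨s', rfl⟩ := φ.surjective t
    exact hs s' ((hov s s').2 ht)
  refine ⟨fun s => ?_, fun s hs => ?_, fun s s' hss => ?_⟩
  · show c (φ (s + K₁.n)) = Q.tau (c (φ s))
    rw [hper]
    exact hc.per _
  · have h1 := hc.const (φ s) (hno s hs)
    exact (hcont.tendsto s).eventually h1
  · obtain ⟨a, ha1, ha2⟩ := hc.jump (φ s) (φ s') ((hov s s').1 hss)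
    refine ⟨a, ?_, ?_⟩
    · have ht : Tendsto φ (𝓝[<] s) (𝓝[<] φ s) :=
        tendsto_nhdsWithin_iff.2 ⟨(hcont.tendsto s).mono_left nhdsWithin_le_nhds, by
          filter_upwards [self_mem_nhdsWithin] with r hr
          exact φ.strictMono hr⟩
      exact ht.eventually ha1
    · have ht : Tendsto φ (𝓝[>] s) (𝓝[>] φ s) :=
        tendsto_nhdsWithin_iff.2 ⟨(hcont.tendsto s).mono_left nhdsWithin_le_nhds, by
          filter_upwards [self_mem_nhdsWithin] with r hr
          exact φ.strictMono hr⟩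
      rw [hsgn]
      exact ht.eventually ha2

theorem ffull_transport (F : Set (Set Y)) {K₁ K₂ : PolyKnot} {e : E3} (φ : ℝ ≃o ℝ)
    (hov : ∀ s s', Over K₁ e s s' ↔ Over K₂ e (φ s) (φ s')) {c : ℝ → Y} (hc : FFull F K₂ e c) :
    FFull F K₁ e (c ∘ φ) := by
  intro A hA
  obtain ⟨t, ht1, ht2⟩ := hc A hA
  obtain ⟨s, rfl⟩ := φ.surjective t
  exact ⟨s, fun s' hs' => ht1 _ ((hov s s').1 hs'), ht2⟩

theorem det3_smul (e u v : E3) (a b : ℝ) : det3 e (a • u) (b • v) = a * b * det3 e u v := by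
  simp only [det3, Pi.smul_apply, smul_eq_mul]
  ring

/-- SBI-14c. Subdivision. [The colouring of `L` is `c ∘ φ`, that of `K` is `c ∘ φ.symm`; `Over` corresponds
to `Over` under `φ`, and `sgn` is the same, since the edges are positive multiples of each other.] -/
theorem hasFull_subdivide (Q : AQ Y G) (F : Set (Set Y)) (K L : PolyKnot) (hn : L.n = K.n + 1)
    (h : ∀ i : ℤ, 0 ≤ i → i < K.n → L.P i = K.P i)
    (h' : L.P K.n ∈ openSegment ℝ (K.P (K.n - 1)) (K.P K.n)) (e : E3) (hV : View L e) :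
    HasFull Q F L e ↔ HasFull Q F K e := by
  obtain ⟨φ, hper, hgam, -, hedge⟩ := exists_reparam K L hn h h'
  have hov : ∀ s s', Over L e s s' ↔ Over K e (φ s) (φ s') := by
    intro s s'
    unfold Over
    rw [hgam, hgam]
  have hsgn : ∀ s s', sgn L e ⌊s⌋ ⌊s'⌋ = sgn K e ⌊φ s⌋ ⌊φ s'⌋ := by
    intro s s'
    obtain ⟨a, ha, h1⟩ := hedge s
    obtain ⟨b, hb, h2⟩ := hedge s'
    unfold sgn
    rw [h1, h2, det3_smul]
    have hab := mul_pos ha hb
    by_cases h3 : 0 < det3 e (edge K.P ⌊φ s⌋) (edge K.P ⌊φ s'⌋)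
    · rw [if_pos h3, if_pos (mul_pos hab h3)]
    · rw [if_neg h3, if_neg (fun h4 => h3 ((mul_pos_iff_of_pos_left hab).1 h4))]
  constructor
  · rintro ⟨-, c, hc, hf⟩
    refine ⟨view_of_subdivide K L hn h h' e hV, c ∘ φ.symm, ?_, ?_⟩
    · refine fcol_transport Q φ.symm (fun s => ?_) (fun s s' => ?_) (fun s s' => ?_) hc
      · apply φ.injective
        rw [OrderIso.apply_symm_apply, hper, OrderIso.apply_symm_apply]
      · rw [hov, OrderIso.apply_symm_apply, OrderIso.apply_symm_apply]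
      · rw [hsgn, OrderIso.apply_symm_apply, OrderIso.apply_symm_apply]
    · refine ffull_transport F φ.symm (fun s s' => ?_) hf
      rw [hov, OrderIso.apply_symm_apply, OrderIso.apply_symm_apply]
  · rintro ⟨-, c, hc, hf⟩
    exact ⟨hV, c ∘ φ, fcol_transport Q φ hper hov hsgn hc, ffull_transport F φ hov hf⟩

end Pool.Agent.helper43.SBI
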