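import Pool.Agent.helper43.SBI.Stab2

set_option autoImplicit false

/-!
# SBI-4e, f : stability of diagrams and colourings
-/

namespace Pool.Agent.helper43.SBI

open Pool.Agent.helper82.SB Filter Topology

variable {X : Type*} [TopologicalSpace X]

/-- strict order of two continuous functions is stable if the values are different -/
theorem lt_stable {f g : X → ℝ} {t₀ : X} (hf : ContinuousAt f t₀) (hg : ContinuousAt g t₀)
    (h : f t₀ ≠ g t₀) : ∀ᶠ t in 𝓝 t₀, (f t < g t ↔ f t₀ < g t₀) := by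
  rcases lt_or_gt_of_ne h with h1 | h1
  · filter_upwards [hf.eventually_lt hg h1] with t ht
    exact ⟨fun _ => h1, fun _ => ht⟩
  · filter_upwards [hg.eventually_lt hf h1] with t ht
    exact ⟨fun h2 => absurd h2 (not_lt.2 ht.le), fun h2 => absurd h2 (not_lt.2 h1.le)⟩

theorem under_shift_iff (K : PolyKnot) (e : E3) (i j k l : ℤ) :
    Under K e (i + k * K.n) (j + l * K.n) ↔ Under K e i j := by
  refine ⟨fun h => ?_, fun h => h.shift k l⟩
  have h1 := h.shift (-k) (-l)
  have e1 : i + k * (K.n : ℤ) + -k * (K.n : ℤ) = i := by ring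
  have e2 : j + l * (K.n : ℤ) + -l * (K.n : ℤ) = j := by ring
  rwa [e1, e2] at h1

theorem exists_red (m : ℕ) (hm : 0 < m) (i : ℤ) : ∃ i' : ℕ, i' ∈ Finset.range m ∧
    ∃ k : ℤ, i = i' + k * m := by
  have hm' : (0 : ℤ) < m := by exact_mod_cast hm
  have h0 : 0 ≤ i % m := Int.emod_nonneg i hm'.ne'
  have h1 : i % m < m := Int.emod_lt_of_pos i hm'
  have h2 : ((i % m).toNat : ℤ) = i % m := Int.toNat_of_nonneg h0
  refine ⟨(i % m).toNat, ?_, i / m, ?_⟩
  · rw [Finset.mem_range]
    have : ((i % m).toNat : ℤ) < m := by rw [h2]; exact h1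
    exact_mod_cast this
  · rw [h2]
    have := Int.emod_add_mul_ediv i m
    linarith [mul_comm (m : ℤ) (i / m)]

/-- the number of undercrossings before a position is determined by the undercrossings and by the
order of the positions -/
theorem cnt_congr {K L : PolyKnot} (hn : K.n = L.n) {e f : E3} {i : ℤ} {x y : ℝ}
    (h : ∀ l ∈ Finset.range L.n, (Under K e i l ∧ xpos K e i l < x) ↔
      (Under L f i l ∧ xpos L f i l < y)) : cnt K e i x = cnt L f i y := by
  classical
  unfold cnt
  rw [hn]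
  congr 1
  ext l
  simp only [Finset.mem_filter]
  constructor
  · rintro ⟨h1, h2⟩
    exact ⟨h1, (h l h1).1 h2⟩
  · rintro ⟨h1, h2⟩
    exact ⟨h1, (h l h1).2 h2⟩

/-- SBI-4e. The whole diagram is stable. [For `i, j ∈ [0, m)` there are finitely many conditions;
the positions `xpos i l`, `xpos i j` of different `l, j ∈ [0, m)` are different at `t₀` if
`Under i l`, and `Under i j` or `Under j i` holds (triple points: `View.triple_gam`), so their order is
stable. Extend to all `i, j` by the shift lemmas.] -/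
theorem stab_diagram (F : X → PolyKnot) (m : ℕ) (hn : ∀ t, (F t).n = m)
    (hc : ∀ i : ℤ, Continuous fun t => (F t).P i) (t₀ : X) (e : X → E3) (hce : Continuous e)
    (hV : View (F t₀) (e t₀)) :
    ∀ᶠ t in 𝓝 t₀, View (F t) (e t) ∧
      (∀ i j, Under (F t) (e t) i j ↔ Under (F t₀) (e t₀) i j) ∧
      (∀ i j, Under (F t₀) (e t₀) i j → sgn (F t) (e t) i j = sgn (F t₀) (e t₀) i j ∧
        cnt (F t) (e t) i (xpos (F t) (e t) i j) =
          cnt (F t₀) (e t₀) i (xpos (F t₀) (e t₀) i j) ∧
        cnt (F t) (e t) j (xpos (F t) (e t) j i) =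
          cnt (F t₀) (e t₀) j (xpos (F t₀) (e t₀) j i)) ∧
      ∀ i, cnt (F t) (e t) i 1 = cnt (F t₀) (e t₀) i 1 := by
  have hm : 0 < m := by
    rw [← hn t₀]
    have := (F t₀).three
    omega
  have h1 : ∀ᶠ t in 𝓝 t₀, ∀ i ∈ Finset.range m, ∀ j ∈ Finset.range m,
      (Under (F t) (e t) i j ↔ Under (F t₀) (e t₀) i j) ∧
      (Under (F t₀) (e t₀) i j → sgn (F t) (e t) i j = sgn (F t₀) (e t₀) i j) := by
    rw [Filter.eventually_all_finset]
    intro i _
    rw [Filter.eventually_all_finset]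
    intro j _
    exact stab_under F m hn hc t₀ e hce hV i j
  have hdiff : ∀ j ∈ Finset.range m, ∀ l ∈ Finset.range m, (m : ℤ) ∣ (j : ℤ) - l → j = l := by
    intro j hj l hl hd
    rw [Finset.mem_range] at hj hl
    have h2 : ((j : ℤ) - l) = 0 := by
      apply Int.eq_zero_of_abs_lt_dvd hd
      rw [abs_lt]
      constructor <;> omega
    omega
  have h2 : ∀ᶠ t in 𝓝 t₀, ∀ i ∈ Finset.range m, ∀ j ∈ Finset.range m, ∀ l ∈ Finset.range m,
      Under (F t₀) (e t₀) i j → Under (F t₀) (e t₀) i l →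
      (xpos (F t) (e t) i l < xpos (F t) (e t) i j ↔
        xpos (F t₀) (e t₀) i l < xpos (F t₀) (e t₀) i j) := by
    rw [Filter.eventually_all_finset]
    intro i _
    rw [Filter.eventually_all_finset]
    intro j hj
    rw [Filter.eventually_all_finset]
    intro l hl
    by_cases hu1 : Under (F t₀) (e t₀) i j
    · by_cases hu2 : Under (F t₀) (e t₀) i l
      · by_cases hjl : j = l
        · subst hjl
          exact Eventually.of_forall fun t _ _ => by simp
        · have hne : xpos (F t₀) (e t₀) i l ≠ xpos (F t₀) (e t₀) i j := by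
            intro he
            have := hV.triple i j l hu1 hu2 he.symm
            rw [hn t₀] at this
            exact hjl (hdiff j hj l hl this)
          filter_upwards [lt_stable (xpos_continuousAt F hc t₀ e hce i l hu2.1)
            (xpos_continuousAt F hc t₀ e hce i j hu1.1) hne] with t ht _ _
          exact ht
      · exact Eventually.of_forall fun t _ h => absurd h hu2
    · exact Eventually.of_forall fun t h => absurd h hu1
  have hdet : ∀ i j : ℤ, det3 (e t₀) (edge (F t₀).P i) (edge (F t₀).P j) ≠ 0 →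
      det3 (e t₀) (edge (F t₀).P j) (edge (F t₀).P i) ≠ 0 := by
    intro i j h h'
    apply h
    have : det3 (e t₀) (edge (F t₀).P i) (edge (F t₀).P j) =
        -det3 (e t₀) (edge (F t₀).P j) (edge (F t₀).P i) := by
      unfold det3
      ring
    rw [this, h', neg_zero]
  have h3 : ∀ᶠ t in 𝓝 t₀, ∀ i ∈ Finset.range m, ∀ j ∈ Finset.range m, ∀ l ∈ Finset.range m,
      Under (F t₀) (e t₀) i j → Under (F t₀) (e t₀) j l →
      (xpos (F t) (e t) j l < xpos (F t) (e t) j i ↔
        xpos (F t₀) (e t₀) j l < xpos (F t₀) (e t₀) j i) := by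
    rw [Filter.eventually_all_finset]
    intro i hi
    rw [Filter.eventually_all_finset]
    intro j hj
    rw [Filter.eventually_all_finset]
    intro l hl
    by_cases hu1 : Under (F t₀) (e t₀) i j
    · by_cases hu2 : Under (F t₀) (e t₀) j l
      · by_cases hil : i = l
        · subst hil
          exact Eventually.of_forall fun t _ _ => by simp
        · have hne : xpos (F t₀) (e t₀) j l ≠ xpos (F t₀) (e t₀) j i := by
            intro he
            have g1 := line_cross (F t₀) (e t₀) i j hu1.1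
            have g2 := line_cross (F t₀) (e t₀) j l hu2.1
            rw [he, g1] at g2
            obtain ⟨-, ⟨a1, a2⟩, ⟨a3, a4⟩, a5⟩ := hu1
            obtain ⟨-, -, ⟨b3, b4⟩, b5⟩ := hu2
            rw [← gam_edge (F t₀) j _ a3.le a4.le, ← gam_edge (F t₀) i _ a1.le a2.le] at g1
            rw [← gam_edge (F t₀) l _ b3.le b4.le, ← gam_edge (F t₀) i _ a1.le a2.le, add_assoc,
              ← add_smul] at g2
            exact hV.triple_gam _ _ _ _ _ a5 (by linarith) g1 g2
          filter_upwards [lt_stable (xpos_continuousAt F hc t₀ e hce j l hu2.1)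
            (xpos_continuousAt F hc t₀ e hce j i (hdet _ _ hu1.1)) hne] with t ht _ _
          exact ht
      · exact Eventually.of_forall fun t _ h => absurd h hu2
    · exact Eventually.of_forall fun t h => absurd h hu1
  filter_upwards [h1, h2, h3, stab_view F m hn hc t₀ e hce hV] with t k1 k2 k3 k4
  have hnt : (F t).n = (F t₀).n := by rw [hn t, hn t₀]
  have hmt : ((F t).n : ℤ) = m := by rw [hn t]
  have hmt₀ : ((F t₀).n : ℤ) = m := by rw [hn t₀]
  -- the undercrossings
  have u1 : ∀ i j : ℤ, (Under (F t) (e t) i j ↔ Under (F t₀) (e t₀) i j) := by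
    intro i j
    obtain ⟨i', hi', k, rfl⟩ := exists_red m hm i
    obtain ⟨j', hj', l, rfl⟩ := exists_red m hm j
    have s1 := under_shift_iff (F t) (e t) i' j' k l
    have s2 := under_shift_iff (F t₀) (e t₀) i' j' k l
    rw [hmt] at s1
    rw [hmt₀] at s2
    rw [s1, s2]
    exact (k1 i' hi' j' hj').1
  refine ⟨k4, u1, ?_, ?_⟩
  · intro i j hu
    obtain ⟨i', hi', k, rfl⟩ := exists_red m hm i
    obtain ⟨j', hj', l, rfl⟩ := exists_red m hm j
    have s2 := under_shift_iff (F t₀) (e t₀) i' j' k l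
    rw [hmt₀] at s2
    rw [s2] at hu
    have v1 := sgn_shift (F t) (e t) i' j' k l
    have v2 := sgn_shift (F t₀) (e t₀) i' j' k l
    have v3 := xpos_shift (F t) (e t) i' j' k l
    have v4 := xpos_shift (F t₀) (e t₀) i' j' k l
    have v5 := xpos_shift (F t) (e t) j' i' l k
    have v6 := xpos_shift (F t₀) (e t₀) j' i' l k
    have v7 := cnt_shift (F t) (e t) i' k
    have v8 := cnt_shift (F t₀) (e t₀) i' k
    have v9 := cnt_shift (F t) (e t) j' l
    have v10 := cnt_shift (F t₀) (e t₀) j' l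
    rw [hmt] at v1 v3 v5 v7 v9
    rw [hmt₀] at v2 v4 v6 v8 v10
    rw [v1, v2, v3, v4, v5, v6, v7, v8, v9, v10]
    refine ⟨(k1 i' hi' j' hj').2 hu, ?_, ?_⟩
    · apply cnt_congr hnt
      intro a ha
      rw [hn t₀] at ha
      rw [u1]
      constructor
      · rintro ⟨w1, w2⟩
        exact ⟨w1, (k2 i' hi' j' hj' a ha hu w1).1 w2⟩
      · rintro ⟨w1, w2⟩
        exact ⟨w1, (k2 i' hi' j' hj' a ha hu w1).2 w2⟩
    · apply cnt_congr hnt
      intro a ha
      rw [hn t₀] at ha
      rw [u1]
      constructor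
      · rintro ⟨w1, w2⟩
        exact ⟨w1, (k3 i' hi' j' hj' a ha hu w1).1 w2⟩
      · rintro ⟨w1, w2⟩
        exact ⟨w1, (k3 i' hi' j' hj' a ha hu w1).2 w2⟩
  · intro i
    apply cnt_congr hnt
    intro a _
    constructor
    · rintro ⟨w1, -⟩
      have := (u1 i a).1 w1
      exact ⟨this, this.2.1.2⟩
    · rintro ⟨w1, -⟩
      have := (u1 i a).2 w1
      exact ⟨this, this.2.1.2⟩

/-- SBI-4f. The colourings are the same. -/
theorem stab_coloring {Y G : Type*} [Group G] [MulAction G Y] (Q : AQ Y G) (F : X → PolyKnot) (m : ℕ)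
    (hn : ∀ t, (F t).n = m) (hc : ∀ i : ℤ, Continuous fun t => (F t).P i) (t₀ : X) (e : E3)
    (hV : View (F t₀) e) :
    ∀ᶠ t in 𝓝 t₀, View (F t) e ∧ ∀ T, (IsColoring Q (F t) e T ↔ IsColoring Q (F t₀) e T) ∧
      ∀ 𝓕 : Set (Set Y), Full 𝓕 (F t) e T ↔ Full 𝓕 (F t₀) e T := by
  filter_upwards [stab_diagram F m hn hc t₀ (fun _ => e) continuous_const hV] with t ht
  obtain ⟨h1, h2, h3, h4⟩ := ht
  have hnt : ((F t).n : ℤ) = ((F t₀).n : ℤ) := by rw [hn t, hn t₀]
  refine ⟨h1, fun T => ⟨⟨fun h => ⟨?_, ?_, ?_⟩, fun h => ⟨?_, ?_, ?_⟩⟩, fun 𝓕 => ?_⟩⟩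
  · intro i k
    rw [← hnt]
    exact h.per i k
  · intro i
    rw [← h4 i]
    exact h.vertex i
  · intro i j hu
    obtain ⟨g1, g2, g3⟩ := h3 i j hu
    rw [← g1, ← g2, ← g3]
    exact h.cross i j ((h2 i j).2 hu)
  · intro i k
    rw [hnt]
    exact h.per i k
  · intro i
    rw [h4 i]
    exact h.vertex i
  · intro i j hu
    have hu' := (h2 i j).1 hu
    obtain ⟨g1, g2, g3⟩ := h3 i j hu'
    rw [g1, g2, g3]
    exact h.cross i j hu'
  · unfold Full
    simp only [h4]

/-- SBI-4g. The property of being a view is open. -/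
theorem view_open (K : PolyKnot) (e : E3) (hV : View K e) :
    ∃ s : ℝ, 0 < s ∧ ∀ f : E3, ‖f - e‖ < s → View K f := by
  have h := stab_view (X := E3) (fun _ => K) K.n (fun _ => rfl) (fun _ => continuous_const) e
    (fun f => f) continuous_id hV
  obtain ⟨s, hs, h'⟩ := Metric.eventually_nhds_iff.mp h
  exact ⟨s, hs, fun f hf => h' (by rwa [dist_eq_norm])⟩

end Pool.Agent.helper43.SBI
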