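import Pool.Agent.helper43.SBI.ViewChange
import Pool.Agent.helper43.SBI.Moves1
import Pool.Agent.helper43.SBI.Moves2
import Pool.Agent.helper43.SBI.Stab3

set_option autoImplicit false

/-!
# Invariance of the existence of full colourings
-/

namespace Pool.Agent.helper43.SBI

open Pool.Agent.helper82.SB Filter Topology

variable {Y G : Type*} [Group G] [MulAction G Y]

/-- There is a view with a full colouring. -/
def Colorable (Q : AQ Y G) (F : Set (Set Y)) (K : PolyKnot) : Prop := ∃ e, HasFull Q F K e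

theorem colorable_iff {Q : AQ Y G} {F : Set (Set Y)} (hF : ClosedFam Q F) {K : PolyKnot} {e : E3}
    (hV : View K e) : Colorable Q F K ↔ HasFull Q F K e :=
  ⟨fun ⟨_, h⟩ => h.all_views hF hV, fun h => ⟨e, h⟩⟩

theorem colorable_isotopy {Q : AQ Y G} {F : Set (Set Y)} (hF : ClosedFam Q F)
    (K : unitInterval → PolyKnot) (m : ℕ) (hn : ∀ t, (K t).n = m)
    (hc : ∀ i : ℤ, Continuous fun t => (K t).P i) :
    Colorable Q F (K 0) ↔ Colorable Q F (K 1) := by
  have hloc : ∀ t₀, ∀ᶠ t in 𝓝 t₀, (Colorable Q F (K t) ↔ Colorable Q F (K t₀)) := by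
    intro t₀
    obtain ⟨e, he⟩ := exists_view (K t₀)
    filter_upwards [stab_coloring Q K m hn hc t₀ e he] with t ht
    rw [colorable_iff hF ht.1, colorable_iff hF he, hasFull_iff ht.1, hasFull_iff he]
    constructor
    · rintro ⟨T, h1, h2⟩
      exact ⟨T, (ht.2 T).1.mp h1, ((ht.2 T).2 F).mp h2⟩
    · rintro ⟨T, h1, h2⟩
      exact ⟨T, (ht.2 T).1.mpr h1, ((ht.2 T).2 F).mpr h2⟩
  have hlc : IsLocallyConstant fun t => Colorable Q F (K t) := by
    rw [IsLocallyConstant.iff_eventually_eq]
    intro t₀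
    filter_upwards [hloc t₀] with t ht
    exact propext ht
  have := hlc.apply_eq_of_preconnectedSpace 0 1
  exact iff_of_eq this

theorem colorable_move {Q : AQ Y G} {F : Set (Set Y)} (hF : ClosedFam Q F) {K L : PolyKnot}
    (h : Move K L) : Colorable Q F K ↔ Colorable Q F L := by
  cases h with
  | rotate _ _ hn h =>
    exact ⟨fun ⟨e, he⟩ => ⟨e, (hasFull_rotate Q F _ _ hn h e).mpr he⟩,
      fun ⟨e, he⟩ => ⟨e, (hasFull_rotate Q F _ _ hn h e).mp he⟩⟩
  | subdivide _ _ hn h h' =>
    obtain ⟨e, he⟩ := exists_view L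
    have he' := view_of_subdivide _ _ hn h h' e he
    rw [colorable_iff hF he, colorable_iff hF he', hasFull_subdivide Q F _ _ hn h h' e he]
  | isotopy K' m hn hc => exact colorable_isotopy hF K' m hn hc

theorem colorable_equivalent {Q : AQ Y G} {F : Set (Set Y)} (hF : ClosedFam Q F) {K L : PolyKnot}
    (h : Equivalent K L) : Colorable Q F K ↔ Colorable Q F L := by
  induction h with
  | rel _ _ h => exact colorable_move hF h
  | refl _ => rfl
  | symm _ _ _ ih => exact ih.symm
  | trans _ _ _ _ _ ih1 ih2 => exact ih1.trans ih2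

/-- The main theorem of this block. -/
theorem inv {Q : AQ Y G} {F : Set (Set Y)} (hF : ClosedFam Q F) {K L : PolyKnot}
    (h : Equivalent K L) (hK : ∃ e, View K e ∧ ∃ T, IsColoring Q K e T ∧ Full F K e T) (e : E3)
    (he : View L e) : ∃ T, IsColoring Q L e T ∧ Full F L e T := by
  obtain ⟨e₀, h0, T, h1, h2⟩ := hK
  have h3 : Colorable Q F K := ⟨e₀, (hasFull_iff h0).mpr ⟨T, h1, h2⟩⟩
  exact (hasFull_iff he).mp ((colorable_iff hF he).mp ((colorable_equivalent hF h).mp h3))

theorem invStatement : InvStatement := by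
  intro Y G _ _ Q F hF K L hKL hK e he
  exact inv hF hKL hK e he

end Pool.Agent.helper43.SBI
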