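import Pool.Agent.helper43.SBI.Trans

set_option autoImplicit false

/-!
# SBI-10 : the products over a fixed quadrant just below and just above a height agree
-/

namespace Pool.Agent.helper43.SBI

open Pool.Agent.helper82.SB Filter Topology

namespace Sweep

variable {S : Sweep} {Y G : Type*} [Group G] [MulAction G Y]

theorem pres_add (S : Sweep) (σ : Bool) (j m : ℤ) (t : ℝ) :
    S.Pres σ (j + m * S.n) t ↔ S.Pres σ j t := by
  unfold Pres
  rw [S.lo_add, S.hi_add]

theorem cl_add (S : Sweep) (j m : ℤ) (t : ℝ) : S.Cl (j + m * S.n) t ↔ S.Cl j t := by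
  unfold Cl
  rw [S.lo_add, S.hi_add]

theorem exists_add_of_dvd {S : Sweep} {j k : ℤ} (h : (S.n : ℤ) ∣ j - k) :
    ∃ m : ℤ, j = k + m * S.n := by
  obtain ⟨m, hm⟩ := h
  exact ⟨m, by linarith [hm, mul_comm (S.n : ℤ) m]⟩

theorem valL_succ {Q : AQ Y G} {t : ℝ} {D : Bool → ℤ → Y} (hD : S.Loc Q t D) {σ : Bool} {k : ℤ}
    (hk : S.Pres σ k t) : S.valL Q D σ (k + S.n) = S.valL Q D σ k := by
  unfold valL
  have he : S.eps (k + S.n) = S.eps k := by
    have := S.eps_add k 1
    rwa [one_mul] at this
  rw [he, hD.per σ k hk, Q.del_tau]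

theorem valL_add {Q : AQ Y G} {t : ℝ} {D : Bool → ℤ → Y} (hD : S.Loc Q t D) {σ : Bool} {k : ℤ}
    (hk : S.Pres σ k t) (m : ℤ) : S.valL Q D σ (k + m * S.n) = S.valL Q D σ k := by
  induction m using Int.induction_on with
  | zero => simp
  | succ i ih =>
    rw [← ih, ← valL_succ hD ((S.pres_add σ k i t).2 hk)]
    congr 1
    ring
  | pred i ih =>
    rw [← ih]
    have hp : S.Pres σ (k + (-(i : ℤ) - 1) * S.n) t := (S.pres_add σ k _ t).2 hk
    rw [← valL_succ hD hp]
    congr 1
    ring

/-- The group elements are periodic. -/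
theorem Loc.valL_eq {Q : AQ Y G} {t : ℝ} {D : Bool → ℤ → Y} (hD : S.Loc Q t D) {σ : Bool} {j k : ℤ}
    (hj : S.Pres σ j t) (h : (S.n : ℤ) ∣ j - k) : S.valL Q D σ j = S.valL Q D σ k := by
  obtain ⟨m, rfl⟩ := exists_add_of_dvd h
  exact valL_add hD ((S.pres_add σ k m t).1 hj) m

theorem eps_vertex {σ : Bool} {j : ℤ} (hj : S.Pres σ j (S.h (j + 1))) :
    S.eps j = if σ then -1 else 1 := by
  have hne := S.hne j
  unfold Pres lo hi at hj
  unfold eps
  cases σ with
  | true =>
    simp only [if_true] at hj ⊢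
    have h2 : ¬ S.h j < S.h (j + 1) := by
      intro h3
      rw [max_eq_right h3.le] at hj
      exact lt_irrefl _ hj.2
    rw [if_neg h2]
  | false =>
    simp only [Bool.false_eq_true, if_false] at hj ⊢
    have h2 : S.h j < S.h (j + 1) := by
      by_contra h3
      push Not at h3
      rw [min_eq_right h3] at hj
      exact lt_irrefl _ hj.1
    rw [if_pos h2]

theorem eps_vertex' {σ : Bool} {j : ℤ} (hj : S.Pres σ j (S.h j)) :
    S.eps j = if σ then 1 else -1 := by
  have hne := S.hne j
  unfold Pres lo hi at hj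
  unfold eps
  cases σ with
  | true =>
    simp only [if_true] at hj ⊢
    have h2 : S.h j < S.h (j + 1) := by
      by_contra h3
      push Not at h3
      rw [max_eq_left h3] at hj
      exact lt_irrefl _ hj.2
    rw [if_pos h2]
  | false =>
    simp only [Bool.false_eq_true, if_false] at hj ⊢
    have h2 : ¬ S.h j < S.h (j + 1) := by
      intro h3
      rw [min_eq_left h3.le] at hj
      exact lt_irrefl _ hj.1
    rw [if_neg h2]

/-- The relation at a vertex in terms of group elements: if both strands are on the same side then their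
elements are inverse to each other. -/
theorem Loc.valL_vertex {Q : AQ Y G} {t : ℝ} {D : Bool → ℤ → Y} (hD : S.Loc Q t D) {σ : Bool} {j k : ℤ}
    (hj : S.Pres σ j t) (hk : S.Pres σ k t) (h : (S.n : ℤ) ∣ j + 1 - k) (ht : t = S.h k) :
    S.valL Q D σ j * S.valL Q D σ k = 1 ∧ S.valL Q D σ k * S.valL Q D σ j = 1 := by
  obtain ⟨m, hm⟩ := exists_add_of_dvd h
  have ht' : t = S.h (j + 1) := by rw [hm, S.h_add]; exact ht
  have hp : S.Pres σ (j + 1) t := by rw [hm]; exact (S.pres_add σ k m t).2 hk
  have h1 : S.valL Q D σ k = S.valL Q D σ (j + 1) := (hD.valL_eq hp h).symm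
  have h2 : D σ j = D σ (j + 1) := hD.vertex j σ σ ht'.symm hj hp
  have h3 : S.eps j = if σ then -1 else 1 := eps_vertex (ht' ▸ hj)
  have h4 : S.eps (j + 1) = if σ then 1 else -1 := eps_vertex' (ht' ▸ hp)
  rw [h1]
  unfold valL
  rw [h2, h3, h4]
  cases σ <;> simp

/-- If they are on different sides then their elements are equal. -/
theorem Loc.valL_vertex' {Q : AQ Y G} {t : ℝ} {D : Bool → ℤ → Y} (hD : S.Loc Q t D) {σ : Bool}
    {j k : ℤ} (hj : S.Pres σ j t) (hk : S.Pres (!σ) k t) (h : (S.n : ℤ) ∣ j + 1 - k) (ht : t = S.h k) :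
    S.valL Q D σ j = S.valL Q D (!σ) k := by
  obtain ⟨m, hm⟩ := exists_add_of_dvd h
  have ht' : t = S.h (j + 1) := by rw [hm, S.h_add]; exact ht
  have hp : S.Pres (!σ) (j + 1) t := by rw [hm]; exact (S.pres_add (!σ) k m t).2 hk
  have h1 : S.valL Q D (!σ) k = S.valL Q D (!σ) (j + 1) := (hD.valL_eq hp h).symm
  have h2 : D σ j = D (!σ) (j + 1) := hD.vertex j σ (!σ) ht'.symm hj hp
  have h3 : S.eps j = if σ then -1 else 1 := eps_vertex (ht' ▸ hj)
  have h4 : S.eps (j + 1) = if !σ then 1 else -1 := eps_vertex' (ht' ▸ hp)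
  rw [h1]
  unfold valL
  rw [h2, h3, h4]
  cases σ <;> simp

theorem dvd_Ico {n : ℕ} {j k : ℤ} (hj : j ∈ Finset.Ico (0 : ℤ) n) (hk : k ∈ Finset.Ico (0 : ℤ) n)
    (h : (n : ℤ) ∣ j - k) : j = k := by
  rw [Finset.mem_Ico] at hj hk
  obtain ⟨m, hm⟩ := h
  have h1 : m < 1 := by
    by_contra h2
    push Not at h2
    have : (n : ℤ) * 1 ≤ n * m := mul_le_mul_of_nonneg_left h2 (by positivity)
    omega
  have h2 : -1 < m := by
    by_contra h3
    push Not at h3
    have : (n : ℤ) * m ≤ n * (-1) := mul_le_mul_of_nonneg_left h3 (by positivity)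
    omega
  have h3 : m = 0 := by omega
  rw [h3, mul_zero] at hm
  omega

/-- The representative modulo `n`. -/
theorem exists_rep (S : Sweep) (k : ℤ) :
    ∃ l : ℤ, l ∈ Finset.Ico (0 : ℤ) S.n ∧ (S.n : ℤ) ∣ k - l ∧ ∃ m : ℤ, k = l + m * S.n := by
  have hn : (0 : ℤ) < S.n := by have := S.three; omega
  refine ⟨k % S.n, Finset.mem_Ico.2 ⟨Int.emod_nonneg _ hn.ne', Int.emod_lt_of_pos _ hn⟩, ?_,
    k / S.n, ?_⟩
  · exact Int.dvd_self_sub_emod
  · have := Int.emod_add_mul_ediv k S.n
    linarith [this, mul_comm (S.n : ℤ) (k / S.n)]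

theorem pres_of_vertex {j : ℤ} {t : ℝ} (h : t = S.h j ∨ t = S.h (j + 1)) :
    ∃ σ, S.Pres σ j t ∧ ¬ S.Pres (!σ) j t := by
  have hne := S.hne j
  rcases lt_or_gt_of_ne hne with h1 | h1
  · rcases h with h | h
    · refine ⟨true, ?_, ?_⟩
      · simp only [Pres, if_true, lo, hi, min_eq_left h1.le, max_eq_right h1.le, h]
        exact ⟨le_refl _, h1⟩
      · simp only [Pres, Bool.not_true, Bool.false_eq_true, if_false, lo, hi, min_eq_left h1.le,
          max_eq_right h1.le, h]
        exact fun h2 => lt_irrefl _ h2.1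
    · refine ⟨false, ?_, ?_⟩
      · simp only [Pres, Bool.false_eq_true, if_false, lo, hi, min_eq_left h1.le,
          max_eq_right h1.le, h]
        exact ⟨h1, le_refl _⟩
      · simp only [Pres, Bool.not_false, if_true, lo, hi, min_eq_left h1.le, max_eq_right h1.le, h]
        exact fun h2 => lt_irrefl _ h2.2
  · rcases h with h | h
    · refine ⟨false, ?_, ?_⟩
      · simp only [Pres, Bool.false_eq_true, if_false, lo, hi, min_eq_right h1.le,
          max_eq_left h1.le, h]
        exact ⟨h1, le_refl _⟩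
      · simp only [Pres, Bool.not_false, if_true, lo, hi, min_eq_right h1.le, max_eq_left h1.le, h]
        exact fun h2 => lt_irrefl _ h2.2
    · refine ⟨true, ?_, ?_⟩
      · simp only [Pres, if_true, lo, hi, min_eq_right h1.le, max_eq_left h1.le, h]
        exact ⟨le_refl _, h1⟩
      · simp only [Pres, Bool.not_true, Bool.false_eq_true, if_false, lo, hi, min_eq_right h1.le,
          max_eq_left h1.le, h]
        exact fun h2 => lt_irrefl _ h2.1

theorem vertex_of_not_ins {j : ℤ} {t : ℝ} (h : S.Cl j t) (h' : ¬ S.Ins j t) :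
    t = S.h j ∨ t = S.h (j + 1) := by
  unfold Cl Ins lo hi at *
  rcases le_total (S.h j) (S.h (j + 1)) with h1 | h1
  · rw [min_eq_left h1, max_eq_right h1] at h h'
    by_contra h2
    push Not at h2
    exact h' ⟨lt_of_le_of_ne h.1 (Ne.symm h2.1), lt_of_le_of_ne h.2 h2.2⟩
  · rw [min_eq_right h1, max_eq_left h1] at h h'
    by_contra h2
    push Not at h2
    exact h' ⟨lt_of_le_of_ne h.1 (Ne.symm h2.2), lt_of_le_of_ne h.2 h2.1⟩

theorem cl_vertex (S : Sweep) (j : ℤ) : S.Cl j (S.h j) := ⟨min_le_left _ _, le_max_left _ _⟩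

theorem cl_vertex' (S : Sweep) (j : ℤ) : S.Cl j (S.h (j + 1)) :=
  ⟨min_le_right _ _, le_max_right _ _⟩

open Classical in
/-- The cluster of the strands at the height `t` with coordinate `s`. -/
noncomputable def clus (S : Sweep) (t s : ℝ) : Finset ℤ :=
  (Finset.Ico (0 : ℤ) S.n).filter fun j => S.Cl j t ∧ S.pb j t = s

theorem mem_clus {t s : ℝ} {j : ℤ} :
    j ∈ S.clus t s ↔ j ∈ Finset.Ico (0 : ℤ) S.n ∧ S.Cl j t ∧ S.pb j t = s := by
  classical
  unfold clus
  rw [Finset.mem_filter]

theorem OP_pair_int {κ M : Type*} [LinearOrder κ] [Monoid M] (i j : ℤ) (key : ℤ → κ) (val : ℤ → M)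
    (h : key i < key j) : OP ({i, j} : Finset ℤ) key val = val i * val j := by
  rw [← OP_pair i j key val h]
  congr
  exact Subsingleton.elim _ _

open Classical in
theorem filter_clus (S : Sweep) (σ : Bool) (t a b s : ℝ) (hs : b < s) :
    (((Finset.Ico (0 : ℤ) S.n).filter fun j => S.Pres σ j t ∧ b < S.pb j t ∧ a < S.pa j t).filter
      fun j => S.pb j t = s) = (S.clus t s).filter fun j => S.Pres σ j t ∧ a < S.pa j t := by
  ext j
  simp only [Finset.mem_filter, mem_clus]
  constructor
  · rintro ⟨⟨h1, h2, h3, h4⟩, h5⟩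
    exact ⟨⟨h1, h2.cl, h5⟩, h2, h4⟩
  · rintro ⟨⟨h1, h2, h3⟩, h4, h5⟩
    exact ⟨⟨h1, h4, by rw [h3]; exact hs, h5⟩, h3⟩

theorem kB_lt_of_pb {σ : Bool} {t : ℝ} {i j : ℤ} (h : S.pb i t < S.pb j t) :
    S.kB σ t i < S.kB σ t j := by
  unfold kB
  rw [Prod.Lex.toLex_lt_toLex]
  exact Or.inl h

theorem kB_lt_of_sb {σ : Bool} {t : ℝ} {i j : ℤ} (h : S.pb i t = S.pb j t)
    (h' : sg σ * S.sb i < sg σ * S.sb j) : S.kB σ t i < S.kB σ t j := by
  unfold kB
  rw [Prod.Lex.toLex_lt_toLex]
  exact Or.inr ⟨h, h'⟩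

open Classical in
/-- The two sides of an interior crossing. -/
theorem crossing_eq (hS : S.Good) (Q : AQ Y G) (t : ℝ) (D : Bool → ℤ → Y) (hD : S.Loc Q t D)
    (a s : ℝ) {j k : ℤ} (hj : j ∈ S.clus t s) (hk : k ∈ S.clus t s)
    (hlt : S.pa j t < S.pa k t) :
    OP ((S.clus t s).filter fun j => S.Pres false j t ∧ a < S.pa j t) (S.kB false t)
        (S.valL Q D false) =
      OP ((S.clus t s).filter fun j => S.Pres true j t ∧ a < S.pa j t) (S.kB true t)
        (S.valL Q D true) := by
  have hj' := mem_clus.1 hj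
  have hk' := mem_clus.1 hk
  have hpb : S.pb j t = S.pb k t := by rw [hj'.2.2, hk'.2.2]
  obtain ⟨ij, ik⟩ := hS.ins_of_pb_eq hj'.2.1 hk'.2.1 hpb hlt.ne
  have hK : ∀ l ∈ S.clus t s, l = j ∨ l = k := by
    intro l hl
    have hl' := mem_clus.1 hl
    rcases hS.tripleB j k l t hj'.2.1 hk'.2.1 hl'.2.1 hpb (by rw [hj'.2.2, hl'.2.2]) with h | h | h
    · exact absurd h hlt.ne
    · left
      exact (dvd_Ico hj'.1 hl'.1 (hS.simple_ins ij hl'.2.1 h (by rw [hj'.2.2, hl'.2.2]))).symm
    · right
      exact (dvd_Ico hk'.1 hl'.1 (hS.simple_ins ik hl'.2.1 h (by rw [hk'.2.2, hl'.2.2]))).symm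
  have hjk : j ≠ k := by
    rintro rfl
    exact lt_irrefl _ hlt
  obtain ⟨hD1, hD2⟩ := hD.jump j k ij ik hpb hlt
  have hvk : S.valL Q D true k = S.valL Q D false k := by
    unfold valL
    rw [hD1]
  have hvj : S.valL Q D true j =
      (S.valL Q D false k ^ (if S.sb j < S.sb k then (1 : ℤ) else -1)) * S.valL Q D false j *
        (S.valL Q D false k ^ (if S.sb j < S.sb k then (1 : ℤ) else -1))⁻¹ := by
    unfold valL
    rw [hD2, Q.del_smul, conj_zpow, zpow_mul]
  have hsb := hS.sb_ne ij ik hpb hlt.ne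
  by_cases h1 : a < S.pa j t
  · have hfil : ∀ σ : Bool, ((S.clus t s).filter fun j => S.Pres σ j t ∧ a < S.pa j t) = {j, k} := by
      intro σ
      ext l
      rw [Finset.mem_filter, Finset.mem_insert, Finset.mem_singleton]
      constructor
      · rintro ⟨h2, -⟩
        exact hK l h2
      · rintro (rfl | rfl)
        · exact ⟨hj, ij.pres, h1⟩
        · exact ⟨hk, ik.pres, h1.trans hlt⟩
    rw [hfil, hfil]
    rcases lt_or_gt_of_ne hsb with h2 | h2
    · rw [if_pos h2, zpow_one] at hvj
      rw [Finset.pair_comm j k, OP_pair_int k j (S.kB false t) (S.valL Q D false)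
        (kB_lt_of_sb hpb.symm (by simp only [sg, Bool.false_eq_true, if_false]; linarith)),
        Finset.pair_comm k j, OP_pair_int j k (S.kB true t) (S.valL Q D true)
        (kB_lt_of_sb hpb (by simp only [sg, if_true]; linarith)), hvj, hvk]
      group
    · rw [if_neg (not_lt.2 h2.le), zpow_neg, zpow_one] at hvj
      rw [OP_pair_int j k (S.kB false t) (S.valL Q D false)
        (kB_lt_of_sb hpb (by simp only [sg, Bool.false_eq_true, if_false]; linarith)),
        Finset.pair_comm j k, OP_pair_int k j (S.kB true t) (S.valL Q D true)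
        (kB_lt_of_sb hpb.symm (by simp only [sg, if_true]; linarith)), hvj, hvk]
      group
  · by_cases h2 : a < S.pa k t
    · have hfil : ∀ σ : Bool, ((S.clus t s).filter fun j => S.Pres σ j t ∧ a < S.pa j t) = {k} := by
        intro σ
        ext l
        rw [Finset.mem_filter, Finset.mem_singleton]
        constructor
        · rintro ⟨h3, h4, h5⟩
          rcases hK l h3 with rfl | rfl
          · exact absurd h5 h1
          · rfl
        · rintro rfl
          exact ⟨hk, ik.pres, h2⟩
      rw [hfil, hfil, OP_singleton, OP_singleton, hvk]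
    · have hfil : ∀ σ : Bool, ((S.clus t s).filter fun j => S.Pres σ j t ∧ a < S.pa j t) = ∅ := by
        intro σ
        rw [Finset.filter_eq_empty_iff]
        rintro l h3 ⟨h4, h5⟩
        rcases hK l h3 with rfl | rfl
        · exact h1 h5
        · exact h2 h5
      rw [hfil, hfil, OP_empty, OP_empty]

open Classical in
/-- The two sides at a vertex `t = h (j + 1)`. -/
theorem vertex_eq (hS : S.Good) (Q : AQ Y G) (t : ℝ) (D : Bool → ℤ → Y) (hD : S.Loc Q t D)
    (s : ℝ) {j k : ℤ} (hj : j ∈ S.clus t s) (hk : k ∈ S.clus t s)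
    (hjk : (S.n : ℤ) ∣ j + 1 - k) (htk : t = S.h k)
    (hall : ∀ l ∈ S.clus t s, S.pa l t = S.pa j t) :
    OP ((S.clus t s).filter fun j => S.Pres false j t) (S.kB false t)
        (S.valL Q D false) =
      OP ((S.clus t s).filter fun j => S.Pres true j t) (S.kB true t)
        (S.valL Q D true) := by
  have hj' := mem_clus.1 hj
  have hk' := mem_clus.1 hk
  have hpb : S.pb j t = S.pb k t := by rw [hj'.2.2, hk'.2.2]
  have htj : t = S.h (j + 1) := by
    obtain ⟨m, hm⟩ := exists_add_of_dvd hjk
    rw [hm, S.h_add]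
    exact htk
  have hK : ∀ l ∈ S.clus t s, l = j ∨ l = k := by
    intro l hl
    have hl' := mem_clus.1 hl
    rcases hS.simple j l t hj'.2.1 hl'.2.1 (hall l hl).symm (by rw [hj'.2.2, hl'.2.2])
      with h | h | h
    · exact Or.inl (dvd_Ico hj'.1 hl'.1 h).symm
    · right
      refine dvd_Ico hl'.1 hk'.1 ?_
      have := dvd_sub hjk h.1
      have e : j + 1 - k - (j + 1 - l) = l - k := by ring
      rwa [e] at this
    · exact absurd (h.2.symm.trans htj) (S.hne j)
  have hn3 := S.three
  have hjk' : j ≠ k := by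
    rintro rfl
    have h1 : j + 1 - j = 1 := by ring
    rw [h1] at hjk
    have := Int.le_of_dvd one_pos hjk
    omega
  have hndvd : ¬ (S.n : ℤ) ∣ j - k := fun h => hjk' (dvd_Ico hj'.1 hk'.1 h)
  obtain ⟨σ, hσ, hσ'⟩ := pres_of_vertex (S := S) (j := j) (t := t) (Or.inr htj)
  obtain ⟨τ, hτ, hτ'⟩ := pres_of_vertex (S := S) (j := k) (t := t) (Or.inl htk)
  have main : OP ((S.clus t s).filter fun j => S.Pres σ j t) (S.kB σ t) (S.valL Q D σ) =
      OP ((S.clus t s).filter fun j => S.Pres (!σ) j t) (S.kB (!σ) t) (S.valL Q D (!σ)) := by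
    by_cases hst : σ = τ
    · subst hst
      have hf1 : ((S.clus t s).filter fun j => S.Pres σ j t) = {j, k} := by
        ext l
        rw [Finset.mem_filter, Finset.mem_insert, Finset.mem_singleton]
        constructor
        · rintro ⟨h2, -⟩
          exact hK l h2
        · rintro (rfl | rfl)
          · exact ⟨hj, hσ⟩
          · exact ⟨hk, hτ⟩
      have hf2 : ((S.clus t s).filter fun j => S.Pres (!σ) j t) = ∅ := by
        rw [Finset.filter_eq_empty_iff]
        intro l h3 h4
        rcases hK l h3 with rfl | rfl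
        · exact hσ' h4
        · exact hτ' h4
      rw [hf1, hf2, OP_empty]
      obtain ⟨v1, v2⟩ := hD.valL_vertex hσ hτ hjk htk
      rcases lt_trichotomy (S.kB σ t j) (S.kB σ t k) with h | h | h
      · rw [OP_pair_int _ _ _ _ h, v1]
      · exact absurd (hS.kB_inj hσ hτ h) hndvd
      · rw [Finset.pair_comm, OP_pair_int _ _ _ _ h, v2]
    · have hτσ : τ = !σ := by
        cases σ <;> cases τ <;> simp_all
      rw [hτσ] at hτ hτ'
      rw [Bool.not_not] at hτ'
      have hf1 : ((S.clus t s).filter fun j => S.Pres σ j t) = {j} := by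
        ext l
        rw [Finset.mem_filter, Finset.mem_singleton]
        constructor
        · rintro ⟨h2, h3⟩
          rcases hK l h2 with rfl | rfl
          · rfl
          · exact absurd h3 hτ'
        · rintro rfl
          exact ⟨hj, hσ⟩
      have hf2 : ((S.clus t s).filter fun j => S.Pres (!σ) j t) = {k} := by
        ext l
        rw [Finset.mem_filter, Finset.mem_singleton]
        constructor
        · rintro ⟨h2, h3⟩
          rcases hK l h2 with rfl | rfl
          · exact absurd h3 hσ'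
          · rfl
        · rintro rfl
          exact ⟨hk, hτ⟩
      rw [hf1, hf2, OP_singleton, OP_singleton]
      exact hD.valL_vertex' hσ hτ hjk htk
  cases σ with
  | true => exact main.symm
  | false => exact main

open Classical in
/-- The two sides of a cluster whose points all have the same coordinates. -/
theorem same_eq (hS : S.Good) (Q : AQ Y G) (t : ℝ) (D : Bool → ℤ → Y) (hD : S.Loc Q t D)
    (s : ℝ) (hall : ∀ l ∈ S.clus t s, ∀ l' ∈ S.clus t s, S.pa l t = S.pa l' t) :
    OP ((S.clus t s).filter fun j => S.Pres false j t) (S.kB false t)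
        (S.valL Q D false) =
      OP ((S.clus t s).filter fun j => S.Pres true j t) (S.kB true t)
        (S.valL Q D true) := by
  rcases (S.clus t s).eq_empty_or_nonempty with h0 | ⟨j, hj⟩
  · simp [h0, OP_empty]
  have hj' := mem_clus.1 hj
  by_cases hins : S.Ins j t
  · have hK : ∀ l ∈ S.clus t s, l = j := by
      intro l hl
      have hl' := mem_clus.1 hl
      exact (dvd_Ico hj'.1 hl'.1 (hS.simple_ins hins hl'.2.1 (hall j hj l hl)
        (by rw [hj'.2.2, hl'.2.2]))).symm
    have hfil : ∀ σ : Bool, ((S.clus t s).filter fun j => S.Pres σ j t) = {j} := by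
      intro σ
      ext l
      rw [Finset.mem_filter, Finset.mem_singleton]
      constructor
      · rintro ⟨h3, -⟩
        exact hK l h3
      · rintro rfl
        exact ⟨hj, hins.pres⟩
    rw [hfil, hfil, OP_singleton, OP_singleton]
    have : D true j = D false j := by
      refine hD.cst j hins ?_
      intro k hk hkb
      obtain ⟨l, hl1, hl2, m, hm⟩ := S.exists_rep k
      have hl : l ∈ S.clus t s := by
        refine mem_clus.2 ⟨hl1, ?_, ?_⟩
        · rw [← S.cl_add l m, ← hm]
          exact hk.cl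
        · rw [← S.pb_add l m, ← hm, hkb]
          exact hj'.2.2
      have : S.pa k t = S.pa l t := by rw [hm, S.pa_add]
      rw [this]
      exact (hall l hl j hj).le
    unfold valL
    rw [this]
  · have hv := vertex_of_not_ins hj'.2.1 hins
    rcases hv with hv | hv
    · -- `t = h j`: the predecessor
      obtain ⟨l, hl1, hl2, m, hm⟩ := S.exists_rep (j - 1)
      have hjj : j - 1 + 1 = j := by ring
      have hl : l ∈ S.clus t s := by
        refine mem_clus.2 ⟨hl1, ?_, ?_⟩
        · rw [← S.cl_add l m, ← hm]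
          have := S.cl_vertex' (j - 1)
          rwa [hjj, ← hv] at this
        · rw [← S.pb_add l m, ← hm]
          have := S.pb_h' (j - 1)
          rw [hjj, ← hv] at this
          rw [this, ← hj'.2.2]
          conv_rhs => rw [hv]
          rw [S.pb_h]
      refine vertex_eq hS Q t D hD s hl hj ?_ hv (fun l' hl' => hall l' hl' l hl)
      have h2 := (dvd_neg (α := ℤ)).2 hl2
      have e : -(j - 1 - l) = l + 1 - j := by ring
      rwa [e] at h2
    · obtain ⟨l, hl1, hl2, m, hm⟩ := S.exists_rep (j + 1)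
      have hl : l ∈ S.clus t s := by
        refine mem_clus.2 ⟨hl1, ?_, ?_⟩
        · rw [← S.cl_add l m, ← hm]
          have := S.cl_vertex (j + 1)
          rwa [← hv] at this
        · rw [← S.pb_add l m, ← hm]
          have := S.pb_h (j + 1)
          rw [← hv] at this
          rw [this, ← hj'.2.2]
          conv_rhs => rw [hv]
          rw [S.pb_h']
      refine vertex_eq hS Q t D hD s hj hl hl2 ?_ (fun l' hl' => hall l' hl' j hj)
      rw [hv, hm, S.h_add]

/-- SBI-10. The products over an open quadrant just below and just above the height `t` agree. [Use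
`OP_cluster` with `lim j = pb j t`. Consider the cluster `K` of the `j ∈ [0, n)` with `Cl j t` and
`pb j t = s` (`s > b`).
(1) All elements of `K` have the same `pa`. If one of them is interior at `t` then `K` has one element
(`simple_ins`), which is not an undercrossing, so `D true j = D false j` by `cst`. Otherwise `K` consists of the two
strands at a vertex (`simple`), each of them is present on exactly one side; use `valL_vertex`,
`valL_vertex'`.
(2) There are `j, k ∈ K` with `pa j t < pa k t`. By `tripleB` and `ins_of_pb_eq`, `simple_ins`, `K = {j, k}`, both interior. If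
`a < pa j t`: both belong to the quadrant, and with `g = valL k` (the same on both sides, `Loc.jump`) one has
`valL true j = (g ^ s) * valL false j * (g ^ s)⁻¹`, `s = 1` if `sb j < sb k`, `s = -1` if `sb k < sb j`
(`sb_ne`); the order of the keys below is the order of `-sb`, above that of `sb`; so `OP_pair` gives
`g * v` below and `(g v g⁻¹) * g` above if `sb j < sb k`, and `v * g` below, `g * (g⁻¹ v g)` above
otherwise. If `pa j t ≤ a < pa k t` only `k` belongs to the quadrant. If `pa k t ≤ a`: none.] -/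
theorem UL_eq (hS : S.Good) (Q : AQ Y G) (t : ℝ) (D : Bool → ℤ → Y) (hD : S.Loc Q t D) (a b : ℝ) :
    S.UL Q D false t a b = S.UL Q D true t a b := by
  classical
  unfold UL
  refine OP_cluster _ _ (fun j => S.pb j t) _ _ _ _ (fun i _ j _ h => kB_lt_of_pb h)
    (fun i _ j _ h => kB_lt_of_pb h) ?_
  intro s
  by_cases hs : b < s
  · rw [S.filter_clus false t a b s hs, S.filter_clus true t a b s hs]
    by_cases hall : ∀ l ∈ S.clus t s, ∀ l' ∈ S.clus t s, S.pa l t = S.pa l' t
    · by_cases ha : ∃ l ∈ S.clus t s, a < S.pa l t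
      · obtain ⟨l, hl, hal⟩ := ha
        have h1 : ∀ σ : Bool, ((S.clus t s).filter fun j => S.Pres σ j t ∧ a < S.pa j t) =
            (S.clus t s).filter fun j => S.Pres σ j t := by
          intro σ
          refine Finset.filter_congr fun j hj => ?_
          constructor
          · exact fun h => h.1
          · exact fun h => ⟨h, by rw [hall j hj l hl]; exact hal⟩
        rw [h1, h1]
        exact same_eq hS Q t D hD s hall
      · push Not at ha
        have h1 : ∀ σ : Bool, ((S.clus t s).filter fun j => S.Pres σ j t ∧ a < S.pa j t) = ∅ := by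
          intro σ
          rw [Finset.filter_eq_empty_iff]
          rintro j hj ⟨-, h2⟩
          exact absurd h2 (not_lt.2 (ha j hj))
        rw [h1, h1, OP_empty, OP_empty]
    · push Not at hall
      obtain ⟨l, hl, l', hl', hne⟩ := hall
      rcases lt_or_gt_of_ne hne with h | h
      · exact crossing_eq hS Q t D hD a s hl hl' h
      · exact crossing_eq hS Q t D hD a s hl' hl h
  · have h1 : ∀ σ : Bool, (((Finset.Ico (0 : ℤ) S.n).filter fun j => S.Pres σ j t ∧ b < S.pb j t ∧
        a < S.pa j t).filter fun j => S.pb j t = s) = ∅ := by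
      intro σ
      rw [Finset.filter_eq_empty_iff]
      intro j hj h2
      rw [Finset.mem_filter] at hj
      rw [← h2] at hs
      exact hs hj.2.2.1
    rw [h1, h1, OP_empty, OP_empty]

end Sweep

end Pool.Agent.helper43.SBI
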