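import Mathlib

set_option autoImplicit false

/-!
# Ordered products

`OP J key val` is the product of the `val j`, `j ∈ J`, in the order of increasing `key j` (the keys
should be different on `J`).
-/

namespace Pool.Agent.helper43.SBI

open Classical in
/-- The value belonging to the key `t` (`1` if there is no `j ∈ J` with this key). -/
noncomputable def valAt {ι κ M : Type*} [Monoid M] (J : Finset ι) (key : ι → κ) (val : ι → M)
    (t : κ) : M :=
  if h : ∃ j, j ∈ J ∧ key j = t then val h.choose else 1

open Classical in
/-- The ordered product. -/
noncomputable def OP {ι κ M : Type*} [LinearOrder κ] [Monoid M] (J : Finset ι) (key : ι → κ)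
    (val : ι → M) : M :=
  (((J.image key).sort (· ≤ ·)).map (valAt J key val)).prod

end Pool.Agent.helper43.SBI
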