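import Pool.Agent.helper43.SBI.Fun
import Pool.Agent.helper43.SBI.OPDef

set_option autoImplicit false

/-!
# Sweeps

A polygon seen in two directions `e`, `f` at once is described by the height `h` (the linear form
which vanishes on `e` and `f`), the `e`-coordinate `A` and the `f`-coordinate `B` of its vertices.
No edge is horizontal, so every edge `j` is a *strand*: its points are parametrised by the height `t`
and have the coordinates `pa j t`, `pb j t`.
-/

namespace Pool.Agent.helper43.SBI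

open Pool.Agent.helper82.SB Filter Topology

/-- A closed polygon with heights `h` and coordinates `A`, `B` of its vertices. -/
structure Sweep where
  n : ℕ
  h : ℤ → ℝ
  A : ℤ → ℝ
  B : ℤ → ℝ
  three : 3 ≤ n
  perh : ∀ j, h (j + n) = h j
  perA : ∀ j, A (j + n) = A j
  perB : ∀ j, B (j + n) = B j
  hne : ∀ j, h j ≠ h (j + 1)

namespace Sweep

variable (S : Sweep)

/-- The lower end of the range of heights of strand `j`. -/
noncomputable def lo (j : ℤ) : ℝ := min (S.h j) (S.h (j + 1))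

/-- The upper end of the range of heights of strand `j`. -/
noncomputable def hi (j : ℤ) : ℝ := max (S.h j) (S.h (j + 1))

/-- Slope of the `A`-coordinate of strand `j` with respect to the height. -/
noncomputable def sa (j : ℤ) : ℝ := (S.A (j + 1) - S.A j) / (S.h (j + 1) - S.h j)

/-- Slope of the `B`-coordinate of strand `j` with respect to the height. -/
noncomputable def sb (j : ℤ) : ℝ := (S.B (j + 1) - S.B j) / (S.h (j + 1) - S.h j)

/-- The `A`-coordinate of the line of strand `j` at height `t`. -/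
noncomputable def pa (j : ℤ) (t : ℝ) : ℝ := S.A j + (t - S.h j) * S.sa j

/-- The `B`-coordinate of the line of strand `j` at height `t`. -/
noncomputable def pb (j : ℤ) (t : ℝ) : ℝ := S.B j + (t - S.h j) * S.sb j

/-- The direction of strand `j`: `1` if it goes up, `-1` if it goes down. -/
noncomputable def eps (j : ℤ) : ℤ := if S.h j < S.h (j + 1) then 1 else -1

/-- The height `t` is an interior height of strand `j`. -/
def Ins (j : ℤ) (t : ℝ) : Prop := S.lo j < t ∧ t < S.hi j

/-- The height `t` is a height of (the closed) strand `j`. -/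
def Cl (j : ℤ) (t : ℝ) : Prop := S.lo j ≤ t ∧ t ≤ S.hi j

/-- The sweep is in general position. -/
structure Good : Prop where
  /-- different points have different coordinates -/
  simple : ∀ j k t, S.Cl j t → S.Cl k t → S.pa j t = S.pa k t → S.pb j t = S.pb k t →
    (S.n : ℤ) ∣ j - k ∨ ((S.n : ℤ) ∣ j + 1 - k ∧ t = S.h k) ∨ ((S.n : ℤ) ∣ k + 1 - j ∧ t = S.h j)
  /-- vertices are not involved in `e`-coincidences -/
  vertB : ∀ j k t, S.Cl j t → S.Cl k t → S.pb j t = S.pb k t → t = S.h j ∨ t = S.h (j + 1) →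
    S.pa j t = S.pa k t
  /-- vertices are not involved in `f`-coincidences -/
  vertA : ∀ j k t, S.Cl j t → S.Cl k t → S.pa j t = S.pa k t → t = S.h j ∨ t = S.h (j + 1) →
    S.pb j t = S.pb k t
  /-- there are no `e`-triple points -/
  tripleB : ∀ j k l t, S.Cl j t → S.Cl k t → S.Cl l t → S.pb j t = S.pb k t →
    S.pb j t = S.pb l t → S.pa j t = S.pa k t ∨ S.pa j t = S.pa l t ∨ S.pa k t = S.pa l t
  /-- there are no `f`-triple points -/
  tripleA : ∀ j k l t, S.Cl j t → S.Cl k t → S.Cl l t → S.pa j t = S.pa k t →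
    S.pa j t = S.pa l t → S.pb j t = S.pb k t ∨ S.pb j t = S.pb l t ∨ S.pb k t = S.pb l t
  /-- no point is involved in an `e`-coincidence and in an `f`-coincidence -/
  pair : ∀ j k l t, S.Cl j t → S.Cl k t → S.Cl l t → S.pb j t = S.pb k t →
    S.pa j t = S.pa l t → S.pa j t = S.pa k t ∨ S.pb j t = S.pb l t

variable {Y G : Type*} [Group G] [MulAction G Y]

/-- Colourings of the `e`-diagram in terms of strands: `C j t` is the colour of strand `j` at height
`t` (relevant only if `t` is an interior height of strand `j`, and not at undercrossings). -/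
structure ECol (Q : AQ Y G) (C : ℤ → ℝ → Y) : Prop where
  per : ∀ j t, C (j + S.n) t = Q.tau (C j t)
  cst : ∀ j t, S.Ins j t → (∀ k, S.Ins k t → S.pb k t = S.pb j t → S.pa k t ≤ S.pa j t) →
    ∃ x, ∀ᶠ r in 𝓝[≠] t, C j r = x
  jump : ∀ j k t, S.Ins j t → S.Ins k t → S.pb j t = S.pb k t → S.pa j t < S.pa k t →
    ∃ x y, (∀ᶠ r in 𝓝[≠] t, C k r = y) ∧ (∀ᶠ r in 𝓝[<] t, C j r = x) ∧
      ∀ᶠ r in 𝓝[>] t, C j r = Q.del y ^ (S.eps k * if S.sb j < S.sb k then 1 else -1) • x
  vertex : ∀ j, ∃ x, (∀ᶠ r in 𝓝[Set.Ioo (S.lo j) (S.hi j)] (S.h (j + 1)), C j r = x) ∧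
    ∀ᶠ r in 𝓝[Set.Ioo (S.lo (j + 1)) (S.hi (j + 1))] (S.h (j + 1)), C (j + 1) r = x

/-- Colourings of the `f`-diagram in terms of strands. -/
structure FCol' (Q : AQ Y G) (C : ℤ → ℝ → Y) : Prop where
  per : ∀ j t, C (j + S.n) t = Q.tau (C j t)
  cst : ∀ j t, S.Ins j t → (∀ k, S.Ins k t → S.pa k t = S.pa j t → S.pb k t ≤ S.pb j t) →
    ∃ x, ∀ᶠ r in 𝓝[≠] t, C j r = x
  jump : ∀ j k t, S.Ins j t → S.Ins k t → S.pa j t = S.pa k t → S.pb j t < S.pb k t →
    ∃ x y, (∀ᶠ r in 𝓝[≠] t, C k r = y) ∧ (∀ᶠ r in 𝓝[<] t, C j r = x) ∧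
      ∀ᶠ r in 𝓝[>] t, C j r = Q.del y ^ (S.eps k * if S.sa k < S.sa j then 1 else -1) • x
  vertex : ∀ j, ∃ x, (∀ᶠ r in 𝓝[Set.Ioo (S.lo j) (S.hi j)] (S.h (j + 1)), C j r = x) ∧
    ∀ᶠ r in 𝓝[Set.Ioo (S.lo (j + 1)) (S.hi (j + 1))] (S.h (j + 1)), C (j + 1) r = x

open Classical in
/-- The strands (one representative modulo `n`) in the open upper right quadrant of strand `i` at
height `t`. -/
noncomputable def quad (i : ℤ) (t : ℝ) : Finset ℤ :=
  (Finset.Ico (0 : ℤ) S.n).filter fun j => S.Ins j t ∧ S.pb i t < S.pb j t ∧ S.pa i t < S.pa j t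

/-- The element of `G` which belongs to strand `j` at height `t`. -/
noncomputable def val (Q : AQ Y G) (C : ℤ → ℝ → Y) (t : ℝ) (j : ℤ) : G :=
  Q.del (C j t) ^ S.eps j

/-- The product over the quadrant. -/
noncomputable def W (Q : AQ Y G) (C : ℤ → ℝ → Y) (i : ℤ) (t : ℝ) : G :=
  OP (S.quad i t) (fun j => S.pb j t) (S.val Q C t)

/-- The new colouring. -/
noncomputable def newC (Q : AQ Y G) (C : ℤ → ℝ → Y) (i : ℤ) (t : ℝ) : Y :=
  (S.W Q C i t)⁻¹ • C i t

end Sweep

end Pool.Agent.helper43.SBI
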