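import Pool.Agent.helper43.SBI.Crossing
import Pool.Agent.helper43.SBI.Sweep

set_option autoImplicit false

/-!
# SBI-6 : the sweep of a polygon with respect to two views `e`, `f`

Coordinates: `u = f × e`; every vector is `x = cA x • e + cB x • f + cH x • u` with a positive multiple
`hgt x = det3 f e x = |u|² * cH x` as the height.
-/

set_option linter.unusedSimpArgs false

namespace Pool.Agent.helper43.SBI

open Pool.Agent.helper82.SB Filter Topology

/-- The vector `f × e`. -/
def uvec (e f : E3) : E3 := crossProduct f e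

/-- The height of a vector. -/
def hgt (e f x : E3) : ℝ := det3 f e x

/-- The `e`-coordinate of a vector. -/
noncomputable def cA (e f x : E3) : ℝ := det3 x f (uvec e f) / det3 e f (uvec e f)

/-- The `f`-coordinate of a vector. -/
noncomputable def cB (e f x : E3) : ℝ := det3 e x (uvec e f) / det3 e f (uvec e f)

theorem det3_uvec_neg {e f : E3} (h : ∃ x, det3 e f x ≠ 0) : det3 e f (uvec e f) < 0 := by
  have key : det3 e f (uvec e f) = -((e 1 * f 2 - e 2 * f 1) ^ 2 + (e 2 * f 0 - e 0 * f 2) ^ 2 +
      (e 0 * f 1 - e 1 * f 0) ^ 2) := by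
    simp only [det3, uvec, cross_apply, Matrix.cons_val_zero, Matrix.cons_val_one,
      Matrix.cons_val]
    ring
  obtain ⟨x, hx⟩ := h
  by_contra hcon
  rw [key] at hcon
  have s1 := sq_nonneg (e 1 * f 2 - e 2 * f 1)
  have s2 := sq_nonneg (e 2 * f 0 - e 0 * f 2)
  have s3 := sq_nonneg (e 0 * f 1 - e 1 * f 0)
  have h1 : (e 1 * f 2 - e 2 * f 1) ^ 2 = 0 := by linarith
  have h2 : (e 2 * f 0 - e 0 * f 2) ^ 2 = 0 := by linarith
  have h3 : (e 0 * f 1 - e 1 * f 0) ^ 2 = 0 := by linarith
  have h1' := pow_eq_zero_iff (two_ne_zero) |>.1 h1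
  have h2' := pow_eq_zero_iff (two_ne_zero) |>.1 h2
  have h3' := pow_eq_zero_iff (two_ne_zero) |>.1 h3
  apply hx
  unfold det3
  linear_combination (x 0) * h1' + (x 1) * h2' + (x 2) * h3'

theorem hgt_add (e f x y : E3) : hgt e f (x + y) = hgt e f x + hgt e f y := by
  simp only [hgt, det3, Pi.add_apply, Pi.smul_apply, smul_eq_mul]
  ring

theorem hgt_smul (e f : E3) (c : ℝ) (x : E3) : hgt e f (c • x) = c * hgt e f x := by
  simp only [hgt, det3, Pi.add_apply, Pi.smul_apply, smul_eq_mul]
  ring

theorem hgt_e (e f : E3) : hgt e f e = 0 := by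
  simp only [hgt, det3, Pi.add_apply, Pi.smul_apply, smul_eq_mul]
  ring

theorem hgt_f (e f : E3) : hgt e f f = 0 := by
  simp only [hgt, det3, Pi.add_apply, Pi.smul_apply, smul_eq_mul]
  ring

theorem cA_add (e f x y : E3) : cA e f (x + y) = cA e f x + cA e f y := by
  simp only [cA, cB, det3, Pi.add_apply, Pi.smul_apply, smul_eq_mul]
  ring

theorem cA_smul (e f : E3) (c : ℝ) (x : E3) : cA e f (c • x) = c * cA e f x := by
  simp only [cA, cB, det3, Pi.add_apply, Pi.smul_apply, smul_eq_mul]
  ring

theorem cA_e {e f : E3} (h : ∃ x, det3 e f x ≠ 0) : cA e f e = 1 := by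
  unfold cA
  exact div_self (det3_uvec_neg h).ne

theorem cA_f (e f : E3) : cA e f f = 0 := by
  have h : det3 f f (uvec e f) = 0 := by
    simp only [det3]
    ring
  unfold cA
  rw [h, zero_div]

theorem cB_add (e f x y : E3) : cB e f (x + y) = cB e f x + cB e f y := by
  simp only [cA, cB, det3, Pi.add_apply, Pi.smul_apply, smul_eq_mul]
  ring

theorem cB_smul (e f : E3) (c : ℝ) (x : E3) : cB e f (c • x) = c * cB e f x := by
  simp only [cA, cB, det3, Pi.add_apply, Pi.smul_apply, smul_eq_mul]
  ring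

theorem cB_e (e f : E3) : cB e f e = 0 := by
  have h : det3 e e (uvec e f) = 0 := by
    simp only [det3]
    ring
  unfold cB
  rw [h, zero_div]

theorem cB_f {e f : E3} (h : ∃ x, det3 e f x ≠ 0) : cB e f f = 1 := by
  unfold cB
  exact div_self (det3_uvec_neg h).ne

/-- Two vectors with the same height differ by the combination of `e` and `f` given by the coordinates. -/
theorem eq_of_hgt {e f : E3} (h : ∃ x, det3 e f x ≠ 0) (x y : E3) (hxy : hgt e f x = hgt e f y) :
    x = y + (cA e f x - cA e f y) • e + (cB e f x - cB e f y) • f := by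
  have hD := (det3_uvec_neg h).ne
  have h1 : det3 e f (x - y) = 0 := by
    have : det3 e f (x - y) = hgt e f y - hgt e f x := by
      simp only [hgt, det3, Pi.sub_apply]
      ring
    rw [this, hxy, sub_self]
  have h2 : ∀ i, det3 e f (uvec e f) * (x i - y i) = det3 (x - y) f (uvec e f) * e i +
      det3 e (x - y) (uvec e f) * f i + det3 e f (x - y) * uvec e f i := by
    intro i
    generalize uvec e f = u
    fin_cases i <;> simp only [det3, Pi.sub_apply, Fin.zero_eta, Fin.mk_one, Fin.reduceFinMk] <;>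
      ring
  have h3 : det3 (x - y) f (uvec e f) = det3 e f (uvec e f) * (cA e f x - cA e f y) := by
    have : det3 (x - y) f (uvec e f) = det3 x f (uvec e f) - det3 y f (uvec e f) := by
      simp only [det3, Pi.sub_apply]
      ring
    rw [this]
    unfold cA
    field_simp
  have h4 : det3 e (x - y) (uvec e f) = det3 e f (uvec e f) * (cB e f x - cB e f y) := by
    have : det3 e (x - y) (uvec e f) = det3 e x (uvec e f) - det3 e y (uvec e f) := by
      simp only [det3, Pi.sub_apply]
      ring
    rw [this]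
    unfold cB
    field_simp
  funext i
  have h5 := h2 i
  rw [h1, h3, h4] at h5
  have h6 : x i - y i = (cA e f x - cA e f y) * e i + (cB e f x - cB e f y) * f i := by
    apply mul_left_cancel₀ hD
    rw [h5]
    ring
  simp only [Pi.add_apply, Pi.smul_apply, smul_eq_mul]
  linarith

/-- The sign of a crossing in the view `e` in terms of the coordinates. -/
theorem det3_e_eq {e f : E3} (h : ∃ x, det3 e f x ≠ 0) (x y : E3) :
    det3 e x y = hgt e f x * cB e f y - hgt e f y * cB e f x := by
  have hD := (det3_uvec_neg h).ne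
  have key : det3 e x y * det3 e f (uvec e f) = hgt e f x * det3 e y (uvec e f) -
      hgt e f y * det3 e x (uvec e f) := by
    generalize uvec e f = u
    simp only [hgt, det3]
    ring
  unfold cB
  rw [mul_div_assoc', mul_div_assoc', ← sub_div, eq_div_iff hD, key]

/-- The sign of a crossing in the view `f` in terms of the coordinates. -/
theorem det3_f_eq {e f : E3} (h : ∃ x, det3 e f x ≠ 0) (x y : E3) :
    det3 f x y = cA e f x * hgt e f y - cA e f y * hgt e f x := by
  have hD := (det3_uvec_neg h).ne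
  have key : det3 f x y * det3 e f (uvec e f) = det3 x f (uvec e f) * hgt e f y -
      det3 y f (uvec e f) * hgt e f x := by
    generalize uvec e f = u
    simp only [hgt, det3]
    ring
  unfold cA
  rw [div_mul_eq_mul_div, div_mul_eq_mul_div, ← sub_div, eq_div_iff hD, key]

/-- The sweep of `K` with respect to `e`, `f`. -/
noncomputable def sweepOf (K : PolyKnot) (e f : E3) (hP : PairGen K e f) : Sweep where
  n := K.n
  h := fun j => hgt e f (K.P j)
  A := fun j => cA e f (K.P j)
  B := fun j => cB e f (K.P j)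
  three := K.three
  perh := fun j => by simp only [K.per]
  perA := fun j => by simp only [K.per]
  perB := fun j => by simp only [K.per]
  hne := by
    intro j h
    apply hP.det j
    have h1 : hgt e f (edge K.P j) = 0 := by
      have h2 := hgt_add e f (edge K.P j) (K.P j)
      rw [show edge K.P j + K.P j = K.P (j + 1) by unfold edge; simp] at h2
      linarith
    unfold hgt at h1
    have h3 : det3 e f (edge K.P j) = - det3 f e (edge K.P j) := by
      simp only [det3]; ring
    rw [h3, h1, neg_zero]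

/-- The parameter of the point of strand `j` at height `t`. -/
noncomputable def par (S : Sweep) (j : ℤ) (t : ℝ) : ℝ := j + (t - S.h j) / (S.h (j + 1) - S.h j)

theorem coord_x_mem (S : Sweep) (j : ℤ) (t : ℝ) (h : S.Cl j t) :
    0 ≤ (t - S.h j) / (S.h (j + 1) - S.h j) ∧ (t - S.h j) / (S.h (j + 1) - S.h j) ≤ 1 := by
  unfold Sweep.Cl Sweep.lo Sweep.hi at h
  rcases lt_or_gt_of_ne (S.hne j) with h1 | h1
  · rw [min_eq_left h1.le, max_eq_right h1.le] at h
    have h2 : 0 < S.h (j + 1) - S.h j := by linarith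
    exact ⟨div_nonneg (by linarith) h2.le, (div_le_one h2).2 (by linarith)⟩
  · rw [min_eq_right h1.le, max_eq_left h1.le] at h
    have h2 : S.h (j + 1) - S.h j < 0 := by linarith
    exact ⟨div_nonneg_of_nonpos (by linarith) h2.le, (div_le_one_of_neg h2).2 (by linarith)⟩

theorem par_mem (S : Sweep) (j : ℤ) (t : ℝ) (h : S.Cl j t) : par S j t ∈ Set.Icc (j : ℝ) (j + 1) := by
  have h1 := coord_x_mem S j t h
  unfold par
  exact ⟨by linarith [h1.1], by linarith [h1.2]⟩

theorem par_mem_Ioo (S : Sweep) (j : ℤ) (t : ℝ) (h : S.Ins j t) :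
    par S j t ∈ Set.Ioo (j : ℝ) (j + 1) := by
  unfold Sweep.Ins Sweep.lo Sweep.hi at h
  unfold par
  rcases lt_or_gt_of_ne (S.hne j) with h1 | h1
  · rw [min_eq_left h1.le, max_eq_right h1.le] at h
    have h2 : 0 < S.h (j + 1) - S.h j := by linarith
    have h3 : 0 < (t - S.h j) / (S.h (j + 1) - S.h j) := div_pos (by linarith) h2
    have h4 : (t - S.h j) / (S.h (j + 1) - S.h j) < 1 := (div_lt_one h2).2 (by linarith)
    exact ⟨by linarith, by linarith⟩
  · rw [min_eq_right h1.le, max_eq_left h1.le] at h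
    have h2 : S.h (j + 1) - S.h j < 0 := by linarith
    have h3 : 0 < (t - S.h j) / (S.h (j + 1) - S.h j) := div_pos_of_neg_of_neg (by linarith) h2
    have h4 : (t - S.h j) / (S.h (j + 1) - S.h j) < 1 := (div_lt_one_of_neg h2).2 (by linarith)
    exact ⟨by linarith, by linarith⟩

theorem coord_edge (K : PolyKnot) (j : ℤ) : K.P j + edge K.P j = K.P (j + 1) := by
  unfold edge
  simp

/-- The point of strand `j` at height `t`. -/
theorem gam_par (K : PolyKnot) (e f : E3) (hP : PairGen K e f) (j : ℤ) (t : ℝ)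
    (h : (sweepOf K e f hP).Cl j t) :
    hgt e f (gam K (par (sweepOf K e f hP) j t)) = t ∧
      cA e f (gam K (par (sweepOf K e f hP) j t)) = (sweepOf K e f hP).pa j t ∧
      cB e f (gam K (par (sweepOf K e f hP) j t)) = (sweepOf K e f hP).pb j t := by
  have hx : 0 ≤ (t - hgt e f (K.P j)) / (hgt e f (K.P (j + 1)) - hgt e f (K.P j)) ∧
      (t - hgt e f (K.P j)) / (hgt e f (K.P (j + 1)) - hgt e f (K.P j)) ≤ 1 :=
    coord_x_mem _ j t h
  have hne := (sweepOf K e f hP).hne j
  have hd : hgt e f (K.P (j + 1)) - hgt e f (K.P j) ≠ 0 := fun h0 => hne (sub_eq_zero.1 h0).symm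
  have e0 : par (sweepOf K e f hP) j t =
      (j : ℝ) + (t - hgt e f (K.P j)) / (hgt e f (K.P (j + 1)) - hgt e f (K.P j)) := rfl
  have e1 : hgt e f (edge K.P j) = hgt e f (K.P (j + 1)) - hgt e f (K.P j) := by
    rw [← coord_edge, hgt_add]
    ring
  have e2 : cA e f (edge K.P j) = cA e f (K.P (j + 1)) - cA e f (K.P j) := by
    rw [← coord_edge, cA_add]
    ring
  have e3 : cB e f (edge K.P j) = cB e f (K.P (j + 1)) - cB e f (K.P j) := by
    rw [← coord_edge, cB_add]
    ring
  rw [e0, gam_edge K j _ hx.1 hx.2]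
  refine ⟨?_, ?_, ?_⟩
  · rw [hgt_add, hgt_smul, e1, div_mul_cancel₀ _ hd]
    ring
  · rw [cA_add, cA_smul, e2]
    show _ = cA e f (K.P j) + (t - hgt e f (K.P j)) *
      ((cA e f (K.P (j + 1)) - cA e f (K.P j)) / (hgt e f (K.P (j + 1)) - hgt e f (K.P j)))
    ring
  · rw [cB_add, cB_smul, e3]
    show _ = cB e f (K.P j) + (t - hgt e f (K.P j)) *
      ((cB e f (K.P (j + 1)) - cB e f (K.P j)) / (hgt e f (K.P (j + 1)) - hgt e f (K.P j)))
    ring

/-- Every point `gam K s` is the point of the strand `⌊s⌋` at its height. -/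
theorem par_hgt (K : PolyKnot) (e f : E3) (hP : PairGen K e f) (j : ℤ) (s : ℝ) (h0 : j ≤ s)
    (h1 : s ≤ j + 1) :
    (sweepOf K e f hP).Cl j (hgt e f (gam K s)) ∧
      par (sweepOf K e f hP) j (hgt e f (gam K s)) = s := by
  have hne := (sweepOf K e f hP).hne j
  have hd : hgt e f (K.P (j + 1)) - hgt e f (K.P j) ≠ 0 := fun h0 => hne (sub_eq_zero.1 h0).symm
  have e1 : hgt e f (edge K.P j) = hgt e f (K.P (j + 1)) - hgt e f (K.P j) := by
    rw [← coord_edge, hgt_add]
    ring
  have e2 : hgt e f (gam K s) = hgt e f (K.P j) +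
      (s - j) * (hgt e f (K.P (j + 1)) - hgt e f (K.P j)) := by
    have := gam_edge K j (s - j) (by linarith) (by linarith)
    rw [add_sub_cancel] at this
    rw [this, hgt_add, hgt_smul, e1]
  rw [e2]
  constructor
  · show min (hgt e f (K.P j)) (hgt e f (K.P (j + 1))) ≤ _ ∧
      _ ≤ max (hgt e f (K.P j)) (hgt e f (K.P (j + 1)))
    rcases le_total (hgt e f (K.P j)) (hgt e f (K.P (j + 1))) with h | h
    · rw [min_eq_left h, max_eq_right h]
      constructor <;> nlinarith
    · rw [min_eq_right h, max_eq_left h]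
      constructor <;> nlinarith
  · show (j : ℝ) + (hgt e f (K.P j) + (s - j) * (hgt e f (K.P (j + 1)) - hgt e f (K.P j)) -
      hgt e f (K.P j)) / (hgt e f (K.P (j + 1)) - hgt e f (K.P j)) = s
    field_simp
    ring

/-- Two points with the same height. -/
theorem coord_pt (K : PolyKnot) (e f : E3) (hP : PairGen K e f) (j k : ℤ) (t : ℝ)
    (hj : (sweepOf K e f hP).Cl j t) (hk : (sweepOf K e f hP).Cl k t) :
    gam K (par (sweepOf K e f hP) k t) = gam K (par (sweepOf K e f hP) j t) +
      ((sweepOf K e f hP).pa k t - (sweepOf K e f hP).pa j t) • e +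
      ((sweepOf K e f hP).pb k t - (sweepOf K e f hP).pb j t) • f := by
  have h1 := gam_par K e f hP j t hj
  have h2 := gam_par K e f hP k t hk
  have h3 := eq_of_hgt (e := e) (f := f) ⟨_, hP.det 0⟩
    (gam K (par (sweepOf K e f hP) k t)) (gam K (par (sweepOf K e f hP) j t)) (by
      rw [h1.1, h2.1])
  rw [h1.2.1, h1.2.2, h2.2.1, h2.2.2] at h3
  exact h3

theorem coord_pt_e (K : PolyKnot) (e f : E3) (hP : PairGen K e f) (j k : ℤ) (t : ℝ)
    (hj : (sweepOf K e f hP).Cl j t) (hk : (sweepOf K e f hP).Cl k t)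
    (h : (sweepOf K e f hP).pb j t = (sweepOf K e f hP).pb k t) :
    gam K (par (sweepOf K e f hP) k t) = gam K (par (sweepOf K e f hP) j t) +
      ((sweepOf K e f hP).pa k t - (sweepOf K e f hP).pa j t) • e := by
  rw [coord_pt K e f hP j k t hj hk, h, sub_self, zero_smul, add_zero]

theorem coord_pt_f (K : PolyKnot) (e f : E3) (hP : PairGen K e f) (j k : ℤ) (t : ℝ)
    (hj : (sweepOf K e f hP).Cl j t) (hk : (sweepOf K e f hP).Cl k t)
    (h : (sweepOf K e f hP).pa j t = (sweepOf K e f hP).pa k t) :
    gam K (par (sweepOf K e f hP) k t) = gam K (par (sweepOf K e f hP) j t) +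
      ((sweepOf K e f hP).pb k t - (sweepOf K e f hP).pb j t) • f := by
  rw [coord_pt K e f hP j k t hj hk, h, sub_self, zero_smul, add_zero]

theorem coord_par_left (S : Sweep) (j : ℤ) : par S j (S.h j) = j := by
  unfold par
  rw [sub_self, zero_div, add_zero]

theorem coord_par_right (S : Sweep) (j : ℤ) : par S j (S.h (j + 1)) = ((j + 1 : ℤ) : ℝ) := by
  unfold par
  rw [div_self (fun h0 => S.hne j (sub_eq_zero.1 h0).symm)]
  push_cast
  ring

/-- A vertex is not involved in a coincidence. -/
theorem coord_vert {K : PolyKnot} {e : E3} (hV : View K e) (S : Sweep) (j k : ℤ) (t c : ℝ)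
    (ht : t = S.h j ∨ t = S.h (j + 1))
    (h : gam K (par S k t) = gam K (par S j t) + c • e) : c = 0 := by
  rcases ht with ht | ht
  · rw [ht, coord_par_left, gam_int] at h
    exact hV.vert_gam j _ c h
  · rw [ht, coord_par_right, gam_int] at h
    exact hV.vert_gam (j + 1) _ c h

theorem coord_triple {K : PolyKnot} {e : E3} (hV : View K e) (s₁ s₂ s₃ a₁ a₂ a₃ : ℝ)
    (h12 : gam K s₂ = gam K s₁ + (a₂ - a₁) • e) (h13 : gam K s₃ = gam K s₁ + (a₃ - a₁) • e)
    (h1 : a₁ < a₂) (h2 : a₂ < a₃) : False :=
  hV.triple_gam s₁ s₂ s₃ (a₂ - a₁) (a₃ - a₁) (by linarith) (by linarith) h12 h13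

theorem coord_triple' {K : PolyKnot} {e : E3} (hV : View K e) (s a : Fin 3 → ℝ)
    (h : ∀ i j, gam K (s j) = gam K (s i) + (a j - a i) • e) :
    a 0 = a 1 ∨ a 0 = a 2 ∨ a 1 = a 2 := by
  by_contra hcon
  push Not at hcon
  obtain ⟨h1, h2, h3⟩ := hcon
  rcases lt_or_gt_of_ne h1 with g1 | g1 <;> rcases lt_or_gt_of_ne h2 with g2 | g2 <;>
    rcases lt_or_gt_of_ne h3 with g3 | g3
  · exact coord_triple hV _ _ _ _ _ _ (h 0 1) (h 0 2) g1 g3
  · exact coord_triple hV _ _ _ _ _ _ (h 0 2) (h 0 1) g2 g3
  · linarith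
  · exact coord_triple hV _ _ _ _ _ _ (h 2 0) (h 2 1) g2 g1
  · exact coord_triple hV _ _ _ _ _ _ (h 1 0) (h 1 2) g1 g2
  · linarith
  · exact coord_triple hV _ _ _ _ _ _ (h 1 2) (h 1 0) g3 g2
  · exact coord_triple hV _ _ _ _ _ _ (h 2 1) (h 2 0) g3 g1

/-- SBI-6b. The sweep of a polygon is in general position. [Translate by `gam_par`, `eq_of_hgt`: points with the same
height and the same `cB` differ by a multiple of `e`, and so on. `simple`: `gam_inj`. `vertB`:
`View.vert_gam`. `tripleB`: `View.triple_gam`, `pair`: `hP.cross`.] -/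
theorem good_sweepOf (K : PolyKnot) (e f : E3) (he : View K e) (hf : View K f)
    (hP : PairGen K e f) : (sweepOf K e f hP).Good := by
  refine ⟨?_, ?_, ?_, ?_, ?_, ?_⟩
  · intro j k t hj hk ha hb
    have h1 : gam K (par (sweepOf K e f hP) j t) = gam K (par (sweepOf K e f hP) k t) := by
      rw [coord_pt_e K e f hP j k t hj hk hb, ha, sub_self, zero_smul, add_zero]
    obtain ⟨m, hm⟩ := gam_inj K _ _ h1
    have hj2 := par_mem _ j t hj
    have hk2 := par_mem _ k t hk
    have hn : ((sweepOf K e f hP).n : ℤ) = (K.n : ℤ) := rfl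
    rw [hn]
    have hb1 : (k : ℝ) ≤ ((j + 1 + m * K.n : ℤ) : ℝ) := by
      push_cast
      linarith [hk2.1, hj2.2]
    have hb2 : ((j + m * K.n : ℤ) : ℝ) ≤ ((k + 1 : ℤ) : ℝ) := by
      push_cast
      linarith [hk2.2, hj2.1]
    have hb1' : k ≤ j + 1 + m * K.n := by exact_mod_cast hb1
    have hb2' : j + m * K.n ≤ k + 1 := by exact_mod_cast hb2
    have hcase : k = j + m * K.n ∨ k = j + 1 + m * K.n ∨ k + 1 = j + m * K.n := by
      generalize m * (K.n : ℤ) = q at *
      omega
    rcases hcase with hc | hc | hc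
    · left
      exact ⟨-m, by rw [hc]; ring⟩
    · right; left
      refine ⟨⟨-m, by rw [hc]; ring⟩, ?_⟩
      have h2 : par (sweepOf K e f hP) k t = k := by
        have : (k : ℝ) = (j : ℝ) + 1 + m * K.n := by exact_mod_cast hc
        apply le_antisymm _ hk2.1
        rw [hm]
        linarith [hj2.2]
      have h3 := (gam_par K e f hP k t hk).1
      rw [h2, gam_int] at h3
      exact h3.symm
    · right; right
      refine ⟨⟨m, by linarith⟩, ?_⟩
      have h2 : par (sweepOf K e f hP) j t = j := by
        have : (k : ℝ) + 1 = (j : ℝ) + m * K.n := by exact_mod_cast hc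
        apply le_antisymm _ hj2.1
        linarith [hk2.2]
      have h3 := (gam_par K e f hP j t hj).1
      rw [h2, gam_int] at h3
      exact h3.symm
  · intro j k t hj hk hb ht
    have h := coord_vert he _ j k t _ ht (coord_pt_e K e f hP j k t hj hk hb)
    linarith
  · intro j k t hj hk ha ht
    have h := coord_vert hf _ j k t _ ht (coord_pt_f K e f hP j k t hj hk ha)
    linarith
  · intro j k l t hj hk hl h1 h2
    have := coord_triple' he ![par (sweepOf K e f hP) j t, par (sweepOf K e f hP) k t,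
      par (sweepOf K e f hP) l t] ![(sweepOf K e f hP).pa j t, (sweepOf K e f hP).pa k t,
      (sweepOf K e f hP).pa l t] (by
        have h3 : (sweepOf K e f hP).pb k t = (sweepOf K e f hP).pb l t := h1.symm.trans h2
        intro i i'
        fin_cases i <;> fin_cases i' <;>
          simp only [Matrix.cons_val_zero, Matrix.cons_val_one, Matrix.cons_val, Fin.zero_eta,
            Fin.mk_one, Fin.reduceFinMk, sub_self, zero_smul, add_zero]
        · exact coord_pt_e K e f hP j k t hj hk h1
        · exact coord_pt_e K e f hP j l t hj hl h2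
        · exact coord_pt_e K e f hP k j t hk hj h1.symm
        · exact coord_pt_e K e f hP k l t hk hl h3
        · exact coord_pt_e K e f hP l j t hl hj h2.symm
        · exact coord_pt_e K e f hP l k t hl hk h3.symm)
    exact this
  · intro j k l t hj hk hl h1 h2
    have := coord_triple' hf ![par (sweepOf K e f hP) j t, par (sweepOf K e f hP) k t,
      par (sweepOf K e f hP) l t] ![(sweepOf K e f hP).pb j t, (sweepOf K e f hP).pb k t,
      (sweepOf K e f hP).pb l t] (by
        have h3 : (sweepOf K e f hP).pa k t = (sweepOf K e f hP).pa l t := h1.symm.trans h2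
        intro i i'
        fin_cases i <;> fin_cases i' <;>
          simp only [Matrix.cons_val_zero, Matrix.cons_val_one, Matrix.cons_val, Fin.zero_eta,
            Fin.mk_one, Fin.reduceFinMk, sub_self, zero_smul, add_zero]
        · exact coord_pt_f K e f hP j k t hj hk h1
        · exact coord_pt_f K e f hP j l t hj hl h2
        · exact coord_pt_f K e f hP k j t hk hj h1.symm
        · exact coord_pt_f K e f hP k l t hk hl h3
        · exact coord_pt_f K e f hP l j t hl hj h2.symm
        · exact coord_pt_f K e f hP l k t hl hk h3.symm)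
    exact this
  · intro j k l t hj hk hl h1 h2
    rcases hP.cross _ _ _ _ _ (coord_pt_e K e f hP j k t hj hk h1)
      (coord_pt_f K e f hP j l t hj hl h2) with h3 | h3
    · left
      linarith
    · right
      linarith

end Pool.Agent.helper43.SBI
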