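import Pool.Agent.helper43.SBI.Gam

set_option autoImplicit false

/-!
# SBI-2 : crossings in terms of edges and in terms of the curve
-/

namespace Pool.Agent.helper43.SBI

open Pool.Agent.helper82.SB Filter Topology

/-- Cramer's rule for three vectors -/
theorem cramer3 (w a b c : E3) (hd : det3 a b c ≠ 0) :
    w = (det3 w b c / det3 a b c) • a + (det3 a w c / det3 a b c) • b +
      (det3 a b w / det3 a b c) • c := by
  funext k
  simp only [Pi.add_apply, Pi.smul_apply, smul_eq_mul]
  field_simp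
  fin_cases k <;> simp [det3] <;> ring

/-- three vectors with vanishing determinant -/
theorem mem_plane (a b c : E3) (h : det3 a b c = 0)
    (hi : ∀ x y : ℝ, x • a + y • b = 0 → x = 0 ∧ y = 0) : ∃ p q : ℝ, c = p • a + q • b := by
  set n : E3 := ![a 1 * b 2 - a 2 * b 1, a 2 * b 0 - a 0 * b 2, a 0 * b 1 - a 1 * b 0] with hn
  have h1 : det3 a b n = n 0 ^ 2 + n 1 ^ 2 + n 2 ^ 2 := by
    simp [det3, hn]
    ring
  have h2 : det3 a b n ≠ 0 := by
    intro h0
    rw [h1] at h0
    have n0 : n 0 = 0 := by nlinarith [sq_nonneg (n 0), sq_nonneg (n 1), sq_nonneg (n 2)]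
    have n1 : n 1 = 0 := by nlinarith [sq_nonneg (n 0), sq_nonneg (n 1), sq_nonneg (n 2)]
    have n2 : n 2 = 0 := by nlinarith [sq_nonneg (n 0), sq_nonneg (n 1), sq_nonneg (n 2)]
    have m0 : a 1 * b 2 - a 2 * b 1 = 0 := by simpa [hn] using n0
    have m1 : a 2 * b 0 - a 0 * b 2 = 0 := by simpa [hn] using n1
    have m2 : a 0 * b 1 - a 1 * b 0 = 0 := by simpa [hn] using n2
    have hb : ∀ k, b k = 0 := by
      intro k
      have := hi (b k) (-(a k)) (by
        funext l
        simp only [Pi.add_apply, Pi.smul_apply, smul_eq_mul, Pi.zero_apply]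
        fin_cases k <;> fin_cases l <;> simp <;> linarith)
      exact this.1
    have := hi 0 1 (by
      funext l
      simp [hb l])
    exact one_ne_zero this.2
  have h3 := cramer3 c a b n h2
  rw [h, zero_div, zero_smul, add_zero] at h3
  exact ⟨_, _, h3⟩

/-- the end of the interval on which two parameters are in `[0, 1]` -/
theorem exit_param (x y q : ℝ) (hx0 : 0 < x) (hx1 : x < 1) (hy0 : 0 < y) (hy1 : y < 1)
    (hq : q ≠ 0) : ∃ u > 0, 0 ≤ y + u ∧ y + u ≤ 1 ∧ 0 ≤ x + u * q ∧ x + u * q ≤ 1 ∧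
      (y + u = 1 ∨ x + u * q = 0 ∨ x + u * q = 1) := by
  rcases lt_or_gt_of_ne hq with hq | hq
  · rcases le_total (1 - y) (x / (-q)) with h | h
    · have h' : (1 - y) * (-q) ≤ x := (le_div_iff₀ (neg_pos.2 hq)).1 h
      refine ⟨1 - y, by linarith, by linarith, by linarith, by linarith, ?_, Or.inl (by ring)⟩
      nlinarith
    · have h0 : 0 < x / (-q) := div_pos hx0 (neg_pos.2 hq)
      have h1 : x + x / (-q) * q = 0 := by
        field_simp
        ring
      exact ⟨x / (-q), h0, by linarith, by linarith, h1.ge, by rw [h1]; norm_num,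
        Or.inr (Or.inl h1)⟩
  · rcases le_total (1 - y) ((1 - x) / q) with h | h
    · have h' : (1 - y) * q ≤ 1 - x := (le_div_iff₀ hq).1 h
      refine ⟨1 - y, by linarith, by linarith, by linarith, ?_, by linarith, Or.inl (by ring)⟩
      nlinarith
    · have h0 : 0 < (1 - x) / q := div_pos (by linarith) hq
      have h1 : x + (1 - x) / q * q = 1 := by
        field_simp
        ring
      exact ⟨(1 - x) / q, h0, by linarith, by linarith, by rw [h1]; norm_num, h1.le,
        Or.inr (Or.inr h1)⟩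

/-- a coincidence involving a vertex is trivial -/
theorem View.vert_or {K : PolyKnot} {e : E3} (hV : View K e) (i j : ℤ) (x y c : ℝ)
    (hx0 : 0 ≤ x) (hx1 : x ≤ 1) (hy0 : 0 ≤ y) (hy1 : y ≤ 1)
    (hor : y = 0 ∨ y = 1 ∨ x = 0 ∨ x = 1)
    (h : K.P j + y • edge K.P j = K.P i + x • edge K.P i + c • e) : c = 0 := by
  rcases hor with rfl | rfl | rfl | rfl
  · have := hV.vert j i x (-c) hx0 hx1 (by
      rw [zero_smul, add_zero] at h
      rw [h, neg_smul]
      abel)
    linarith
  · have := hV.vert (j + 1) i x (-c) hx0 hx1 (by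
      rw [one_smul] at h
      have e1 : K.P j + edge K.P j = K.P (j + 1) := by
        unfold edge
        abel
      rw [e1] at h
      rw [h, neg_smul]
      abel)
    linarith
  · rw [zero_smul, add_zero] at h
    exact hV.vert i j y c hy0 hy1 h
  · have e1 : K.P i + edge K.P i = K.P (i + 1) := by
      unfold edge
      abel
    rw [one_smul, e1] at h
    exact hV.vert (i + 1) j y c hy0 hy1 h

/-- Cramer's rule: the lines of the edges `i` and `j`. -/
theorem line_cross (K : PolyKnot) (e : E3) (i j : ℤ) (hd : det3 e (edge K.P i) (edge K.P j) ≠ 0) :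
    K.P j + xpos K e j i • edge K.P j = K.P i + xpos K e i j • edge K.P i + alt K e i j • e := by
  have h := cramer3 (K.P j - K.P i) (edge K.P i) (edge K.P j) e (by
    rw [show det3 (edge K.P i) (edge K.P j) e = det3 e (edge K.P i) (edge K.P j) by
      unfold det3; ring]
    exact hd)
  have h1 : det3 (K.P j - K.P i) (edge K.P j) e / det3 (edge K.P i) (edge K.P j) e =
      xpos K e i j := by
    unfold xpos
    rw [show det3 (K.P j - K.P i) (edge K.P j) e = - det3 (K.P j - K.P i) e (edge K.P j) by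
        unfold det3; ring,
      show det3 (edge K.P i) (edge K.P j) e = - det3 (edge K.P i) e (edge K.P j) by
        unfold det3; ring, neg_div_neg_eq]
  have h2 : det3 (edge K.P i) (K.P j - K.P i) e / det3 (edge K.P i) (edge K.P j) e =
      - xpos K e j i := by
    unfold xpos
    rw [show det3 (edge K.P i) (K.P j - K.P i) e = - det3 (K.P i - K.P j) e (edge K.P i) by
        simp only [det3, Pi.sub_apply]; ring,
      show det3 (edge K.P i) (edge K.P j) e = det3 (edge K.P j) e (edge K.P i) by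
        unfold det3; ring, neg_div]
  have h3 : det3 (edge K.P i) (edge K.P j) (K.P j - K.P i) / det3 (edge K.P i) (edge K.P j) e =
      alt K e i j := by
    unfold alt
    rw [show det3 (edge K.P i) (edge K.P j) (K.P j - K.P i) =
        det3 (K.P j - K.P i) (edge K.P i) (edge K.P j) by unfold det3; ring,
      show det3 (edge K.P i) (edge K.P j) e = det3 e (edge K.P i) (edge K.P j) by
        unfold det3; ring]
  rw [h1, h2, h3, neg_smul] at h
  calc K.P j + xpos K e j i • edge K.P j
      = K.P i + (K.P j - K.P i) + xpos K e j i • edge K.P j := by abel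
    _ = K.P i + (xpos K e i j • edge K.P i + -(xpos K e j i • edge K.P j) + alt K e i j • e) +
        xpos K e j i • edge K.P j := by rw [← h]
    _ = K.P i + xpos K e i j • edge K.P i + alt K e i j • e := by abel

/-- Uniqueness in Cramer's rule. -/
theorem line_cross_unique (K : PolyKnot) (e : E3) (i j : ℤ)
    (hd : det3 e (edge K.P i) (edge K.P j) ≠ 0) (x y c : ℝ)
    (h : K.P j + y • edge K.P j = K.P i + x • edge K.P i + c • e) :
    x = xpos K e i j ∧ y = xpos K e j i ∧ c = alt K e i j := by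
  have hw : K.P j - K.P i = x • edge K.P i + c • e - y • edge K.P j := by
    have : K.P j = K.P i + x • edge K.P i + c • e - y • edge K.P j := by
      rw [← h]
      abel
    rw [this]
    abel
  have hw' : K.P i - K.P j = -(x • edge K.P i + c • e - y • edge K.P j) := by
    rw [← hw]
    abel
  have d1 : det3 (edge K.P i) e (edge K.P j) ≠ 0 := by
    rw [show det3 (edge K.P i) e (edge K.P j) = - det3 e (edge K.P i) (edge K.P j) by
      unfold det3; ring]
    exact neg_ne_zero.2 hd
  have d2 : det3 (edge K.P j) e (edge K.P i) ≠ 0 := by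
    rw [show det3 (edge K.P j) e (edge K.P i) = det3 e (edge K.P i) (edge K.P j) by
      unfold det3; ring]
    exact hd
  refine ⟨?_, ?_, ?_⟩
  · unfold xpos
    rw [eq_div_iff d1, hw]
    simp only [det3, Pi.sub_apply, Pi.add_apply, Pi.smul_apply, smul_eq_mul]
    ring
  · unfold xpos
    rw [eq_div_iff d2, hw']
    simp only [det3, Pi.neg_apply, Pi.sub_apply, Pi.add_apply, Pi.smul_apply, smul_eq_mul]
    ring
  · unfold alt
    rw [eq_div_iff hd, hw]
    simp only [det3, Pi.sub_apply, Pi.add_apply, Pi.smul_apply, smul_eq_mul]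
    ring

/-- A coincidence of two points of the polygon in a view is a crossing of two edges at interior
points. [`x, y` are different from `0, 1` by `hV.vert` (it gives `c = 0`). If `det3 e E_i E_j = 0`:
`e, E_i` are independent (`View.indep`), so `E_j = p e + q E_i`, and `q ≠ 0` (`View.indep` for `j`). For all
`u`: `P_j + (y + u) E_j = P_i + (x + u q) E_i + (c + u p) e`. Let `[u₁, u₂] ∋ 0` be the interval of all `u`
with `y + u ∈ [0, 1]`, `x + u q ∈ [0, 1]`. At `u₁` and at `u₂` one of the two points is a vertex, so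
`c + u₁ p = 0 = c + u₂ p` by `hV.vert`. If `u₁ < u₂` then `p = 0`, so `c = 0`; if `u₁ = u₂ = 0` then
`c = 0`: contradiction.] -/
theorem View.under_of_over {K : PolyKnot} {e : E3} (hV : View K e) (i j : ℤ) (x y c : ℝ)
    (hx0 : 0 ≤ x) (hx1 : x ≤ 1) (hy0 : 0 ≤ y) (hy1 : y ≤ 1) (hc : 0 < c)
    (h : K.P j + y • edge K.P j = K.P i + x • edge K.P i + c • e) :
    Under K e i j ∧ x = xpos K e i j ∧ y = xpos K e j i ∧ c = alt K e i j := by
  have hnv : ¬ (y = 0 ∨ y = 1 ∨ x = 0 ∨ x = 1) := fun hor =>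
    hc.ne' (hV.vert_or i j x y c hx0 hx1 hy0 hy1 hor h)
  push Not at hnv
  obtain ⟨n1, n2, n3, n4⟩ := hnv
  have hx0' : 0 < x := lt_of_le_of_ne hx0 (Ne.symm n3)
  have hx1' : x < 1 := lt_of_le_of_ne hx1 n4
  have hy0' : 0 < y := lt_of_le_of_ne hy0 (Ne.symm n1)
  have hy1' : y < 1 := lt_of_le_of_ne hy1 n2
  have hd : det3 e (edge K.P i) (edge K.P j) ≠ 0 := by
    intro hd
    obtain ⟨p, q, hpq⟩ := mem_plane e (edge K.P i) (edge K.P j) hd (hV.indep i)
    have hq : q ≠ 0 := by
      rintro rfl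
      rw [zero_smul, add_zero] at hpq
      have := hV.indep j p (-1) (by rw [hpq, neg_one_smul, add_neg_cancel])
      linarith [this.2]
    have hall : ∀ u : ℝ, K.P j + (y + u) • edge K.P j =
        K.P i + (x + u * q) • edge K.P i + (c + u * p) • e := by
      intro u
      have e1 : K.P j + (y + u) • edge K.P j = (K.P j + y • edge K.P j) + u • edge K.P j := by
        rw [add_smul]
        abel
      have e2 : u • edge K.P j = (u * p) • e + (u * q) • edge K.P i := by
        rw [hpq, smul_add, smul_smul, smul_smul]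
      rw [e1, h, e2, add_smul, add_smul]
      abel
    obtain ⟨u, hu, a1, a2, a3, a4, a5⟩ := exit_param x y q hx0' hx1' hy0' hy1' hq
    obtain ⟨v, hv, b1, b2, b3, b4, b5⟩ := exit_param x (1 - y) (-q) hx0' hx1' (by linarith)
      (by linarith) (neg_ne_zero.2 hq)
    have k1 : c + u * p = 0 := hV.vert_or i j (x + u * q) (y + u) _ a3 a4 a1 a2 (by
      rcases a5 with h | h | h
      · exact Or.inr (Or.inl h)
      · exact Or.inr (Or.inr (Or.inl h))
      · exact Or.inr (Or.inr (Or.inr h))) (hall u)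
    have k2 : c + (-v) * p = 0 := hV.vert_or i j (x + (-v) * q) (y + (-v)) _
      (by linarith) (by linarith) (by linarith) (by linarith) (by
      rcases b5 with h | h | h
      · exact Or.inl (by linarith)
      · exact Or.inr (Or.inr (Or.inl (by linarith)))
      · exact Or.inr (Or.inr (Or.inr (by linarith)))) (hall (-v))
    rcases lt_trichotomy p 0 with hp | hp | hp
    · nlinarith
    · rw [hp] at k1
      linarith
    · nlinarith
  obtain ⟨e1, e2, e3⟩ := line_cross_unique K e i j hd x y c h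
  refine ⟨⟨hd, ?_, ?_, ?_⟩, e1, e2, e3⟩
  · rw [← e1]
    exact ⟨hx0', hx1'⟩
  · rw [← e2]
    exact ⟨hy0', hy1'⟩
  · rw [← e3]
    exact hc

/-- The relation `Over` in terms of edges. -/
theorem View.over_iff {K : PolyKnot} {e : E3} (hV : View K e) (s s' : ℝ) :
    Over K e s s' ↔ Under K e ⌊s⌋ ⌊s'⌋ ∧ Int.fract s = xpos K e ⌊s⌋ ⌊s'⌋ ∧
      Int.fract s' = xpos K e ⌊s'⌋ ⌊s⌋ := by
  constructor
  · rintro ⟨c, hc, h⟩
    obtain ⟨h1, h2, h3, -⟩ := hV.under_of_over ⌊s⌋ ⌊s'⌋ (Int.fract s) (Int.fract s') c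
      (Int.fract_nonneg s) (Int.fract_lt_one s).le (Int.fract_nonneg s') (Int.fract_lt_one s').le
      hc h
    exact ⟨h1, h2, h3⟩
  · rintro ⟨h1, h2, h3⟩
    refine ⟨alt K e ⌊s⌋ ⌊s'⌋, h1.2.2.2, ?_⟩
    unfold gam
    rw [h2, h3]
    exact line_cross K e _ _ h1.1

/-- From an undercrossing to the curve. -/
theorem Under.over {K : PolyKnot} {e : E3} {i j : ℤ} (h : Under K e i j) :
    Over K e (i + xpos K e i j) (j + xpos K e j i) := by
  refine ⟨alt K e i j, h.2.2.2, ?_⟩
  rw [gam_edge K i _ h.2.1.1.le h.2.1.2.le, gam_edge K j _ h.2.2.1.1.le h.2.2.1.2.le]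
  exact line_cross K e i j h.1

/-- No line parallel to `e` meets the polygon in three points. -/
theorem View.triple_gam {K : PolyKnot} {e : E3} (hV : View K e) (s s₁ s₂ c₁ c₂ : ℝ) (h1 : 0 < c₁)
    (h2 : c₁ < c₂) (e1 : gam K s₁ = gam K s + c₁ • e) (e2 : gam K s₂ = gam K s + c₂ • e) : False := by
  obtain ⟨u1, x1, y1⟩ := (hV.over_iff s s₁).1 ⟨c₁, h1, e1⟩
  obtain ⟨u2, x2, y2⟩ := (hV.over_iff s s₂).1 ⟨c₂, h1.trans h2, e2⟩
  obtain ⟨m, hm⟩ := hV.triple _ _ _ u1 u2 (x1.symm.trans x2)
  have hfl : ⌊s₁⌋ = ⌊s₂⌋ + m * K.n := by linarith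
  have hfr : Int.fract s₁ = Int.fract s₂ := by
    rw [y1, y2, hfl]
    simp only [xpos, P_add, edge_add]
  have hs : s₁ = s₂ + m * K.n := by
    have k1 := Int.floor_add_fract s₁
    have k2 := Int.floor_add_fract s₂
    have k3 : (⌊s₁⌋ : ℝ) = ⌊s₂⌋ + m * K.n := by
      rw [hfl]
      push_cast
      ring
    rw [← k1, k3, hfr]
    linarith
  rw [hs, gam_add, e2] at e1
  have e3 : (c₂ - c₁) • e = 0 := by
    rw [sub_smul, sub_eq_zero]
    exact add_left_cancel e1
  rcases smul_eq_zero.1 e3 with h | h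
  · linarith
  · exact hV.ne_zero h

theorem Under.shift {K : PolyKnot} {e : E3} {i j : ℤ} (h : Under K e i j) (k l : ℤ) :
    Under K e (i + k * K.n) (j + l * K.n) := by
  unfold Under xpos alt at *
  simp only [P_add, edge_add]
  exact h

theorem xpos_shift (K : PolyKnot) (e : E3) (i j k l : ℤ) :
    xpos K e (i + k * K.n) (j + l * K.n) = xpos K e i j := by
  simp only [xpos, P_add, edge_add]

theorem sgn_shift (K : PolyKnot) (e : E3) (i j k l : ℤ) :
    sgn K e (i + k * K.n) (j + l * K.n) = sgn K e i j := by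
  simp only [sgn, edge_add]

theorem cnt_shift (K : PolyKnot) (e : E3) (i k : ℤ) (x : ℝ) :
    cnt K e (i + k * K.n) x = cnt K e i x := by
  have h : ∀ l : ℕ, (Under K e (i + k * K.n) l ∧ xpos K e (i + k * K.n) l < x) ↔
      (Under K e i l ∧ xpos K e i l < x) := by
    intro l
    simp only [Under, xpos, alt, P_add, edge_add]
  unfold cnt
  congr 1
  ext l
  simp only [Finset.mem_filter, h]

/-- A characterisation of views in terms of the curve. -/
theorem view_iff (K : PolyKnot) (e : E3) : View K e ↔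
    (∀ (i : ℤ) (s c : ℝ), gam K s = gam K i + c • e → c = 0) ∧
    (∀ s s₁ s₂ c₁ c₂ : ℝ, 0 < c₁ → c₁ < c₂ → gam K s₁ = gam K s + c₁ • e →
      gam K s₂ = gam K s + c₂ • e → False) := by
  constructor
  · intro hV
    refine ⟨fun i s c h => hV.vert_gam i s c (by rw [h, gam_int]), ?_⟩
    intro s s₁ s₂ c₁ c₂ h1 h2 e1 e2
    exact hV.triple_gam s s₁ s₂ c₁ c₂ h1 h2 e1 e2
  · rintro ⟨h1, h2⟩
    refine ⟨?_, ?_⟩
    · intro i j x c hx0 hx1 h
      exact h1 i (j + x) c (by rw [gam_edge K j x hx0 hx1, gam_int, h])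
    · intro i j l hj hl hx
      obtain ⟨c₁, hc1, e1⟩ := hj.over
      obtain ⟨c₂, hc2, e2⟩ := hl.over
      rw [← hx] at e2
      rcases lt_trichotomy c₁ c₂ with h | h | h
      · exact (h2 _ _ _ c₁ c₂ hc1 h e1 e2).elim
      · rw [← h, ← e1] at e2
        obtain ⟨m, hm⟩ := gam_inj K _ _ e2
        have k1 : ⌊(j : ℝ) + xpos K e j i⌋ = j := by
          rw [Int.floor_intCast_add, Int.floor_eq_zero_iff.2 ⟨hj.2.2.1.1.le, hj.2.2.1.2⟩, add_zero]
        have k2 : ⌊(l : ℝ) + xpos K e l i⌋ = l := by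
          rw [Int.floor_intCast_add, Int.floor_eq_zero_iff.2 ⟨hl.2.2.1.1.le, hl.2.2.1.2⟩, add_zero]
        have k3 : j = l + m * K.n := by
          rw [← k1, hm, show (l : ℝ) + xpos K e l i + m * K.n =
            (l : ℝ) + xpos K e l i + ((m * K.n : ℤ) : ℝ) by push_cast; ring,
            Int.floor_add_intCast, k2]
        exact ⟨m, by rw [k3]; ring⟩
      · exact (h2 _ _ _ c₂ c₁ hc2 h e2 e1).elim

end Pool.Agent.helper43.SBI
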