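import Pool.Agent.helper82.SB.Basic

set_option autoImplicit false

/-!
# Coloured diagrams of polygonal knots

Diagrams of a polygonal knot in a view `e` (the projection along the line `ℝ e`, upward direction `e`)
and their colourings by an augmented quandle with a twist `tau` along the knot.
-/

namespace Pool.Agent.helper43.SBI

open Pool.Agent.helper82.SB

/-- The position (in `[0, 1]`) on the line of edge `i` at which it passes above or below the line of
edge `j` in the view `e`. -/
noncomputable def xpos (K : PolyKnot) (e : E3) (i j : ℤ) : ℝ :=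
  det3 (K.P j - K.P i) e (edge K.P j) / det3 (edge K.P i) e (edge K.P j)

/-- The height (in units of `e`) of the line of edge `j` over the line of edge `i` at the place where
they cross in the view `e`. -/
noncomputable def alt (K : PolyKnot) (e : E3) (i j : ℤ) : ℝ :=
  det3 (K.P j - K.P i) (edge K.P i) (edge K.P j) / det3 e (edge K.P i) (edge K.P j)

/-- Edge `i` passes below edge `j` in the view `e` (at interior points of both). -/
def Under (K : PolyKnot) (e : E3) (i j : ℤ) : Prop :=
  det3 e (edge K.P i) (edge K.P j) ≠ 0 ∧ (0 < xpos K e i j ∧ xpos K e i j < 1) ∧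
    (0 < xpos K e j i ∧ xpos K e j i < 1) ∧ 0 < alt K e i j

open Classical in
/-- The number of undercrossings of edge `i` at positions `< x`. -/
noncomputable def cnt (K : PolyKnot) (e : E3) (i : ℤ) (x : ℝ) : ℕ :=
  ((Finset.range K.n).filter fun l : ℕ => Under K e i l ∧ xpos K e i l < x).card

/-- The sign of the crossing of edge `i` (under) and edge `j` (over); it is `1` if
`det (e, E i, E j) > 0` and `-1` otherwise. -/
noncomputable def sgn (K : PolyKnot) (e : E3) (i j : ℤ) : ℤ :=
  if 0 < det3 e (edge K.P i) (edge K.P j) then 1 else -1

/-- The direction `e` is a (weakly) generic view of the polygonal knot `K`: no vertex is hidden by or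
hides another point of `K`, and no line parallel to `e` meets `K` in three points. (This implies that
`e` is nonzero and not parallel to any edge.) -/
structure View (K : PolyKnot) (e : E3) : Prop where
  vert : ∀ (i j : ℤ) (x c : ℝ), 0 ≤ x → x ≤ 1 → K.P j + x • edge K.P j = K.P i + c • e → c = 0
  triple : ∀ i j l : ℤ, Under K e i j → Under K e i l → xpos K e i j = xpos K e i l →
    (K.n : ℤ) ∣ j - l

/-- An augmented quandle (a `G`-set `Y` with an equivariant map `del : Y → G`, such that `del y` fixes
`y`), together with a map `tau` which commutes with `G` and preserves `del`. -/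
structure AQ (Y G : Type*) [Group G] [MulAction G Y] where
  /-- the structure map -/
  del : Y → G
  /-- the twist -/
  tau : Y → Y
  del_smul : ∀ (g : G) (y : Y), del (g • y) = g * del y * g⁻¹
  del_self : ∀ y : Y, del y • y = y
  tau_smul : ∀ (g : G) (y : Y), tau (g • y) = g • tau y
  del_tau : ∀ y : Y, del (tau y) = del y

variable {Y G : Type*} [Group G] [MulAction G Y]

/-- A (twisted) colouring of the diagram of `K` in the view `e`: `T i k` is the colour of the part of
edge `i` after its first `k` undercrossings (only `k ≤ cnt K e i 1` is relevant). -/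
structure IsColoring (Q : AQ Y G) (K : PolyKnot) (e : E3) (T : ℤ → ℕ → Y) : Prop where
  per : ∀ i k, T (i + K.n) k = Q.tau (T i k)
  vertex : ∀ i, T (i + 1) 0 = T i (cnt K e i 1)
  cross : ∀ i j, Under K e i j →
    T i (cnt K e i (xpos K e i j) + 1) =
      Q.del (T j (cnt K e j (xpos K e j i))) ^ sgn K e i j • T i (cnt K e i (xpos K e i j))

/-- A family of subsets of `Y` closed under the quandle operations. -/
def ClosedFam (Q : AQ Y G) (F : Set (Set Y)) : Prop :=
  ∀ A ∈ F, ∀ y ∈ A, ∀ z ∈ A, Q.del z • y ∈ A ∧ (Q.del z)⁻¹ • y ∈ A

/-- The colours do not all lie in one member of the family `F`. -/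
def Full (F : Set (Set Y)) (K : PolyKnot) (e : E3) (T : ℤ → ℕ → Y) : Prop :=
  ∀ A ∈ F, ∃ i k, k ≤ cnt K e i 1 ∧ T i k ∉ A

/-- The statement of the main theorem of this block: the existence of a full colouring does not depend
on the view and is invariant under equivalence of polygonal knots. -/
def InvStatement : Prop :=
  ∀ {Y G : Type} [Group G] [MulAction G Y] (Q : AQ Y G) (F : Set (Set Y)), ClosedFam Q F →
    ∀ K L : PolyKnot, Equivalent K L →
      (∃ e, View K e ∧ ∃ T, IsColoring Q K e T ∧ Full F K e T) →
      ∀ e, View L e → ∃ T, IsColoring Q L e T ∧ Full F L e T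

end Pool.Agent.helper43.SBI
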