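import Pool.Agent.helper43.SBI.Defs

set_option autoImplicit false

/-!
# Colourings as functions on the real line

The closed polygon `K` is the image of the periodic curve `gam K : ℝ → E3`; the point with parameter
`s` lies on edge `⌊s⌋`. A colouring is a function `c : ℝ → Y` (its values at the undercrossings are
irrelevant).
-/

namespace Pool.Agent.helper43.SBI

open Pool.Agent.helper82.SB Filter Topology

/-- The closed polygon as a curve with period `n`. -/
noncomputable def gam (K : PolyKnot) (s : ℝ) : E3 := K.P ⌊s⌋ + Int.fract s • edge K.P ⌊s⌋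

/-- The point `s'` of the curve lies over the point `s` in the view `e`. -/
def Over (K : PolyKnot) (e : E3) (s s' : ℝ) : Prop := ∃ c : ℝ, 0 < c ∧ gam K s' = gam K s + c • e

variable {Y G : Type*} [Group G] [MulAction G Y]

/-- Colourings in the function form. -/
structure FCol (Q : AQ Y G) (K : PolyKnot) (e : E3) (c : ℝ → Y) : Prop where
  per : ∀ s, c (s + K.n) = Q.tau (c s)
  const : ∀ s, (∀ s', ¬ Over K e s s') → ∀ᶠ r in 𝓝 s, c r = c s
  jump : ∀ s s', Over K e s s' → ∃ a, (∀ᶠ r in 𝓝[<] s, c r = a) ∧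
    ∀ᶠ r in 𝓝[>] s, c r = Q.del (c s') ^ sgn K e ⌊s⌋ ⌊s'⌋ • a

/-- Fullness in the function form. -/
def FFull (F : Set (Set Y)) (K : PolyKnot) (e : E3) (c : ℝ → Y) : Prop :=
  ∀ A ∈ F, ∃ s, (∀ s', ¬ Over K e s s') ∧ c s ∉ A

/-- Two directions which are in general position to each other with respect to `K`. -/
structure PairGen (K : PolyKnot) (e f : E3) : Prop where
  det : ∀ i, det3 e f (edge K.P i) ≠ 0
  cross : ∀ (s s₁ s₂ a b : ℝ), gam K s₁ = gam K s + a • e → gam K s₂ = gam K s + b • f →
    a = 0 ∨ b = 0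

/-- The existence of a full colouring in some view. -/
def HasFull (Q : AQ Y G) (F : Set (Set Y)) (K : PolyKnot) (e : E3) : Prop :=
  View K e ∧ ∃ c, FCol Q K e c ∧ FFull F K e c

end Pool.Agent.helper43.SBI
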