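import Pool.Agent.helper43.SBI.Fun

set_option autoImplicit false

/-!
# SBI-1 : basic properties of the curve `gam`
-/

namespace Pool.Agent.helper43.SBI

open Pool.Agent.helper82.SB Filter Topology

theorem P_add (K : PolyKnot) (i m : ℤ) : K.P (i + m * K.n) = K.P i := by
  induction m using Int.induction_on with
  | zero => simp
  | succ m ih =>
    rw [show i + ((m : ℤ) + 1) * (K.n : ℤ) = (i + m * K.n) + K.n by ring, K.per, ih]
  | pred m ih =>
    rw [← K.per (i + (-(m : ℤ) - 1) * K.n),
      show i + (-(m : ℤ) - 1) * (K.n : ℤ) + K.n = i + -(m : ℤ) * K.n by ring, ih]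

theorem edge_add (K : PolyKnot) (i m : ℤ) : edge K.P (i + m * K.n) = edge K.P i := by
  unfold edge
  rw [show i + m * (K.n : ℤ) + 1 = (i + 1) + m * K.n by ring, P_add, P_add]

theorem gam_add (K : PolyKnot) (s : ℝ) (m : ℤ) : gam K (s + m * K.n) = gam K s := by
  have e : s + m * K.n = s + ((m * K.n : ℤ) : ℝ) := by push_cast; ring
  unfold gam
  rw [e, Int.floor_add_intCast, Int.fract_add_intCast, P_add, edge_add]

theorem gam_per (K : PolyKnot) (s : ℝ) : gam K (s + K.n) = gam K s := by
  have := gam_add K s 1
  rwa [Int.cast_one, one_mul] at this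

theorem gam_int (K : PolyKnot) (i : ℤ) : gam K i = K.P i := by
  unfold gam
  rw [Int.floor_intCast, Int.fract_intCast, zero_smul, add_zero]

/-- The formula for `gam` holds on closed edges. -/
theorem gam_edge (K : PolyKnot) (i : ℤ) (x : ℝ) (h0 : 0 ≤ x) (h1 : x ≤ 1) :
    gam K (i + x) = K.P i + x • edge K.P i := by
  rcases lt_or_eq_of_le h1 with h | h
  · have hf : ⌊(i : ℝ) + x⌋ = i := by
      rw [Int.floor_eq_iff]
      constructor <;> linarith
    unfold gam
    rw [hf]
    congr 2
    unfold Int.fract
    rw [hf]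
    ring
  · subst h
    have e : (i : ℝ) + 1 = ((i + 1 : ℤ) : ℝ) := by push_cast; ring
    rw [e, gam_int]
    unfold edge
    rw [one_smul, add_sub_cancel]

theorem gam_continuous (K : PolyKnot) : Continuous (gam K) := by
  rw [continuous_iff_continuousAt]
  intro s
  set i : ℤ := ⌊s⌋ with hi
  have h1 : (i : ℝ) ≤ s := Int.floor_le s
  have h2 : s < i + 1 := Int.lt_floor_add_one s
  have hc : Continuous fun r : ℝ => if r ≤ (i : ℝ) then
      K.P (i - 1) + (r - (i - 1)) • edge K.P (i - 1) else K.P i + (r - i) • edge K.P i := by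
    refine Continuous.if_le (by fun_prop) (by fun_prop) continuous_id continuous_const ?_
    intro r hr
    rw [hr]
    unfold edge
    rw [sub_self, zero_smul, add_zero, sub_add_cancel, show (i : ℝ) - (i - 1) = 1 by ring, one_smul,
      add_sub_cancel]
  refine hc.continuousAt.congr ?_
  have hm : Set.Ioo ((i : ℝ) - 1) (i + 1) ∈ 𝓝 s := Ioo_mem_nhds (by linarith) h2
  filter_upwards [hm] with r hr
  split_ifs with h
  · have := gam_edge K (i - 1) (r - (i - 1)) (by linarith [hr.1]) (by linarith)
    rw [← this]
    congr 1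
    push_cast
    ring
  · push Not at h
    have := gam_edge K i (r - i) (by linarith) (by linarith [hr.2])
    rw [← this]
    congr 1
    ring

private theorem edge_ne (K : PolyKnot) (i : ℤ) : edge K.P i ≠ 0 := by
  intro h
  have h1 := K.corner (i + 1)
  rw [add_sub_cancel_right] at h1
  apply h1
  have h2 : K.P i - K.P (i + 1) = 0 := by
    unfold edge at h
    rw [← neg_sub, h, neg_zero]
  rw [h2]
  exact SameRay.zero_left _

/-- adjacent edges meet only in the common vertex -/
private theorem adj (K : PolyKnot) (i : ℤ) (x y : ℝ) (hx : x < 1) (hy : 0 ≤ y)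
    (h : K.P i + x • edge K.P i = K.P (i + 1) + y • edge K.P (i + 1)) : False := by
  have h1 := K.corner (i + 1)
  rw [add_sub_cancel_right] at h1
  apply h1
  have h2 : (1 - x) • (K.P i - K.P (i + 1)) = y • (K.P (i + 1 + 1) - K.P (i + 1)) := by
    unfold edge at h
    have h3 : y • (K.P (i + 1 + 1) - K.P (i + 1)) =
        K.P i + x • (K.P (i + 1) - K.P i) - K.P (i + 1) := by
      rw [h]
      abel
    rw [h3]
    module
  have h1x : 0 < 1 - x := by linarith
  rcases hy.lt_or_eq with hy' | hy'
  · exact Or.inr (Or.inr ⟨1 - x, y, h1x, hy', h2⟩)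
  · rw [← hy', zero_smul, smul_eq_zero] at h2
    rcases h2 with h2 | h2
    · exact absurd h2 h1x.ne'
    · rw [h2]
      exact SameRay.zero_left _

private theorem mem_seg (K : PolyKnot) (i : ℤ) (x : ℝ) (h0 : 0 ≤ x) (h1 : x ≤ 1) :
    K.P i + x • edge K.P i ∈ segment ℝ (K.P i) (K.P (i + 1)) := by
  rw [segment_eq_image']
  exact ⟨x, ⟨h0, h1⟩, rfl⟩

private theorem inj_aux (K : PolyKnot) (i j : ℤ) (x y : ℝ) (hx0 : 0 ≤ x) (hx1 : x < 1) (hy0 : 0 ≤ y)
    (hy1 : y < 1) (h1 : i ≤ j) (h2 : j < i + K.n)
    (h : K.P i + x • edge K.P i = K.P j + y • edge K.P j) : j = i ∧ x = y := by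
  rcases eq_or_lt_of_le h1 with h3 | h3
  · subst h3
    refine ⟨rfl, ?_⟩
    have h4 : (x - y) • edge K.P i = 0 := by
      rw [sub_smul, sub_eq_zero]
      exact add_left_cancel h
    rcases smul_eq_zero.1 h4 with h5 | h5
    · linarith
    · exact absurd h5 (edge_ne K i)
  · exfalso
    by_cases h4 : j = i + 1
    · subst h4
      exact adj K i x y hx1 hy0 h
    · by_cases h5 : j + 1 = i + K.n
      · refine adj K j y x hy1 hx0 ?_
        have h6 : K.P (j + 1) = K.P i := by rw [h5, K.per]
        have h7 : edge K.P (j + 1) = edge K.P i := by rw [h5]; exact edge_per K.per i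
        rw [h6, h7]
        exact h.symm
      · have h6 := K.disj i j (by omega) (by omega)
        rw [Set.disjoint_left] at h6
        refine h6 (mem_seg K i x hx0 hx1.le) ?_
        rw [h]
        exact mem_seg K j y hy0 hy1.le

/-- The polygon is simple. [Same edge: injectivity of the parametrisation, since the edge vector is
nonzero. Adjacent edges: `K.corner` (if a point of edge `i` and a point of edge `i + 1` coincide then
the vectors from `P (i + 1)` to `P i` and to `P (i + 2)` point in the same direction, unless the point is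
the common vertex). Other edges: `K.disj`; note that `i` and `j` can be shifted by multiples of `n` so
that `i ≤ j < i + n`.] -/
theorem gam_inj (K : PolyKnot) (s s' : ℝ) (h : gam K s = gam K s') : ∃ m : ℤ, s' = s + m * K.n := by
  have hn : (0 : ℤ) < K.n := by
    have := K.three
    omega
  set i : ℤ := ⌊s⌋ with hi
  set j : ℤ := ⌊s'⌋ with hj
  set m : ℤ := (j - i) / K.n with hm
  have e1 := Int.emod_add_mul_ediv (j - i) K.n
  have e2 := Int.emod_nonneg (j - i) hn.ne'
  have e3 := Int.emod_lt_of_pos (j - i) hn
  have e4 : (K.n : ℤ) * ((j - i) / K.n) = m * K.n := by rw [hm]; ring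
  rw [e4] at e1
  have hP : K.P (j - m * K.n) = K.P j := by
    have := P_add K (j - m * K.n) m
    rw [sub_add_cancel] at this
    exact this.symm
  have hE : edge K.P (j - m * K.n) = edge K.P j := by
    have := edge_add K (j - m * K.n) m
    rw [sub_add_cancel] at this
    exact this.symm
  obtain ⟨h1, h2⟩ := inj_aux K i (j - m * K.n) (Int.fract s) (Int.fract s') (Int.fract_nonneg s)
    (Int.fract_lt_one s) (Int.fract_nonneg s') (Int.fract_lt_one s') (by omega) (by omega)
    (by rw [hP, hE]; exact h)
  refine ⟨m, ?_⟩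
  have h3 : (j : ℝ) = i + m * K.n := by
    have : j = i + m * K.n := by omega
    rw [this]
    push_cast
    ring
  have h4 : s = i + Int.fract s := (Int.floor_add_fract s).symm
  have h5 : s' = j + Int.fract s' := (Int.floor_add_fract s').symm
  rw [h5, ← h2, h3]
  linarith

/-- Views in the language of `gam`: no vertex is hidden by or hides another point. -/
theorem View.vert_gam {K : PolyKnot} {e : E3} (hV : View K e) (i : ℤ) (s c : ℝ)
    (h : gam K s = K.P i + c • e) : c = 0 :=
  hV.vert i ⌊s⌋ (Int.fract s) c (Int.fract_nonneg s) (Int.fract_lt_one s).le h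

theorem View.ne_zero {K : PolyKnot} {e : E3} (hV : View K e) : e ≠ 0 := by
  intro h
  have := hV.vert 0 0 0 1 le_rfl zero_le_one (by rw [h]; simp)
  exact one_ne_zero this

/-- The view direction is not parallel to an edge. -/
theorem View.indep {K : PolyKnot} {e : E3} (hV : View K e) (i : ℤ) (a b : ℝ)
    (h : a • e + b • edge K.P i = 0) : a = 0 ∧ b = 0 := by
  have hb : b = 0 := by
    by_contra hb
    have h1 : edge K.P i = (-a / b) • e := by
      have h2 : b • edge K.P i = (-a) • e := by
        rw [neg_smul]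
        exact eq_neg_of_add_eq_zero_right h
      rw [div_eq_inv_mul, mul_smul, ← h2, smul_smul, inv_mul_cancel₀ hb, one_smul]
    have h3 := hV.vert i i 1 (-a / b) zero_le_one le_rfl (by rw [one_smul, h1])
    rw [h3, zero_smul] at h1
    exact edge_ne K i h1
  subst hb
  rw [zero_smul, add_zero, smul_eq_zero] at h
  rcases h with h | h
  · exact ⟨h, rfl⟩
  · exact absurd h hV.ne_zero

end Pool.Agent.helper43.SBI
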