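import Pool.Agent.helper43.SBI.Crossing

set_option autoImplicit false

/-!
# SBI-5 : generic directions
-/

namespace Pool.Agent.helper43.SBI

open Pool.Agent.helper82.SB Filter Topology

/-- The real function `φ` of three variables is given by a polynomial and not identically zero. -/
def NZPoly (φ : E3 → ℝ) : Prop := (∃ p : MvPolynomial (Fin 3) ℝ, ∀ v, φ v = MvPolynomial.eval v p) ∧
  ∃ v, φ v ≠ 0

/-- SBI-5a. Finitely many nonzero polynomials have a common non-root in every nonempty open set.
[The product is a nonzero polynomial, `MvPolynomial.funext`; restrict to an open box, i.e. use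
`MvPolynomial.funext_set` (polynomials that agree on a product of infinite sets are equal), or argue
with lines: a polynomial vanishing on an open set vanishes on all lines through a point of it.] -/
theorem exists_common_nonroot {ι : Type*} (s : Finset ι) (φ : ι → E3 → ℝ)
    (h : ∀ i ∈ s, NZPoly (φ i)) (U : Set E3) (hU : IsOpen U) (hne : U.Nonempty) :
    ∃ v ∈ U, ∀ i ∈ s, φ i v ≠ 0 := by
  classical
  -- the polynomials
  have hp : ∀ i, ∃ p : MvPolynomial (Fin 3) ℝ, i ∈ s →
      (p ≠ 0 ∧ ∀ v, φ i v = MvPolynomial.eval v p) := by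
    intro i
    by_cases hi : i ∈ s
    · obtain ⟨⟨p, hp⟩, v, hv⟩ := h i hi
      refine ⟨p, fun _ => ⟨?_, hp⟩⟩
      rintro rfl
      exact hv (by rw [hp v, map_zero])
    · exact ⟨0, fun h => absurd h hi⟩
  choose p hp using hp
  have hprod : (∏ i ∈ s, p i) ≠ 0 := Finset.prod_ne_zero_iff.2 fun i hi => (hp i hi).1
  obtain ⟨x, hx⟩ := hne
  obtain ⟨ε, hε, hball⟩ := Metric.isOpen_iff.1 hU x hx
  by_contra hcon
  push Not at hcon
  apply hprod
  refine MvPolynomial.funext_set (fun j => Set.Ioo (x j) (x j + ε / 2))
    (fun j => Set.Ioo_infinite (by linarith)) fun v hv => ?_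
  have hvU : v ∈ U := by
    apply hball
    rw [Metric.mem_ball, dist_pi_lt_iff hε]
    intro j
    have := hv j (Set.mem_univ j)
    rw [Real.dist_eq, abs_lt]
    constructor <;> linarith [this.1, this.2]
  obtain ⟨i, hi, h0⟩ := hcon v hvU
  rw [map_prod, map_zero]
  exact Finset.prod_eq_zero hi (by rw [← (hp i hi).2 v, h0])

/-- SBI-5b. The linear form `f ↦ det3 f a b`, `a, b` independent. -/
theorem nzpoly_det3 (a b : E3) (h : ∀ p q : ℝ, p • a + q • b = 0 → p = 0 ∧ q = 0) :
    NZPoly (fun f => det3 f a b) := by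
  constructor
  · refine ⟨MvPolynomial.X 0 * MvPolynomial.C (a 1 * b 2 - a 2 * b 1)
      - MvPolynomial.X 1 * MvPolynomial.C (a 0 * b 2 - a 2 * b 0)
      + MvPolynomial.X 2 * MvPolynomial.C (a 0 * b 1 - a 1 * b 0), fun v => ?_⟩
    simp only [map_add, map_sub, map_mul, MvPolynomial.eval_X, MvPolynomial.eval_C, det3]
  · by_contra hcon
    push Not at hcon
    have h0 : a 1 * b 2 - a 2 * b 1 = 0 := by
      have := hcon ![1, 0, 0]
      simpa [det3] using this
    have h1 : a 0 * b 2 - a 2 * b 0 = 0 := by
      have := hcon ![0, 1, 0]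
      have h' : a 2 * b 0 - a 0 * b 2 = 0 := by simpa [det3] using this
      linarith
    have h2 : a 0 * b 1 - a 1 * b 0 = 0 := by
      have := hcon ![0, 0, 1]
      simpa [det3] using this
    have hk : ∀ k, a k = 0 := by
      intro k
      have := (h (b k) (-a k) (by
        ext j
        fin_cases k <;> fin_cases j <;> simp <;> linarith)).2
      linarith
    have := (h 1 0 (by
      ext j
      simp [hk])).1
    exact one_ne_zero this

end Pool.Agent.helper43.SBI
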