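import Pool.Agent.helper43.SBI.Gen1

set_option autoImplicit false

/-!
# SBI-5c, d : conditions for a direction to be a view
-/

namespace Pool.Agent.helper43.SBI

open Pool.Agent.helper82.SB Filter Topology

theorem gen2_cramer (a b c v : E3) :
    det3 a b c • v = det3 v b c • a + det3 a v c • b + det3 a b v • c := by
  ext k
  fin_cases k <;> simp [det3] <;> ring

/-- the polynomial `v ↦ det3 a v b` -/
noncomputable def gen2_dp (a b : E3) : MvPolynomial (Fin 3) ℝ :=
  MvPolynomial.C (a 0) * (MvPolynomial.X 1 * MvPolynomial.C (b 2) - MvPolynomial.X 2 * MvPolynomial.C (b 1)) -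
  MvPolynomial.C (a 1) * (MvPolynomial.X 0 * MvPolynomial.C (b 2) - MvPolynomial.X 2 * MvPolynomial.C (b 0)) +
  MvPolynomial.C (a 2) * (MvPolynomial.X 0 * MvPolynomial.C (b 1) - MvPolynomial.X 1 * MvPolynomial.C (b 0))

theorem gen2_dp_eval (a b v : E3) : MvPolynomial.eval v (gen2_dp a b) = det3 a v b := by
  simp [gen2_dp, det3]

theorem gen2_ident (u w Ei Ej El : E3) (x y : ℝ) :
    det3 u (u + y • Ej - x • Ei) Ej * det3 Ei (u + y • Ej - x • Ei) El -
      det3 w (u + y • Ej - x • Ei) El * det3 Ei (u + y • Ej - x • Ei) Ej =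
    det3 u Ei Ej * det3 (w - x • Ei) ((u - w) + y • Ej) El := by
  simp [det3]
  ring

theorem gen2_bil (w v Ei Ej El : E3) (x y : ℝ) :
    det3 (w - x • Ei) (v + y • Ej) El =
      det3 w v El - x * det3 Ei v El + y * det3 w Ej El - x * y * det3 Ei Ej El := by
  simp [det3]
  ring

theorem gen2_swap (a b c : E3) : det3 b a c = - det3 a b c := by
  simp [det3]
  ring

theorem gen2_par {w Ei El v : E3} (hd : det3 w Ei El ≠ 0) (h1 : det3 w v El = 0)
    (h2 : det3 Ei v El = 0) : ∃ c : ℝ, v = c • El := by
  refine ⟨det3 w Ei v / det3 w Ei El, ?_⟩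
  have h := gen2_cramer w Ei El v
  have h3 : det3 v Ei El = 0 := by rw [gen2_swap, h2, neg_zero]
  rw [h1, h3, zero_smul, zero_smul, zero_add, zero_add] at h
  rw [div_eq_inv_mul, mul_smul, ← h, smul_smul, inv_mul_cancel₀ hd, one_smul]

/-- The quadratic form whose zeros `f` are the directions (with `det3 f E_i E_j ≠ 0`,
`det3 f E_i E_l ≠ 0`) for which `xpos K f i j = xpos K f i l`. -/
def quadForm (K : PolyKnot) (i j l : ℤ) (f : E3) : ℝ :=
  det3 (K.P j - K.P i) f (edge K.P j) * det3 (edge K.P i) f (edge K.P l) -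
    det3 (K.P l - K.P i) f (edge K.P l) * det3 (edge K.P i) f (edge K.P j)

/-- SBI-5c. If the lines of the edges `i`, `j` are skew, the lines of `i`, `l` are skew, and the lines of
`j`, `l` are different, then the form is not identically zero. [For `p = P_i + x E_i` on line `i` and
`f = P_j + y E_j - p` one has `xpos K f i j = x` if `det3 f E_i E_j ≠ 0`, i.e. in any case
`det3 (P_j - P_i) f E_j = x * det3 E_i f E_j`, so
`quadForm = det3 E_i f E_j * (x * det3 E_i f E_l - det3 (P_l - P_i) f E_l)
 = det3 E_i f E_j * det3 (p - P_l) f E_l`. The first factor is `det3 E_i (P_j - P_i) E_j ≠ 0`. If the form is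
identically zero, then `det3 (p - P_l) (q - p) E_l = 0` for all `p` on line `i` and `q` on line `j`, that
is `det3 (p - P_l) (q - P_l) E_l = 0`: modulo `E_l` all vectors `p - P_l` and `q - P_l` are parallel. The
vectors `p - P_l` modulo `E_l` (`p` on line `i`) are not all parallel to each other, since line `i` is
skew to line `l`; so all `q - P_l` are `0` modulo `E_l`, i.e. line `j` is line `l`.] -/
theorem quadForm_nz (K : PolyKnot) (i j l : ℤ)
    (hij : det3 (K.P j - K.P i) (edge K.P i) (edge K.P j) ≠ 0)
    (hil : det3 (K.P l - K.P i) (edge K.P i) (edge K.P l) ≠ 0)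
    (hjl : ¬ ((∃ c : ℝ, edge K.P j = c • edge K.P l) ∧ ∃ c : ℝ, K.P j - K.P l = c • edge K.P l)) :
    NZPoly (quadForm K i j l) := by
  refine ⟨⟨gen2_dp (K.P j - K.P i) (edge K.P j) * gen2_dp (edge K.P i) (edge K.P l) -
    gen2_dp (K.P l - K.P i) (edge K.P l) * gen2_dp (edge K.P i) (edge K.P j), fun v => ?_⟩, ?_⟩
  · rw [map_sub, map_mul, map_mul, gen2_dp_eval, gen2_dp_eval, gen2_dp_eval, gen2_dp_eval]
    rfl
  · by_contra hcon
    push Not at hcon
    apply hjl
    have hz : ∀ x y : ℝ, det3 ((K.P l - K.P i) - x • edge K.P i)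
        (((K.P j - K.P i) - (K.P l - K.P i)) + y • edge K.P j) (edge K.P l) = 0 := by
      intro x y
      have h1 := hcon ((K.P j - K.P i) + y • edge K.P j - x • edge K.P i)
      unfold quadForm at h1
      rw [gen2_ident] at h1
      exact (mul_eq_zero.1 h1).resolve_left hij
    have e00 := hz 0 0
    have e10 := hz 1 0
    have e01 := hz 0 1
    have e11 := hz 1 1
    rw [gen2_bil] at e00 e10 e01 e11
    have hv : (K.P j - K.P i) - (K.P l - K.P i) = K.P j - K.P l := by abel
    rw [hv] at e00 e10 e01 e11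
    refine ⟨gen2_par hil (by linarith) (by linarith), gen2_par hil (by linarith) (by linarith)⟩

/-- A finite list of conditions which imply that `f` is a view. -/
def ViewCond (K : PolyKnot) (f : E3) : Prop :=
  (∀ i, ∀ p q : ℝ, p • f + q • edge K.P i = 0 → p = 0 ∧ q = 0) ∧
  (∀ i j, (∀ c : ℝ, K.P i - K.P j ≠ c • edge K.P j) → det3 f (K.P i - K.P j) (edge K.P j) ≠ 0) ∧
  (∀ i j l, det3 (K.P j - K.P i) (edge K.P i) (edge K.P j) ≠ 0 →
    det3 (K.P l - K.P i) (edge K.P i) (edge K.P l) ≠ 0 →
    ¬ ((∃ c : ℝ, edge K.P j = c • edge K.P l) ∧ ∃ c : ℝ, K.P j - K.P l = c • edge K.P l) →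
    quadForm K i j l f ≠ 0)

/-- SBI-5d. [`vert`: if `P_i` is on the line of edge `j` then `c f` is parallel to `E_j`, so `c = 0`;
otherwise the determinant is `≠ 0`, but `P_i - P_j = x E_j - c f`. `triple`: `Under i j` and
`Under i l` imply `det3 (P_j - P_i) E_i E_j ≠ 0`, `det3 (P_l - P_i) E_i E_l ≠ 0` as `alt > 0`. If the lines of
`j` and `l` are different the form is `≠ 0`, but the positions are equal. If the lines are equal:
the two points over `P_i + x E_i` on this line are equal (`f` is not parallel to it), interior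
points of the edges `j` and `l`, so `n ∣ j - l` by `gam_inj`.] -/
theorem view_of_cond (K : PolyKnot) (f : E3) (h : ViewCond K f) : View K f := by
  obtain ⟨h1, h2, h3⟩ := h
  refine ⟨fun i j x c _ _ he => ?_, fun i j l hj hl hx => ?_⟩
  · by_cases hp : ∃ c' : ℝ, K.P i - K.P j = c' • edge K.P j
    · obtain ⟨c', hc'⟩ := hp
      have h4 : c • f + (c' - x) • edge K.P j = 0 := by
        rw [sub_smul, ← hc']
        have : c • f = K.P j + x • edge K.P j - K.P i := by rw [he]; abel
        rw [this]; abel
      exact (h1 j c (c' - x) h4).1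
    · exfalso
      push Not at hp
      apply h2 i j hp
      have h4 : K.P i - K.P j = x • edge K.P j - c • f := by
        have : K.P i = K.P j + x • edge K.P j - c • f := by rw [he]; abel
        rw [this]; abel
      rw [h4]
      simp [det3]
      ring
  · obtain ⟨dj, ⟨xj0, xj1⟩, ⟨yj0, yj1⟩, aj⟩ := hj
    obtain ⟨dl, ⟨xl0, xl1⟩, ⟨yl0, yl1⟩, al⟩ := hl
    have hij : det3 (K.P j - K.P i) (edge K.P i) (edge K.P j) ≠ 0 := by
      intro h0
      unfold alt at aj
      rw [h0, zero_div] at aj
      exact lt_irrefl _ aj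
    have hil : det3 (K.P l - K.P i) (edge K.P i) (edge K.P l) ≠ 0 := by
      intro h0
      unfold alt at al
      rw [h0, zero_div] at al
      exact lt_irrefl _ al
    have dj' : det3 (edge K.P i) f (edge K.P j) ≠ 0 := by
      rw [gen2_swap]; exact neg_ne_zero.2 dj
    have dl' : det3 (edge K.P i) f (edge K.P l) ≠ 0 := by
      rw [gen2_swap]; exact neg_ne_zero.2 dl
    by_cases hjl : (∃ c : ℝ, edge K.P j = c • edge K.P l) ∧ ∃ c : ℝ, K.P j - K.P l = c • edge K.P l
    · obtain ⟨⟨c, hc⟩, c', hc'⟩ := hjl
      have k1 := line_cross K f i j dj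
      have k2 := line_cross K f i l dl
      have k3 : (alt K f i j - alt K f i l) • f +
          (-(c' + xpos K f j i * c - xpos K f l i)) • edge K.P l = 0 := by
        have k4 : (c' + xpos K f j i * c - xpos K f l i) • edge K.P l =
            (alt K f i j - alt K f i l) • f := by
          rw [sub_smul, add_smul, mul_smul, ← hc, ← hc', sub_smul]
          have e1 : alt K f i j • f = K.P j + xpos K f j i • edge K.P j - K.P i -
              xpos K f i j • edge K.P i := by rw [k1]; abel
          have e2 : alt K f i l • f = K.P l + xpos K f l i • edge K.P l - K.P i -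
              xpos K f i l • edge K.P i := by rw [k2]; abel
          rw [e1, e2, hx]
          abel
        rw [neg_smul, k4]
        abel
      have k5 := (h1 l _ _ k3).1
      have k6 : K.P j + xpos K f j i • edge K.P j = K.P l + xpos K f l i • edge K.P l := by
        rw [k1, k2, hx, sub_eq_zero.1 k5]
      rw [← gam_edge K j _ yj0.le yj1.le, ← gam_edge K l _ yl0.le yl1.le] at k6
      obtain ⟨m, hm⟩ := gam_inj K _ _ k6
      have k7 : ((l - j - m * K.n : ℤ) : ℝ) = xpos K f j i - xpos K f l i := by
        push_cast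
        linarith
      have k8 : l - j - m * K.n = 0 := by
        have b1 : ((l - j - m * K.n : ℤ) : ℝ) < 1 := by rw [k7]; linarith
        have b2 : (-1 : ℝ) < ((l - j - m * K.n : ℤ) : ℝ) := by rw [k7]; linarith
        have b1' : l - j - m * K.n < 1 := by exact_mod_cast b1
        have b2' : -1 < l - j - m * K.n := by exact_mod_cast b2
        omega
      exact ⟨-m, by linear_combination -k8⟩
    · exfalso
      apply h3 i j l hij hil hjl
      unfold xpos at hx
      rw [div_eq_div_iff dj' dl'] at hx
      unfold quadForm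
      linarith

end Pool.Agent.helper43.SBI
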