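import Pool.Agent.helper43.SBI.Quad

set_option autoImplicit false

/-!
# SBI-12 : the relations for the new colours
-/

namespace Pool.Agent.helper43.SBI

open Pool.Agent.helper82.SB Filter Topology

namespace Sweep

variable {S : Sweep} {Y G : Type*} [Group G] [MulAction G Y]

theorem Jump_kB (S : Sweep) {σ : Bool} {t : ℝ} {i k : ℤ} (h : S.pb i t = S.pb k t) :
    S.kB σ t i < S.kB σ t k ↔ sg σ * S.sb i < sg σ * S.sb k := by
  unfold kB
  rw [Prod.Lex.toLex_lt_toLex]
  simp [h]

theorem Jump_kA (S : Sweep) {σ : Bool} {t : ℝ} {i k : ℤ} (h : S.pa i t = S.pa k t) :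
    S.kA σ t i < S.kA σ t k ↔ sg σ * S.sa i < sg σ * S.sa k := by
  unfold kA
  rw [Prod.Lex.toLex_lt_toLex]
  simp [h]

theorem Jump_UL (hS : S.Good) (Q : AQ Y G) (t : ℝ) (D : Bool → ℤ → Y) (hD : S.Loc Q t D)
    (σ σ' : Bool) (a b : ℝ) : S.UL Q D σ t a b = S.UL Q D σ' t a b := by
  have h := UL_eq hS Q t D hD a b
  cases σ <;> cases σ' <;> first | rfl | exact h | exact h.symm

/-- SBI-12a. The new colour does not change at a point which is not an undercrossing in the view `f`.
[If it is not an undercrossing in the view `e` either: `WL_eq_UL`, `UL_eq`, `cst`. If it is under strand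
`k` in the view `e`: `WL_under_e` on both sides; the conditions are `sb i < sb k` (above) and
`sb k < sb i` (below), cf. `sb_ne`; and `Loc.jump`.] -/
theorem FL_cst (hS : S.Good) (Q : AQ Y G) (t : ℝ) (D : Bool → ℤ → Y) (hD : S.Loc Q t D) (i : ℤ)
    (hi : S.Ins i t) (h2 : ∀ k, S.Ins k t → S.pa k t = S.pa i t → S.pb k t ≤ S.pb i t) :
    S.FL Q D true t i = S.FL Q D false t i := by
  by_cases h1 : ∀ k, S.Ins k t → S.pb k t = S.pb i t → S.pa k t ≤ S.pa i t
  · rw [FL, FL, WL_eq_UL hS Q t D true i hi h1 h2, WL_eq_UL hS Q t D false i hi h1 h2,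
      UL_eq hS Q t D hD, hD.cst i hi h1]
  · push Not at h1
    obtain ⟨k, hk, hb, ha⟩ := h1
    obtain ⟨hDk, hDi⟩ := hD.jump i k hi hk hb.symm ha
    have hne : S.sb i ≠ S.sb k := hS.sb_ne hi hk hb.symm ha.ne
    have hv : S.valL Q D true k = S.valL Q D false k := by rw [valL, valL, hDk]
    rw [FL, FL, WL_under_e hS Q t D hD true i k hi hk hb.symm ha,
      WL_under_e hS Q t D hD false i k hi hk hb.symm ha, UL_eq hS Q t D hD, hDi, hv]
    simp only [Jump_kB S hb.symm, sg]
    rcases lt_or_gt_of_ne hne with hlt | hgt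
    · have h3 : ¬ (-1 * S.sb i < -1 * S.sb k) := by linarith
      simp only [Bool.false_eq_true, if_false, if_true, h3, hlt, mul_one, one_mul]
      rw [mul_inv_rev, mul_smul, valL, inv_smul_smul]
    · have h3 : (-1 * S.sb i < -1 * S.sb k) := by linarith
      have h5 : ¬ (S.sb i < S.sb k) := by linarith
      simp only [Bool.false_eq_true, if_false, if_true, h3, h5, one_mul]
      rw [mul_inv_rev, mul_smul, valL, mul_neg, mul_one, zpow_neg]

/-- SBI-12b. The relation at an undercrossing in the view `f`. [`i` is not an undercrossing in the view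
`e` by `hS.pair`, so `D true i = D false i`. `k` is not an undercrossing in the view `f` by `tripleA`, and not
involved in an `e`-coincidence by `pair`. `WL_under_f` on both sides; the conditions are `sa i < sa k` (above)
and `sa k < sa i` (below), cf. `sa_ne`. Finally `del (w⁻¹ • y) = w⁻¹ * del y * w`.] -/
theorem FL_jump (hS : S.Good) (Q : AQ Y G) (t : ℝ) (D : Bool → ℤ → Y) (hD : S.Loc Q t D) (i k : ℤ)
    (hi : S.Ins i t) (hk : S.Ins k t) (ha : S.pa i t = S.pa k t) (hb : S.pb i t < S.pb k t) :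
    S.FL Q D true t k = S.FL Q D false t k ∧
    S.FL Q D true t i = Q.del (S.FL Q D false t k) ^ (S.eps k * if S.sa k < S.sa i then 1 else -1) •
      S.FL Q D false t i := by
  have hk2 : ∀ l, S.Ins l t → S.pa l t = S.pa k t → S.pb l t ≤ S.pb k t := by
    intro l hl hal
    by_contra hlt
    push Not at hlt
    rcases hS.tripleA k i l t hk.cl hi.cl hl.cl ha.symm hal.symm with h | h | h <;> linarith
  have hk1 : ∀ l, S.Ins l t → S.pb l t = S.pb k t → S.pa l t ≤ S.pa k t := by
    intro l hl hbl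
    rcases hS.pair k l i t hk.cl hl.cl hi.cl hbl.symm ha.symm with h | h
    · exact h.ge
    · linarith
  have hi1 : ∀ l, S.Ins l t → S.pb l t = S.pb i t → S.pa l t ≤ S.pa i t := by
    intro l hl hbl
    rcases hS.pair i l k t hi.cl hl.cl hk.cl hbl.symm ha with h | h
    · exact h.ge
    · linarith
  have hDk : D true k = D false k := hD.cst k hk hk1
  have hDi : D true i = D false i := hD.cst i hi hi1
  have hne : S.sa i ≠ S.sa k := hS.sa_ne hi hk ha hb.ne
  refine ⟨FL_cst hS Q t D hD k hk hk2, ?_⟩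
  have hv : S.valL Q D true k = S.valL Q D false k := by rw [valL, valL, hDk]
  have hW : S.WL Q D true t k = S.WL Q D false t k := by
    rw [WL_eq_UL hS Q t D true k hk hk1 hk2, WL_eq_UL hS Q t D false k hk hk1 hk2,
      UL_eq hS Q t D hD]
  have hdel : Q.del (S.FL Q D false t k) ^ S.eps k =
      (S.WL Q D false t k)⁻¹ * S.valL Q D false k * S.WL Q D false t k := by
    have h0 := conj_zpow (a := (S.WL Q D false t k)⁻¹) (b := Q.del (D false k)) (i := S.eps k)
    rw [inv_inv] at h0
    rw [FL, Q.del_smul, inv_inv, h0, valL]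
  have e1 : S.FL Q D true t i = (S.WL Q D true t i)⁻¹ • D true i := rfl
  have e2 : S.FL Q D false t i = (S.WL Q D false t i)⁻¹ • D false i := rfl
  rw [e1, e2, WL_under_f hS Q t D hD true i k hi hk ha hb,
    WL_under_f hS Q t D hD false i k hi hk ha hb, UL_eq hS Q t D hD, hDi, hv, hW]
  simp only [Jump_kA S ha, sg]
  rcases lt_or_gt_of_ne hne with hlt | hgt
  · have h3 : ¬ (-1 * S.sa i < -1 * S.sa k) := by linarith
    have h4 : 1 * S.sa i < 1 * S.sa k := by linarith
    have h5 : ¬ (S.sa k < S.sa i) := by linarith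
    simp only [Bool.false_eq_true, if_false, if_true, h3, h4, h5, mul_one]
    rw [mul_neg, mul_one, zpow_neg, hdel, mul_inv_rev, mul_smul]
  · have h3 : (-1 * S.sa i < -1 * S.sa k) := by linarith
    have h4 : ¬ (1 * S.sa i < 1 * S.sa k) := by linarith
    have h5 : (S.sa k < S.sa i) := by linarith
    simp only [Bool.false_eq_true, if_false, if_true, h3, h4, h5, mul_one]
    rw [hdel, mul_inv_rev]
    generalize (S.WL Q D false t k)⁻¹ * S.valL Q D false k * S.WL Q D false t k = c
    rw [mul_smul, smul_inv_smul]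

/-- SBI-12c. The relation at a vertex. -/
theorem FL_vertex (hS : S.Good) (Q : AQ Y G) (t : ℝ) (D : Bool → ℤ → Y) (hD : S.Loc Q t D) (i : ℤ)
    (σ σ' : Bool) (ht : S.h (i + 1) = t) (hi : S.Pres σ i t) (hi' : S.Pres σ' (i + 1) t) :
    S.FL Q D σ t i = S.FL Q D σ' t (i + 1) := by
  rw [FL_vertex_left hS Q t D hD σ i ht hi, FL_vertex_right hS Q t D hD σ' i ht hi',
    hD.vertex i σ σ' ht hi hi', Jump_UL hS Q t D hD σ σ']

/-- SBI-12d. If all new colours on the side `σ` of `t` are in the closed set `A`, then all old colours.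
[Induction on the number of strands `k ∈ [0, n)` with `Pres σ k t` and `kB σ t i < kB σ t k`: `D σ i = WL σ i • FL σ i`, and
`WL` is a product of elements `del (D σ k) ^ (±1)` with `kB i < kB k`, so it maps `A` to `A` (`OP_mem`).] -/
theorem mem_of_FL_mem (Q : AQ Y G) (t : ℝ) (D : Bool → ℤ → Y) (A : Set Y)
    (hA : ∀ y ∈ A, ∀ z ∈ A, Q.del z • y ∈ A ∧ (Q.del z)⁻¹ • y ∈ A) (σ : Bool)
    (h : ∀ k, S.Pres σ k t → S.FL Q D σ t k ∈ A) (i : ℤ) (hi : S.Pres σ i t) : D σ i ∈ A := by
  classical
  suffices H : ∀ (m : ℕ) (i : ℤ), S.Pres σ i t →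
      ((Finset.Ico (0 : ℤ) S.n).filter fun k => S.Pres σ k t ∧ S.kB σ t i < S.kB σ t k).card = m →
      D σ i ∈ A from H _ i hi rfl
  intro m
  induction m using Nat.strong_induction_on with
  | _ m ih =>
    intro i hi hm
    let N : Submonoid G :=
      { carrier := {g | ∀ y ∈ A, g • y ∈ A}
        mul_mem' := by
          intro a b ha hb y hy
          rw [mul_smul]
          exact ha _ (hb y hy)
        one_mem' := by
          intro y hy
          rwa [one_smul] }
    have hW : S.WL Q D σ t i ∈ N := by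
      apply OP_mem
      intro k hk
      rw [quadL, Finset.mem_filter] at hk
      obtain ⟨hk0, hkP, hkB, -⟩ := hk
      have hDk : D σ k ∈ A := by
        refine ih _ ?_ k hkP rfl
        rw [← hm]
        apply Finset.card_lt_card
        rw [Finset.ssubset_iff_of_subset]
        · exact ⟨k, Finset.mem_filter.2 ⟨hk0, hkP, hkB⟩, fun hkk =>
            lt_irrefl _ (Finset.mem_filter.1 hkk).2.2⟩
        · intro l hl
          obtain ⟨hl0, hlP, hlB⟩ := Finset.mem_filter.1 hl
          exact Finset.mem_filter.2 ⟨hl0, hlP, lt_trans hkB hlB⟩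
      intro y hy
      rw [valL, eps]
      split_ifs
      · rw [zpow_one]
        exact (hA y hy _ hDk).1
      · rw [zpow_neg, zpow_one]
        exact (hA y hy _ hDk).2
    have h1 : D σ i = S.WL Q D σ t i • S.FL Q D σ t i := by
      rw [FL, smul_inv_smul]
    rw [h1]
    exact hW _ (h i hi)

end Sweep

end Pool.Agent.helper43.SBI
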