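import Pool.Agent.helper43.SBI.Trans

set_option autoImplicit false

/-!
# SBI-9 : passing to the limit on one side of a height
-/

namespace Pool.Agent.helper43.SBI

open Pool.Agent.helper82.SB Filter Topology

namespace Sweep

variable {S : Sweep} {Y G : Type*} [Group G] [MulAction G Y]

instance sideF_neBot (σ : Bool) (t : ℝ) : (sideF σ t).NeBot := by
  cases σ
  · change (𝓝[<] t).NeBot
    infer_instance
  · change (𝓝[>] t).NeBot
    infer_instance

theorem sideF_true (t : ℝ) : sideF true t = 𝓝[>] t := rfl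

theorem sideF_false (t : ℝ) : sideF false t = 𝓝[<] t := rfl

theorem sideF_le (σ : Bool) (t : ℝ) : sideF σ t ≤ 𝓝[≠] t := by
  cases σ
  · exact nhdsWithin_mono t (fun x hx => ne_of_lt hx)
  · exact nhdsWithin_mono t (fun x hx => ne_of_gt hx)

theorem pres_true {j : ℤ} {t : ℝ} : S.Pres true j t ↔ S.lo j ≤ t ∧ t < S.hi j := Iff.rfl

theorem pres_false {j : ℤ} {t : ℝ} : S.Pres false j t ↔ S.lo j < t ∧ t ≤ S.hi j := by
  simp [Pres]

theorem end_eq {j : ℤ} {t : ℝ} (ht : t = S.h j ∨ t = S.h (j + 1)) : t = S.lo j ∨ t = S.hi j := by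
  rcases le_total (S.h j) (S.h (j + 1)) with h | h
  · rw [lo, hi, min_eq_left h, max_eq_right h]
    exact ht
  · rw [lo, hi, min_eq_right h, max_eq_left h]
    exact ht.symm

theorem eq_end {j : ℤ} {t : ℝ} (ht : t = S.lo j ∨ t = S.hi j) : t = S.h j ∨ t = S.h (j + 1) := by
  rcases le_total (S.h j) (S.h (j + 1)) with h | h
  · rw [lo, hi, min_eq_left h, max_eq_right h] at ht
    exact ht
  · rw [lo, hi, min_eq_right h, max_eq_left h] at ht
    exact ht.symm

/-- At the end of a strand the filter `sideF` is the filter of heights of this strand. -/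
theorem nhds_Ioo_eq_sideF {σ : Bool} {j : ℤ} {t : ℝ} (h : S.Pres σ j t)
    (ht : t = S.h j ∨ t = S.h (j + 1)) : 𝓝[Set.Ioo (S.lo j) (S.hi j)] t = sideF σ t := by
  have hlt := S.lo_lt_hi j
  cases σ
  · rw [pres_false] at h
    rcases end_eq ht with e | e
    · exact absurd h.1 (by rw [e]; exact lt_irrefl _)
    · rw [e]
      exact nhdsWithin_Ioo_eq_nhdsLT hlt
  · rw [pres_true] at h
    rcases end_eq ht with e | e
    · rw [e]
      exact nhdsWithin_Ioo_eq_nhdsGT hlt
    · exact absurd h.2 (by rw [e]; exact lt_irrefl _)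

/-- Strand `j` is present on the side `σ` of `t` iff the heights on this side close to `t` are interior
heights of strand `j`. -/
theorem eventually_ins_iff (S : Sweep) (σ : Bool) (j : ℤ) (t : ℝ) :
    ∀ᶠ r in sideF σ t, (S.Ins j r ↔ S.Pres σ j t) := by
  cases σ
  · rw [sideF_false]
    have hr : ∀ᶠ r in 𝓝[<] t, r < t := eventually_mem_nhdsWithin
    by_cases h1 : S.lo j < t
    · have a1 : ∀ᶠ r in 𝓝[<] t, S.lo j < r :=
        mem_nhdsWithin_of_mem_nhds (Ioi_mem_nhds h1)
      by_cases h2 : t ≤ S.hi j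
      · filter_upwards [hr, a1] with r hr a1
        exact ⟨fun _ => pres_false.2 ⟨h1, h2⟩, fun _ => ⟨a1, lt_of_lt_of_le hr h2⟩⟩
      · have a2 : ∀ᶠ r in 𝓝[<] t, S.hi j < r :=
          mem_nhdsWithin_of_mem_nhds (Ioi_mem_nhds (not_le.1 h2))
        filter_upwards [a2] with r a2
        exact ⟨fun h => absurd h.2 (lt_asymm a2), fun h => absurd (pres_false.1 h).2 h2⟩
    · filter_upwards [hr] with r hr
      exact ⟨fun h => absurd (h.1.trans hr) h1, fun h => absurd (pres_false.1 h).1 h1⟩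
  · rw [sideF_true]
    have hr : ∀ᶠ r in 𝓝[>] t, t < r := eventually_mem_nhdsWithin
    by_cases h1 : t < S.hi j
    · have a1 : ∀ᶠ r in 𝓝[>] t, r < S.hi j :=
        mem_nhdsWithin_of_mem_nhds (Iio_mem_nhds h1)
      by_cases h2 : S.lo j ≤ t
      · filter_upwards [hr, a1] with r hr a1
        exact ⟨fun _ => pres_true.2 ⟨h2, h1⟩, fun _ => ⟨lt_of_le_of_lt h2 hr, a1⟩⟩
      · have a2 : ∀ᶠ r in 𝓝[>] t, r < S.lo j :=
          mem_nhdsWithin_of_mem_nhds (Iio_mem_nhds (not_le.1 h2))
        filter_upwards [a2] with r a2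
        exact ⟨fun h => absurd h.1 (lt_asymm a2), fun h => absurd (pres_true.1 h).1 h2⟩
    · filter_upwards [hr] with r hr
      exact ⟨fun h => absurd (hr.trans h.2) h1, fun h => absurd (pres_true.1 h).2 h1⟩

theorem toLex_pair_lt (a b c d : ℝ) :
    (toLex (a, b) : ℝ ×ₗ ℝ) < toLex (c, d) ↔ a < c ∨ a = c ∧ b < d := by
  rw [Prod.Lex.toLex_lt_toLex]

/-- the order of two affine functions on one side of a point -/
theorem aff_lt_iff (σ : Bool) (t a s a' s' : ℝ) :
    ∀ᶠ r in sideF σ t, (a + (r - t) * s < a' + (r - t) * s' ↔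
      (toLex (a, sg σ * s) : ℝ ×ₗ ℝ) < toLex (a', sg σ * s')) := by
  have hcont : Continuous fun r : ℝ => (a' + (r - t) * s') - (a + (r - t) * s) := by fun_prop
  have hle : sideF σ t ≤ 𝓝 t := (sideF_le σ t).trans nhdsWithin_le_nhds
  have htend : Tendsto (fun r : ℝ => (a' + (r - t) * s') - (a + (r - t) * s)) (sideF σ t)
      (𝓝 (a' - a)) := by
    have := (hcont.tendsto t).mono_left hle
    simpa using this
  rcases lt_trichotomy a a' with h | h | h
  · have h1 : ∀ᶠ r in sideF σ t, 0 < (a' + (r - t) * s') - (a + (r - t) * s) :=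
      htend.eventually (Ioi_mem_nhds (sub_pos.2 h))
    filter_upwards [h1] with r h1
    rw [toLex_pair_lt]
    exact ⟨fun _ => Or.inl h, fun _ => sub_pos.1 h1⟩
  · subst h
    cases σ
    · have hr : ∀ᶠ r in sideF false t, r < t := eventually_mem_nhdsWithin
      filter_upwards [hr] with r hr
      rw [toLex_pair_lt]
      have e : sg false = -1 := by simp [sg]
      rw [e]
      constructor
      · intro h
        refine Or.inr ⟨rfl, ?_⟩
        by_contra hcon
        nlinarith
      · rintro (h | h)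
        · exact absurd h (lt_irrefl _)
        · nlinarith [h.2]
    · have hr : ∀ᶠ r in sideF true t, t < r := eventually_mem_nhdsWithin
      filter_upwards [hr] with r hr
      rw [toLex_pair_lt]
      have e : sg true = 1 := by simp [sg]
      rw [e]
      constructor
      · intro h
        refine Or.inr ⟨rfl, ?_⟩
        by_contra hcon
        nlinarith
      · rintro (h | h)
        · exact absurd h (lt_irrefl _)
        · nlinarith [h.2]
  · have h1 : ∀ᶠ r in sideF σ t, (a' + (r - t) * s') - (a + (r - t) * s) < 0 :=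
      htend.eventually (Iio_mem_nhds (sub_neg.2 h))
    filter_upwards [h1] with r h1
    rw [toLex_pair_lt]
    constructor
    · intro h2
      exact absurd (sub_neg.1 h1) (lt_asymm h2)
    · rintro (h2 | h2)
      · exact absurd h2 (lt_asymm h)
      · exact absurd h2.1.symm (ne_of_lt h)

/-- The `B`-order close to `t` is described by the keys. -/
theorem eventually_pb_lt_iff (S : Sweep) (σ : Bool) (j k : ℤ) (t : ℝ) :
    ∀ᶠ r in sideF σ t, (S.pb j r < S.pb k r ↔ S.kB σ t j < S.kB σ t k) := by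
  filter_upwards [aff_lt_iff σ t (S.pb j t) (S.sb j) (S.pb k t) (S.sb k)] with r hr
  have e : ∀ i, S.pb i r = S.pb i t + (r - t) * S.sb i := fun i => by
    unfold pb
    ring
  rw [e j, e k]
  exact hr

/-- The `A`-order close to `t` is described by the keys. -/
theorem eventually_pa_lt_iff (S : Sweep) (σ : Bool) (j k : ℤ) (t : ℝ) :
    ∀ᶠ r in sideF σ t, (S.pa j r < S.pa k r ↔ S.kA σ t j < S.kA σ t k) := by
  filter_upwards [aff_lt_iff σ t (S.pa j t) (S.sa j) (S.pa k t) (S.sa k)] with r hr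
  have e : ∀ i, S.pa i r = S.pa i t + (r - t) * S.sa i := fun i => by
    unfold pa
    ring
  rw [e j, e k]
  exact hr

theorem ev_unique {σ : Bool} {t : ℝ} {f : ℝ → Y} {x y : Y} (hx : ∀ᶠ r in sideF σ t, f r = x)
    (hy : ∀ᶠ r in sideF σ t, f r = y) : x = y := by
  obtain ⟨r, h1, h2⟩ := (hx.and hy).exists
  exact h1.symm.trans h2

/-- the colour of a present strand has a limit on the side `σ` -/
theorem exists_side (Q : AQ Y G) (C : ℤ → ℝ → Y) (hC : S.ECol Q C) (t : ℝ) (σ : Bool) (j : ℤ)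
    (h : S.Pres σ j t) : ∃ y, ∀ᶠ r in sideF σ t, C j r = y := by
  by_cases hi : S.Ins j t
  · by_cases hk : ∀ k, S.Ins k t → S.pb k t = S.pb j t → S.pa k t ≤ S.pa j t
    · obtain ⟨x, hx⟩ := hC.cst j t hi hk
      exact ⟨x, (sideF_le σ t) hx⟩
    · push Not at hk
      obtain ⟨k, hk1, hk2, hk3⟩ := hk
      obtain ⟨x, y, -, h1, h2⟩ := hC.jump j k t hi hk1 hk2.symm hk3
      cases σ
      · exact ⟨_, h1⟩
      · exact ⟨_, h2⟩
  · have ht : t = S.h j ∨ t = S.h (j + 1) := by
      apply eq_end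
      by_contra hcon
      rw [not_or] at hcon
      apply hi
      cases σ
      · rw [pres_false] at h
        exact ⟨h.1, lt_of_le_of_ne h.2 hcon.2⟩
      · rw [pres_true] at h
        exact ⟨lt_of_le_of_ne h.1 (Ne.symm hcon.1), h.2⟩
    have hF := nhds_Ioo_eq_sideF h ht
    rcases ht with ht | ht
    · obtain ⟨x, -, hx⟩ := hC.vertex (j - 1)
      rw [sub_add_cancel] at hx
      rw [← ht, hF] at hx
      exact ⟨x, hx⟩
    · obtain ⟨x, hx, -⟩ := hC.vertex j
      rw [← ht, hF] at hx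
      exact ⟨x, hx⟩

/-- SBI-9a. Existence of local data. [`D σ j` = the eventual value of `C j` on the side `σ` if it exists.
It exists if `Pres σ j t`: for `Ins j t` by `cst` or `jump`, otherwise `t` is the height of an end of the
strand and `vertex` applies, with `nhds_Ioo_eq_sideF`. In `Loc.jump`, strand `k` is over strand `j`, and
`ECol.jump` contains that `C k` has the same value on both sides.] -/
theorem exists_loc (Q : AQ Y G) (C : ℤ → ℝ → Y) (hC : S.ECol Q C) (t : ℝ) :
    ∃ D : Bool → ℤ → Y, S.Loc Q t D ∧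
      ∀ σ j, S.Pres σ j t → ∀ᶠ r in sideF σ t, C j r = D σ j := by
  classical
  have hex := exists_side Q C hC t
  let D : Bool → ℤ → Y := fun σ j => if h : S.Pres σ j t then (hex σ j h).choose else C j t
  have hD : ∀ σ j, S.Pres σ j t → ∀ᶠ r in sideF σ t, C j r = D σ j := by
    intro σ j h
    have e : D σ j = (hex σ j h).choose := dif_pos h
    rw [e]
    exact (hex σ j h).choose_spec
  refine ⟨D, ⟨?_, ?_, ?_, ?_⟩, hD⟩
  · intro σ j h
    have hlo : S.lo (j + S.n) = S.lo j := by
      have := S.lo_add j 1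
      rwa [one_mul] at this
    have hhi : S.hi (j + S.n) = S.hi j := by
      have := S.hi_add j 1
      rwa [one_mul] at this
    have h' : S.Pres σ (j + S.n) t := by
      unfold Pres at h ⊢
      rw [hlo, hhi]
      exact h
    refine ev_unique (hD σ _ h') ?_
    filter_upwards [hD σ j h] with r hr
    rw [hC.per, hr]
  · intro j hj hk
    obtain ⟨x, hx⟩ := hC.cst j t hj hk
    have h1 := ev_unique (hD true j (Ins.pres hj)) ((sideF_le true t) hx)
    have h2 := ev_unique (hD false j (Ins.pres hj)) ((sideF_le false t) hx)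
    rw [h1, h2]
  · intro j k hj hk hb ha
    obtain ⟨x, y, hy, h1, h2⟩ := hC.jump j k t hj hk hb ha
    have e1 := ev_unique (hD true k (Ins.pres hk)) ((sideF_le true t) hy)
    have e2 := ev_unique (hD false k (Ins.pres hk)) ((sideF_le false t) hy)
    have e3 : D false j = x := ev_unique (hD false j (Ins.pres hj)) h1
    have e4 := ev_unique (hD true j (Ins.pres hj)) h2
    refine ⟨by rw [e1, e2], ?_⟩
    rw [e4, e2, e3]
  · intro j σ σ' ht h1 h2
    obtain ⟨x, hx, hx'⟩ := hC.vertex j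
    rw [ht, nhds_Ioo_eq_sideF h1 (Or.inr ht.symm)] at hx
    rw [ht, nhds_Ioo_eq_sideF h2 (Or.inl ht.symm)] at hx'
    rw [ev_unique (hD σ j h1) hx, ev_unique (hD σ' (j + 1) h2) hx']

/-- SBI-9b. The product `W` close to the height `t` is given by the local data. [Eventually
`quad i r = quadL σ t i` and the values agree on it; then `OP_order` with `kB_inj`.] -/
theorem eventually_W (hS : S.Good) (Q : AQ Y G) (C : ℤ → ℝ → Y) (t : ℝ) (D : Bool → ℤ → Y)
    (hD : ∀ σ j, S.Pres σ j t → ∀ᶠ r in sideF σ t, C j r = D σ j) (σ : Bool) (i : ℤ) :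
    ∀ᶠ r in sideF σ t, S.W Q C i r = S.WL Q D σ t i := by
  classical
  have h1 : ∀ᶠ r in sideF σ t, ∀ j ∈ Finset.Ico (0 : ℤ) S.n, (S.Ins j r ↔ S.Pres σ j t) :=
    (Filter.eventually_all_finset _).2 fun j _ => eventually_ins_iff S σ j t
  have h2 : ∀ᶠ r in sideF σ t, ∀ j ∈ Finset.Ico (0 : ℤ) S.n,
      (S.pb i r < S.pb j r ↔ S.kB σ t i < S.kB σ t j) :=
    (Filter.eventually_all_finset _).2 fun j _ => eventually_pb_lt_iff S σ i j t
  have h3 : ∀ᶠ r in sideF σ t, ∀ j ∈ Finset.Ico (0 : ℤ) S.n,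
      (S.pa i r < S.pa j r ↔ S.kA σ t i < S.kA σ t j) :=
    (Filter.eventually_all_finset _).2 fun j _ => eventually_pa_lt_iff S σ i j t
  have h4 : ∀ᶠ r in sideF σ t, ∀ j ∈ Finset.Ico (0 : ℤ) S.n, ∀ k ∈ Finset.Ico (0 : ℤ) S.n,
      (S.pb j r < S.pb k r ↔ S.kB σ t j < S.kB σ t k) :=
    (Filter.eventually_all_finset _).2 fun j _ => (Filter.eventually_all_finset _).2 fun k _ =>
      eventually_pb_lt_iff S σ j k t
  have h5 : ∀ᶠ r in sideF σ t, ∀ j ∈ Finset.Ico (0 : ℤ) S.n, S.Pres σ j t → C j r = D σ j := by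
    refine (Filter.eventually_all_finset _).2 fun j _ => ?_
    by_cases hp : S.Pres σ j t
    · filter_upwards [hD σ j hp] with r hr _
      exact hr
    · exact Filter.Eventually.of_forall fun r hr => absurd hr hp
  filter_upwards [h1, h2, h3, h4, h5] with r h1 h2 h3 h4 h5
  have hq : S.quad i r = S.quadL σ t i := by
    unfold quad quadL
    refine Finset.filter_congr fun j hj => ?_
    rw [h1 j hj, h2 j hj, h3 j hj]
  unfold W WL
  rw [hq]
  have hmem : ∀ j ∈ S.quadL σ t i, j ∈ Finset.Ico (0 : ℤ) S.n ∧ S.Pres σ j t := by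
    intro j hj
    unfold quadL at hj
    rw [Finset.mem_filter] at hj
    exact ⟨hj.1, hj.2.1⟩
  rw [OP_congr (S.quadL σ t i) (fun j => S.pb j r) (S.val Q C r) (S.valL Q D σ) (fun j hj => by
    obtain ⟨a, b⟩ := hmem j hj
    unfold val valL
    rw [h5 j a b])]
  refine OP_order _ _ _ _ ?_ ?_
  · intro j hj k hk hjk
    obtain ⟨a, b⟩ := hmem j hj
    obtain ⟨a', b'⟩ := hmem k hk
    have e1 : ¬ S.kB σ t j < S.kB σ t k := by
      rw [← h4 j a k a']
      exact not_lt.2 (le_of_eq hjk.symm)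
    have e2 : ¬ S.kB σ t k < S.kB σ t j := by
      rw [← h4 k a' j a]
      exact not_lt.2 (le_of_eq hjk)
    have e3 : S.kB σ t j = S.kB σ t k := le_antisymm (not_lt.1 e2) (not_lt.1 e1)
    obtain ⟨m, hm⟩ := hS.kB_inj b b' e3
    rw [Finset.mem_Ico] at a a'
    have hn : (0 : ℤ) < S.n := lt_of_le_of_lt a.1 a.2
    have hm0 : m = 0 := by
      by_contra hne
      rcases lt_or_gt_of_ne hne with h | h
      · have : (S.n : ℤ) * m ≤ (S.n : ℤ) * (-1) := mul_le_mul_of_nonneg_left (by omega) hn.le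
        omega
      · have : (S.n : ℤ) * 1 ≤ (S.n : ℤ) * m := mul_le_mul_of_nonneg_left (by omega) hn.le
        omega
    rw [hm0, mul_zero] at hm
    omega
  · intro j hj k hk
    exact h4 j (hmem j hj).1 k (hmem k hk).1

/-- SBI-9c. -/
theorem eventually_newC (hS : S.Good) (Q : AQ Y G) (C : ℤ → ℝ → Y) (t : ℝ) (D : Bool → ℤ → Y)
    (hD : ∀ σ j, S.Pres σ j t → ∀ᶠ r in sideF σ t, C j r = D σ j) (σ : Bool) (i : ℤ)
    (hi : S.Pres σ i t) :
    ∀ᶠ r in sideF σ t, S.newC Q C i r = S.FL Q D σ t i := by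
  filter_upwards [eventually_W hS Q C t D hD σ i, hD σ i hi] with r h1 h2
  unfold newC FL
  rw [h1, h2]

end Sweep

end Pool.Agent.helper43.SBI
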