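import Pool.Agent.helper43.SBI.Sweep

set_option autoImplicit false

/-!
# Local data of a coloured sweep at a height `t`

`σ : Bool` is the side: `false` is the side just below the height `t`, `true` the side just above it.
The order of the strands just below (above) the height `t` is described by lexicographic keys.
-/

namespace Pool.Agent.helper43.SBI

open Pool.Agent.helper82.SB Filter Topology

namespace Sweep

variable (S : Sweep)

/-- Strand `j` is present on the side `σ` of the height `t`. -/
def Pres (σ : Bool) (j : ℤ) (t : ℝ) : Prop :=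
  if σ then S.lo j ≤ t ∧ t < S.hi j else S.lo j < t ∧ t ≤ S.hi j

/-- The filter of heights on the side `σ` of `t`. -/
noncomputable def sideF (σ : Bool) (t : ℝ) : Filter ℝ := if σ then 𝓝[>] t else 𝓝[<] t

/-- `1` or `-1`. -/
def sg (σ : Bool) : ℝ := if σ then 1 else -1

/-- The key describing the `B`-order of the strands on the side `σ` of `t`. -/
noncomputable def kB (σ : Bool) (t : ℝ) (j : ℤ) : ℝ ×ₗ ℝ := toLex (S.pb j t, sg σ * S.sb j)

/-- The key describing the `A`-order of the strands on the side `σ` of `t`. -/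
noncomputable def kA (σ : Bool) (t : ℝ) (j : ℤ) : ℝ ×ₗ ℝ := toLex (S.pa j t, sg σ * S.sa j)

variable {Y G : Type*} [Group G] [MulAction G Y]

/-- The local data of an `e`-colouring at the height `t`: `D σ j` is the colour of strand `j` on the side `σ`
of `t`. -/
structure Loc (Q : AQ Y G) (t : ℝ) (D : Bool → ℤ → Y) : Prop where
  per : ∀ σ j, S.Pres σ j t → D σ (j + S.n) = Q.tau (D σ j)
  cst : ∀ j, S.Ins j t → (∀ k, S.Ins k t → S.pb k t = S.pb j t → S.pa k t ≤ S.pa j t) →
    D true j = D false j
  jump : ∀ j k, S.Ins j t → S.Ins k t → S.pb j t = S.pb k t → S.pa j t < S.pa k t →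
    D true k = D false k ∧
    D true j = Q.del (D false k) ^ (S.eps k * if S.sb j < S.sb k then 1 else -1) • D false j
  vertex : ∀ j σ σ', S.h (j + 1) = t → S.Pres σ j t → S.Pres σ' (j + 1) t → D σ j = D σ' (j + 1)

variable {S}

open Classical in
/-- The strands on the side `σ` of `t` in the open upper right quadrant of strand `i`. -/
noncomputable def quadL (S : Sweep) (σ : Bool) (t : ℝ) (i : ℤ) : Finset ℤ :=
  (Finset.Ico (0 : ℤ) S.n).filter fun j =>
    S.Pres σ j t ∧ S.kB σ t i < S.kB σ t j ∧ S.kA σ t i < S.kA σ t j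

/-- The group element of strand `j`. -/
noncomputable def valL (S : Sweep) (Q : AQ Y G) (D : Bool → ℤ → Y) (σ : Bool) (j : ℤ) : G :=
  Q.del (D σ j) ^ S.eps j

/-- The product over the quadrant on the side `σ` of `t`. -/
noncomputable def WL (S : Sweep) (Q : AQ Y G) (D : Bool → ℤ → Y) (σ : Bool) (t : ℝ) (i : ℤ) : G :=
  OP (S.quadL σ t i) (S.kB σ t) (S.valL Q D σ)

/-- The new colour on the side `σ` of `t`. -/
noncomputable def FL (S : Sweep) (Q : AQ Y G) (D : Bool → ℤ → Y) (σ : Bool) (t : ℝ) (i : ℤ) : Y :=
  (S.WL Q D σ t i)⁻¹ • D σ i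

open Classical in
/-- The product over an open quadrant of the plane at height `t`. -/
noncomputable def UL (S : Sweep) (Q : AQ Y G) (D : Bool → ℤ → Y) (σ : Bool) (t a b : ℝ) : G :=
  OP ((Finset.Ico (0 : ℤ) S.n).filter fun j => S.Pres σ j t ∧ b < S.pb j t ∧ a < S.pa j t)
    (S.kB σ t) (S.valL Q D σ)

end Sweep

end Pool.Agent.helper43.SBI
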