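import Pool.Agent.helper43.SBI.Jump
import Pool.Agent.helper43.SBI.Limit

set_option autoImplicit false

/-!
# SBI-13 : the new colouring
-/

namespace Pool.Agent.helper43.SBI

open Pool.Agent.helper82.SB Filter Topology

namespace Sweep

variable {S : Sweep} {Y G : Type*} [Group G] [MulAction G Y]

theorem newcol_pres {j : ℤ} {t : ℝ} (h : t = S.h j ∨ t = S.h (j + 1)) : ∃ σ, S.Pres σ j t := by
  have h1 := lo_lt_hi S j
  have h2 : t = S.lo j ∨ t = S.hi j := by
    unfold lo hi
    rcases le_total (S.h j) (S.h (j + 1)) with h3 | h3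
    · rw [min_eq_left h3, max_eq_right h3]; exact h
    · rw [min_eq_right h3, max_eq_left h3]; exact h.symm
  rcases h2 with rfl | rfl
  · exact ⟨true, by unfold Pres; simpa using h1⟩
  · exact ⟨false, by unfold Pres; simpa using h1⟩

theorem newcol_ne {t : ℝ} {p : ℝ → Prop} (h : ∀ σ, ∀ᶠ r in sideF σ t, p r) : ∀ᶠ r in 𝓝[≠] t, p r := by
  rw [← nhdsLT_sup_nhdsGT, Filter.eventually_sup]
  exact ⟨by simpa [sideF] using h false, by simpa [sideF] using h true⟩

/-- SBI-13a. [`per`: `quad (i + n) t = quad i t`. The other fields: at every height `t` use the local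
data of `exists_loc` and `eventually_newC`.] -/
theorem fcol'_newC (hS : S.Good) (Q : AQ Y G) (C : ℤ → ℝ → Y) (hC : S.ECol Q C) :
    S.FCol' Q (S.newC Q C) := by
  refine ⟨fun j t => ?_, fun j t hj h2 => ?_, fun j k t hj hk ha hb => ?_, fun j => ?_⟩
  · have hq : S.quad (j + S.n) t = S.quad j t := by
      have h1 := pa_add S j 1 t
      have h2 := pb_add S j 1 t
      rw [one_mul] at h1 h2
      unfold quad
      rw [h1, h2]
    unfold newC W
    rw [hq, hC.per, Q.tau_smul]
  · obtain ⟨D, hD, hev⟩ := exists_loc Q C hC t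
    refine ⟨S.FL Q D false t j, newcol_ne fun σ => ?_⟩
    have h1 := eventually_newC hS Q C t D hev σ j hj.pres
    cases σ
    · exact h1
    · rwa [FL_cst hS Q t D hD j hj h2] at h1
  · obtain ⟨D, hD, hev⟩ := exists_loc Q C hC t
    obtain ⟨j1, j2⟩ := FL_jump hS Q t D hD j k hj hk ha hb
    refine ⟨S.FL Q D false t j, S.FL Q D false t k, newcol_ne fun σ => ?_, ?_, ?_⟩
    · have h1 := eventually_newC hS Q C t D hev σ k hk.pres
      cases σ
      · exact h1
      · rwa [j1] at h1
    · have h1 := eventually_newC hS Q C t D hev false j hj.pres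
      simpa [sideF] using h1
    · have h1 := eventually_newC hS Q C t D hev true j hj.pres
      rw [j2] at h1
      simpa only [sideF, if_true] using h1
  · obtain ⟨D, hD, hev⟩ := exists_loc Q C hC (S.h (j + 1))
    obtain ⟨σ, hσ⟩ := newcol_pres (S := S) (j := j) (t := S.h (j + 1)) (Or.inr rfl)
    obtain ⟨σ', hσ'⟩ := newcol_pres (S := S) (j := j + 1) (t := S.h (j + 1)) (Or.inl rfl)
    refine ⟨S.FL Q D σ (S.h (j + 1)) j, ?_, ?_⟩
    · rw [nhds_Ioo_eq_sideF hσ (Or.inr rfl)]
      exact eventually_newC hS Q C _ D hev σ j hσ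
    · rw [nhds_Ioo_eq_sideF hσ' (Or.inl rfl), FL_vertex hS Q _ D hD j σ σ' rfl hσ hσ']
      exact eventually_newC hS Q C _ D hev σ' (j + 1) hσ'

/-- SBI-13b. [If all the eventual values of the new colours below `t` are in `A`, then all eventual
values of the old ones, by `mem_of_FL_mem`. Here `t` is the height of the hypothesis. A strand `k` with
`Pres false k t` which is not `Ins k t` (that is `t = hi k`) has the same eventual values at slightly smaller heights.] -/
theorem full_newC (hS : S.Good) (Q : AQ Y G) (C : ℤ → ℝ → Y) (hC : S.ECol Q C) (A : Set Y)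
    (hA : ∀ y ∈ A, ∀ z ∈ A, Q.del z • y ∈ A ∧ (Q.del z)⁻¹ • y ∈ A)
    (h : ∃ j t x, S.Ins j t ∧ x ∉ A ∧ ∀ᶠ r in 𝓝[<] t, C j r = x) :
    ∃ j t x, S.Ins j t ∧ x ∉ A ∧ ∀ᶠ r in 𝓝[<] t, S.newC Q C j r = x := by
  by_contra hcon
  push Not at hcon
  obtain ⟨j, t, x, hj, hx, hev⟩ := h
  obtain ⟨D, hD, hevD⟩ := exists_loc Q C hC t
  have hjp : S.Pres false j t := hj.pres
  have h1 : ∀ᶠ r in 𝓝[<] t, C j r = D false j := by
    have := hevD false j hjp
    simpa [sideF] using this
  have h2 : x = D false j := by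
    obtain ⟨r, hr1, hr2⟩ := (hev.and h1).exists
    rw [← hr1, ← hr2]
  apply hx
  rw [h2]
  refine mem_of_FL_mem Q t D A hA false (fun k hk => ?_) j hjp
  by_contra hkA
  have h3 : ∀ᶠ r in 𝓝[<] t, S.newC Q C k r = S.FL Q D false t k := by
    have := eventually_newC hS Q C t D hevD false k hk
    simpa [sideF] using this
  obtain ⟨l, hl, hl'⟩ := mem_nhdsLT_iff_exists_Ioo_subset.1 h3
  have hk' : S.lo k < t ∧ t ≤ S.hi k := by
    unfold Pres at hk
    simpa using hk
  obtain ⟨t', ht1, ht2⟩ := exists_between (max_lt (show l < t from hl) hk'.1)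
  have ht3 : l < t' := lt_of_le_of_lt (le_max_left _ _) ht1
  have ht4 : S.lo k < t' := lt_of_le_of_lt (le_max_right _ _) ht1
  apply hcon k t' (S.FL Q D false t k) ⟨ht4, lt_of_lt_of_le ht2 hk'.2⟩ hkA
  filter_upwards [Ioo_mem_nhdsLT ht3] with r hr
  exact fun hne => hne (hl' ⟨hr.1, hr.2.trans ht2⟩)

end Sweep

end Pool.Agent.helper43.SBI
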