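import Pool.Agent.helper43.SBI.OPDef

set_option autoImplicit false

/-!
# SBI-0 : ordered products
-/

namespace Pool.Agent.helper43.SBI

section

variable {ι κ κ' M : Type*} [LinearOrder κ] [LinearOrder κ'] [Monoid M]

open Classical in
/-- the value chosen for a predicate -/
noncomputable def op_valP {ι M : Type*} [Monoid M] (P : ι → Prop) (val : ι → M) : M :=
  if h : ∃ j, P j then val h.choose else 1

omit [LinearOrder κ] in
theorem op_valAt_eq (J : Finset ι) (key : ι → κ) (val : ι → M) (t : κ) :
    valAt J key val t = op_valP (fun j => j ∈ J ∧ key j = t) val := by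
  unfold valAt op_valP
  split_ifs <;> rfl

theorem op_valP_congr {P P' : ι → Prop} (h : ∀ j, P j ↔ P' j) (val : ι → M) :
    op_valP P val = op_valP P' val := by
  have : P = P' := funext fun j => propext (h j)
  rw [this]

/-- the ordered product from any sorted list of the keys -/
theorem op_eq_list (J : Finset ι) (key : ι → κ) (val : ι → M) (l : List κ)
    (h1 : l.Pairwise (· ≤ ·)) (h2 : l.Nodup) (h3 : ∀ t, t ∈ l ↔ ∃ j ∈ J, key j = t) :
    OP J key val = (l.map (valAt J key val)).prod := by
  classical
  unfold OP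
  have e : (J.image key).sort (· ≤ ·) = l := by
    have hp : ((J.image key).sort (· ≤ ·)).Perm l := by
      rw [List.perm_ext_iff_of_nodup (Finset.sort_nodup _ _) h2]
      intro t
      rw [Finset.mem_sort, Finset.mem_image, h3]
    exact hp.eq_of_pairwise' (Finset.pairwise_sort _ _) h1
  have e2 : ∀ inst : DecidableEq κ, (@Finset.image ι κ inst key J).sort (· ≤ ·) = l := by
    intro inst
    rw [← e]
    congr 1
    ext t
    simp
  rw [e2]

theorem OP_empty (key : ι → κ) (val : ι → M) : OP ∅ key val = 1 := by
  rw [op_eq_list ∅ key val [] List.Pairwise.nil List.nodup_nil (by simp)]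
  rfl

theorem OP_singleton (j : ι) (key : ι → κ) (val : ι → M) : OP {j} key val = val j := by
  rw [op_eq_list {j} key val [key j] (by simp) (by simp) (by intro t; simp [eq_comm])]
  rw [List.map_cons, List.map_nil, List.prod_cons, List.prod_nil, mul_one, valAt]
  have hex : ∃ i, i ∈ ({j} : Finset ι) ∧ key i = key j := ⟨j, by simp⟩
  rw [dif_pos hex]
  have h1 := hex.choose_spec.1
  rw [Finset.mem_singleton] at h1
  rw [h1]

open Classical in
/-- Splitting at a place of the key line. -/
theorem OP_union (J₁ J₂ : Finset ι) (key : ι → κ) (val : ι → M)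
    (h : ∀ i ∈ J₁, ∀ j ∈ J₂, key i < key j) :
    OP (J₁ ∪ J₂) key val = OP J₁ key val * OP J₂ key val := by
  have hs1 : ∀ t, t ∈ (J₁.image key).sort (· ≤ ·) ↔ ∃ j ∈ J₁, key j = t := by
    intro t
    rw [Finset.mem_sort, Finset.mem_image]
  have hs2 : ∀ t, t ∈ (J₂.image key).sort (· ≤ ·) ↔ ∃ j ∈ J₂, key j = t := by
    intro t
    rw [Finset.mem_sort, Finset.mem_image]
  have hlt : ∀ a ∈ (J₁.image key).sort (· ≤ ·), ∀ b ∈ (J₂.image key).sort (· ≤ ·), a < b := by
    intro a ha b hb
    obtain ⟨i, hi, rfl⟩ := (hs1 a).1 ha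
    obtain ⟨j, hj, rfl⟩ := (hs2 b).1 hb
    exact h i hi j hj
  rw [op_eq_list (J₁ ∪ J₂) key val ((J₁.image key).sort (· ≤ ·) ++ (J₂.image key).sort (· ≤ ·))
    ?_ ?_ ?_, List.map_append, List.prod_append]
  · have e1 : OP J₁ key val =
        (((J₁.image key).sort (· ≤ ·)).map (valAt J₁ key val)).prod :=
      op_eq_list J₁ key val _ (Finset.pairwise_sort _ _) (Finset.sort_nodup _ _) hs1
    have e2 : OP J₂ key val =
        (((J₂.image key).sort (· ≤ ·)).map (valAt J₂ key val)).prod :=
      op_eq_list J₂ key val _ (Finset.pairwise_sort _ _) (Finset.sort_nodup _ _) hs2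
    rw [e1, e2]
    congr 2
    · refine List.map_congr_left fun t ht => ?_
      rw [op_valAt_eq, op_valAt_eq]
      refine op_valP_congr (fun j => ?_) val
      obtain ⟨i, hi, hit⟩ := (hs1 t).1 ht
      constructor
      · rintro ⟨hj, hjt⟩
        refine ⟨?_, hjt⟩
        rcases Finset.mem_union.1 hj with hj | hj
        · exact hj
        · have := h i hi j hj
          rw [hit, hjt] at this
          exact absurd this (lt_irrefl t)
      · rintro ⟨hj, hjt⟩
        exact ⟨Finset.mem_union_left _ hj, hjt⟩
    · refine List.map_congr_left fun t ht => ?_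
      rw [op_valAt_eq, op_valAt_eq]
      refine op_valP_congr (fun j => ?_) val
      obtain ⟨i, hi, hit⟩ := (hs2 t).1 ht
      constructor
      · rintro ⟨hj, hjt⟩
        refine ⟨?_, hjt⟩
        rcases Finset.mem_union.1 hj with hj | hj
        · have := h j hj i hi
          rw [hit, hjt] at this
          exact absurd this (lt_irrefl t)
        · exact hj
      · rintro ⟨hj, hjt⟩
        exact ⟨Finset.mem_union_right _ hj, hjt⟩
  · rw [List.pairwise_append]
    exact ⟨Finset.pairwise_sort _ _, Finset.pairwise_sort _ _, fun a ha b hb => (hlt a ha b hb).le⟩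
  · rw [List.nodup_append]
    refine ⟨Finset.sort_nodup _ _, Finset.sort_nodup _ _, ?_⟩
    intro a ha b hb
    exact (hlt a ha b hb).ne
  · intro t
    rw [List.mem_append, hs1, hs2]
    constructor
    · rintro (⟨j, hj, hjt⟩ | ⟨j, hj, hjt⟩)
      · exact ⟨j, Finset.mem_union_left _ hj, hjt⟩
      · exact ⟨j, Finset.mem_union_right _ hj, hjt⟩
    · rintro ⟨j, hj, hjt⟩
      rcases Finset.mem_union.1 hj with hj | hj
      · exact Or.inl ⟨j, hj, hjt⟩
      · exact Or.inr ⟨j, hj, hjt⟩

open Classical in
theorem OP_pair (i j : ι) (key : ι → κ) (val : ι → M) (h : key i < key j) :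
    OP {i, j} key val = val i * val j := by
  have e : ({i, j} : Finset ι) = {i} ∪ {j} := rfl
  rw [e, OP_union {i} {j} key val ?_, OP_singleton, OP_singleton]
  intro a ha b hb
  rw [Finset.mem_singleton] at ha hb
  rw [ha, hb]
  exact h

theorem OP_congr (J : Finset ι) (key : ι → κ) (val val' : ι → M) (h : ∀ j ∈ J, val j = val' j) :
    OP J key val = OP J key val' := by
  unfold OP
  congr 1
  refine List.map_congr_left fun t _ => ?_
  unfold valAt
  split_ifs with hex
  · exact h _ hex.choose_spec.1
  · rfl

/-- Only the order of the keys matters. -/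
theorem OP_order (J : Finset ι) (key : ι → κ) (key' : ι → κ') (val : ι → M)
    (hinj : ∀ i ∈ J, ∀ j ∈ J, key i = key j → i = j)
    (h : ∀ i ∈ J, ∀ j ∈ J, key i < key j ↔ key' i < key' j) : OP J key val = OP J key' val := by
  classical
  revert hinj h
  refine Finset.induction_on_max_value key J ?_ ?_
  · intro _ _
    rw [OP_empty, OP_empty]
  · intro a s ha hmax ih hinj h
    have hlt : ∀ x ∈ s, key x < key a := by
      intro x hx
      refine lt_of_le_of_ne (hmax x hx) fun e => ?_
      have := hinj x (Finset.mem_insert_of_mem hx) a (Finset.mem_insert_self _ _) e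
      rw [this] at hx
      exact ha hx
    have hlt' : ∀ x ∈ s, key' x < key' a := fun x hx =>
      (h x (Finset.mem_insert_of_mem hx) a (Finset.mem_insert_self _ _)).1 (hlt x hx)
    have e : insert a s = s ∪ {a} := by
      rw [Finset.union_comm]
      rfl
    rw [e, OP_union s {a} key val ?_, OP_union s {a} key' val ?_, OP_singleton, OP_singleton,
      ih (fun i hi j hj => hinj i (Finset.mem_insert_of_mem hi) j (Finset.mem_insert_of_mem hj))
        (fun i hi j hj => h i (Finset.mem_insert_of_mem hi) j (Finset.mem_insert_of_mem hj))]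
    · intro i hi j hj
      rw [Finset.mem_singleton] at hj
      rw [hj]
      exact hlt' i hi
    · intro i hi j hj
      rw [Finset.mem_singleton] at hj
      rw [hj]
      exact hlt i hi

open Classical in
/-- Cluster lemma: if both orders refine the order given by `lim` and the products over all clusters
`{lim = t}` are equal, then the products are equal. [Induction on the number of values of `lim` on
`J₁ ∪ J₂`: split off the cluster of the smallest value with `OP_union`.] -/
theorem OP_cluster (J₁ J₂ : Finset ι) (lim : ι → ℝ) (key₁ key₂ : ι → κ) (val₁ val₂ : ι → M)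
    (h₁ : ∀ i ∈ J₁, ∀ j ∈ J₁, lim i < lim j → key₁ i < key₁ j)
    (h₂ : ∀ i ∈ J₂, ∀ j ∈ J₂, lim i < lim j → key₂ i < key₂ j)
    (h : ∀ t : ℝ, OP (J₁.filter fun j => lim j = t) key₁ val₁ =
      OP (J₂.filter fun j => lim j = t) key₂ val₂) :
    OP J₁ key₁ val₁ = OP J₂ key₂ val₂ := by
  have key : ∀ P : Finset ℝ, OP (J₁.filter fun j => lim j ∈ P) key₁ val₁ =
      OP (J₂.filter fun j => lim j ∈ P) key₂ val₂ := by
    intro P
    refine Finset.induction_on_max P ?_ ?_
    · simp only [Finset.notMem_empty, Finset.filter_false, OP_empty]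
    · intro a s hmax ih
      have split : ∀ (J : Finset ι) (ky : ι → κ) (vl : ι → M),
          (∀ i ∈ J, ∀ j ∈ J, lim i < lim j → ky i < ky j) →
          OP (J.filter fun j => lim j ∈ insert a s) ky vl =
          OP (J.filter fun j => lim j ∈ s) ky vl * OP (J.filter fun j => lim j = a) ky vl := by
        intro J ky vl hJ
        rw [← OP_union]
        · congr 1
          ext j
          simp only [Finset.mem_filter, Finset.mem_insert, Finset.mem_union]
          tauto
        · intro i hi j hj
          rw [Finset.mem_filter] at hi hj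
          refine hJ i hi.1 j hj.1 ?_
          rw [hj.2]
          exact hmax _ hi.2
      rw [split J₁ key₁ val₁ h₁, split J₂ key₂ val₂ h₂, ih, h a]
  have hP := key ((J₁ ∪ J₂).image lim)
  rw [Finset.filter_true_of_mem, Finset.filter_true_of_mem] at hP
  · exact hP
  · intro j hj
    exact Finset.mem_image_of_mem _ (Finset.mem_union_right _ hj)
  · intro j hj
    exact Finset.mem_image_of_mem _ (Finset.mem_union_left _ hj)

theorem OP_mem (J : Finset ι) (key : ι → κ) (val : ι → M) (N : Submonoid M)
    (h : ∀ j ∈ J, val j ∈ N) : OP J key val ∈ N := by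
  unfold OP
  refine Submonoid.list_prod_mem _ fun x hx => ?_
  rw [List.mem_map] at hx
  obtain ⟨t, -, rfl⟩ := hx
  unfold valAt
  split_ifs with hex
  · exact h _ hex.choose_spec.1
  · exact N.one_mem

end

end Pool.Agent.helper43.SBI
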