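import Pool.Agent.helper43.SBI.Cluster

set_option autoImplicit false

/-!
# SBI-11 : the quadrant products of a strand
-/

namespace Pool.Agent.helper43.SBI

open Pool.Agent.helper82.SB Filter Topology

namespace Sweep

variable {S : Sweep} {Y G : Type*} [Group G] [MulAction G Y]

/-! ### Auxiliary lemmas -/

theorem quad_shift {j k : ℤ} (h : (S.n : ℤ) ∣ j - k) : ∃ m : ℤ, j = k + m * S.n := by
  obtain ⟨m, hm⟩ := h
  exact ⟨m, by linarith [mul_comm (S.n : ℤ) m]⟩

theorem quad_pa {j k : ℤ} (h : (S.n : ℤ) ∣ j - k) (t : ℝ) : S.pa j t = S.pa k t := by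
  obtain ⟨m, rfl⟩ := quad_shift h
  exact S.pa_add k m t

theorem quad_pb {j k : ℤ} (h : (S.n : ℤ) ∣ j - k) (t : ℝ) : S.pb j t = S.pb k t := by
  obtain ⟨m, rfl⟩ := quad_shift h
  exact S.pb_add k m t

theorem quad_kA {j k : ℤ} (h : (S.n : ℤ) ∣ j - k) (σ : Bool) (t : ℝ) :
    S.kA σ t j = S.kA σ t k := by
  obtain ⟨m, rfl⟩ := quad_shift h
  simp only [kA, S.pa_add, S.sa_add]

theorem quad_kB {j k : ℤ} (h : (S.n : ℤ) ∣ j - k) (σ : Bool) (t : ℝ) :
    S.kB σ t j = S.kB σ t k := by
  obtain ⟨m, rfl⟩ := quad_shift h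
  simp only [kB, S.pb_add, S.sb_add]

theorem quad_pres {j k : ℤ} (h : (S.n : ℤ) ∣ j - k) (σ : Bool) (t : ℝ) :
    S.Pres σ j t ↔ S.Pres σ k t := by
  obtain ⟨m, rfl⟩ := quad_shift h
  simp only [Pres, S.lo_add, S.hi_add]

theorem quad_h {j k : ℤ} (h : (S.n : ℤ) ∣ j - k) : S.h j = S.h k := by
  obtain ⟨m, rfl⟩ := quad_shift h
  exact S.h_add k m

theorem quad_rep (S : Sweep) (k : ℤ) :
    ∃ k' : ℤ, k' ∈ Finset.Ico (0 : ℤ) S.n ∧ (S.n : ℤ) ∣ k' - k := by
  have hn : (0 : ℤ) < S.n := by
    have := S.three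
    omega
  refine ⟨k % S.n, ?_, ?_⟩
  · rw [Finset.mem_Ico]
    exact ⟨Int.emod_nonneg _ hn.ne', Int.emod_lt_of_pos _ hn⟩
  · exact ⟨-(k / S.n), by
      have := Int.emod_add_mul_ediv k S.n
      linarith⟩

theorem quad_unique {j k : ℤ} (hj : j ∈ Finset.Ico (0 : ℤ) S.n) (hk : k ∈ Finset.Ico (0 : ℤ) S.n)
    (h : (S.n : ℤ) ∣ j - k) : j = k := by
  rw [Finset.mem_Ico] at hj hk
  have := Int.eq_zero_of_abs_lt_dvd h (by rw [abs_lt]; constructor <;> omega)
  omega

theorem quad_kB_lt_iff (σ : Bool) (t : ℝ) (i j : ℤ) : S.kB σ t i < S.kB σ t j ↔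
    S.pb i t < S.pb j t ∨ (S.pb i t = S.pb j t ∧ sg σ * S.sb i < sg σ * S.sb j) := by
  simp only [kB, Prod.Lex.toLex_lt_toLex]

theorem quad_kA_lt_iff (σ : Bool) (t : ℝ) (i j : ℤ) : S.kA σ t i < S.kA σ t j ↔
    S.pa i t < S.pa j t ∨ (S.pa i t = S.pa j t ∧ sg σ * S.sa i < sg σ * S.sa j) := by
  simp only [kA, Prod.Lex.toLex_lt_toLex]

theorem quad_kB_lt {σ : Bool} {t : ℝ} {i j : ℤ} (h : S.pb i t < S.pb j t) :
    S.kB σ t i < S.kB σ t j := (quad_kB_lt_iff σ t i j).2 (Or.inl h)

theorem quad_kA_lt {σ : Bool} {t : ℝ} {i j : ℤ} (h : S.pa i t < S.pa j t) :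
    S.kA σ t i < S.kA σ t j := (quad_kA_lt_iff σ t i j).2 (Or.inl h)

theorem quad_kB_le {σ : Bool} {t : ℝ} {i j : ℤ} (h : S.kB σ t i < S.kB σ t j) :
    S.pb i t ≤ S.pb j t := by
  rcases (quad_kB_lt_iff σ t i j).1 h with h | h
  · exact h.le
  · exact h.1.le

theorem quad_kA_le {σ : Bool} {t : ℝ} {i j : ℤ} (h : S.kA σ t i < S.kA σ t j) :
    S.pa i t ≤ S.pa j t := by
  rcases (quad_kA_lt_iff σ t i j).1 h with h | h
  · exact h.le
  · exact h.1.le

theorem quad_kB_not {σ : Bool} {t : ℝ} {i j : ℤ} (h : S.kB σ t i < S.kB σ t j) :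
    ¬ (S.n : ℤ) ∣ i - j := by
  intro hd
  rw [quad_kB hd] at h
  exact lt_irrefl _ h

/-- Interior heights: a strand with larger keys has another position. -/
theorem Good.quad_not_both (hS : S.Good) {σ : Bool} {t : ℝ} {i j : ℤ} (hi : S.Ins i t)
    (hj : S.Pres σ j t) (h : S.kB σ t i < S.kB σ t j) (ha : S.pa i t = S.pa j t)
    (hb : S.pb i t = S.pb j t) : False :=
  quad_kB_not h (hS.simple_ins hi hj.cl ha hb)

theorem quad_OP_union {κ M : Type*} [LinearOrder κ] [Monoid M] (J₁ J₂ : Finset ℤ) (key : ℤ → κ)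
    (val : ℤ → M) (h : ∀ i ∈ J₁, ∀ j ∈ J₂, key i < key j) :
    OP (J₁ ∪ J₂) key val = OP J₁ key val * OP J₂ key val := by
  have h2 := OP_union J₁ J₂ key val h
  have h3 : (fun a b => Classical.propDecidable (a = b) : DecidableEq ℤ) = Int.instDecidableEq :=
    Subsingleton.elim _ _
  rw [h3] at h2
  exact h2

/-- SBI-11a. A strand which is not under another one in both views. [For `j` present on the side `σ`:
`kB i < kB j ∧ kA i < kA j ↔ pb i t < pb j t ∧ pa i t < pa j t`. From left to right: `pb i ≤ pb j`; if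
`pb i = pb j` then `pa j ≤ pa i` by hypothesis, so `pa j = pa i` since `kA i < kA j`, and then `n ∣ i - j` by
`simple_ins`, so the keys are equal; similarly if `pa i = pa j`.] -/
theorem WL_eq_UL (hS : S.Good) (Q : AQ Y G) (t : ℝ) (D : Bool → ℤ → Y) (σ : Bool) (i : ℤ)
    (hi : S.Ins i t) (h1 : ∀ k, S.Ins k t → S.pb k t = S.pb i t → S.pa k t ≤ S.pa i t)
    (h2 : ∀ k, S.Ins k t → S.pa k t = S.pa i t → S.pb k t ≤ S.pb i t) :
    S.WL Q D σ t i = S.UL Q D σ t (S.pa i t) (S.pb i t) := by
  classical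
  have hset : S.quadL σ t i = (Finset.Ico (0 : ℤ) S.n).filter fun j =>
      S.Pres σ j t ∧ S.pb i t < S.pb j t ∧ S.pa i t < S.pa j t := by
    unfold quadL
    apply Finset.filter_congr
    intro j _
    constructor
    · rintro ⟨hp, hB, hA⟩
      have hb := quad_kB_le hB
      have ha := quad_kA_le hA
      refine ⟨hp, ?_, ?_⟩
      · refine lt_of_le_of_ne hb fun hbe => ?_
        by_cases hae : S.pa i t = S.pa j t
        · exact hS.quad_not_both hi hp hB hae hbe
        · have := h1 j (hS.ins_of_pb_eq hi.cl hp.cl hbe hae).2 hbe.symm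
          exact hae (le_antisymm ha this)
      · refine lt_of_le_of_ne ha fun hae => ?_
        by_cases hbe : S.pb i t = S.pb j t
        · exact hS.quad_not_both hi hp hB hae hbe
        · have := h2 j (hS.ins_of_pa_eq hi.cl hp.cl hae hbe).2 hae.symm
          exact hbe (le_antisymm hb this)
    · rintro ⟨hp, hB, hA⟩
      exact ⟨hp, quad_kB_lt hB, quad_kA_lt hA⟩
  unfold WL UL
  rw [hset]

open Classical in
/-- SBI-11b. A strand which is under strand `k` in the view `e`. [The quadrant of `i` consists of the open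
quadrant `{pb i < pb j, pa i < pa j}` and possibly (the representative of) `k`, whose key is smaller
than all the other ones. `hS.pair`, `hS.tripleB` and `ins_of_pb_eq`, `ins_of_pa_eq` exclude all other
coincidences.] -/
theorem WL_under_e (hS : S.Good) (Q : AQ Y G) (t : ℝ) (D : Bool → ℤ → Y) (hD : S.Loc Q t D)
    (σ : Bool) (i k : ℤ) (hi : S.Ins i t) (hk : S.Ins k t) (hb : S.pb i t = S.pb k t)
    (ha : S.pa i t < S.pa k t) :
    S.WL Q D σ t i = (if S.kB σ t i < S.kB σ t k then S.valL Q D σ k else 1) *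
      S.UL Q D σ t (S.pa i t) (S.pb i t) := by
  obtain ⟨k', hk', hkk⟩ := S.quad_rep k
  have hkp : S.Pres σ k' t := (quad_pres hkk σ t).2 hk.pres
  set J : Finset ℤ := (Finset.Ico (0 : ℤ) S.n).filter fun j =>
      S.Pres σ j t ∧ S.pb i t < S.pb j t ∧ S.pa i t < S.pa j t with hJ
  have hset : S.quadL σ t i = (if S.kB σ t i < S.kB σ t k then {k'} else ∅) ∪ J := by
    ext j
    rw [Finset.mem_union, hJ, Finset.mem_filter, quadL, Finset.mem_filter]
    constructor
    · rintro ⟨hj, hp, hB, hA⟩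
      have hb' := quad_kB_le hB
      have ha' := quad_kA_le hA
      by_cases hbe : S.pb i t = S.pb j t
      · left
        have hae : S.pa i t ≠ S.pa j t := fun h => hS.quad_not_both hi hp hB h hbe
        have h3 : S.pa k t = S.pa j t := by
          rcases hS.tripleB i k j t hi.cl hk.cl hp.cl hb hbe with h | h | h
          · exact absurd h ha.ne
          · exact absurd h hae
          · exact h
        have hkj : (S.n : ℤ) ∣ k - j := hS.simple_ins hk hp.cl h3 (hb.symm.trans hbe)
        have hk'j : (S.n : ℤ) ∣ k' - j := by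
          have := dvd_add hkk hkj
          simpa using this
        have hjk : k' = j := quad_unique hk' hj hk'j
        have : S.kB σ t i < S.kB σ t k := by rwa [quad_kB hkj]
        rw [if_pos this, hjk]
        exact Finset.mem_singleton_self j
      · right
        refine ⟨hj, hp, lt_of_le_of_ne hb' hbe, lt_of_le_of_ne ha' fun hae => ?_⟩
        rcases hS.pair i k j t hi.cl hk.cl hp.cl hb hae with h | h
        · exact ha.ne h
        · exact hbe h
    · rintro (h | ⟨hj, hp, hB, hA⟩)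
      · by_cases hc : S.kB σ t i < S.kB σ t k
        · rw [if_pos hc, Finset.mem_singleton] at h
          subst h
          refine ⟨hk', hkp, ?_, quad_kA_lt ?_⟩
          · rwa [quad_kB hkk]
          · rwa [quad_pa hkk]
        · rw [if_neg hc] at h
          exact absurd h (Finset.notMem_empty j)
      · exact ⟨hj, hp, quad_kB_lt hB, quad_kA_lt hA⟩
  unfold WL UL
  rw [hset, quad_OP_union]
  · congr 1
    by_cases hc : S.kB σ t i < S.kB σ t k
    · rw [if_pos hc, if_pos hc, OP_singleton]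
      exact hD.valL_eq hkp hkk
    · rw [if_neg hc, if_neg hc, OP_empty]
  · intro j hj l hl
    by_cases hc : S.kB σ t i < S.kB σ t k
    · rw [if_pos hc, Finset.mem_singleton] at hj
      subst hj
      rw [hJ, Finset.mem_filter] at hl
      apply quad_kB_lt
      rw [quad_pb hkk, ← hb]
      exact hl.2.2.1
    · rw [if_neg hc] at hj
      exact absurd hj (Finset.notMem_empty j)

open Classical in
/-- SBI-11c. A strand which is under strand `k` in the view `f`. [The quadrant of `i` consists of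
`J₁ = {pb i < pb j < pb k, pa i < pa j}`, possibly `k`, and `J₂ = {pb k < pb j, pa i < pa j}`; the open
quadrant is `J₁ ∪ J₂`, and `J₂` is the quadrant of `k`, as `pa k = pa i`.] -/
theorem WL_under_f (hS : S.Good) (Q : AQ Y G) (t : ℝ) (D : Bool → ℤ → Y) (hD : S.Loc Q t D)
    (σ : Bool) (i k : ℤ) (hi : S.Ins i t) (hk : S.Ins k t) (ha : S.pa i t = S.pa k t)
    (hb : S.pb i t < S.pb k t) :
    S.WL Q D σ t i = S.UL Q D σ t (S.pa i t) (S.pb i t) *
      (if S.kA σ t i < S.kA σ t k then
        (S.WL Q D σ t k)⁻¹ * S.valL Q D σ k * S.WL Q D σ t k else 1) := by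
  obtain ⟨k', hk', hkk⟩ := S.quad_rep k
  have hkp : S.Pres σ k' t := (quad_pres hkk σ t).2 hk.pres
  set J₁ : Finset ℤ := (Finset.Ico (0 : ℤ) S.n).filter fun j =>
      S.Pres σ j t ∧ S.pb i t < S.pb j t ∧ S.pb j t < S.pb k t ∧ S.pa i t < S.pa j t with hJ₁
  set J₂ : Finset ℤ := (Finset.Ico (0 : ℤ) S.n).filter fun j =>
      S.Pres σ j t ∧ S.pb k t < S.pb j t ∧ S.pa i t < S.pa j t with hJ₂
  have hno : ∀ j, S.Pres σ j t → S.pb k t = S.pb j t → S.pa k t ≠ S.pa j t → False := by
    intro j hp h1 h2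
    rcases hS.pair k j i t hk.cl hp.cl hi.cl h1 ha.symm with h | h
    · exact h2 h
    · exact hb.ne h.symm
  -- the quadrant of `k`
  have hset2 : S.quadL σ t k = J₂ := by
    ext j
    rw [hJ₂, Finset.mem_filter, quadL, Finset.mem_filter]
    constructor
    · rintro ⟨hj, hp, hB, hA⟩
      have hb' := quad_kB_le hB
      have ha' := quad_kA_le hA
      have hbe : S.pb k t ≠ S.pb j t := by
        intro h
        by_cases h' : S.pa k t = S.pa j t
        · exact hS.quad_not_both hk hp hB h' h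
        · exact hno j hp h h'
      have hbl := lt_of_le_of_ne hb' hbe
      refine ⟨hj, hp, hbl, ?_⟩
      rw [ha]
      refine lt_of_le_of_ne ha' fun hae => ?_
      rcases hS.tripleA k i j t hk.cl hi.cl hp.cl ha.symm hae with h | h | h
      · exact hb.ne h.symm
      · exact hbe h
      · exact (hb.trans hbl).ne h
    · rintro ⟨hj, hp, hB, hA⟩
      refine ⟨hj, hp, quad_kB_lt hB, quad_kA_lt ?_⟩
      rwa [← ha]
  -- the open quadrant
  have hsetU : ((Finset.Ico (0 : ℤ) S.n).filter fun j =>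
      S.Pres σ j t ∧ S.pb i t < S.pb j t ∧ S.pa i t < S.pa j t) = J₁ ∪ J₂ := by
    ext j
    rw [Finset.mem_union, hJ₁, hJ₂, Finset.mem_filter, Finset.mem_filter, Finset.mem_filter]
    constructor
    · rintro ⟨hj, hp, hB, hA⟩
      rcases lt_trichotomy (S.pb j t) (S.pb k t) with h | h | h
      · exact Or.inl ⟨hj, hp, hB, h, hA⟩
      · exact (hno j hp h.symm (by rw [← ha]; exact hA.ne)).elim
      · exact Or.inr ⟨hj, hp, h, hA⟩
    · rintro (⟨hj, hp, hB, _, hA⟩ | ⟨hj, hp, hB, hA⟩)
      · exact ⟨hj, hp, hB, hA⟩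
      · exact ⟨hj, hp, hb.trans hB, hA⟩
  -- the quadrant of `i`
  have hset1 : S.quadL σ t i = J₁ ∪ ((if S.kA σ t i < S.kA σ t k then {k'} else ∅) ∪ J₂) := by
    ext j
    rw [Finset.mem_union, Finset.mem_union, hJ₁, hJ₂, Finset.mem_filter, Finset.mem_filter,
      quadL, Finset.mem_filter]
    constructor
    · rintro ⟨hj, hp, hB, hA⟩
      have hb' := quad_kB_le hB
      have ha' := quad_kA_le hA
      by_cases hae : S.pa i t = S.pa j t
      · right; left
        have hbe : S.pb i t ≠ S.pb j t := fun h => hS.quad_not_both hi hp hB hae h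
        have h3 : S.pb k t = S.pb j t := by
          rcases hS.tripleA i k j t hi.cl hk.cl hp.cl ha hae with h | h | h
          · exact absurd h hb.ne
          · exact absurd h hbe
          · exact h
        have hkj : (S.n : ℤ) ∣ k - j := hS.simple_ins hk hp.cl (ha.symm.trans hae) h3
        have hk'j : (S.n : ℤ) ∣ k' - j := by
          have := dvd_add hkk hkj
          simpa using this
        have hjk : k' = j := quad_unique hk' hj hk'j
        have : S.kA σ t i < S.kA σ t k := by rwa [quad_kA hkj]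
        rw [if_pos this, hjk]
        exact Finset.mem_singleton_self j
      · have hal := lt_of_le_of_ne ha' hae
        have hbe : S.pb i t ≠ S.pb j t := by
          intro h
          rcases hS.pair i j k t hi.cl hp.cl hk.cl h ha with h' | h'
          · exact hae h'
          · exact hb.ne h'
        have hbl := lt_of_le_of_ne hb' hbe
        rcases lt_trichotomy (S.pb j t) (S.pb k t) with h | h | h
        · exact Or.inl ⟨hj, hp, hbl, h, hal⟩
        · exact (hno j hp h.symm (by rw [← ha]; exact hal.ne)).elim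
        · exact Or.inr (Or.inr ⟨hj, hp, h, hal⟩)
    · rintro (⟨hj, hp, hB, _, hA⟩ | h | ⟨hj, hp, hB, hA⟩)
      · exact ⟨hj, hp, quad_kB_lt hB, quad_kA_lt hA⟩
      · by_cases hc : S.kA σ t i < S.kA σ t k
        · rw [if_pos hc, Finset.mem_singleton] at h
          subst h
          refine ⟨hk', hkp, quad_kB_lt ?_, ?_⟩
          · rwa [quad_pb hkk]
          · rwa [quad_kA hkk]
        · rw [if_neg hc] at h
          exact absurd h (Finset.notMem_empty j)
      · exact ⟨hj, hp, quad_kB_lt (hb.trans hB), quad_kA_lt hA⟩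
  have hW2 : S.WL Q D σ t k = OP J₂ (S.kB σ t) (S.valL Q D σ) := by
    unfold WL
    rw [hset2]
  have hU : S.UL Q D σ t (S.pa i t) (S.pb i t) =
      OP J₁ (S.kB σ t) (S.valL Q D σ) * OP J₂ (S.kB σ t) (S.valL Q D σ) := by
    unfold UL
    rw [hsetU, quad_OP_union]
    intro j hj l hl
    rw [hJ₁, Finset.mem_filter] at hj
    rw [hJ₂, Finset.mem_filter] at hl
    exact quad_kB_lt (hj.2.2.2.1.trans hl.2.2.1)
  have hW1 : S.WL Q D σ t i = OP J₁ (S.kB σ t) (S.valL Q D σ) *
      ((if S.kA σ t i < S.kA σ t k then S.valL Q D σ k else 1) *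
        OP J₂ (S.kB σ t) (S.valL Q D σ)) := by
    unfold WL
    rw [hset1, quad_OP_union, quad_OP_union]
    · congr 2
      by_cases hc : S.kA σ t i < S.kA σ t k
      · rw [if_pos hc, if_pos hc, OP_singleton]
        exact hD.valL_eq hkp hkk
      · rw [if_neg hc, if_neg hc, OP_empty]
    · intro j hj l hl
      by_cases hc : S.kA σ t i < S.kA σ t k
      · rw [if_pos hc, Finset.mem_singleton] at hj
        subst hj
        rw [hJ₂, Finset.mem_filter] at hl
        apply quad_kB_lt
        rw [quad_pb hkk]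
        exact hl.2.2.1
      · rw [if_neg hc] at hj
        exact absurd hj (Finset.notMem_empty j)
    · intro j hj l hl
      rw [hJ₁, Finset.mem_filter] at hj
      rw [Finset.mem_union] at hl
      apply quad_kB_lt
      rcases hl with hl | hl
      · by_cases hc : S.kA σ t i < S.kA σ t k
        · rw [if_pos hc, Finset.mem_singleton] at hl
          subst hl
          rw [quad_pb hkk]
          exact hj.2.2.2.1
        · rw [if_neg hc] at hl
          exact absurd hl (Finset.notMem_empty l)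
      · rw [hJ₂, Finset.mem_filter] at hl
        exact hj.2.2.2.1.trans hl.2.2.1
  rw [hW1, hU, hW2]
  by_cases hc : S.kA σ t i < S.kA σ t k
  · rw [if_pos hc, if_pos hc]
    group
  · rw [if_neg hc, if_neg hc]
    group

/-- The colour is fixed by the element of the strand. -/
theorem quad_fix_aux (Q : AQ Y G) (x : Y) (m : ℤ) (u : G) :
    (Q.del x ^ m * u)⁻¹ • x = u⁻¹ • x := by
  have h1 : Q.del x ^ m • x = x := by
    have hmem : Q.del x ∈ MulAction.stabilizer G x := Q.del_self x
    exact (MulAction.stabilizer G x).zpow_mem hmem m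
  have h2 : (Q.del x ^ m)⁻¹ • x = x := by
    rw [inv_smul_eq_iff, h1]
  rw [mul_inv_rev, mul_smul, h2]

open Classical in
/-- The common part of the vertex lemmas: `i` is a strand at a vertex, `k` is the other one. -/
theorem FL_vertex_aux (hS : S.Good) (Q : AQ Y G) (t : ℝ) (D : Bool → ℤ → Y) (hD : S.Loc Q t D)
    (σ : Bool) (i k : ℤ) (ht : t = S.h i ∨ t = S.h (i + 1)) (hi : S.Pres σ i t)
    (hother : ∀ j, S.Pres σ j t → S.pa i t = S.pa j t → S.pb i t = S.pb j t →
      (S.n : ℤ) ∣ i - j ∨ (S.n : ℤ) ∣ k - j)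
    (hpb : S.pb k t = S.pb i t)
    (hcol : S.Pres σ k t → D σ k = D σ i) :
    S.FL Q D σ t i = (S.UL Q D σ t (S.pa i t) (S.pb i t))⁻¹ • D σ i := by
  obtain ⟨k', hk', hkk⟩ := S.quad_rep k
  set J : Finset ℤ := (Finset.Ico (0 : ℤ) S.n).filter fun j =>
      S.Pres σ j t ∧ S.pb i t < S.pb j t ∧ S.pa i t < S.pa j t with hJ
  have hset : S.quadL σ t i = (if k' ∈ S.quadL σ t i then {k'} else ∅) ∪ J := by
    ext j
    rw [Finset.mem_union, hJ, Finset.mem_filter]
    constructor
    · intro hjq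
      have hjq' := hjq
      rw [quadL, Finset.mem_filter] at hjq
      obtain ⟨hj, hp, hB, hA⟩ := hjq
      have hb' := quad_kB_le hB
      have ha' := quad_kA_le hA
      by_cases hbe : S.pb i t = S.pb j t
      · left
        have hae : S.pa i t = S.pa j t := hS.vertB i j t hi.cl hp.cl hbe ht
        rcases hother j hp hae hbe with h | h
        · exact absurd h (quad_kB_not hB)
        · have hk'j : (S.n : ℤ) ∣ k' - j := by
            have := dvd_add hkk h
            simpa using this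
          have hjk : k' = j := quad_unique hk' hj hk'j
          subst hjk
          rw [if_pos hjq']
          exact Finset.mem_singleton_self _
      · right
        refine ⟨hj, hp, lt_of_le_of_ne hb' hbe, lt_of_le_of_ne ha' fun hae => ?_⟩
        exact hbe (hS.vertA i j t hi.cl hp.cl hae ht)
    · rintro (h | ⟨hj, hp, hB, hA⟩)
      · by_cases hc : k' ∈ S.quadL σ t i
        · rw [if_pos hc, Finset.mem_singleton] at h
          rwa [h]
        · rw [if_neg hc] at h
          exact absurd h (Finset.notMem_empty j)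
      · rw [quadL, Finset.mem_filter]
        exact ⟨hj, hp, quad_kB_lt hB, quad_kA_lt hA⟩
  have hU : S.UL Q D σ t (S.pa i t) (S.pb i t) = OP J (S.kB σ t) (S.valL Q D σ) := rfl
  have hW : S.WL Q D σ t i = OP (if k' ∈ S.quadL σ t i then {k'} else ∅) (S.kB σ t)
      (S.valL Q D σ) * OP J (S.kB σ t) (S.valL Q D σ) := by
    unfold WL
    conv_lhs => rw [hset]
    rw [quad_OP_union]
    intro j hj l hl
    by_cases hc : k' ∈ S.quadL σ t i
    · rw [if_pos hc, Finset.mem_singleton] at hj
      subst hj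
      rw [hJ, Finset.mem_filter] at hl
      apply quad_kB_lt
      rw [quad_pb hkk, hpb]
      exact hl.2.2.1
    · rw [if_neg hc] at hj
      exact absurd hj (Finset.notMem_empty j)
  unfold FL
  rw [hW, hU]
  by_cases hc : k' ∈ S.quadL σ t i
  · rw [if_pos hc, OP_singleton]
    have hp : S.Pres σ k' t := by
      rw [quadL, Finset.mem_filter] at hc
      exact hc.2.1
    have hpk : S.Pres σ k t := (quad_pres hkk σ t).1 hp
    rw [hD.valL_eq hp hkk]
    unfold valL
    rw [hcol hpk]
    exact quad_fix_aux Q _ _ _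
  · rw [if_neg hc, OP_empty, one_mul]

/-- SBI-11d. At a vertex. [The quadrant of the strand `i` (or `i + 1`) is the open quadrant and possibly the other
strand at the vertex, which has the smallest key; its element fixes the colour.] -/
theorem FL_vertex_left (hS : S.Good) (Q : AQ Y G) (t : ℝ) (D : Bool → ℤ → Y) (hD : S.Loc Q t D)
    (σ : Bool) (i : ℤ) (ht : S.h (i + 1) = t) (hi : S.Pres σ i t) :
    S.FL Q D σ t i = (S.UL Q D σ t (S.A (i + 1)) (S.B (i + 1)))⁻¹ • D σ i := by
  have hpa : S.pa i t = S.A (i + 1) := by rw [← ht]; exact S.pa_h' i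
  have hpb : S.pb i t = S.B (i + 1) := by rw [← ht]; exact S.pb_h' i
  rw [← hpa, ← hpb]
  refine FL_vertex_aux hS Q t D hD σ i (i + 1) (Or.inr ht.symm) hi ?_ ?_ ?_
  · intro j hp ha hb
    rcases hS.simple i j t hi.cl hp.cl ha hb with h | ⟨h, _⟩ | ⟨_, h⟩
    · exact Or.inl h
    · exact Or.inr h
    · exact absurd (h.symm.trans ht.symm) (S.hne i)
  · rw [hpb, ← ht]
    exact S.pb_h (i + 1)
  · intro hp
    exact (hD.vertex i σ σ ht hi hp).symm

theorem FL_vertex_right (hS : S.Good) (Q : AQ Y G) (t : ℝ) (D : Bool → ℤ → Y) (hD : S.Loc Q t D)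
    (σ : Bool) (i : ℤ) (ht : S.h (i + 1) = t) (hi : S.Pres σ (i + 1) t) :
    S.FL Q D σ t (i + 1) =
      (S.UL Q D σ t (S.A (i + 1)) (S.B (i + 1)))⁻¹ • D σ (i + 1) := by
  have hpa : S.pa (i + 1) t = S.A (i + 1) := by rw [← ht]; exact S.pa_h (i + 1)
  have hpb : S.pb (i + 1) t = S.B (i + 1) := by rw [← ht]; exact S.pb_h (i + 1)
  rw [← hpa, ← hpb]
  refine FL_vertex_aux hS Q t D hD σ (i + 1) i (Or.inl ht.symm) hi ?_ ?_ ?_
  · intro j hp ha hb
    rcases hS.simple (i + 1) j t hi.cl hp.cl ha hb with h | ⟨h, h'⟩ | ⟨h, _⟩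
    · exact Or.inl h
    · have h2 : S.h (i + 1 + 1) = S.h j := quad_h h
      exact absurd (ht.trans (h'.trans h2.symm)) (S.hne (i + 1))
    · right
      have h2 : j + 1 - (i + 1) = -(i - j) := by ring
      rw [h2] at h
      exact (dvd_neg.1 h)
  · rw [hpb, ← ht]
    exact S.pb_h' i
  · intro hp
    exact hD.vertex i σ σ ht hp hi

end Sweep

end Pool.Agent.helper43.SBI
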