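import Pool.Agent.helper43.SBI.Crossing

set_option autoImplicit false

/-!
# SBI-4a, b : stability of disjoint projections

`F t` is a family of polygons and `e t` a family of directions, depending continuously on `t`.
-/

namespace Pool.Agent.helper43.SBI

open Pool.Agent.helper82.SB Filter Topology

variable {X : Type*} [TopologicalSpace X]

theorem continuous_det3 : Continuous fun p : E3 × E3 × E3 => det3 p.1 p.2.1 p.2.2 := by
  simp only [det3]
  fun_prop

/-- The vector product in coordinates (private version). -/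
private def cr (a b : E3) : E3 :=
  fun i => if i = 0 then a 1 * b 2 - a 2 * b 1 else if i = 1 then a 2 * b 0 - a 0 * b 2
    else a 0 * b 1 - a 1 * b 0

private theorem cr_zero (a b : E3) : cr a b 0 = a 1 * b 2 - a 2 * b 1 := by simp [cr]

private theorem cr_one (a b : E3) : cr a b 1 = a 2 * b 0 - a 0 * b 2 := by simp [cr]

private theorem cr_two (a b : E3) : cr a b 2 = a 0 * b 1 - a 1 * b 0 := by simp [cr]

private theorem cr_cont {Z : Type*} [TopologicalSpace Z] {f g : Z → E3} (hf : Continuous f)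
    (hg : Continuous g) : Continuous fun z => cr (f z) (g z) := by
  have hf' : ∀ i, Continuous fun z => f z i := fun i => (continuous_apply i).comp hf
  have hg' : ∀ i, Continuous fun z => g z i := fun i => (continuous_apply i).comp hg
  refine continuous_pi fun i => ?_
  fin_cases i
  · simp only [Fin.zero_eta, cr_zero]
    exact ((hf' 1).mul (hg' 2)).sub ((hf' 2).mul (hg' 1))
  · simp only [Fin.mk_one, cr_one]
    exact ((hf' 2).mul (hg' 0)).sub ((hf' 0).mul (hg' 2))
  · simp only [Fin.reduceFinMk, cr_two]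
    exact ((hf' 0).mul (hg' 1)).sub ((hf' 1).mul (hg' 0))

private theorem cr_smul_self (c : ℝ) (b : E3) : cr (c • b) b = 0 := by
  funext i
  fin_cases i
  · simp only [Fin.zero_eta, cr_zero, Pi.smul_apply, smul_eq_mul, Pi.zero_apply]
    ring
  · simp only [Fin.mk_one, cr_one, Pi.smul_apply, smul_eq_mul, Pi.zero_apply]
    ring
  · simp only [Fin.reduceFinMk, cr_two, Pi.smul_apply, smul_eq_mul, Pi.zero_apply]
    ring

private theorem cr_eq_zero {a b : E3} (hb : b ≠ 0) (h : cr a b = 0) : ∃ c : ℝ, a = c • b := by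
  have h0 : a 1 * b 2 - a 2 * b 1 = 0 := by rw [← cr_zero, h]; rfl
  have h1 : a 2 * b 0 - a 0 * b 2 = 0 := by rw [← cr_one, h]; rfl
  have h2 : a 0 * b 1 - a 1 * b 0 = 0 := by rw [← cr_two, h]; rfl
  have hpos : 0 < b 0 ^ 2 + b 1 ^ 2 + b 2 ^ 2 := by
    rcases eq_or_lt_of_le (show 0 ≤ b 0 ^ 2 + b 1 ^ 2 + b 2 ^ 2 by positivity) with h' | h'
    · exfalso
      apply hb
      have e0 := sq_nonneg (b 0)
      have e1 := sq_nonneg (b 1)
      have e2 := sq_nonneg (b 2)
      have f0 : b 0 = 0 := pow_eq_zero_iff (two_ne_zero) |>.1 (le_antisymm (by linarith) e0)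
      have f1 : b 1 = 0 := pow_eq_zero_iff (two_ne_zero) |>.1 (le_antisymm (by linarith) e1)
      have f2 : b 2 = 0 := pow_eq_zero_iff (two_ne_zero) |>.1 (le_antisymm (by linarith) e2)
      funext i
      fin_cases i
      · exact f0
      · exact f1
      · exact f2
    · exact h'
  refine ⟨(a 0 * b 0 + a 1 * b 1 + a 2 * b 2) / (b 0 ^ 2 + b 1 ^ 2 + b 2 ^ 2), ?_⟩
  funext i
  rw [Pi.smul_apply, smul_eq_mul, div_mul_eq_mul_div, eq_div_iff hpos.ne']
  fin_cases i
  · simp only [Fin.zero_eta]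
    linear_combination b 1 * h2 - b 2 * h1
  · simp only [Fin.mk_one]
    linear_combination b 2 * h0 - b 0 * h2
  · simp only [Fin.reduceFinMk]
    linear_combination b 0 * h1 - b 1 * h0

private theorem edge_cont {F : X → PolyKnot} (hc : ∀ i : ℤ, Continuous fun t => (F t).P i)
    (i : ℤ) : Continuous fun t => edge (F t).P i := by
  simp only [edge]
  exact (hc (i + 1)).sub (hc i)

/-- SBI-4a. Two edges whose projections are disjoint. [Compactness of `[0, 1]²`: the
function `(t, x, y) ↦ cross product of (P_j + y E_j - P_i - x E_i)` with `e` is continuous and nonzero on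
`{t₀} × [0, 1]²`; tube lemma (`generalized_tube_lemma` or `IsCompact.eventually_forall_of_forall_eventually`). Here it is used that
a vector is a multiple of `e ≠ 0` iff its cross product with `e` is `0`.] -/
theorem stab_disjoint (F : X → PolyKnot) (hc : ∀ i : ℤ, Continuous fun t => (F t).P i) (t₀ : X)
    (e : X → E3) (hce : Continuous e) (he : e t₀ ≠ 0) (i j : ℤ)
    (h : ∀ x y c : ℝ, 0 ≤ x → x ≤ 1 → 0 ≤ y → y ≤ 1 →
      (F t₀).P j + y • edge (F t₀).P j ≠ (F t₀).P i + x • edge (F t₀).P i + c • e t₀) :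
    ∀ᶠ t in 𝓝 t₀, ∀ x y c : ℝ, 0 ≤ x → x ≤ 1 → 0 ≤ y → y ≤ 1 →
      (F t).P j + y • edge (F t).P j ≠ (F t).P i + x • edge (F t).P i + c • e t := by
  have hK : IsCompact (Set.Icc (0 : ℝ) 1 ×ˢ Set.Icc (0 : ℝ) 1) := isCompact_Icc.prod isCompact_Icc
  have hcont : Continuous fun z : X × (ℝ × ℝ) =>
      cr (((F z.1).P j + z.2.2 • edge (F z.1).P j) - ((F z.1).P i + z.2.1 • edge (F z.1).P i))
        (e z.1) := by
    have hPj := (hc j).comp (continuous_fst (X := X) (Y := ℝ × ℝ))
    have hPi := (hc i).comp (continuous_fst (X := X) (Y := ℝ × ℝ))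
    have hEj := (edge_cont hc j).comp (continuous_fst (X := X) (Y := ℝ × ℝ))
    have hEi := (edge_cont hc i).comp (continuous_fst (X := X) (Y := ℝ × ℝ))
    have hx : Continuous fun z : X × (ℝ × ℝ) => z.2.1 := continuous_fst.comp continuous_snd
    have hy : Continuous fun z : X × (ℝ × ℝ) => z.2.2 := continuous_snd.comp continuous_snd
    exact cr_cont ((hPj.add (hy.smul hEj)).sub (hPi.add (hx.smul hEi))) (hce.comp continuous_fst)
  have hev := hK.eventually_forall_of_forall_eventually (x₀ := t₀)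
    (P := fun t xy => cr (((F t).P j + xy.2 • edge (F t).P j) -
      ((F t).P i + xy.1 • edge (F t).P i)) (e t) ≠ 0) (by
    rintro ⟨x, y⟩ ⟨⟨hx0, hx1⟩, ⟨hy0, hy1⟩⟩
    refine hcont.continuousAt.eventually_ne ?_
    intro h0
    obtain ⟨c, hc'⟩ := cr_eq_zero he h0
    exact h x y c hx0 hx1 hy0 hy1 (by rw [← hc']; simp))
  refine hev.mono fun t ht x y c hx0 hx1 hy0 hy1 heq => ?_
  refine ht (x, y) ⟨⟨hx0, hx1⟩, ⟨hy0, hy1⟩⟩ ?_
  have h1 : ((F t).P j + y • edge (F t).P j) - ((F t).P i + x • edge (F t).P i) = c • e t := by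
    rw [heq]
    abel
  change cr (((F t).P j + y • edge (F t).P j) - ((F t).P i + x • edge (F t).P i)) (e t) = 0
  rw [h1, cr_smul_self]

/-- SBI-4b. A vertex whose projection is not on the projection of an edge. -/
theorem stab_vertex (F : X → PolyKnot) (hc : ∀ i : ℤ, Continuous fun t => (F t).P i) (t₀ : X)
    (e : X → E3) (hce : Continuous e) (he : e t₀ ≠ 0) (i j : ℤ)
    (h : ∀ x c : ℝ, 0 ≤ x → x ≤ 1 →
      (F t₀).P j + x • edge (F t₀).P j ≠ (F t₀).P i + c • e t₀) :
    ∀ᶠ t in 𝓝 t₀, ∀ x c : ℝ, 0 ≤ x → x ≤ 1 →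
      (F t).P j + x • edge (F t).P j ≠ (F t).P i + c • e t := by
  have hK : IsCompact (Set.Icc (0 : ℝ) 1) := isCompact_Icc
  have hcont : Continuous fun z : X × ℝ =>
      cr (((F z.1).P j + z.2 • edge (F z.1).P j) - (F z.1).P i) (e z.1) := by
    have hPj := (hc j).comp (continuous_fst (X := X) (Y := ℝ))
    have hPi := (hc i).comp (continuous_fst (X := X) (Y := ℝ))
    have hEj := (edge_cont hc j).comp (continuous_fst (X := X) (Y := ℝ))
    exact cr_cont ((hPj.add (continuous_snd.smul hEj)).sub hPi) (hce.comp continuous_fst)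
  have hev := hK.eventually_forall_of_forall_eventually (x₀ := t₀)
    (P := fun t x => cr (((F t).P j + x • edge (F t).P j) - (F t).P i) (e t) ≠ 0) (by
    rintro x ⟨hx0, hx1⟩
    refine hcont.continuousAt.eventually_ne ?_
    intro h0
    obtain ⟨c, hc'⟩ := cr_eq_zero he h0
    exact h x c hx0 hx1 (by rw [← hc']; simp))
  refine hev.mono fun t ht x c hx0 hx1 heq => ?_
  refine ht x ⟨hx0, hx1⟩ ?_
  have h1 : ((F t).P j + x • edge (F t).P j) - (F t).P i = c • e t := by
    rw [heq]
    abel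
  change cr (((F t).P j + x • edge (F t).P j) - (F t).P i) (e t) = 0
  rw [h1, cr_smul_self]

end Pool.Agent.helper43.SBI
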