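import Pool.Agent.helper43.SBI.Stab1

set_option autoImplicit false

/-!
# SBI-4c, d : stability of undercrossings and views
-/

namespace Pool.Agent.helper43.SBI

open Pool.Agent.helper82.SB Filter Topology

variable {X : Type*} [TopologicalSpace X]

theorem cont_det {a b c : X → E3} (ha : Continuous a) (hb : Continuous b) (hc : Continuous c) :
    Continuous fun t => det3 (a t) (b t) (c t) :=
  continuous_det3.comp (ha.prodMk (hb.prodMk hc))

theorem cont_edge (F : X → PolyKnot) (hc : ∀ i : ℤ, Continuous fun t => (F t).P i) (i : ℤ) :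
    Continuous fun t => edge (F t).P i := (hc (i + 1)).sub (hc i)

theorem det3_swap (a b c : E3) : det3 b a c = -det3 a b c := by
  simp only [det3]; ring

theorem det3_swap' (a b c : E3) : det3 a c b = -det3 a b c := by
  simp only [det3]; ring

theorem det3_cyc (a b c : E3) : det3 b c a = det3 a b c := by
  simp only [det3]; ring

theorem det3_self (a b : E3) : det3 a b b = 0 := by
  simp only [det3]; ring

theorem det3_self' (a b : E3) : det3 a a b = 0 := by
  simp only [det3]; ring

theorem alt_continuousAt (F : X → PolyKnot) (hc : ∀ i : ℤ, Continuous fun t => (F t).P i) (t₀ : X)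
    (e : X → E3) (hce : Continuous e) (i j : ℤ)
    (h : det3 (e t₀) (edge (F t₀).P i) (edge (F t₀).P j) ≠ 0) :
    ContinuousAt (fun t => alt (F t) (e t) i j) t₀ := by
  unfold alt
  exact (cont_det ((hc j).sub (hc i)) (cont_edge F hc i) (cont_edge F hc j)).continuousAt.div
    (cont_det hce (cont_edge F hc i) (cont_edge F hc j)).continuousAt h

theorem xpos_continuousAt (F : X → PolyKnot) (hc : ∀ i : ℤ, Continuous fun t => (F t).P i) (t₀ : X)
    (e : X → E3) (hce : Continuous e) (i j : ℤ)
    (h : det3 (e t₀) (edge (F t₀).P i) (edge (F t₀).P j) ≠ 0) :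
    ContinuousAt (fun t => xpos (F t) (e t) i j) t₀ := by
  unfold xpos
  refine (cont_det ((hc j).sub (hc i)) hce (cont_edge F hc j)).continuousAt.div
    (cont_det (cont_edge F hc i) hce (cont_edge F hc j)).continuousAt ?_
  rw [det3_swap]
  exact neg_ne_zero.2 h

/-- `Under` is an open condition, and then the sign is constant. -/
theorem under_open (F : X → PolyKnot) (hc : ∀ i : ℤ, Continuous fun t => (F t).P i) (t₀ : X)
    (e : X → E3) (hce : Continuous e) (i j : ℤ) (h : Under (F t₀) (e t₀) i j) :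
    ∀ᶠ t in 𝓝 t₀, Under (F t) (e t) i j ∧ sgn (F t) (e t) i j = sgn (F t₀) (e t₀) i j := by
  obtain ⟨hd, ⟨h1, h2⟩, ⟨h3, h4⟩, h5⟩ := h
  have hdc : ContinuousAt (fun t => det3 (e t) (edge (F t).P i) (edge (F t).P j)) t₀ :=
    (cont_det hce (cont_edge F hc i) (cont_edge F hc j)).continuousAt
  have hx := xpos_continuousAt F hc t₀ e hce i j hd
  have hy := xpos_continuousAt F hc t₀ e hce j i (by rw [det3_swap']; exact neg_ne_zero.2 hd)
  have ha := alt_continuousAt F hc t₀ e hce i j hd
  have hs : ∀ᶠ t in 𝓝 t₀, sgn (F t) (e t) i j = sgn (F t₀) (e t₀) i j := by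
    rcases lt_or_gt_of_ne hd with hneg | hpos
    · filter_upwards [hdc.eventually_lt continuousAt_const hneg] with t ht
      unfold sgn
      rw [if_neg (not_lt.2 ht.le), if_neg (not_lt.2 hneg.le)]
    · filter_upwards [continuousAt_const.eventually_lt hdc hpos] with t ht
      unfold sgn
      rw [if_pos ht, if_pos hpos]
  filter_upwards [hdc.eventually_ne hd, continuousAt_const.eventually_lt hx h1,
    hx.eventually_lt continuousAt_const h2, continuousAt_const.eventually_lt hy h3,
    hy.eventually_lt continuousAt_const h4, continuousAt_const.eventually_lt ha h5, hs]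
    with t t1 t2 t3 t4 t5 t6 t7
  exact ⟨⟨t1, ⟨t2, t3⟩, ⟨t4, t5⟩, t6⟩, t7⟩

theorem Under.asymm {K : PolyKnot} {e : E3} (he : e ≠ 0) {i j : ℤ} (h : Under K e i j)
    (h' : Under K e j i) : False := by
  have h1 := line_cross K e i j h.1
  have h2 := line_cross K e j i h'.1
  rw [h2] at h1
  have h3 : (alt K e i j + alt K e j i) • e = 0 := by
    have h4 : K.P j + xpos K e j i • edge K.P j =
        K.P j + xpos K e j i • edge K.P j + alt K e j i • e + alt K e i j • e := h1
    rw [add_assoc, left_eq_add] at h4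
    rw [add_smul, add_comm]; exact h4
  rcases smul_eq_zero.1 h3 with h4 | h4
  · have := h.2.2.2; have := h'.2.2.2; linarith
  · exact he h4

/-- SBI-4c. Undercrossings are stable in both directions. [If the projections of the closed edges
`i`, `j` are disjoint at `t₀`, use SBI-4a (near `t₀` neither `Under i j`, by `line_cross`). Otherwise, if
the edges are neither equal nor adjacent modulo `m`, the points in question are different
(`gam_inj`), so `Under i j` or `Under j i` at `t₀` by `View.under_of_over`, and then all the quantities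
in `Under` are continuous at `t₀` with strict inequalities, also the sign of `alt` and of `det3`. If
`i ≡ j`: `det3 e E_i E_i = 0`. If `j ≡ i + 1`: `alt K e i j = 0` for all `t`, since
`P_j - P_i = E_i`; similarly `i ≡ j + 1`.] -/
theorem stab_under (F : X → PolyKnot) (m : ℕ) (hn : ∀ t, (F t).n = m)
    (hc : ∀ i : ℤ, Continuous fun t => (F t).P i) (t₀ : X) (e : X → E3) (hce : Continuous e)
    (hV : View (F t₀) (e t₀)) (i j : ℤ) :
    ∀ᶠ t in 𝓝 t₀, (Under (F t) (e t) i j ↔ Under (F t₀) (e t₀) i j) ∧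
      (Under (F t₀) (e t₀) i j → sgn (F t) (e t) i j = sgn (F t₀) (e t₀) i j) := by
  have hfalse : (∀ᶠ t in 𝓝 t₀, ¬ Under (F t) (e t) i j) →
      ∀ᶠ t in 𝓝 t₀, (Under (F t) (e t) i j ↔ Under (F t₀) (e t₀) i j) ∧
        (Under (F t₀) (e t₀) i j → sgn (F t) (e t) i j = sgn (F t₀) (e t₀) i j) := by
    intro h
    have h0 : ¬ Under (F t₀) (e t₀) i j := h.self_of_nhds
    filter_upwards [h] with t ht
    exact ⟨⟨fun h' => absurd h' ht, fun h' => absurd h' h0⟩, fun h' => absurd h' h0⟩
  have he : e t₀ ≠ 0 := hV.ne_zero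
  have het : ∀ᶠ t in 𝓝 t₀, e t ≠ 0 := hce.continuousAt.eventually_ne he
  by_cases hij : ∃ k : ℤ, j = i + k * m
  · obtain ⟨k, hk⟩ := hij
    refine hfalse (Eventually.of_forall fun t h => h.1 ?_)
    have : edge (F t).P j = edge (F t).P i := by rw [hk, ← hn t]; exact edge_add (F t) i k
    rw [this]; exact det3_self _ _
  by_cases hij1 : ∃ k : ℤ, j = i + 1 + k * m
  · obtain ⟨k, hk⟩ := hij1
    refine hfalse (Eventually.of_forall fun t h => h.2.2.2.ne' ?_)
    have : (F t).P j - (F t).P i = edge (F t).P i := by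
      have : (F t).P j = (F t).P (i + 1) := by rw [hk, ← hn t]; exact P_add (F t) (i + 1) k
      rw [this]; rfl
    unfold alt
    rw [this, det3_self', zero_div]
  by_cases hij2 : ∃ k : ℤ, i = j + 1 + k * m
  · obtain ⟨k, hk⟩ := hij2
    refine hfalse (Eventually.of_forall fun t h => h.2.2.2.ne' ?_)
    have : (F t).P j - (F t).P i = -edge (F t).P j := by
      have : (F t).P i = (F t).P (j + 1) := by rw [hk, ← hn t]; exact P_add (F t) (j + 1) k
      rw [this]; unfold edge; abel
    unfold alt
    rw [this]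
    have h0 : det3 (-edge (F t).P j) (edge (F t).P i) (edge (F t).P j) = 0 := by
      simp only [det3, Pi.neg_apply]; ring
    rw [h0, zero_div]
  by_cases hdis : ∀ x y c : ℝ, 0 ≤ x → x ≤ 1 → 0 ≤ y → y ≤ 1 →
      (F t₀).P j + y • edge (F t₀).P j ≠ (F t₀).P i + x • edge (F t₀).P i + c • e t₀
  · refine hfalse ?_
    filter_upwards [stab_disjoint F hc t₀ e hce he i j hdis] with t ht h
    exact ht _ _ _ h.2.1.1.le h.2.1.2.le h.2.2.1.1.le h.2.2.1.2.le (line_cross (F t) (e t) i j h.1)
  · push Not at hdis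
    obtain ⟨x, y, c, hx0, hx1, hy0, hy1, heq⟩ := hdis
    have hc0 : c ≠ 0 := by
      intro h0
      rw [h0, zero_smul, add_zero, ← gam_edge (F t₀) j y hy0 hy1,
        ← gam_edge (F t₀) i x hx0 hx1] at heq
      obtain ⟨k, hk⟩ := gam_inj (F t₀) _ _ heq
      rw [hn t₀] at hk
      have h1 : ((i - j - k * m : ℤ) : ℝ) = y - x := by push_cast; linarith
      have h2 : -1 ≤ i - j - k * m := by
        have : (-1 : ℝ) ≤ ((i - j - k * m : ℤ) : ℝ) := by rw [h1]; linarith
        exact_mod_cast this
      have h3 : i - j - k * m ≤ 1 := by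
        have : ((i - j - k * m : ℤ) : ℝ) ≤ 1 := by rw [h1]; linarith
        exact_mod_cast this
      have h4 : i - j - k * m = -1 ∨ i - j - k * m = 0 ∨ i - j - k * m = 1 := by omega
      rcases h4 with h4 | h4 | h4
      · exact hij1 ⟨-k, by linear_combination -h4⟩
      · exact hij ⟨-k, by linear_combination -h4⟩
      · exact hij2 ⟨k, by linear_combination h4⟩
    rcases lt_or_gt_of_ne hc0 with hneg | hpos
    · have heq' : (F t₀).P i + x • edge (F t₀).P i =
          (F t₀).P j + y • edge (F t₀).P j + (-c) • e t₀ := by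
        rw [heq, neg_smul, add_neg_cancel_right]
      have hU := (hV.under_of_over j i y x (-c) hy0 hy1 hx0 hx1 (by linarith) heq').1
      refine hfalse ?_
      filter_upwards [under_open F hc t₀ e hce j i hU, het] with t ht het' h
      exact h.asymm het' ht.1
    · have hU := (hV.under_of_over i j x y c hx0 hx1 hy0 hy1 hpos heq).1
      filter_upwards [under_open F hc t₀ e hce i j hU] with t ht
      exact ⟨⟨fun _ => hU, fun _ => ht.1⟩, fun _ => ht.2⟩

theorem exists_det_ne {a b : E3} (h : ∀ p q : ℝ, p • a + q • b = 0 → p = 0 ∧ q = 0) :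
    ∃ w, det3 w a b ≠ 0 := by
  by_contra hcon
  push Not at hcon
  have h0 := hcon ![1, 0, 0]
  have h1 := hcon ![0, 1, 0]
  have h2 := hcon ![0, 0, 1]
  simp only [det3, Matrix.cons_val_zero, Matrix.cons_val_one, Matrix.cons_val_two,
    Matrix.head_cons, Matrix.tail_cons, Matrix.cons_val] at h0 h1 h2
  have key : ∀ k : Fin 3, b k • a + (-a k) • b = 0 := by
    intro k
    funext l
    fin_cases k <;> fin_cases l <;>
      simp only [Pi.add_apply, Pi.smul_apply, smul_eq_mul, Pi.zero_apply, Fin.zero_eta,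
        Fin.mk_one, Fin.reduceFinMk] <;> linarith
  have ha : a = 0 := by
    funext k
    have := (h _ _ (key k)).2
    simpa using this
  have := (h 1 0 (by rw [ha]; simp)).1
  exact one_ne_zero this

/-- the conclusion of `View.vert` when the edge of the vertex is parallel to the edge vector -/
theorem stab_indep (F : X → PolyKnot) (hc : ∀ i : ℤ, Continuous fun t => (F t).P i) (t₀ : X)
    (e : X → E3) (hce : Continuous e) (hV : View (F t₀) (e t₀)) (j : ℤ) :
    ∀ᶠ t in 𝓝 t₀, ∀ x c : ℝ, x • edge (F t).P j = c • e t → c = 0 := by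
  obtain ⟨w, hw⟩ := exists_det_ne (hV.indep j)
  have hcont : ContinuousAt (fun t => det3 w (e t) (edge (F t).P j)) t₀ :=
    (cont_det continuous_const hce (cont_edge F hc j)).continuousAt
  filter_upwards [hcont.eventually_ne hw] with t ht x c hxc
  have h1 : det3 w (c • e t) (edge (F t).P j) = 0 := by
    rw [← hxc]
    simp only [det3, Pi.smul_apply, smul_eq_mul]; ring
  have h2 : det3 w (c • e t) (edge (F t).P j) = c * det3 w (e t) (edge (F t).P j) := by
    simp only [det3, Pi.smul_apply, smul_eq_mul]; ring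
  rw [h2] at h1
  exact (mul_eq_zero.1 h1).resolve_right ht

theorem stab_vert (F : X → PolyKnot) (m : ℕ) (hn : ∀ t, (F t).n = m)
    (hc : ∀ i : ℤ, Continuous fun t => (F t).P i) (t₀ : X) (e : X → E3) (hce : Continuous e)
    (hV : View (F t₀) (e t₀)) (i j : ℤ) :
    ∀ᶠ t in 𝓝 t₀, ∀ x c : ℝ, 0 ≤ x → x ≤ 1 →
      (F t).P j + x • edge (F t).P j = (F t).P i + c • e t → c = 0 := by
  by_cases hij : ∃ k : ℤ, i = j + k * m
  · obtain ⟨k, hk⟩ := hij
    filter_upwards [stab_indep F hc t₀ e hce hV j] with t ht x c _ _ heq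
    have : (F t).P i = (F t).P j := by rw [hk, ← hn t]; exact P_add (F t) j k
    rw [this] at heq
    exact ht x c (add_left_cancel heq)
  by_cases hij1 : ∃ k : ℤ, i = j + 1 + k * m
  · obtain ⟨k, hk⟩ := hij1
    filter_upwards [stab_indep F hc t₀ e hce hV j] with t ht x c _ _ heq
    have h1 : (F t).P i = (F t).P j + edge (F t).P j := by
      have : (F t).P i = (F t).P (j + 1) := by rw [hk, ← hn t]; exact P_add (F t) (j + 1) k
      rw [this]; unfold edge; abel
    rw [h1, add_assoc] at heq
    have h2 := add_left_cancel heq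
    refine ht (x - 1) c ?_
    rw [sub_smul, one_smul, h2, add_sub_cancel_left]
  · have hv : ∀ x c : ℝ, 0 ≤ x → x ≤ 1 →
        (F t₀).P j + x • edge (F t₀).P j ≠ (F t₀).P i + c • e t₀ := by
      intro x c hx0 hx1 heq
      have hc0 := hV.vert i j x c hx0 hx1 heq
      rw [hc0, zero_smul, add_zero, ← gam_edge (F t₀) j x hx0 hx1, ← gam_int] at heq
      obtain ⟨k, hk⟩ := gam_inj (F t₀) _ _ heq
      rw [hn t₀] at hk
      have h1 : ((i - j - k * m : ℤ) : ℝ) = x := by push_cast; linarith
      have h2 : 0 ≤ i - j - k * m := by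
        have : (0 : ℝ) ≤ ((i - j - k * m : ℤ) : ℝ) := by rw [h1]; exact hx0
        exact_mod_cast this
      have h3 : i - j - k * m ≤ 1 := by
        have : ((i - j - k * m : ℤ) : ℝ) ≤ 1 := by rw [h1]; exact hx1
        exact_mod_cast this
      have h4 : i - j - k * m = 0 ∨ i - j - k * m = 1 := by omega
      rcases h4 with h4 | h4
      · exact hij ⟨k, by linear_combination h4⟩
      · exact hij1 ⟨k, by linear_combination h4⟩
    filter_upwards [stab_vertex F hc t₀ e hce hV.ne_zero i j hv] with t ht x c hx0 hx1 heq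
    exact absurd heq (ht x c hx0 hx1)

theorem stab_triple (F : X → PolyKnot) (m : ℕ) (hn : ∀ t, (F t).n = m)
    (hc : ∀ i : ℤ, Continuous fun t => (F t).P i) (t₀ : X) (e : X → E3) (hce : Continuous e)
    (hV : View (F t₀) (e t₀)) (i j l : ℤ) :
    ∀ᶠ t in 𝓝 t₀, Under (F t) (e t) i j → Under (F t) (e t) i l →
      xpos (F t) (e t) i j = xpos (F t) (e t) i l → (m : ℤ) ∣ j - l := by
  by_cases hd : (m : ℤ) ∣ j - l
  · exact Eventually.of_forall fun _ _ _ _ => hd
  by_cases hU : Under (F t₀) (e t₀) i j ∧ Under (F t₀) (e t₀) i l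
  · have hne : xpos (F t₀) (e t₀) i j ≠ xpos (F t₀) (e t₀) i l := fun h => hd (by
      have := hV.triple i j l hU.1 hU.2 h
      rwa [hn t₀] at this)
    have h1 := xpos_continuousAt F hc t₀ e hce i j hU.1.1
    have h2 := xpos_continuousAt F hc t₀ e hce i l hU.2.1
    have h3 : ∀ᶠ t in 𝓝 t₀, xpos (F t) (e t) i j - xpos (F t) (e t) i l ≠ 0 :=
      (h1.sub h2).eventually_ne (sub_ne_zero.2 hne)
    filter_upwards [h3] with t ht _ _ heq
    exact absurd (sub_eq_zero.2 heq) ht
  · filter_upwards [stab_under F m hn hc t₀ e hce hV i j, stab_under F m hn hc t₀ e hce hV i l]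
      with t h1 h2 h3 h4
    exact absurd ⟨h1.1.1 h3, h2.1.1 h4⟩ hU

/-- SBI-4d. The property of being a view is stable. [`vert`: for `i ≡ j` or `i ≡ j + 1` modulo `m` it
follows from the independence of `e` and `E_j`, an open condition; otherwise SBI-4b, as
`K.P j + x E_j = K.P i + c e` is impossible at `t₀`: `c = 0` by `vert`, and then `gam_inj`. `triple`: for
`i, j, l` with `j - l` not divisible by `m` and `Under i j`, `Under i l` at `t₀` the positions are different
at `t₀`, hence near `t₀`; it is enough to consider `i, j, l ∈ [0, m)` because of the shift lemmas.] -/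
theorem stab_view (F : X → PolyKnot) (m : ℕ) (hn : ∀ t, (F t).n = m)
    (hc : ∀ i : ℤ, Continuous fun t => (F t).P i) (t₀ : X) (e : X → E3) (hce : Continuous e)
    (hV : View (F t₀) (e t₀)) : ∀ᶠ t in 𝓝 t₀, View (F t) (e t) := by
  have hm : 0 < m := by have := (F t₀).three; rw [hn t₀] at this; omega
  have hm' : (0 : ℤ) < m := by exact_mod_cast hm
  have h1 : ∀ᶠ t in 𝓝 t₀, ∀ i ∈ Finset.Ico (0 : ℤ) m, ∀ j ∈ Finset.Ico (0 : ℤ) m,
      ∀ x c : ℝ, 0 ≤ x → x ≤ 1 →
      (F t).P j + x • edge (F t).P j = (F t).P i + c • e t → c = 0 := by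
    rw [Finset.eventually_all]
    intro i _
    rw [Finset.eventually_all]
    intro j _
    exact stab_vert F m hn hc t₀ e hce hV i j
  have h2 : ∀ᶠ t in 𝓝 t₀, ∀ i ∈ Finset.Ico (0 : ℤ) m, ∀ j ∈ Finset.Ico (0 : ℤ) m,
      ∀ l ∈ Finset.Ico (0 : ℤ) m, Under (F t) (e t) i j → Under (F t) (e t) i l →
        xpos (F t) (e t) i j = xpos (F t) (e t) i l → (m : ℤ) ∣ j - l := by
    rw [Finset.eventually_all]
    intro i _
    rw [Finset.eventually_all]
    intro j _
    rw [Finset.eventually_all]
    intro l _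
    exact stab_triple F m hn hc t₀ e hce hV i j l
  have hmod : ∀ i : ℤ, ∃ i' ∈ Finset.Ico (0 : ℤ) m, ∃ k : ℤ, i = i' + k * m := fun i =>
    ⟨i % m, Finset.mem_Ico.2 ⟨Int.emod_nonneg i hm'.ne', Int.emod_lt_of_pos i hm'⟩, i / m, by
      have := Int.emod_add_mul_ediv i m
      linear_combination -this⟩
  filter_upwards [h1, h2] with t ht1 ht2
  refine ⟨fun i j x c hx0 hx1 heq => ?_, fun i j l hij hil heq => ?_⟩
  · obtain ⟨i', hi', k, rfl⟩ := hmod i
    obtain ⟨j', hj', k', rfl⟩ := hmod j
    rw [← hn t, P_add, P_add, edge_add] at heq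
    exact ht1 i' hi' j' hj' x c hx0 hx1 heq
  · obtain ⟨i', hi', k, rfl⟩ := hmod i
    obtain ⟨j', hj', k', rfl⟩ := hmod j
    obtain ⟨l', hl', k'', rfl⟩ := hmod l
    rw [← hn t] at hij hil heq
    rw [xpos_shift, xpos_shift] at heq
    have hij' : Under (F t) (e t) i' j' := by
      have := hij.shift (-k) (-k')
      rwa [show i' + k * ((F t).n : ℤ) + -k * ((F t).n : ℤ) = i' by ring,
        show j' + k' * ((F t).n : ℤ) + -k' * ((F t).n : ℤ) = j' by ring] at this
    have hil' : Under (F t) (e t) i' l' := by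
      have := hil.shift (-k) (-k'')
      rwa [show i' + k * ((F t).n : ℤ) + -k * ((F t).n : ℤ) = i' by ring,
        show l' + k'' * ((F t).n : ℤ) + -k'' * ((F t).n : ℤ) = l' by ring] at this
    obtain ⟨q, hq⟩ := ht2 i' hi' j' hj' l' hl' hij' hil' heq
    rw [hn t]
    exact ⟨q + k' - k'', by linear_combination hq⟩

end Pool.Agent.helper43.SBI
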