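import Pool.Agent.helper43.SBI.Crossing

set_option autoImplicit false

/-!
# SBI-3 : table colourings and function colourings
-/

namespace Pool.Agent.helper43.SBI

open Pool.Agent.helper82.SB Filter Topology

variable {Y G : Type*} [Group G] [MulAction G Y]

open Classical in
/-- number of undercrossings at positions `≤ x` -/
private noncomputable def cntR (K : PolyKnot) (e : E3) (i : ℤ) (x : ℝ) : ℕ :=
  ((Finset.range K.n).filter fun l : ℕ => Under K e i l ∧ xpos K e i l ≤ x).card

private theorem t1_left (K : PolyKnot) (e : E3) (i : ℤ) (x : ℝ) :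
    ∀ᶠ r in 𝓝[<] x, cnt K e i r = cnt K e i x := by
  classical
  have h : ∀ᶠ r in 𝓝[<] x, ∀ l ∈ Finset.range K.n, (xpos K e i l < r ↔ xpos K e i l < x) := by
    rw [Filter.eventually_all_finset]
    intro l _
    by_cases hl : xpos K e i l < x
    · filter_upwards [Ioo_mem_nhdsLT hl] with r hr
      exact ⟨fun _ => hl, fun _ => hr.1⟩
    · filter_upwards [self_mem_nhdsWithin] with r hr
      exact ⟨fun h => absurd (h.trans hr) hl, fun h => absurd h hl⟩
  filter_upwards [h] with r hr
  unfold cnt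
  congr 1
  apply Finset.filter_congr
  intro l hl
  rw [hr l hl]

private theorem t1_right (K : PolyKnot) (e : E3) (i : ℤ) (x : ℝ) :
    ∀ᶠ r in 𝓝[>] x, cnt K e i r = cntR K e i x ∧ ∀ l < K.n, xpos K e i (l : ℕ) ≠ r := by
  classical
  have h : ∀ᶠ r in 𝓝[>] x, ∀ l ∈ Finset.range K.n, (xpos K e i l < r ↔ xpos K e i l ≤ x) ∧
      xpos K e i l ≠ r := by
    rw [Filter.eventually_all_finset]
    intro l _
    by_cases hl : xpos K e i l ≤ x
    · filter_upwards [self_mem_nhdsWithin] with r hr
      exact ⟨⟨fun _ => hl, fun _ => hl.trans_lt hr⟩, fun h => by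
        rw [← h] at hr
        exact absurd hr (not_lt.2 hl)⟩
    · filter_upwards [Ioo_mem_nhdsGT (not_le.1 hl)] with r hr
      exact ⟨⟨fun h => absurd h (not_lt.2 hr.2.le), fun h => absurd h hl⟩, hr.2.ne'⟩
  filter_upwards [h] with r hr
  refine ⟨?_, fun l hl => (hr l (Finset.mem_range.2 hl)).2⟩
  unfold cnt cntR
  congr 1
  apply Finset.filter_congr
  intro l hl
  rw [(hr l hl).1]

private theorem t1_red (K : PolyKnot) (e : E3) (i j : ℤ) : ∃ l : ℕ, l < K.n ∧
    (Under K e i j → Under K e i l) ∧ xpos K e i l = xpos K e i j := by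
  have hn : (0 : ℤ) < K.n := by
    have := K.three
    omega
  have e1 := Int.emod_add_mul_ediv j K.n
  have e2 := Int.emod_nonneg j hn.ne'
  have e3 := Int.emod_lt_of_pos j hn
  refine ⟨(j % K.n).toNat, by omega, ?_, ?_⟩
  · intro h
    have h1 := h.shift 0 (-(j / K.n))
    rw [zero_mul, add_zero] at h1
    have e4 : j + -(j / K.n) * K.n = ((j % K.n).toNat : ℤ) := by
      rw [Int.toNat_of_nonneg e2]
      linarith
    rwa [e4] at h1
  · have h1 := xpos_shift K e i j 0 (-(j / K.n))
    rw [zero_mul, add_zero] at h1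
    have e4 : j + -(j / K.n) * K.n = ((j % K.n).toNat : ℤ) := by
      rw [Int.toNat_of_nonneg e2]
      linarith
    rwa [e4] at h1

private theorem t1_not {K : PolyKnot} {e : E3} {i : ℤ} {x : ℝ}
    (h : ∀ j, Under K e i j → xpos K e i j ≠ x) : cntR K e i x = cnt K e i x := by
  classical
  unfold cntR cnt
  congr 1
  apply Finset.filter_congr
  intro l _
  constructor
  · rintro ⟨a, b⟩
    exact ⟨a, lt_of_le_of_ne b (h l a)⟩
  · rintro ⟨a, b⟩
    exact ⟨a, b.le⟩

private theorem t1_under {K : PolyKnot} {e : E3} (hV : View K e) {i j : ℤ} (h : Under K e i j) :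
    cntR K e i (xpos K e i j) = cnt K e i (xpos K e i j) + 1 := by
  classical
  obtain ⟨l, hl, hu, hx⟩ := t1_red K e i j
  have hu := hu h
  have e1 : ((Finset.range K.n).filter fun m : ℕ => Under K e i m ∧ xpos K e i m ≤ xpos K e i j) =
      insert l ((Finset.range K.n).filter fun m : ℕ =>
        Under K e i m ∧ xpos K e i m < xpos K e i j) := by
    ext m
    simp only [Finset.mem_filter, Finset.mem_insert, Finset.mem_range]
    constructor
    · rintro ⟨a, b, c⟩
      rcases c.lt_or_eq with c | c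
      · exact Or.inr ⟨a, b, c⟩
      · left
        have h1 := hV.triple i m l b hu (c.trans hx.symm)
        obtain ⟨q, hq⟩ := h1
        have h2 : q < 1 := by
          by_contra hq1
          push Not at hq1
          have : (K.n : ℤ) * 1 ≤ K.n * q := by
            apply mul_le_mul_of_nonneg_left hq1
            omega
          omega
        have h3 : -1 < q := by
          by_contra hq1
          push Not at hq1
          have : (K.n : ℤ) * q ≤ K.n * (-1) := by
            apply mul_le_mul_of_nonneg_left hq1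
            omega
          omega
        have h4 : q = 0 := by omega
        rw [h4, mul_zero] at hq
        omega
    · rintro (rfl | ⟨a, b, c⟩)
      · exact ⟨hl, hu, hx.le⟩
      · exact ⟨a, b, c.le⟩
  unfold cntR cnt
  rw [e1, Finset.card_insert_of_notMem]
  simp only [Finset.mem_filter, not_and, not_lt]
  intro _ _
  exact hx.ge

private theorem t1_zero (K : PolyKnot) (e : E3) (i : ℤ) : cnt K e i 0 = 0 := by
  classical
  unfold cnt
  rw [Finset.card_eq_zero, Finset.filter_eq_empty_iff]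
  rintro l _ ⟨a, b⟩
  exact absurd b (not_lt.2 a.2.1.1.le)

/-- near a non-integral point -/
private theorem t1_near {s : ℝ} (hs : 0 < Int.fract s) :
    ∀ᶠ r : ℝ in 𝓝 s, ⌊r⌋ = ⌊s⌋ ∧ Int.fract r = r - ⌊s⌋ := by
  have h1 : (⌊s⌋ : ℝ) < s := by
    have := Int.self_sub_floor s
    linarith
  have h2 := Int.lt_floor_add_one s
  filter_upwards [Ioo_mem_nhds h1 h2] with r hr
  have h3 : ⌊r⌋ = ⌊s⌋ := by
    rw [Int.floor_eq_iff]
    exact ⟨hr.1.le, hr.2⟩
  refine ⟨h3, ?_⟩
  unfold Int.fract
  rw [h3]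

private theorem t1_tl {s : ℝ} {P : ℝ → Prop} (h : ∀ᶠ r in 𝓝[<] (Int.fract s), P r) :
    ∀ᶠ r in 𝓝[<] s, P (r - ⌊s⌋) := by
  have ht : Tendsto (fun r : ℝ => r - ⌊s⌋) (𝓝[<] s) (𝓝[<] (Int.fract s)) := by
    apply tendsto_nhdsWithin_of_tendsto_nhds_of_eventually_within
    · have : ContinuousAt (fun r : ℝ => r - (⌊s⌋ : ℝ)) s := by fun_prop
      exact this.tendsto.mono_left nhdsWithin_le_nhds
    · filter_upwards [self_mem_nhdsWithin] with r hr
      exact sub_lt_sub_right (show r < s from hr) _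
  exact ht.eventually h

private theorem t1_tr {s : ℝ} {P : ℝ → Prop} (h : ∀ᶠ r in 𝓝[>] (Int.fract s), P r) :
    ∀ᶠ r in 𝓝[>] s, P (r - ⌊s⌋) := by
  have ht : Tendsto (fun r : ℝ => r - ⌊s⌋) (𝓝[>] s) (𝓝[>] (Int.fract s)) := by
    apply tendsto_nhdsWithin_of_tendsto_nhds_of_eventually_within
    · have : ContinuousAt (fun r : ℝ => r - (⌊s⌋ : ℝ)) s := by fun_prop
      exact this.tendsto.mono_left nhdsWithin_le_nhds
    · filter_upwards [self_mem_nhdsWithin] with r hr
      exact sub_lt_sub_right (show s < r from hr) _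
  exact ht.eventually h

/-- SBI-3a. From a table to a function: `c s = T ⌊s⌋ (cnt K e ⌊s⌋ (Int.fract s))`. [`cnt K e i` is
monotone and left continuous with jumps of size `1` exactly at the positions `xpos K e i l`, `l` an
edge over `i` (different `l ∈ [0, n)` have different positions by `hV.triple`); at the vertex `i + 1`:
`cnt K e i x = cnt K e i 1` for `x < 1` near `1` and `cnt K e (i + 1) x = 0` for small `x`. An over point
`j + xpos K e j i` of an undercrossing is itself not an undercrossing (no triple points).] -/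
theorem fcol_of_isColoring (Q : AQ Y G) (K : PolyKnot) (e : E3) (hV : View K e) (T : ℤ → ℕ → Y)
    (hT : IsColoring Q K e T) :
    FCol Q K e (fun s => T ⌊s⌋ (cnt K e ⌊s⌋ (Int.fract s))) := by
  refine ⟨?_, ?_, ?_⟩
  · intro s
    have e1 : s + K.n = s + (((K.n : ℤ)) : ℝ) := by push_cast; ring
    have e2 : ⌊s + K.n⌋ = ⌊s⌋ + K.n := by rw [e1, Int.floor_add_intCast]
    have e3 : Int.fract (s + K.n) = Int.fract s := by rw [e1, Int.fract_add_intCast]
    have e4 := cnt_shift K e ⌊s⌋ 1 (Int.fract s)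
    rw [one_mul] at e4
    simp only [e2, e3, e4, hT.per]
  · intro s hs
    have hno : ∀ j, Under K e ⌊s⌋ j → xpos K e ⌊s⌋ j ≠ Int.fract s := by
      intro j hj hx
      have h1 := hj.over
      rw [hx, Int.floor_add_fract] at h1
      exact hs _ h1
    -- on the right
    have hr : ∀ᶠ r in 𝓝[>] s, T ⌊r⌋ (cnt K e ⌊r⌋ (Int.fract r)) =
        T ⌊s⌋ (cnt K e ⌊s⌋ (Int.fract s)) := by
      have h1 := t1_tr (t1_right K e ⌊s⌋ (Int.fract s))
      have h2 : Set.Ioo s (⌊s⌋ + 1) ∈ 𝓝[>] s := Ioo_mem_nhdsGT (Int.lt_floor_add_one s)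
      filter_upwards [h1, h2] with r hr1 hr2
      have h3 : ⌊r⌋ = ⌊s⌋ := by
        rw [Int.floor_eq_iff]
        exact ⟨(Int.floor_le s).trans hr2.1.le, hr2.2⟩
      have h4 : Int.fract r = r - ⌊s⌋ := by
        unfold Int.fract
        rw [h3]
      rw [h3, h4, hr1.1, t1_not hno]
    -- on the left
    have hl : ∀ᶠ r in 𝓝[<] s, T ⌊r⌋ (cnt K e ⌊r⌋ (Int.fract r)) =
        T ⌊s⌋ (cnt K e ⌊s⌋ (Int.fract s)) := by
      rcases (Int.fract_nonneg s).lt_or_eq with h0 | h0
      · have h1 := t1_tl (t1_left K e ⌊s⌋ (Int.fract s))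
        have h2 := nhdsWithin_le_nhds (s := Set.Iio s) (t1_near h0)
        filter_upwards [h1, h2] with r hr1 hr2
        rw [hr2.1, hr2.2, hr1]
      · have hs0 : s = ⌊s⌋ := by
          have := Int.self_sub_floor s
          linarith
        have h1 : ∀ᶠ r in 𝓝[<] s, cnt K e (⌊s⌋ - 1) (r - (⌊s⌋ - 1)) = cnt K e (⌊s⌋ - 1) 1 := by
          have ht : Tendsto (fun r : ℝ => r - (⌊s⌋ - 1)) (𝓝[<] s) (𝓝[<] 1) := by
            apply tendsto_nhdsWithin_of_tendsto_nhds_of_eventually_within
            · have h5 : ContinuousAt (fun r : ℝ => r - ((⌊s⌋ : ℝ) - 1)) s := by fun_prop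
              have h6 : s - ((⌊s⌋ : ℝ) - 1) = 1 := by linarith
              have h7 := h5.tendsto.mono_left (nhdsWithin_le_nhds (s := Set.Iio s))
              rwa [h6] at h7
            · filter_upwards [self_mem_nhdsWithin] with r hr
              have : r < s := hr
              show r - ((⌊s⌋ : ℝ) - 1) < 1
              linarith
          exact ht.eventually (t1_left K e (⌊s⌋ - 1) 1)
        have h2 : Set.Ioo ((⌊s⌋ : ℝ) - 1) s ∈ 𝓝[<] s := Ioo_mem_nhdsLT (by linarith)
        filter_upwards [h1, h2] with r hr1 hr2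
        have h3 : ⌊r⌋ = ⌊s⌋ - 1 := by
          rw [Int.floor_eq_iff]
          push_cast
          exact ⟨hr2.1.le, by linarith [hr2.2]⟩
        have h4 : Int.fract r = r - (⌊s⌋ - 1) := by
          unfold Int.fract
          rw [h3]
          push_cast
          ring
        rw [h3, h4, hr1, ← hT.vertex (⌊s⌋ - 1), sub_add_cancel, ← h0, t1_zero]
    rw [eventually_nhdsWithin_iff] at hr hl
    filter_upwards [hr, hl] with r h1 h2
    rcases lt_trichotomy r s with h3 | h3 | h3
    · exact h2 h3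
    · rw [h3]
    · exact h1 h3
  · intro s s' hss
    obtain ⟨hu, hx, hx'⟩ := (hV.over_iff s s').1 hss
    have h0 : 0 < Int.fract s := by
      rw [hx]
      exact hu.2.1.1
    have hn := t1_near h0
    refine ⟨T ⌊s⌋ (cnt K e ⌊s⌋ (Int.fract s)), ?_, ?_⟩
    · have h1 := t1_tl (t1_left K e ⌊s⌋ (Int.fract s))
      have h2 := nhdsWithin_le_nhds (s := Set.Iio s) hn
      filter_upwards [h1, h2] with r hr1 hr2
      rw [hr2.1, hr2.2, hr1]
    · have h1 := t1_tr (t1_right K e ⌊s⌋ (Int.fract s))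
      have h2 := nhdsWithin_le_nhds (s := Set.Ioi s) hn
      filter_upwards [h1, h2] with r hr1 hr2
      have h3 := hT.cross ⌊s⌋ ⌊s'⌋ hu
      rw [hr2.1, hr2.2, hr1.1]
      rw [hx, hx', t1_under hV hu, h3]

/-- points with a given count -/
private theorem t1_pt {K : PolyKnot} {e : E3} (hV : View K e) (i : ℤ) (k : ℕ)
    (hk : k ≤ cnt K e i 1) :
    ∃ x, 0 ≤ x ∧ x < 1 ∧ cnt K e i x = k ∧ ∀ l < K.n, Under K e i (l : ℕ) → xpos K e i (l : ℕ) ≠ x := by
  classical
  induction k with
  | zero =>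
    exact ⟨0, le_rfl, zero_lt_one, t1_zero K e i, fun l _ hl => hl.2.1.1.ne'⟩
  | succ k ih =>
    obtain ⟨x, hx0, hx1, hx2, hx3⟩ := ih (by omega)
    set A : Finset ℕ := (Finset.range K.n).filter fun l : ℕ => Under K e i l ∧ x < xpos K e i l
      with hA
    have hne : A.Nonempty := by
      by_contra h
      rw [Finset.not_nonempty_iff_eq_empty] at h
      have h1 : cnt K e i 1 = cnt K e i x := by
        unfold cnt
        congr 1
        apply Finset.filter_congr
        intro l hl
        constructor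
        · rintro ⟨a, -⟩
          refine ⟨a, ?_⟩
          by_contra h2
          push Not at h2
          have h3 : l ∈ A := by
            rw [hA, Finset.mem_filter]
            exact ⟨hl, a, lt_of_le_of_ne h2 (hx3 l (Finset.mem_range.1 hl) a).symm⟩
          rw [h] at h3
          exact absurd h3 (Finset.notMem_empty l)
        · rintro ⟨a, b⟩
          exact ⟨a, b.trans hx1⟩
      omega
    obtain ⟨m, hmA, hmin⟩ := Finset.exists_min_image A (fun l : ℕ => xpos K e i l) hne
    obtain ⟨hm1, hm2, hm3⟩ := Finset.mem_filter.1 hmA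
    have h1 : cnt K e i (xpos K e i m) = k := by
      rw [← hx2]
      unfold cnt
      congr 1
      apply Finset.filter_congr
      intro l hl
      constructor
      · rintro ⟨a, b⟩
        refine ⟨a, ?_⟩
        by_contra h2
        push Not at h2
        have h3 : l ∈ A := by
          rw [hA, Finset.mem_filter]
          exact ⟨hl, a, lt_of_le_of_ne h2 (hx3 l (Finset.mem_range.1 hl) a).symm⟩
        exact absurd b (not_lt.2 (hmin l h3))
      · rintro ⟨a, b⟩
        exact ⟨a, b.trans hm3⟩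
    have h2 := t1_right K e i (xpos K e i m)
    have h3 : Set.Ioo (xpos K e i m) 1 ∈ 𝓝[>] (xpos K e i m) := Ioo_mem_nhdsGT hm2.2.1.2
    obtain ⟨r, hr1, hr2⟩ := (h2.and h3).exists
    refine ⟨r, (hx0.trans hm3.le).trans hr2.1.le, hr2.2, ?_, fun l hl _ => hr1.2 l hl⟩
    rw [hr1.1, t1_under hV hm2, h1]

/-- SBI-3b. Fullness under SBI-3a. [If `k ≤ cnt K e i 1` then there is `x ∈ [0, 1)` with
`cnt K e i x = k` which is not an undercrossing position: just after the `k`-th one.] -/
theorem ffull_of_full (K : PolyKnot) (e : E3) (hV : View K e) (T : ℤ → ℕ → Y) (F : Set (Set Y))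
    (hF : Full F K e T) : FFull F K e (fun s => T ⌊s⌋ (cnt K e ⌊s⌋ (Int.fract s))) := by
  intro A hA
  obtain ⟨i, k, hk, hT⟩ := hF A hA
  obtain ⟨x, hx0, hx1, hx2, hx3⟩ := t1_pt hV i k hk
  have hf : ⌊(i : ℝ) + x⌋ = i := by
    rw [Int.floor_eq_iff]
    constructor <;> linarith
  have hfr : Int.fract ((i : ℝ) + x) = x := by
    unfold Int.fract
    rw [hf]
    ring
  refine ⟨i + x, fun s' hs' => ?_, ?_⟩
  · obtain ⟨hu, hx, -⟩ := (hV.over_iff _ s').1 hs'
    rw [hf] at hu hx
    rw [hfr] at hx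
    obtain ⟨l, hl, hl2, hl3⟩ := t1_red K e i ⌊s'⌋
    exact hx3 l hl (hl2 hu) (hl3.trans hx.symm)
  · simp only [hf, hfr, hx2]
    exact hT

end Pool.Agent.helper43.SBI
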