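import Pool.Agent.helper43.SBI.Crossing

set_option autoImplicit false

/-!
# SBI-3c : from function colourings to table colourings
-/

namespace Pool.Agent.helper43.SBI

open Pool.Agent.helper82.SB Filter Topology

variable {Y G : Type*} [Group G] [MulAction G Y]

/-- The representative of an over edge in `[0, n)`. -/
theorem tf2_rep (K : PolyKnot) (e : E3) (i j : ℤ) (h : Under K e i j) :
    ∃ l ∈ Finset.range K.n, Under K e i (l : ℤ) ∧ xpos K e i (l : ℤ) = xpos K e i j ∧
      ∃ m : ℤ, j = l + m * K.n := by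
  have hn : (0 : ℤ) < K.n := by
    have := K.three
    omega
  have h0 : 0 ≤ j % K.n := Int.emod_nonneg _ hn.ne'
  have h1 : j % K.n < K.n := Int.emod_lt_of_pos _ hn
  have hl : ((j % K.n).toNat : ℤ) = j % K.n := Int.toNat_of_nonneg h0
  have hj : j + (-(j / K.n)) * K.n = ((j % K.n).toNat : ℤ) := by
    rw [hl]
    have := Int.emod_add_mul_ediv j K.n
    linarith [mul_comm (K.n : ℤ) (j / K.n)]
  have hi : i + 0 * (K.n : ℤ) = i := by ring
  refine ⟨(j % K.n).toNat, ?_, ?_, ?_, j / K.n, ?_⟩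
  · rw [Finset.mem_range]
    omega
  · have := h.shift 0 (-(j / K.n))
    rwa [hi, hj] at this
  · have := xpos_shift K e i j 0 (-(j / K.n))
    rwa [hi, hj] at this
  · linarith

/-- A position which is not the position of an undercrossing. -/
theorem tf2_non {K : PolyKnot} {e : E3} (hV : View K e) (i : ℤ) (x : ℝ) (h0 : 0 < x) (h1 : x < 1)
    (h : ∀ l ∈ Finset.range K.n, Under K e i (l : ℤ) → xpos K e i (l : ℤ) ≠ x) (s' : ℝ) :
    ¬ Over K e (i + x) s' := by
  intro ho
  rw [hV.over_iff] at ho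
  obtain ⟨hu, hx, -⟩ := ho
  rw [Int.floor_intCast_add, Int.floor_eq_zero_iff.2 ⟨h0.le, h1⟩, add_zero] at hu hx
  rw [Int.fract_intCast_add, Int.fract_eq_self.2 ⟨h0.le, h1⟩] at hx
  obtain ⟨l, hl, hul, hxl, -⟩ := tf2_rep K e i _ hu
  exact h l hl hul (hxl.trans hx.symm)

/-- The converse: a position without points over it is not the position of an undercrossing. -/
theorem tf2_non' {K : PolyKnot} {e : E3} (i j : ℤ) (x : ℝ)
    (h : ∀ s', ¬ Over K e (i + x) s') (hu : Under K e i j) : xpos K e i j ≠ x := by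
  rintro rfl
  exact h _ hu.over

theorem tf2_cnt_mono (K : PolyKnot) (e : E3) (i : ℤ) {x y : ℝ} (h : x ≤ y) :
    cnt K e i x ≤ cnt K e i y := by
  classical
  apply Finset.card_le_card
  intro l hl
  simp only [Finset.mem_filter] at hl ⊢
  exact ⟨hl.1, hl.2.1, hl.2.2.trans_le h⟩

/-- Positions near `p` on the left. -/
theorem tf2_left (K : PolyKnot) (e : E3) (i : ℤ) (p : ℝ) :
    ∀ᶠ x in 𝓝[<] p, (∀ l ∈ Finset.range K.n, xpos K e i (l : ℤ) ≠ x) ∧
      cnt K e i x = cnt K e i p := by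
  classical
  have key : ∀ᶠ x in 𝓝[<] p, ∀ l ∈ Finset.range K.n, xpos K e i (l : ℤ) ≠ x ∧
      (xpos K e i (l : ℤ) < x ↔ xpos K e i (l : ℤ) < p) := by
    rw [Filter.eventually_all_finset]
    intro l _
    rcases lt_or_ge (xpos K e i (l : ℤ)) p with hlt | hge
    · have h1 : ∀ᶠ x in 𝓝[<] p, xpos K e i (l : ℤ) < x :=
        mem_nhdsWithin_of_mem_nhds (Ioi_mem_nhds hlt)
      filter_upwards [h1] with x hx
      exact ⟨hx.ne, fun _ => hlt, fun _ => hx⟩
    · filter_upwards [self_mem_nhdsWithin] with x hx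
      have hx' : x < xpos K e i (l : ℤ) := lt_of_lt_of_le hx hge
      exact ⟨hx'.ne', fun h => absurd h (not_lt.2 hx'.le), fun h => absurd h (not_lt.2 hge)⟩
  filter_upwards [key] with x hx
  refine ⟨fun l hl => (hx l hl).1, ?_⟩
  unfold cnt
  congr 1
  apply Finset.filter_congr
  intro l hl
  rw [(hx l hl).2]

open Classical in
/-- Positions near `p` on the right. -/
theorem tf2_right (K : PolyKnot) (e : E3) (i : ℤ) (p : ℝ) :
    ∀ᶠ x in 𝓝[>] p, (∀ l ∈ Finset.range K.n, xpos K e i (l : ℤ) ≠ x) ∧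
      cnt K e i x = ((Finset.range K.n).filter fun l : ℕ =>
        Under K e i l ∧ xpos K e i l ≤ p).card := by
  have key : ∀ᶠ x in 𝓝[>] p, ∀ l ∈ Finset.range K.n, xpos K e i (l : ℤ) ≠ x ∧
      (xpos K e i (l : ℤ) < x ↔ xpos K e i (l : ℤ) ≤ p) := by
    rw [Filter.eventually_all_finset]
    intro l _
    rcases lt_or_ge p (xpos K e i (l : ℤ)) with hlt | hge
    · have h1 : ∀ᶠ x in 𝓝[>] p, x < xpos K e i (l : ℤ) :=
        mem_nhdsWithin_of_mem_nhds (Iio_mem_nhds hlt)
      filter_upwards [h1] with x hx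
      exact ⟨hx.ne', fun h => absurd h (not_lt.2 hx.le), fun h => absurd h (not_le.2 hlt)⟩
    · filter_upwards [self_mem_nhdsWithin] with x hx
      have hx' : xpos K e i (l : ℤ) < x := lt_of_le_of_lt hge hx
      exact ⟨hx'.ne, fun _ => hge, fun _ => hx'⟩
  filter_upwards [key] with x hx
  refine ⟨fun l hl => (hx l hl).1, ?_⟩
  unfold cnt
  congr 1
  apply Finset.filter_congr
  intro l hl
  rw [(hx l hl).2]

/-- Small positive positions. -/
theorem tf2_zero (K : PolyKnot) (e : E3) (i : ℤ) :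
    ∀ᶠ x in 𝓝[>] (0 : ℝ), (∀ l ∈ Finset.range K.n, xpos K e i (l : ℤ) ≠ x) ∧
      cnt K e i x = 0 := by
  classical
  filter_upwards [tf2_right K e i 0] with x hx
  refine ⟨hx.1, hx.2.trans ?_⟩
  rw [Finset.card_eq_zero, Finset.filter_eq_empty_iff]
  rintro l - ⟨hu, hle⟩
  exact absurd hu.2.1.1 (not_lt.2 hle)

/-- Positions after an undercrossing. -/
theorem tf2_cross {K : PolyKnot} {e : E3} (hV : View K e) (i j : ℤ) (hu : Under K e i j) :
    ∀ᶠ x in 𝓝[>] (xpos K e i j), (∀ l ∈ Finset.range K.n, xpos K e i (l : ℤ) ≠ x) ∧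
      cnt K e i x = cnt K e i (xpos K e i j) + 1 := by
  classical
  filter_upwards [tf2_right K e i (xpos K e i j)] with x hx
  refine ⟨hx.1, hx.2.trans ?_⟩
  obtain ⟨l0, hl0, hul0, hxl0, -⟩ := tf2_rep K e i j hu
  have e1 : ((Finset.range K.n).filter fun l : ℕ =>
      Under K e i l ∧ xpos K e i l ≤ xpos K e i j) =
      insert l0 ((Finset.range K.n).filter fun l : ℕ =>
        Under K e i l ∧ xpos K e i l < xpos K e i j) := by
    ext l
    simp only [Finset.mem_filter, Finset.mem_insert]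
    constructor
    · rintro ⟨h1, h2, h3⟩
      rcases h3.lt_or_eq with h4 | h4
      · exact Or.inr ⟨h1, h2, h4⟩
      · left
        have hdvd := hV.triple i l l0 h2 hul0 (h4.trans hxl0.symm)
        rw [Finset.mem_range] at h1 hl0
        obtain ⟨m, hm⟩ := hdvd
        have hm0 : m = 0 := by
          by_contra hne
          rcases lt_or_gt_of_ne hne with hlt | hgt
          · have : (K.n : ℤ) * m ≤ (K.n : ℤ) * (-1) :=
              mul_le_mul_of_nonneg_left (by omega) (by omega)
            omega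
          · have : (K.n : ℤ) * 1 ≤ (K.n : ℤ) * m :=
              mul_le_mul_of_nonneg_left (by omega) (by omega)
            omega
        rw [hm0, mul_zero] at hm
        omega
    · rintro (rfl | ⟨h1, h2, h3⟩)
      · exact ⟨hl0, hul0, hxl0.le⟩
      · exact ⟨h1, h2, h3.le⟩
  rw [e1, Finset.card_insert_of_notMem, cnt]
  rintro hmem
  simp only [Finset.mem_filter] at hmem
  exact absurd hmem.2.2 (not_lt.2 hxl0.ge)

/-- A colouring in the function form is constant between undercrossings. -/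
theorem tf2_const {Q : AQ Y G} {K : PolyKnot} {e : E3} (hV : View K e) {c : ℝ → Y}
    (hc : FCol Q K e c) (i : ℤ) (x y : ℝ) (hx : 0 < x) (hxy : x ≤ y) (hy : y < 1)
    (ny : ∀ s', ¬ Over K e (i + y) s')
    (hcnt : cnt K e i x = cnt K e i y) : c (i + x) = c (i + y) := by
  classical
  have hno : ∀ r : ℝ, x ≤ r → r ≤ y → ∀ s', ¬ Over K e (i + r) s' := by
    intro r hr1 hr2
    refine tf2_non hV i r (hx.trans_le hr1) (hr2.trans_lt hy) ?_
    rintro l hl hul rfl
    rcases hr2.lt_or_eq with hlt | heq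
    · have : cnt K e i x < cnt K e i y := by
        apply Finset.card_lt_card
        rw [Finset.ssubset_iff_of_subset]
        · refine ⟨l, ?_, ?_⟩
          · simp only [Finset.mem_filter]
            exact ⟨hl, hul, hlt⟩
          · simp only [Finset.mem_filter, not_and, not_lt]
            intro _ _
            exact hr1
        · intro m hm
          simp only [Finset.mem_filter] at hm ⊢
          exact ⟨hm.1, hm.2.1, hm.2.2.trans_le hxy⟩
      omega
    · exact tf2_non' i l y ny hul heq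
  let _ : TopologicalSpace Y := ⊥
  have _ : DiscreteTopology Y := ⟨rfl⟩
  have hcont : ContinuousOn c (Set.Icc ((i : ℝ) + x) (i + y)) := by
    intro s hs
    apply ContinuousAt.continuousWithinAt
    have hr : ∀ s', ¬ Over K e s s' := by
      have h1 := hno (s - i) (by linarith [hs.1]) (by linarith [hs.2])
      rwa [add_sub_cancel] at h1
    exact Filter.EventuallyEq.continuousAt (hc.const s hr)
  exact isPreconnected_Icc.constant hcont (Set.left_mem_Icc.2 (by linarith))
    (Set.right_mem_Icc.2 (by linarith))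

open Classical in
/-- The table of a colouring in the function form. -/
noncomputable def tf2_tab (K : PolyKnot) (e : E3) (c : ℝ → Y) (i : ℤ) (k : ℕ) : Y :=
  if h : ∃ x : ℝ, 0 < x ∧ x < 1 ∧ (∀ s', ¬ Over K e (i + x) s') ∧ cnt K e i x = k then
    c (i + h.choose) else c i

theorem tf2_tab_eq {Q : AQ Y G} {K : PolyKnot} {e : E3} (hV : View K e) {c : ℝ → Y}
    (hc : FCol Q K e c) (i : ℤ) (x : ℝ) (hx : 0 < x) (hx1 : x < 1)
    (nx : ∀ s', ¬ Over K e (i + x) s') : tf2_tab K e c i (cnt K e i x) = c (i + x) := by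
  have h : ∃ y : ℝ, 0 < y ∧ y < 1 ∧ (∀ s', ¬ Over K e (i + y) s') ∧
      cnt K e i y = cnt K e i x := ⟨x, hx, hx1, nx, rfl⟩
  rw [tf2_tab, dif_pos h]
  obtain ⟨h0, h1, h2, h3⟩ := h.choose_spec
  rcases le_total h.choose x with hle | hle
  · exact tf2_const hV hc i _ x h0 hle hx1 nx h3
  · exact (tf2_const hV hc i x _ hx hle h1 h2 h3.symm).symm

theorem tf2_over_add_n (K : PolyKnot) (e : E3) (s s' : ℝ) :
    Over K e (s + K.n) s' ↔ Over K e s s' := by
  unfold Over
  rw [gam_per]

theorem tf2_not_over_int {K : PolyKnot} {e : E3} (hV : View K e) (i : ℤ) (s' : ℝ) :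
    ¬ Over K e i s' := by
  rintro ⟨a, ha, h⟩
  rw [gam_int] at h
  exact absurd (hV.vert_gam i s' a h) ha.ne'

/-- SBI-3c. From a function to a table. [`T i k` is the value of `c` at a point `i + x`, `0 < x < 1`,
which is not an undercrossing and has `cnt K e i x = k`; if there is no such `x` let `T i k = c i`. The value
does not depend on `x`, since `c` is locally constant away from the undercrossings and the set of these `x`
is an interval. Fullness: every non-undercrossing `s` which is not an integer has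
`c s = T ⌊s⌋ (cnt K e ⌊s⌋ (Int.fract s))`, and an integer can be moved a little.] -/
theorem isColoring_of_fcol (Q : AQ Y G) (K : PolyKnot) (e : E3) (hV : View K e) (c : ℝ → Y)
    (hc : FCol Q K e c) :
    ∃ T, IsColoring Q K e T ∧ ∀ F : Set (Set Y), FFull F K e c → Full F K e T := by
  classical
  -- small positions after a vertex
  have hzero : ∀ i : ℤ, ∃ y : ℝ, 0 < y ∧ y < 1 ∧ (∀ s', ¬ Over K e (i + y) s') ∧
      cnt K e i y = 0 ∧ c (i + y) = c i := by
    intro i
    have h1 := tf2_zero K e i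
    have h2 : ∀ᶠ y in 𝓝[>] (0 : ℝ), y < 1 := mem_nhdsWithin_of_mem_nhds (Iio_mem_nhds one_pos)
    have h3 : ∀ᶠ y in 𝓝[>] (0 : ℝ), c (i + y) = c i := by
      have h4 : Tendsto (fun y : ℝ => (i : ℝ) + y) (𝓝[>] 0) (𝓝 i) := by
        have : Tendsto (fun y : ℝ => (i : ℝ) + y) (𝓝 0) (𝓝 ((i : ℝ) + 0)) :=
          (continuous_const.add continuous_id).tendsto 0
        rw [add_zero] at this
        exact this.mono_left nhdsWithin_le_nhds
      exact h4.eventually (hc.const i (tf2_not_over_int hV i))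
    obtain ⟨y, ⟨h5, h6⟩, h7, h8, h9⟩ := (h1.and (h2.and (h3.and self_mem_nhdsWithin))).exists
    exact ⟨y, h9, h7, tf2_non hV i y h9 h7 (fun l hl _ => h5 l hl), h6, h8⟩
  refine ⟨tf2_tab K e c, ⟨?_, ?_, ?_⟩, ?_⟩
  · -- periodicity
    intro i k
    have hcast : (((i + K.n : ℤ)) : ℝ) = (i : ℝ) + K.n := by push_cast; rfl
    have hcnt : ∀ x, cnt K e (i + K.n) x = cnt K e i x := fun x => by
      have := cnt_shift K e i 1 x
      rwa [one_mul] at this
    by_cases h : ∃ x : ℝ, 0 < x ∧ x < 1 ∧ (∀ s', ¬ Over K e (i + x) s') ∧ cnt K e i x = k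
    · obtain ⟨x, h0, h1, h2, rfl⟩ := h
      rw [tf2_tab_eq hV hc i x h0 h1 h2, ← hcnt x, tf2_tab_eq hV hc (i + K.n) x h0 h1, hcast,
        add_right_comm, hc.per]
      intro s'
      rw [hcast, add_right_comm, tf2_over_add_n]
      exact h2 s'
    · have h' : ¬ ∃ x : ℝ, 0 < x ∧ x < 1 ∧ (∀ s', ¬ Over K e ((i + K.n : ℤ) + x) s') ∧
          cnt K e (i + K.n) x = k := by
        rintro ⟨x, h0, h1, h2, h3⟩
        refine h ⟨x, h0, h1, fun s' => ?_, ?_⟩
        · have := h2 s'
          rwa [hcast, add_right_comm, tf2_over_add_n] at this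
        · rwa [hcnt] at h3
      rw [tf2_tab, dif_neg h', tf2_tab, dif_neg h, hcast, hc.per]
  · -- vertices
    intro i
    obtain ⟨y, hy0, hy1, hny, hcy, hcol⟩ := hzero (i + 1)
    have h1 := tf2_left K e i 1
    have h2 : ∀ᶠ x in 𝓝[<] (1 : ℝ), 0 < x := mem_nhdsWithin_of_mem_nhds (Ioi_mem_nhds one_pos)
    have h3 : ∀ᶠ x in 𝓝[<] (1 : ℝ), c (i + x) = c ((i + 1 : ℤ) : ℝ) := by
      have h4 : Tendsto (fun x : ℝ => (i : ℝ) + x) (𝓝[<] 1) (𝓝 ((i + 1 : ℤ) : ℝ)) := by
        have : Tendsto (fun x : ℝ => (i : ℝ) + x) (𝓝 1) (𝓝 ((i : ℝ) + 1)) :=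
          (continuous_const.add continuous_id).tendsto 1
        push_cast
        exact this.mono_left nhdsWithin_le_nhds
      exact h4.eventually (hc.const _ (tf2_not_over_int hV (i + 1)))
    obtain ⟨x, ⟨h5, h6⟩, h7, h8, h9⟩ := (h1.and (h2.and (h3.and self_mem_nhdsWithin))).exists
    have hx1 : x < 1 := h9
    rw [← h6, tf2_tab_eq hV hc i x h7 hx1 (tf2_non hV i x h7 hx1 (fun l hl _ => h5 l hl)), h8,
      ← hcol, ← hcy, tf2_tab_eq hV hc (i + 1) y hy0 hy1 hny]
  · -- crossings
    intro i j hu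
    have hp := hu.2.1
    have hq := hu.2.2.1
    set p := xpos K e i j with hpdef
    set q := xpos K e j i with hqdef
    obtain ⟨a, hl, hr⟩ := hc.jump _ _ hu.over
    have hfi : ⌊(i : ℝ) + p⌋ = i := by
      rw [Int.floor_intCast_add, Int.floor_eq_zero_iff.2 ⟨hp.1.le, hp.2⟩, add_zero]
    have hfj : ⌊(j : ℝ) + q⌋ = j := by
      rw [Int.floor_intCast_add, Int.floor_eq_zero_iff.2 ⟨hq.1.le, hq.2⟩, add_zero]
    rw [← hpdef, ← hqdef, hfi, hfj] at hr
    rw [← hpdef] at hl
    -- the over point is not an undercrossing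
    have hnq : ∀ s', ¬ Over K e (j + q) s' := by
      intro s' ho
      obtain ⟨c1, hc1, h1⟩ := hu.over
      obtain ⟨c2, hc2, h2⟩ := ho
      rw [← hpdef, ← hqdef] at h1
      refine hV.triple_gam (i + p) (j + q) s' c1 (c1 + c2) hc1 (by linarith) h1 ?_
      rw [h2, h1, add_smul, add_assoc]
    have hTj : tf2_tab K e c j (cnt K e j q) = c (j + q) := tf2_tab_eq hV hc j q hq.1 hq.2 hnq
    -- left
    have hTl : tf2_tab K e c i (cnt K e i p) = a := by
      have h1 := tf2_left K e i p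
      have h2 : ∀ᶠ x in 𝓝[<] p, 0 < x := mem_nhdsWithin_of_mem_nhds (Ioi_mem_nhds hp.1)
      have h3 : ∀ᶠ x in 𝓝[<] p, c (i + x) = a := by
        have h4 : Tendsto (fun x : ℝ => (i : ℝ) + x) (𝓝[<] p) (𝓝[<] ((i : ℝ) + p)) := by
          apply tendsto_nhdsWithin_of_tendsto_nhds_of_eventually_within
          · exact ((continuous_const.add continuous_id).tendsto p).mono_left nhdsWithin_le_nhds
          · filter_upwards [self_mem_nhdsWithin] with x hx
            have hx' : x < p := hx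
            show (i : ℝ) + x < i + p
            linarith
        exact h4.eventually hl
      obtain ⟨x, ⟨h5, h6⟩, h7, h8, h9⟩ := (h1.and (h2.and (h3.and self_mem_nhdsWithin))).exists
      have hx1 : x < 1 := lt_trans h9 hp.2
      rw [← h6, tf2_tab_eq hV hc i x h7 hx1 (tf2_non hV i x h7 hx1 (fun l hl _ => h5 l hl)), h8]
    have hTr : tf2_tab K e c i (cnt K e i p + 1) = Q.del (c (j + q)) ^ sgn K e i j • a := by
      have h1 := tf2_cross hV i j hu
      rw [← hpdef] at h1
      have h2 : ∀ᶠ x in 𝓝[>] p, x < 1 := mem_nhdsWithin_of_mem_nhds (Iio_mem_nhds hp.2)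
      have h3 : ∀ᶠ x in 𝓝[>] p, c (i + x) = Q.del (c (j + q)) ^ sgn K e i j • a := by
        have h4 : Tendsto (fun x : ℝ => (i : ℝ) + x) (𝓝[>] p) (𝓝[>] ((i : ℝ) + p)) := by
          apply tendsto_nhdsWithin_of_tendsto_nhds_of_eventually_within
          · exact ((continuous_const.add continuous_id).tendsto p).mono_left nhdsWithin_le_nhds
          · filter_upwards [self_mem_nhdsWithin] with x hx
            have hx' : p < x := hx
            show (i : ℝ) + p < i + x
            linarith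
        exact h4.eventually hr
      obtain ⟨x, ⟨h5, h6⟩, h7, h8, h9⟩ := (h1.and (h2.and (h3.and self_mem_nhdsWithin))).exists
      have hx0 : 0 < x := lt_trans hp.1 h9
      rw [← h6, tf2_tab_eq hV hc i x hx0 h7 (tf2_non hV i x hx0 h7 (fun l hl _ => h5 l hl)), h8]
    rw [hTr, hTj, hTl]
  · -- fullness
    intro F hF A hA
    obtain ⟨s, hs, hcs⟩ := hF A hA
    by_cases hf : Int.fract s = 0
    · have hs' : s = ⌊s⌋ := by
        have := Int.floor_add_fract s
        rw [hf, add_zero] at this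
        exact this.symm
      obtain ⟨y, hy0, hy1, hny, hcy, hcol⟩ := hzero ⌊s⌋
      refine ⟨⌊s⌋, cnt K e ⌊s⌋ y, tf2_cnt_mono K e _ hy1.le, ?_⟩
      rw [tf2_tab_eq hV hc _ y hy0 hy1 hny, hcol, ← hs']
      exact hcs
    · have h0 : 0 < Int.fract s := lt_of_le_of_ne (Int.fract_nonneg s) (Ne.symm hf)
      have h1 : Int.fract s < 1 := Int.fract_lt_one s
      have hs' : (⌊s⌋ : ℝ) + Int.fract s = s := Int.floor_add_fract s
      refine ⟨⌊s⌋, cnt K e ⌊s⌋ (Int.fract s), tf2_cnt_mono K e _ h1.le, ?_⟩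
      rw [tf2_tab_eq hV hc _ _ h0 h1 (by rw [hs']; exact hs), hs']
      exact hcs

end Pool.Agent.helper43.SBI
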