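import Pool.Agent.helper43.SBI.Local
import Pool.Agent.helper43.SBI.OP

set_option autoImplicit false

/-!
# SBI-8 : crossings of a sweep are transversal
-/

namespace Pool.Agent.helper43.SBI

open Pool.Agent.helper82.SB Filter Topology

namespace Sweep

variable {S : Sweep}

theorem A_add (S : Sweep) (j m : ℤ) : S.A (j + m * S.n) = S.A j :=
  (show Function.Periodic S.A (S.n : ℤ) from S.perA).int_mul m j

theorem B_add (S : Sweep) (j m : ℤ) : S.B (j + m * S.n) = S.B j :=
  (show Function.Periodic S.B (S.n : ℤ) from S.perB).int_mul m j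

theorem h_add (S : Sweep) (j m : ℤ) : S.h (j + m * S.n) = S.h j := by
  exact (show Function.Periodic S.h (S.n : ℤ) from S.perh).int_mul m j

theorem h_add' (S : Sweep) (j m : ℤ) : S.h (j + m * S.n + 1) = S.h (j + 1) := by
  rw [add_right_comm, h_add]

theorem A_add' (S : Sweep) (j m : ℤ) : S.A (j + m * S.n + 1) = S.A (j + 1) := by
  rw [add_right_comm, A_add]

theorem B_add' (S : Sweep) (j m : ℤ) : S.B (j + m * S.n + 1) = S.B (j + 1) := by
  rw [add_right_comm, B_add]

theorem pa_add (S : Sweep) (j m : ℤ) (t : ℝ) : S.pa (j + m * S.n) t = S.pa j t := by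
  simp only [pa, sa, h_add, A_add, h_add', A_add']

theorem pb_add (S : Sweep) (j m : ℤ) (t : ℝ) : S.pb (j + m * S.n) t = S.pb j t := by
  simp only [pb, sb, h_add, B_add, h_add', B_add']

theorem sa_add (S : Sweep) (j m : ℤ) : S.sa (j + m * S.n) = S.sa j := by
  simp only [sa, h_add, A_add, h_add', A_add']

theorem sb_add (S : Sweep) (j m : ℤ) : S.sb (j + m * S.n) = S.sb j := by
  simp only [sb, h_add, B_add, h_add', B_add']

theorem eps_add (S : Sweep) (j m : ℤ) : S.eps (j + m * S.n) = S.eps j := by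
  simp only [eps, h_add, h_add']

theorem lo_add (S : Sweep) (j m : ℤ) : S.lo (j + m * S.n) = S.lo j := by
  simp only [lo, h_add, h_add']

theorem hi_add (S : Sweep) (j m : ℤ) : S.hi (j + m * S.n) = S.hi j := by
  simp only [hi, h_add, h_add']

theorem lo_lt_hi (S : Sweep) (j : ℤ) : S.lo j < S.hi j := by
  unfold lo hi
  exact min_lt_max.2 (S.hne j)

/-- The lines at the vertices. -/
theorem pa_h (S : Sweep) (j : ℤ) : S.pa j (S.h j) = S.A j := by
  simp [pa]

theorem pa_h' (S : Sweep) (j : ℤ) : S.pa j (S.h (j + 1)) = S.A (j + 1) := by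
  have h : S.h (j + 1) - S.h j ≠ 0 := sub_ne_zero.2 (S.hne j).symm
  unfold pa sa
  field_simp
  ring

theorem pb_h (S : Sweep) (j : ℤ) : S.pb j (S.h j) = S.B j := by
  simp [pb]

theorem pb_h' (S : Sweep) (j : ℤ) : S.pb j (S.h (j + 1)) = S.B (j + 1) := by
  have h : S.h (j + 1) - S.h j ≠ 0 := sub_ne_zero.2 (S.hne j).symm
  unfold pb sb
  field_simp
  ring

/-- exchange of the two views -/
def swap (S : Sweep) : Sweep where
  n := S.n
  h := S.h
  A := S.B
  B := S.A
  three := S.three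
  perh := S.perh
  perA := S.perB
  perB := S.perA
  hne := S.hne

theorem Good.swap (hS : S.Good) : S.swap.Good where
  simple j k t hj hk ha hb := hS.simple j k t hj hk hb ha
  vertB j k t hj hk hb ho := hS.vertA j k t hj hk hb ho
  vertA j k t hj hk hb ho := hS.vertB j k t hj hk hb ho
  tripleB j k l t hj hk hl h1 h2 := hS.tripleA j k l t hj hk hl h1 h2
  tripleA j k l t hj hk hl h1 h2 := hS.tripleB j k l t hj hk hl h1 h2
  pair j k l t hj hk hl h1 h2 := (hS.pair j l k t hj hl hk h2 h1).symm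

/-- the lower end is one of the two vertices -/
theorem lo_or (S : Sweep) (j : ℤ) : S.lo j = S.h j ∨ S.lo j = S.h (j + 1) := by
  unfold lo
  rcases min_choice (S.h j) (S.h (j + 1)) with h | h
  · exact Or.inl h
  · exact Or.inr h

theorem hi_or (S : Sweep) (j : ℤ) : S.hi j = S.h j ∨ S.hi j = S.h (j + 1) := by
  unfold hi
  rcases max_choice (S.h j) (S.h (j + 1)) with h | h
  · exact Or.inl h
  · exact Or.inr h

theorem lo_or' {j : ℤ} {t : ℝ} (h : t = S.lo j) : t = S.h j ∨ t = S.h (j + 1) := by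
  rw [h]
  exact S.lo_or j

theorem hi_or' {j : ℤ} {t : ℝ} (h : t = S.hi j) : t = S.h j ∨ t = S.h (j + 1) := by
  rw [h]
  exact S.hi_or j

theorem Cl.vertex {j : ℤ} {t : ℝ} (h : S.Cl j t) (h' : ¬ S.Ins j t) :
    t = S.h j ∨ t = S.h (j + 1) := by
  rcases eq_or_lt_of_le h.1 with h1 | h1
  · exact lo_or' h1.symm
  · rcases eq_or_lt_of_le h.2 with h2 | h2
    · exact hi_or' h2
    · exact absurd ⟨h1, h2⟩ h'

theorem Ins.ne {j : ℤ} {t : ℝ} (h : S.Ins j t) : t ≠ S.h j ∧ t ≠ S.h (j + 1) := by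
  obtain ⟨h1, h2⟩ := h
  unfold lo at h1
  unfold hi at h2
  constructor
  · rintro rfl
    rcases min_lt_iff.1 h1 with h | h
    · exact lt_irrefl _ h
    · rcases lt_max_iff.1 h2 with h' | h'
      · exact lt_irrefl _ h'
      · exact lt_asymm h h'
  · rintro rfl
    rcases min_lt_iff.1 h1 with h | h
    · rcases lt_max_iff.1 h2 with h' | h'
      · exact lt_asymm h h'
      · exact lt_irrefl _ h'
    · exact lt_irrefl _ h

theorem pa_lin (S : Sweep) (j : ℤ) (r t : ℝ) : S.pa j r = S.pa j t + (r - t) * S.sa j := by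
  unfold pa
  ring

theorem pb_lin (S : Sweep) (j : ℤ) (r t : ℝ) : S.pb j r = S.pb j t + (r - t) * S.sb j := by
  unfold pb
  ring

/-- Points of strands on a common vertical line are interior or equal (from `vertB`). -/
theorem Good.ins_of_pb_eq (hS : S.Good) {j k : ℤ} {t : ℝ} (hj : S.Cl j t) (hk : S.Cl k t)
    (hb : S.pb j t = S.pb k t) (ha : S.pa j t ≠ S.pa k t) : S.Ins j t ∧ S.Ins k t := by
  constructor
  · by_contra h
    exact ha (hS.vertB j k t hj hk hb (hj.vertex h))
  · by_contra h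
    exact ha (hS.vertB k j t hk hj hb.symm (hk.vertex h)).symm

theorem Good.ins_of_pa_eq (hS : S.Good) {j k : ℤ} {t : ℝ} (hj : S.Cl j t) (hk : S.Cl k t)
    (ha : S.pa j t = S.pa k t) (hb : S.pb j t ≠ S.pb k t) : S.Ins j t ∧ S.Ins k t := by
  exact hS.swap.ins_of_pb_eq (S := S.swap) hj hk ha hb

/-- SBI-8a. Crossings in the view `e` are transversal. [Suppose `sb j = sb k`. Then `pb j r = pb k r` for all
`r`. Let `r₁ = min (hi j) (hi k)` and `r₂ = max (lo j) (lo k)`, `r₂ < t < r₁`. At `r₁` and `r₂` one of the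
strands is at a vertex, so `pa j r = pa k r` at `r = r₁, r₂` by `vertB`; by linearity `pa j t = pa k t`.] -/
theorem Good.sb_ne (hS : S.Good) {j k : ℤ} {t : ℝ} (hj : S.Ins j t) (hk : S.Ins k t)
    (hb : S.pb j t = S.pb k t) (ha : S.pa j t ≠ S.pa k t) : S.sb j ≠ S.sb k := by
  intro hs
  have hbr : ∀ r, S.pb j r = S.pb k r := by
    intro r
    rw [S.pb_lin j r t, S.pb_lin k r t, hb, hs]
  obtain ⟨j1, j2⟩ := hj
  obtain ⟨k1, k2⟩ := hk
  have e1 : S.pa j (min (S.hi j) (S.hi k)) = S.pa k (min (S.hi j) (S.hi k)) := by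
    have hm : t < min (S.hi j) (S.hi k) := lt_min j2 k2
    have c1 : S.Cl j (min (S.hi j) (S.hi k)) := ⟨(j1.trans hm).le, min_le_left _ _⟩
    have c2 : S.Cl k (min (S.hi j) (S.hi k)) := ⟨(k1.trans hm).le, min_le_right _ _⟩
    rcases min_choice (S.hi j) (S.hi k) with h | h
    · exact hS.vertB j k _ c1 c2 (hbr _) (hi_or' h)
    · exact (hS.vertB k j _ c2 c1 (hbr _).symm (hi_or' h)).symm
  have e2 : S.pa j (max (S.lo j) (S.lo k)) = S.pa k (max (S.lo j) (S.lo k)) := by
    have hm : max (S.lo j) (S.lo k) < t := max_lt j1 k1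
    have c1 : S.Cl j (max (S.lo j) (S.lo k)) := ⟨le_max_left _ _, (hm.trans j2).le⟩
    have c2 : S.Cl k (max (S.lo j) (S.lo k)) := ⟨le_max_right _ _, (hm.trans k2).le⟩
    rcases max_choice (S.lo j) (S.lo k) with h | h
    · exact hS.vertB j k _ c1 c2 (hbr _) (lo_or' h)
    · exact (hS.vertB k j _ c2 c1 (hbr _).symm (lo_or' h)).symm
  have hm1 : t < min (S.hi j) (S.hi k) := lt_min j2 k2
  have hm2 : max (S.lo j) (S.lo k) < t := max_lt j1 k1
  generalize min (S.hi j) (S.hi k) = r1 at e1 hm1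
  generalize max (S.lo j) (S.lo k) = r2 at e2 hm2
  rw [S.pa_lin j r1 t, S.pa_lin k r1 t] at e1
  rw [S.pa_lin j r2 t, S.pa_lin k r2 t] at e2
  have e3 : (r1 - r2) * (S.sa j - S.sa k) = 0 := by linarith
  rcases mul_eq_zero.1 e3 with h | h
  · linarith
  · apply ha
    have : S.sa j = S.sa k := by linarith
    rw [this] at e1
    linarith

/-- SBI-8b. The same for the view `f`. -/
theorem Good.sa_ne (hS : S.Good) {j k : ℤ} {t : ℝ} (hj : S.Ins j t) (hk : S.Ins k t)
    (ha : S.pa j t = S.pa k t) (hb : S.pb j t ≠ S.pb k t) : S.sa j ≠ S.sa k := by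
  exact hS.swap.sb_ne (S := S.swap) hj hk ha hb

/-- Interior points with the same coordinates are on the same strand. -/
theorem Good.simple_ins (hS : S.Good) {j k : ℤ} {t : ℝ} (hj : S.Ins j t) (hk : S.Cl k t)
    (ha : S.pa j t = S.pa k t) (hb : S.pb j t = S.pb k t) : (S.n : ℤ) ∣ j - k := by
  rcases hS.simple j k t ⟨hj.1.le, hj.2.le⟩ hk ha hb with h | ⟨⟨m, hm⟩, h⟩ | ⟨-, h⟩
  · exact h
  · have hk' : k = j + 1 + (-m) * S.n := by linarith
    rw [hk', h_add] at h
    exact absurd h hj.ne.2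
  · exact absurd h hj.ne.1

/-- SBI-8c. Different strands have different keys. [Let `pb j t = pb k t`, `sb j = sb k`. For `r` close to
`t` on the side `σ` both `r` are interior heights of both strands, and `pb j r = pb k r`. By `sb_ne`
`pa j r = pa k r`, and then `simple` (at an interior height) gives the claim.] -/
theorem Good.kB_inj (hS : S.Good) {σ : Bool} {j k : ℤ} {t : ℝ} (hj : S.Pres σ j t)
    (hk : S.Pres σ k t) (h : S.kB σ t j = S.kB σ t k) : (S.n : ℤ) ∣ j - k := by
  have h1 : S.pb j t = S.pb k t := congrArg (fun x => (ofLex x).1) h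
  have h2 : sg σ * S.sb j = sg σ * S.sb k := congrArg (fun x => (ofLex x).2) h
  have h3 : S.sb j = S.sb k := by
    cases σ
    · simp only [sg, Bool.false_eq_true, if_false] at h2
      linarith
    · simp only [sg, if_true] at h2
      linarith
  have key : ∃ r, S.Ins j r ∧ S.Ins k r := by
    cases σ
    · simp only [Pres, Bool.false_eq_true, if_false] at hj hk
      have hm : max (S.lo j) (S.lo k) < t := max_lt hj.1 hk.1
      refine ⟨(max (S.lo j) (S.lo k) + t) / 2, ⟨?_, ?_⟩, ?_, ?_⟩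
      · linarith [le_max_left (S.lo j) (S.lo k)]
      · linarith [hj.2]
      · linarith [le_max_right (S.lo j) (S.lo k)]
      · linarith [hk.2]
    · simp only [Pres, if_true] at hj hk
      have hm : t < min (S.hi j) (S.hi k) := lt_min hj.2 hk.2
      refine ⟨(t + min (S.hi j) (S.hi k)) / 2, ⟨?_, ?_⟩, ?_, ?_⟩
      · linarith [hj.1]
      · linarith [min_le_left (S.hi j) (S.hi k)]
      · linarith [hk.1]
      · linarith [min_le_right (S.hi j) (S.hi k)]
  obtain ⟨r, r1, r2⟩ := key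
  have h4 : S.pb j r = S.pb k r := by
    rw [S.pb_lin j r t, S.pb_lin k r t, h1, h3]
  have h5 : S.pa j r = S.pa k r := by
    by_contra h6
    exact hS.sb_ne r1 r2 h4 h6 h3
  exact hS.simple_ins r1 ⟨r2.1.le, r2.2.le⟩ h5 h4

theorem Good.kA_inj (hS : S.Good) {σ : Bool} {j k : ℤ} {t : ℝ} (hj : S.Pres σ j t)
    (hk : S.Pres σ k t) (h : S.kA σ t j = S.kA σ t k) : (S.n : ℤ) ∣ j - k := by
  exact hS.swap.kB_inj (S := S.swap) hj hk h

theorem Pres.cl {σ : Bool} {j : ℤ} {t : ℝ} (h : S.Pres σ j t) : S.Cl j t := by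
  cases σ
  · simp only [Pres, Bool.false_eq_true, if_false] at h
    exact ⟨h.1.le, h.2⟩
  · simp only [Pres, if_true] at h
    exact ⟨h.1, h.2.le⟩

theorem Ins.pres {σ : Bool} {j : ℤ} {t : ℝ} (h : S.Ins j t) : S.Pres σ j t := by
  cases σ
  · simp only [Pres, Bool.false_eq_true, if_false]
    exact ⟨h.1, h.2.le⟩
  · simp only [Pres, if_true]
    exact ⟨h.1.le, h.2⟩

theorem Ins.cl {j : ℤ} {t : ℝ} (h : S.Ins j t) : S.Cl j t := by
  exact ⟨h.1.le, h.2.le⟩

end Sweep

end Pool.Agent.helper43.SBI
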