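import Pool.Agent.helper43.SBI.Coord

set_option autoImplicit false

/-!
# SBI-7 : translation between colourings of diagrams and colourings of sweeps
-/

namespace Pool.Agent.helper43.SBI

open Pool.Agent.helper82.SB Filter Topology

variable {Y G : Type*} [Group G] [MulAction G Y]

theorem T7_cont (S : Sweep) (j : ℤ) : Continuous (par S j) := by
  unfold par
  fun_prop

theorem T7_per (S : Sweep) (j : ℤ) (t : ℝ) : par S (j + S.n) t = par S j t + S.n := by
  unfold par
  have h1 : S.h (j + S.n + 1) = S.h (j + 1) := by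
    rw [show j + (S.n : ℤ) + 1 = j + 1 + S.n by ring, S.perh]
  rw [h1, S.perh]
  push_cast
  ring

theorem T7_sub (S : Sweep) (j : ℤ) (t r : ℝ) :
    par S j r - par S j t = (r - t) / (S.h (j + 1) - S.h j) := by
  unfold par
  ring

theorem T7_end (S : Sweep) (j : ℤ) : par S j (S.h (j + 1)) = j + 1 := by
  have h : S.h (j + 1) - S.h j ≠ 0 := sub_ne_zero.2 (S.hne j).symm
  unfold par
  rw [div_self h]

theorem T7_start (S : Sweep) (j : ℤ) : par S j (S.h j) = j := by
  unfold par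
  rw [sub_self, zero_div, add_zero]

theorem T7_up {S : Sweep} {j : ℤ} (h : S.h j < S.h (j + 1)) (t : ℝ) :
    Tendsto (par S j) (𝓝[<] t) (𝓝[<] (par S j t)) ∧ Tendsto (par S j) (𝓝[>] t) (𝓝[>] (par S j t)) := by
  have hc := (T7_cont S j).continuousAt (x := t)
  have hd : 0 < S.h (j + 1) - S.h j := sub_pos.2 h
  constructor
  · refine tendsto_nhdsWithin_of_tendsto_nhds_of_eventually_within _ (hc.mono_left nhdsWithin_le_nhds) ?_
    filter_upwards [self_mem_nhdsWithin] with r hr
    have h1 := T7_sub S j t r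
    have h2 : (r - t) / (S.h (j + 1) - S.h j) < 0 := div_neg_of_neg_of_pos (sub_neg.2 hr) hd
    exact sub_neg.1 (h1 ▸ h2)
  · refine tendsto_nhdsWithin_of_tendsto_nhds_of_eventually_within _ (hc.mono_left nhdsWithin_le_nhds) ?_
    filter_upwards [self_mem_nhdsWithin] with r hr
    have h1 := T7_sub S j t r
    have h2 : 0 < (r - t) / (S.h (j + 1) - S.h j) := div_pos (sub_pos.2 hr) hd
    exact sub_pos.1 (h1 ▸ h2)

theorem T7_down {S : Sweep} {j : ℤ} (h : S.h (j + 1) < S.h j) (t : ℝ) :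
    Tendsto (par S j) (𝓝[<] t) (𝓝[>] (par S j t)) ∧ Tendsto (par S j) (𝓝[>] t) (𝓝[<] (par S j t)) := by
  have hc := (T7_cont S j).continuousAt (x := t)
  have hd : S.h (j + 1) - S.h j < 0 := sub_neg.2 h
  constructor
  · refine tendsto_nhdsWithin_of_tendsto_nhds_of_eventually_within _ (hc.mono_left nhdsWithin_le_nhds) ?_
    filter_upwards [self_mem_nhdsWithin] with r hr
    have h1 := T7_sub S j t r
    have h2 : 0 < (r - t) / (S.h (j + 1) - S.h j) := div_pos_of_neg_of_neg (sub_neg.2 hr) hd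
    exact sub_pos.1 (h1 ▸ h2)
  · refine tendsto_nhdsWithin_of_tendsto_nhds_of_eventually_within _ (hc.mono_left nhdsWithin_le_nhds) ?_
    filter_upwards [self_mem_nhdsWithin] with r hr
    have h1 := T7_sub S j t r
    have h2 : (r - t) / (S.h (j + 1) - S.h j) < 0 := div_neg_of_pos_of_neg (sub_pos.2 hr) hd
    exact sub_neg.1 (h1 ▸ h2)

theorem T7_ins {S : Sweep} {k : ℤ} {t : ℝ} (h : S.Cl k t) (h1 : t ≠ S.h k) (h2 : t ≠ S.h (k + 1)) :
    S.Ins k t := by
  obtain ⟨ha, hb⟩ := h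
  unfold Sweep.lo at ha
  unfold Sweep.hi at hb
  unfold Sweep.Ins Sweep.lo Sweep.hi
  constructor
  · refine lt_of_le_of_ne ha fun h => ?_
    rcases min_choice (S.h k) (S.h (k + 1)) with h3 | h3
    · exact h1 (h.symm.trans h3)
    · exact h2 (h.symm.trans h3)
  · refine lt_of_le_of_ne hb fun h => ?_
    rcases max_choice (S.h k) (S.h (k + 1)) with h3 | h3
    · exact h1 (h.trans h3)
    · exact h2 (h.trans h3)

theorem T7_floor {S : Sweep} {k : ℤ} {t : ℝ} (h : S.Ins k t) : ⌊par S k t⌋ = k := by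
  have h1 := par_mem_Ioo S k t h
  rw [Int.floor_eq_iff]
  exact ⟨h1.1.le, h1.2⟩

/-- a point over the point `par S j t` -/
theorem T7_over (K : PolyKnot) (e f : E3) (hP : PairGen K e f) {j : ℤ} {t s' : ℝ}
    (hj : (sweepOf K e f hP).Cl j t) (ho : Over K e (par (sweepOf K e f hP) j t) s') :
    (sweepOf K e f hP).Cl ⌊s'⌋ t ∧ par (sweepOf K e f hP) ⌊s'⌋ t = s' ∧
      (sweepOf K e f hP).pb ⌊s'⌋ t = (sweepOf K e f hP).pb j t ∧
      (sweepOf K e f hP).pa j t < (sweepOf K e f hP).pa ⌊s'⌋ t := by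
  have hx : ∃ x, det3 e f x ≠ 0 := ⟨_, hP.det 0⟩
  obtain ⟨c, hc, hg⟩ := ho
  obtain ⟨g1, g2, g3⟩ := gam_par K e f hP j t hj
  have h1 : hgt e f (gam K s') = t := by
    rw [hg, hgt_add, hgt_smul, hgt_e, g1]; ring
  have h2 := par_hgt K e f hP ⌊s'⌋ s' (Int.floor_le s') (Int.lt_floor_add_one s').le
  rw [h1] at h2
  obtain ⟨k1, k2, k3⟩ := gam_par K e f hP ⌊s'⌋ t h2.1
  rw [h2.2] at k1 k2 k3
  refine ⟨h2.1, h2.2, ?_, ?_⟩
  · rw [← k3, ← g3, hg, cB_add, cB_smul, cB_e]; ring
  · rw [← k2, ← g2, hg, cA_add, cA_smul, cA_e hx]; linarith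

theorem T7_over_mk (K : PolyKnot) (e f : E3) (hP : PairGen K e f) {j k : ℤ} {t : ℝ}
    (hj : (sweepOf K e f hP).Cl j t) (hk : (sweepOf K e f hP).Cl k t)
    (hb : (sweepOf K e f hP).pb j t = (sweepOf K e f hP).pb k t) :
    gam K (par (sweepOf K e f hP) k t) = gam K (par (sweepOf K e f hP) j t) +
      ((sweepOf K e f hP).pa k t - (sweepOf K e f hP).pa j t) • e := by
  have hx : ∃ x, det3 e f x ≠ 0 := ⟨_, hP.det 0⟩
  obtain ⟨g1, g2, g3⟩ := gam_par K e f hP j t hj
  obtain ⟨k1, k2, k3⟩ := gam_par K e f hP k t hk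
  have h := eq_of_hgt hx (gam K (par (sweepOf K e f hP) k t)) (gam K (par (sweepOf K e f hP) j t))
    (k1.trans g1.symm)
  rw [h, k2, g2, k3, g3, hb, sub_self, zero_smul, add_zero]

theorem T7_cl {S : Sweep} {k : ℤ} {t : ℝ} (h : S.Ins k t) : S.Cl k t := ⟨h.1.le, h.2.le⟩

/-- the determinant of two edges -/
theorem T7_det (K : PolyKnot) (e f : E3) (hP : PairGen K e f) (j k : ℤ) :
    det3 e (edge K.P j) (edge K.P k) =
      ((sweepOf K e f hP).h (j + 1) - (sweepOf K e f hP).h j) *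
        ((sweepOf K e f hP).h (k + 1) - (sweepOf K e f hP).h k) *
        ((sweepOf K e f hP).sb k - (sweepOf K e f hP).sb j) := by
  have hx : ∃ x, det3 e f x ≠ 0 := ⟨_, hP.det 0⟩
  have hE : ∀ i, hgt e f (edge K.P i) = (sweepOf K e f hP).h (i + 1) - (sweepOf K e f hP).h i := by
    intro i
    have h := hgt_add e f (edge K.P i) (K.P i)
    rw [show edge K.P i + K.P i = K.P (i + 1) by unfold edge; simp] at h
    change _ = hgt e f (K.P (i + 1)) - hgt e f (K.P i)
    linarith
  have hB : ∀ i, cB e f (edge K.P i) = (sweepOf K e f hP).B (i + 1) - (sweepOf K e f hP).B i := by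
    intro i
    have h := cB_add e f (edge K.P i) (K.P i)
    rw [show edge K.P i + K.P i = K.P (i + 1) by unfold edge; simp] at h
    change _ = cB e f (K.P (i + 1)) - cB e f (K.P i)
    linarith
  rw [det3_e_eq hx, hE, hE, hB, hB]
  have hj : (sweepOf K e f hP).h (j + 1) - (sweepOf K e f hP).h j ≠ 0 :=
    sub_ne_zero.2 ((sweepOf K e f hP).hne j).symm
  have hk : (sweepOf K e f hP).h (k + 1) - (sweepOf K e f hP).h k ≠ 0 :=
    sub_ne_zero.2 ((sweepOf K e f hP).hne k).symm
  unfold Sweep.sb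
  field_simp

/-- SBI-7a. [`cst`: the point with parameter `s = par S j t` is not an undercrossing: if `Over K e s s'` then, with
`k = ⌊s'⌋`, `par_hgt` gives `Cl k t` and `pb k t = pb j t`, `pa j t < pa k t`, and `Ins k t` by
`Good.vertB` (as in `Good.ins_of_pb_eq` of the module Trans). The map `t ↦ par S j t` is affine, increasing iff `eps j = 1`, so it maps `𝓝[<] t` to
`𝓝[<] s` or `𝓝[>] s`. `jump`: `k` is over `j`, so `Over K e s s'` with `s' = par S k t`, and `s'` is not an
undercrossing (`View.triple_gam`). The sign: `det3_e_eq` gives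
`det3 e E_j E_k = hgt E_j * hgt E_k * (sb k - sb j)`; if `eps j = 1` the side before `s` is the side below `t`, if
`eps j = -1` it is the side above `t`. `vertex`: integers are not undercrossings (`View.vert_gam`), `c` is
constant near `j + 1`.] -/
theorem ecol_of_fcol (Q : AQ Y G) (K : PolyKnot) (e f : E3) (he : View K e) (hf : View K f)
    (hP : PairGen K e f) (c : ℝ → Y) (hc : FCol Q K e c) :
    (sweepOf K e f hP).ECol Q (fun j t => c (par (sweepOf K e f hP) j t)) := by
  have hG := good_sweepOf K e f he hf hP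
  set S := sweepOf K e f hP with hS
  have hx : ∃ x, det3 e f x ≠ 0 := ⟨_, hP.det 0⟩
  -- the nearby values at a point which is not an undercrossing
  have near : ∀ j t, (∀ s', ¬ Over K e (par S j t) s') → ∀ᶠ r in 𝓝 t, c (par S j r) = c (par S j t) :=
    fun j t h => (T7_cont S j).continuousAt.eventually (hc.const _ h)
  refine ⟨?_, ?_, ?_, ?_⟩
  · intro j t
    change c (par S (j + S.n) t) = Q.tau (c (par S j t))
    rw [T7_per]
    exact hc.per _
  · intro j t hj hk
    refine ⟨c (par S j t), (near j t ?_).filter_mono nhdsWithin_le_nhds⟩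
    intro s' ho
    obtain ⟨h1, h2, h3, h4⟩ := T7_over K e f hP (T7_cl hj) ho
    have hins : S.Ins ⌊s'⌋ t := by
      refine T7_ins h1 (fun h => ?_) (fun h => ?_)
      · exact h4.ne' (hG.vertB _ _ _ h1 (T7_cl hj) h3 (Or.inl h))
      · exact h4.ne' (hG.vertB _ _ _ h1 (T7_cl hj) h3 (Or.inr h))
    exact absurd (hk _ hins h3) (not_le.2 h4)
  · intro j k t hj hk hb ha
    have hmk := T7_over_mk K e f hP (T7_cl hj) (T7_cl hk) hb
    have ho : Over K e (par S j t) (par S k t) := ⟨_, sub_pos.2 ha, hmk⟩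
    have hnk : ∀ s', ¬ Over K e (par S k t) s' := by
      rintro s' ⟨c', hc', hg'⟩
      refine he.triple_gam (par S j t) (par S k t) s' (S.pa k t - S.pa j t)
        (S.pa k t - S.pa j t + c') (sub_pos.2 ha) (by linarith) hmk ?_
      rw [hg', hmk, add_smul, add_assoc]
    obtain ⟨a, ha1, ha2⟩ := hc.jump _ _ ho
    rw [T7_floor hj, T7_floor hk] at ha2
    have hdet : det3 e (edge K.P j) (edge K.P k) ≠ 0 := by
      have := ((he.over_iff _ _).1 ho).1.1
      rwa [T7_floor hj, T7_floor hk] at this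
    have hd := T7_det K e f hP j k
    rw [hd] at hdet
    have hsb : S.sb k - S.sb j ≠ 0 := fun h => hdet (by rw [h, mul_zero])
    -- the sign
    have hsgn : sgn K e j k = S.eps j * (S.eps k * if S.sb j < S.sb k then 1 else -1) := by
      unfold sgn Sweep.eps
      rw [hd]
      have hj' := S.hne j
      have hk' := S.hne k
      rcases lt_or_gt_of_ne hj' with h1 | h1 <;> rcases lt_or_gt_of_ne hk' with h2 | h2 <;>
        rcases lt_or_gt_of_ne hsb with h3 | h3
      · rw [if_neg (not_lt.2 (mul_nonpos_of_nonneg_of_nonpos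
          (mul_nonneg (sub_nonneg.2 h1.le) (sub_nonneg.2 h2.le)) h3.le)), if_pos h1, if_pos h2,
          if_neg (by linarith)]; norm_num
      · rw [if_pos (mul_pos (mul_pos (sub_pos.2 h1) (sub_pos.2 h2)) h3), if_pos h1, if_pos h2,
          if_pos (by linarith)]; norm_num
      · rw [if_pos (mul_pos_of_neg_of_neg (mul_neg_of_pos_of_neg (sub_pos.2 h1) (sub_neg.2 h2)) h3),
          if_pos h1, if_neg (not_lt.2 h2.le), if_neg (by linarith)]; norm_num
      · rw [if_neg (not_lt.2 (mul_nonpos_of_nonpos_of_nonneg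
          (mul_nonpos_of_nonneg_of_nonpos (sub_nonneg.2 h1.le) (sub_nonpos.2 h2.le)) h3.le)),
          if_pos h1, if_neg (not_lt.2 h2.le), if_pos (by linarith)]; norm_num
      · rw [if_pos (mul_pos_of_neg_of_neg (mul_neg_of_neg_of_pos (sub_neg.2 h1) (sub_pos.2 h2)) h3),
          if_neg (not_lt.2 h1.le), if_pos h2, if_neg (by linarith)]; norm_num
      · rw [if_neg (not_lt.2 (mul_nonpos_of_nonpos_of_nonneg
          (mul_nonpos_of_nonpos_of_nonneg (sub_nonpos.2 h1.le) (sub_nonneg.2 h2.le)) h3.le)),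
          if_neg (not_lt.2 h1.le), if_pos h2, if_pos (by linarith)]; norm_num
      · rw [if_neg (not_lt.2 (mul_nonpos_of_nonneg_of_nonpos
          (mul_nonneg_of_nonpos_of_nonpos (sub_nonpos.2 h1.le) (sub_nonpos.2 h2.le)) h3.le)),
          if_neg (not_lt.2 h1.le), if_neg (not_lt.2 h2.le), if_neg (by linarith)]; norm_num
      · rw [if_pos (mul_pos (mul_pos_of_neg_of_neg (sub_neg.2 h1) (sub_neg.2 h2)) h3),
          if_neg (not_lt.2 h1.le), if_neg (not_lt.2 h2.le), if_pos (by linarith)]; norm_num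
    have hk2 : ∀ᶠ r in 𝓝[≠] t, c (par S k r) = c (par S k t) :=
      (near k t hnk).filter_mono nhdsWithin_le_nhds
    rcases lt_or_gt_of_ne (S.hne j) with h1 | h1
    · have heps : S.eps j = 1 := if_pos h1
      rw [hsgn, heps, one_mul] at ha2
      obtain ⟨t1, t2⟩ := T7_up h1 t
      exact ⟨a, c (par S k t), hk2, t1.eventually ha1, t2.eventually ha2⟩
    · have heps : S.eps j = -1 := if_neg (not_lt.2 h1.le)
      rw [hsgn, heps, neg_one_mul] at ha2
      obtain ⟨t1, t2⟩ := T7_down h1 t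
      refine ⟨_, c (par S k t), hk2, t1.eventually ha2, (t2.eventually ha1).mono fun r hr => ?_⟩
      rw [hr, smul_smul, ← zpow_add, add_neg_cancel, zpow_zero, one_smul]
  · intro j
    have hno : ∀ s', ¬ Over K e ((j : ℝ) + 1) s' := by
      rintro s' ⟨c', hc', hg'⟩
      have h1 : gam K ((j : ℝ) + 1) = K.P (j + 1) := by
        have := gam_int K (j + 1)
        push_cast at this
        exact this
      rw [h1] at hg'
      exact hc'.ne' (he.vert_gam (j + 1) s' c' hg')
    refine ⟨c ((j : ℝ) + 1), ?_, ?_⟩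
    · have h1 := near j (S.h (j + 1)) (by rw [T7_end]; exact hno)
      rw [T7_end] at h1
      exact h1.filter_mono nhdsWithin_le_nhds
    · have h1 := near (j + 1) (S.h (j + 1)) (by rw [T7_start]; push_cast; exact hno)
      rw [T7_start] at h1
      push_cast at h1
      exact h1.filter_mono nhdsWithin_le_nhds


/-- SBI-7b. Fullness under SBI-7a. [`c` is constant near the given `s`; take a non-integer point close to it.] -/
theorem efull_of_ffull (Q : AQ Y G) (K : PolyKnot) (e f : E3) (he : View K e) (hf : View K f)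
    (hP : PairGen K e f) (c : ℝ → Y) (hc : FCol Q K e c) (F : Set (Set Y)) (hF : FFull F K e c) :
    ∀ A ∈ F, ∃ j t x, (sweepOf K e f hP).Ins j t ∧ x ∉ A ∧
      ∀ᶠ r in 𝓝[<] t, c (par (sweepOf K e f hP) j r) = x := by
  intro A hA
  obtain ⟨s, hs, hsA⟩ := hF A hA
  set S := sweepOf K e f hP with hS
  have h1 : ∀ᶠ r in 𝓝 s, ∀ᶠ r' in 𝓝 r, c r' = c s := eventually_eventually_nhds.2 (hc.const s hs)
  have h2 : ∀ᶠ r in 𝓝[>] s, r ∈ Set.Ioo s ((⌊s⌋ : ℝ) + 1) :=
    Ioo_mem_nhdsGT (Int.lt_floor_add_one s)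
  obtain ⟨s₁, h3, h4⟩ := ((h1.filter_mono (nhdsWithin_le_nhds (s := Set.Ioi s))).and h2).exists
  have h5 : (⌊s⌋ : ℝ) < s₁ := lt_of_le_of_lt (Int.floor_le s) h4.1
  obtain ⟨h6, h7⟩ := par_hgt K e f hP ⌊s⌋ s₁ h5.le h4.2.le
  refine ⟨⌊s⌋, hgt e f (gam K s₁), c s, ?_, hsA, ?_⟩
  · refine T7_ins h6 (fun h => ?_) (fun h => ?_)
    · rw [h, T7_start] at h7
      exact h5.ne h7
    · rw [h, T7_end] at h7
      exact h4.2.ne h7.symm
  · have h8 : ∀ᶠ r in 𝓝 (hgt e f (gam K s₁)), c (par S ⌊s⌋ r) = c s := by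
      have h9 : ∀ᶠ r' in 𝓝 (par S ⌊s⌋ (hgt e f (gam K s₁))), c r' = c s := by
        rw [h7]
        exact h3
      exact (T7_cont S ⌊s⌋).continuousAt.eventually h9
    exact h8.filter_mono nhdsWithin_le_nhds


end Pool.Agent.helper43.SBI
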