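import Pool.Agent.helper43.SBI.Coord

set_option autoImplicit false

/-!
# SBI-7c : from colourings of sweeps to colourings of diagrams
-/

namespace Pool.Agent.helper43.SBI

open Pool.Agent.helper82.SB Filter Topology

namespace T2

/-! ### affine maps and one-sided neighbourhoods -/

theorem aff_cont (a b d : ℝ) : Continuous (fun r : ℝ => a + (r - b) * d) := by fun_prop

theorem aff_lt_pos {a b d s : ℝ} (hd : 0 < d) :
    Tendsto (fun r : ℝ => a + (r - b) * d) (𝓝[<] s) (𝓝[<] (a + (s - b) * d)) := by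
  refine tendsto_nhdsWithin_iff.2 ⟨((aff_cont a b d).tendsto s).mono_left nhdsWithin_le_nhds, ?_⟩
  filter_upwards [self_mem_nhdsWithin] with r hr
  have hr' : r < s := hr
  show a + (r - b) * d < a + (s - b) * d
  have := mul_lt_mul_of_pos_right (sub_lt_sub_right hr' b) hd
  linarith

theorem aff_gt_pos {a b d s : ℝ} (hd : 0 < d) :
    Tendsto (fun r : ℝ => a + (r - b) * d) (𝓝[>] s) (𝓝[>] (a + (s - b) * d)) := by
  refine tendsto_nhdsWithin_iff.2 ⟨((aff_cont a b d).tendsto s).mono_left nhdsWithin_le_nhds, ?_⟩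
  filter_upwards [self_mem_nhdsWithin] with r hr
  have hr' : s < r := hr
  show a + (s - b) * d < a + (r - b) * d
  have := mul_lt_mul_of_pos_right (sub_lt_sub_right hr' b) hd
  linarith

theorem aff_lt_neg {a b d s : ℝ} (hd : d < 0) :
    Tendsto (fun r : ℝ => a + (r - b) * d) (𝓝[<] s) (𝓝[>] (a + (s - b) * d)) := by
  refine tendsto_nhdsWithin_iff.2 ⟨((aff_cont a b d).tendsto s).mono_left nhdsWithin_le_nhds, ?_⟩
  filter_upwards [self_mem_nhdsWithin] with r hr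
  have hr' : r < s := hr
  show a + (s - b) * d < a + (r - b) * d
  have := mul_lt_mul_of_neg_right (sub_lt_sub_right hr' b) hd
  linarith

theorem aff_gt_neg {a b d s : ℝ} (hd : d < 0) :
    Tendsto (fun r : ℝ => a + (r - b) * d) (𝓝[>] s) (𝓝[<] (a + (s - b) * d)) := by
  refine tendsto_nhdsWithin_iff.2 ⟨((aff_cont a b d).tendsto s).mono_left nhdsWithin_le_nhds, ?_⟩
  filter_upwards [self_mem_nhdsWithin] with r hr
  have hr' : s < r := hr
  show a + (r - b) * d < a + (s - b) * d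
  have := mul_lt_mul_of_neg_right (sub_lt_sub_right hr' b) hd
  linarith

theorem sg_mul (a b : ℝ) (ha : a ≠ 0) (hb : b ≠ 0) :
    (if 0 < a * b then (1 : ℤ) else -1) = (if 0 < a then 1 else -1) * (if 0 < b then 1 else -1) := by
  rcases lt_or_gt_of_ne ha with h1 | h1 <;> rcases lt_or_gt_of_ne hb with h2 | h2
  · rw [if_pos (mul_pos_of_neg_of_neg h1 h2), if_neg h1.le.not_gt, if_neg h2.le.not_gt]; rfl
  · rw [if_neg (mul_neg_of_neg_of_pos h1 h2).le.not_gt, if_neg h1.le.not_gt, if_pos h2]; rfl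
  · rw [if_neg (mul_neg_of_pos_of_neg h1 h2).le.not_gt, if_pos h1, if_neg h2.le.not_gt]; rfl
  · rw [if_pos (mul_pos h1 h2), if_pos h1, if_pos h2]; rfl

variable {Y : Type*} {K : PolyKnot} {e f : E3}

/-- the height along a closed edge -/
theorem hgt_edge (hP : PairGen K e f) (j : ℤ) (r : ℝ) (h0 : (j : ℝ) ≤ r) (h1 : r ≤ j + 1) :
    hgt e f (gam K r) = (sweepOf K e f hP).h j +
      (r - j) * ((sweepOf K e f hP).h (j + 1) - (sweepOf K e f hP).h j) := by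
  have h := (par_hgt K e f hP j r h0 h1).2
  have hd : (sweepOf K e f hP).h (j + 1) - (sweepOf K e f hP).h j ≠ 0 :=
    sub_ne_zero.2 (Ne.symm ((sweepOf K e f hP).hne j))
  unfold par at h
  have h2 := (div_eq_iff hd).1 (show (hgt e f (gam K r) - (sweepOf K e f hP).h j) /
    ((sweepOf K e f hP).h (j + 1) - (sweepOf K e f hP).h j) = r - j by linarith)
  linarith

theorem ins_of_mem (S : Sweep) (j : ℤ) (r : ℝ) (h0 : (j : ℝ) < r) (h1 : r < j + 1) :
    S.Ins j (S.h j + (r - j) * (S.h (j + 1) - S.h j)) := by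
  have hr0 : 0 < r - j := by linarith
  have hr1 : r - j < 1 := by linarith
  generalize hx : r - (j : ℝ) = x at *
  unfold Sweep.Ins Sweep.lo Sweep.hi
  rcases lt_or_gt_of_ne (S.hne j) with h | h
  · rw [min_eq_left h.le, max_eq_right h.le]
    constructor <;> nlinarith
  · rw [min_eq_right h.le, max_eq_left h.le]
    constructor <;> nlinarith

theorem ins_hgt (hP : PairGen K e f) (j : ℤ) (r : ℝ) (h0 : (j : ℝ) < r) (h1 : r < j + 1) :
    (sweepOf K e f hP).Ins j (hgt e f (gam K r)) := by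
  rw [hgt_edge hP j r h0.le h1.le]
  exact ins_of_mem _ j r h0 h1

/-- the colour function on the line -/
noncomputable def phi (K : PolyKnot) (e f : E3) (C : ℤ → ℝ → Y) (s : ℝ) : Y :=
  C ⌊s⌋ (hgt e f (gam K s))

theorem phi_eq (hP : PairGen K e f) (C : ℤ → ℝ → Y) (j : ℤ) (r : ℝ) (h0 : (j : ℝ) < r) (h1 : r < j + 1) :
    phi K e f C r = C j ((sweepOf K e f hP).h j +
      (r - j) * ((sweepOf K e f hP).h (j + 1) - (sweepOf K e f hP).h j)) := by
  have hfl : ⌊r⌋ = j := Int.floor_eq_iff.2 ⟨h0.le, h1⟩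
  unfold phi
  rw [hfl, hgt_edge hP j r h0.le h1.le]

theorem phi_ev (hP : PairGen K e f) (C : ℤ → ℝ → Y) (j : ℤ) (s : ℝ) (h0 : (j : ℝ) < s) (h1 : s < j + 1) :
    ∀ᶠ r in 𝓝 s, phi K e f C r = C j ((sweepOf K e f hP).h j +
      (r - j) * ((sweepOf K e f hP).h (j + 1) - (sweepOf K e f hP).h j)) := by
  filter_upwards [Ioo_mem_nhds h0 h1] with r hr
  exact phi_eq hP C j r hr.1 hr.2

section sides

variable (hP : PairGen K e f) (C : ℤ → ℝ → Y) {j : ℤ} {s : ℝ} (h0 : (j : ℝ) < s) (h1 : s < j + 1)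
include hP h0 h1

theorem up_lt {x : Y} (hd : (sweepOf K e f hP).h j < (sweepOf K e f hP).h (j + 1))
    (h : ∀ᶠ r in 𝓝[<] (hgt e f (gam K s)), C j r = x) : ∀ᶠ r in 𝓝[<] s, phi K e f C r = x := by
  rw [hgt_edge hP j s h0.le h1.le] at h
  filter_upwards [(aff_lt_pos (sub_pos.2 hd)).eventually h,
    nhdsWithin_le_nhds (phi_ev hP C j s h0 h1)] with r hr1 hr2
  rw [hr2, hr1]

theorem up_gt {x : Y} (hd : (sweepOf K e f hP).h j < (sweepOf K e f hP).h (j + 1))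
    (h : ∀ᶠ r in 𝓝[>] (hgt e f (gam K s)), C j r = x) : ∀ᶠ r in 𝓝[>] s, phi K e f C r = x := by
  rw [hgt_edge hP j s h0.le h1.le] at h
  filter_upwards [(aff_gt_pos (sub_pos.2 hd)).eventually h,
    nhdsWithin_le_nhds (phi_ev hP C j s h0 h1)] with r hr1 hr2
  rw [hr2, hr1]

theorem down_lt {x : Y} (hd : (sweepOf K e f hP).h (j + 1) < (sweepOf K e f hP).h j)
    (h : ∀ᶠ r in 𝓝[>] (hgt e f (gam K s)), C j r = x) : ∀ᶠ r in 𝓝[<] s, phi K e f C r = x := by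
  rw [hgt_edge hP j s h0.le h1.le] at h
  filter_upwards [(aff_lt_neg (sub_neg.2 hd)).eventually h,
    nhdsWithin_le_nhds (phi_ev hP C j s h0 h1)] with r hr1 hr2
  rw [hr2, hr1]

theorem down_gt {x : Y} (hd : (sweepOf K e f hP).h (j + 1) < (sweepOf K e f hP).h j)
    (h : ∀ᶠ r in 𝓝[<] (hgt e f (gam K s)), C j r = x) : ∀ᶠ r in 𝓝[>] s, phi K e f C r = x := by
  rw [hgt_edge hP j s h0.le h1.le] at h
  filter_upwards [(aff_gt_neg (sub_neg.2 hd)).eventually h,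
    nhdsWithin_le_nhds (phi_ev hP C j s h0 h1)] with r hr1 hr2
  rw [hr2, hr1]

theorem both {x : Y} (h : ∀ᶠ r in 𝓝[≠] (hgt e f (gam K s)), C j r = x) :
    (∀ᶠ r in 𝓝[<] s, phi K e f C r = x) ∧ ∀ᶠ r in 𝓝[>] s, phi K e f C r = x := by
  have hl : ∀ᶠ r in 𝓝[<] (hgt e f (gam K s)), C j r = x := h.filter_mono (nhdsLT_le_nhdsNE _)
  have hg : ∀ᶠ r in 𝓝[>] (hgt e f (gam K s)), C j r = x := h.filter_mono (nhdsGT_le_nhdsNE _)
  rcases lt_or_gt_of_ne ((sweepOf K e f hP).hne j) with hd | hd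
  · exact ⟨up_lt hP C h0 h1 hd hl, up_gt hP C h0 h1 hd hg⟩
  · exact ⟨down_lt hP C h0 h1 hd hg, down_gt hP C h0 h1 hd hl⟩

end sides

/-- the sides of a vertex -/
theorem vertex_sides (hP : PairGen K e f) (C : ℤ → ℝ → Y) (j : ℤ) {x : Y}
    (h1 : ∀ᶠ r in 𝓝[Set.Ioo ((sweepOf K e f hP).lo j) ((sweepOf K e f hP).hi j)]
      ((sweepOf K e f hP).h (j + 1)), C j r = x)
    (h2 : ∀ᶠ r in 𝓝[Set.Ioo ((sweepOf K e f hP).lo (j + 1)) ((sweepOf K e f hP).hi (j + 1))]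
      ((sweepOf K e f hP).h (j + 1)), C (j + 1) r = x) :
    (∀ᶠ r in 𝓝[<] ((j : ℝ) + 1), phi K e f C r = x) ∧ ∀ᶠ r in 𝓝[>] ((j : ℝ) + 1), phi K e f C r = x := by
  set S := sweepOf K e f hP with hS
  constructor
  · have ht : Tendsto (fun r : ℝ => S.h j + (r - j) * (S.h (j + 1) - S.h j)) (𝓝[<] ((j : ℝ) + 1))
        (𝓝[Set.Ioo (S.lo j) (S.hi j)] (S.h (j + 1))) := by
      refine tendsto_nhdsWithin_iff.2 ⟨?_, ?_⟩
      · have h3 := ((aff_cont (S.h j) j (S.h (j + 1) - S.h j)).tendsto ((j : ℝ) + 1)).mono_left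
          (nhdsWithin_le_nhds (s := Set.Iio ((j : ℝ) + 1)))
        have h4 : S.h j + ((j : ℝ) + 1 - j) * (S.h (j + 1) - S.h j) = S.h (j + 1) := by ring
        rwa [h4] at h3
      · filter_upwards [Ioo_mem_nhdsLT (show (j : ℝ) < j + 1 by linarith)] with r hr
        exact ins_of_mem S j r hr.1 hr.2
    filter_upwards [ht.eventually h1, Ioo_mem_nhdsLT (show (j : ℝ) < j + 1 by linarith)] with r hr1 hr2
    rw [phi_eq hP C j r hr2.1 hr2.2, hr1]
  · have hc : (((j + 1 : ℤ)) : ℝ) = (j : ℝ) + 1 := by push_cast; rfl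
    have ht : Tendsto (fun r : ℝ => S.h (j + 1) + (r - ((j + 1 : ℤ) : ℝ)) * (S.h (j + 1 + 1) - S.h (j + 1)))
        (𝓝[>] ((j : ℝ) + 1)) (𝓝[Set.Ioo (S.lo (j + 1)) (S.hi (j + 1))] (S.h (j + 1))) := by
      refine tendsto_nhdsWithin_iff.2 ⟨?_, ?_⟩
      · have h3 := ((aff_cont (S.h (j + 1)) ((j + 1 : ℤ) : ℝ) (S.h (j + 1 + 1) - S.h (j + 1))).tendsto
          ((j : ℝ) + 1)).mono_left (nhdsWithin_le_nhds (s := Set.Ioi ((j : ℝ) + 1)))
        have h4 : S.h (j + 1) + ((j : ℝ) + 1 - ((j + 1 : ℤ) : ℝ)) * (S.h (j + 1 + 1) - S.h (j + 1)) =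
          S.h (j + 1) := by rw [hc]; ring
        rwa [h4] at h3
      · filter_upwards [Ioo_mem_nhdsGT (show (j : ℝ) + 1 < j + 1 + 1 by linarith)] with r hr
        exact ins_of_mem S (j + 1) r (by rw [hc]; exact hr.1) (by rw [hc]; exact hr.2)
    filter_upwards [ht.eventually h2, Ioo_mem_nhdsGT (show (j : ℝ) + 1 < j + 1 + 1 by linarith)] with
      r hr1 hr2
    rw [phi_eq hP C (j + 1) r (by rw [hc]; exact hr2.1) (by rw [hc]; exact hr2.2), hr1]

theorem exists_det (hP : PairGen K e f) : ∃ x, det3 e f x ≠ 0 := ⟨_, hP.det 0⟩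

/-- undercrossings from strands -/
theorem over_of (hP : PairGen K e f) {j k : ℤ} {t : ℝ} (hj : (sweepOf K e f hP).Ins j t)
    (hk : (sweepOf K e f hP).Ins k t) (ha : (sweepOf K e f hP).pa j t = (sweepOf K e f hP).pa k t)
    (hb : (sweepOf K e f hP).pb j t < (sweepOf K e f hP).pb k t) :
    Over K f (par (sweepOf K e f hP) j t) (par (sweepOf K e f hP) k t) := by
  obtain ⟨a1, a2, a3⟩ := gam_par K e f hP j t ⟨hj.1.le, hj.2.le⟩
  obtain ⟨b1, b2, b3⟩ := gam_par K e f hP k t ⟨hk.1.le, hk.2.le⟩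
  refine ⟨(sweepOf K e f hP).pb k t - (sweepOf K e f hP).pb j t, sub_pos.2 hb, ?_⟩
  have h := eq_of_hgt (exists_det hP) (gam K (par (sweepOf K e f hP) k t))
    (gam K (par (sweepOf K e f hP) j t)) (by rw [a1, b1])
  rw [a2, a3, b2, b3, ha, sub_self, zero_smul, add_zero] at h
  exact h

/-- the data of an undercrossing -/
theorem under_data (hf : View K f) (hP : PairGen K e f) {s s' : ℝ} (h : Over K f s s') :
    ((⌊s⌋ : ℝ) < s ∧ s < ⌊s⌋ + 1) ∧ ((⌊s'⌋ : ℝ) < s' ∧ s' < ⌊s'⌋ + 1) ∧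
    hgt e f (gam K s') = hgt e f (gam K s) ∧
    (sweepOf K e f hP).Ins ⌊s⌋ (hgt e f (gam K s)) ∧ (sweepOf K e f hP).Ins ⌊s'⌋ (hgt e f (gam K s)) ∧
    (sweepOf K e f hP).pa ⌊s⌋ (hgt e f (gam K s)) = (sweepOf K e f hP).pa ⌊s'⌋ (hgt e f (gam K s)) ∧
    (sweepOf K e f hP).pb ⌊s⌋ (hgt e f (gam K s)) < (sweepOf K e f hP).pb ⌊s'⌋ (hgt e f (gam K s)) ∧
    det3 f (edge K.P ⌊s⌋) (edge K.P ⌊s'⌋) ≠ 0 := by
  obtain ⟨⟨hd, ⟨hx0, hx1⟩, ⟨hy0, hy1⟩, -⟩, hs, hs'⟩ := (hf.over_iff s s').1 h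
  rw [← hs] at hx0 hx1
  rw [← hs'] at hy0 hy1
  have e1 := Int.floor_add_fract s
  have e2 := Int.floor_add_fract s'
  have m1 : (⌊s⌋ : ℝ) < s ∧ s < ⌊s⌋ + 1 := ⟨by linarith, by linarith⟩
  have m2 : (⌊s'⌋ : ℝ) < s' ∧ s' < ⌊s'⌋ + 1 := ⟨by linarith, by linarith⟩
  obtain ⟨c, hc, hcc⟩ := h
  have hh : hgt e f (gam K s') = hgt e f (gam K s) := by
    rw [hcc, hgt_add, hgt_smul, hgt_f, mul_zero, add_zero]
  have i1 := ins_hgt hP ⌊s⌋ s m1.1 m1.2
  have i2 := ins_hgt hP ⌊s'⌋ s' m2.1 m2.2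
  rw [hh] at i2
  obtain ⟨c1, p1⟩ := par_hgt K e f hP ⌊s⌋ s m1.1.le m1.2.le
  obtain ⟨c2, p2⟩ := par_hgt K e f hP ⌊s'⌋ s' m2.1.le m2.2.le
  obtain ⟨-, a2, a3⟩ := gam_par K e f hP ⌊s⌋ _ c1
  obtain ⟨-, b2, b3⟩ := gam_par K e f hP ⌊s'⌋ _ c2
  rw [p1] at a2 a3
  rw [p2] at b2 b3
  rw [hh] at b2 b3
  refine ⟨m1, m2, hh, i1, i2, ?_, ?_, hd⟩
  · rw [← a2, ← b2, hcc, cA_add, cA_smul, cA_f, mul_zero, add_zero]
  · rw [← a3, ← b3, hcc, cB_add, cB_smul, cB_f (exists_det hP), mul_one]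
    linarith

theorem sgn_eq (hP : PairGen K e f) (j k : ℤ) (hd : det3 f (edge K.P j) (edge K.P k) ≠ 0) :
    sgn K f j k = (sweepOf K e f hP).eps j *
      ((sweepOf K e f hP).eps k * if (sweepOf K e f hP).sa k < (sweepOf K e f hP).sa j then 1 else -1) := by
  set S := sweepOf K e f hP with hS
  have hsub : ∀ j : ℤ, K.P (j + 1) = edge K.P j + K.P j := by
    intro j; unfold edge; simp
  have hh : ∀ j : ℤ, hgt e f (edge K.P j) = S.h (j + 1) - S.h j := by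
    intro j
    show _ = hgt e f (K.P (j + 1)) - hgt e f (K.P j)
    rw [hsub, hgt_add]; ring
  have ha : ∀ j : ℤ, cA e f (edge K.P j) = S.A (j + 1) - S.A j := by
    intro j
    show _ = cA e f (K.P (j + 1)) - cA e f (K.P j)
    rw [hsub, cA_add]; ring
  have hne : ∀ j : ℤ, S.h (j + 1) - S.h j ≠ 0 := fun j => sub_ne_zero.2 (Ne.symm (S.hne j))
  have hsa : ∀ j : ℤ, S.A (j + 1) - S.A j = S.sa j * (S.h (j + 1) - S.h j) := by
    intro j
    unfold Sweep.sa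
    rw [div_mul_cancel₀ _ (hne j)]
  have key : det3 f (edge K.P j) (edge K.P k) =
      (S.h (j + 1) - S.h j) * ((S.h (k + 1) - S.h k) * (S.sa j - S.sa k)) := by
    rw [det3_f_eq (exists_det hP), ha, ha, hh, hh, hsa j, hsa k]
    ring
  rw [key] at hd
  have hd2 : (S.h (k + 1) - S.h k) * (S.sa j - S.sa k) ≠ 0 := right_ne_zero_of_mul hd
  have hd3 : S.sa j - S.sa k ≠ 0 := right_ne_zero_of_mul hd2
  unfold sgn Sweep.eps
  rw [key, sg_mul _ _ (hne j) hd2, sg_mul _ _ (hne k) hd3]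
  simp only [sub_pos]

variable {G : Type*} [Group G] [MulAction G Y]

theorem side_free (Q : AQ Y G) (hf : View K f) (hP : PairGen K e f) (C : ℤ → ℝ → Y)
    (hC : (sweepOf K e f hP).FCol' Q C) (s : ℝ) (hs : ∀ s', ¬ Over K f s s') :
    ∃ x, (∀ᶠ r in 𝓝[<] s, phi K e f C r = x) ∧ ∀ᶠ r in 𝓝[>] s, phi K e f C r = x := by
  have hfl := Int.floor_le s
  have hfl' := Int.lt_floor_add_one s
  rcases hfl.eq_or_lt with h | h
  · obtain ⟨x, h1, h2⟩ := hC.vertex (⌊s⌋ - 1)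
    have h3 := vertex_sides hP C (⌊s⌋ - 1) h1 h2
    have h4 : ((⌊s⌋ - 1 : ℤ) : ℝ) + 1 = s := by push_cast; linarith
    rw [h4] at h3
    exact ⟨x, h3⟩
  · set t := hgt e f (gam K s) with ht
    have hins := ins_hgt hP ⌊s⌋ s h hfl'
    obtain ⟨-, hp⟩ := par_hgt K e f hP ⌊s⌋ s hfl hfl'.le
    obtain ⟨x, hx⟩ := hC.cst ⌊s⌋ t hins (by
      intro k hk ha
      by_contra hb
      push Not at hb
      have := over_of hP hins hk ha.symm hb
      rw [hp] at this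
      exact hs _ this)
    exact ⟨x, both hP C h hfl' hx⟩

theorem side_under (Q : AQ Y G) (hf : View K f) (hP : PairGen K e f) (C : ℤ → ℝ → Y)
    (hC : (sweepOf K e f hP).FCol' Q C) (s s' : ℝ) (hs : Over K f s s') :
    ∃ a y, (∀ᶠ r in 𝓝[<] s, phi K e f C r = a) ∧
      (∀ᶠ r in 𝓝[>] s, phi K e f C r = Q.del y ^ sgn K f ⌊s⌋ ⌊s'⌋ • a) ∧
      ∀ᶠ r in 𝓝[<] s', phi K e f C r = y := by
  obtain ⟨m1, m2, hh, i1, i2, ha, hb, hd⟩ := under_data hf hP hs
  obtain ⟨x, y, hy, hx1, hx2⟩ := hC.jump ⌊s⌋ ⌊s'⌋ _ i1 i2 ha hb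
  rw [← hh] at hy
  have hy' := (both hP C m2.1 m2.2 hy).1
  have hsg := sgn_eq hP ⌊s⌋ ⌊s'⌋ hd
  rcases lt_or_gt_of_ne ((sweepOf K e f hP).hne ⌊s⌋) with hdd | hdd
  · refine ⟨x, y, up_lt hP C m1.1 m1.2 hdd hx1, ?_, hy'⟩
    have he : (sweepOf K e f hP).eps ⌊s⌋ = 1 := by unfold Sweep.eps; rw [if_pos hdd]
    rw [hsg, he, one_mul]
    exact up_gt hP C m1.1 m1.2 hdd hx2
  · have he : (sweepOf K e f hP).eps ⌊s⌋ = -1 := by unfold Sweep.eps; rw [if_neg hdd.le.not_gt]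
    refine ⟨_, y, down_lt hP C m1.1 m1.2 hdd hx2, ?_, hy'⟩
    rw [hsg, he, smul_smul, ← zpow_add]
    have : ∀ m : ℤ, -1 * m + m = 0 := by intro m; ring
    rw [this, zpow_zero, one_smul]
    exact down_gt hP C m1.1 m1.2 hdd hx1

/-- finitely many undercrossings on an edge -/
theorem finite_under (hf : View K f) (j : ℤ) :
    {s : ℝ | ⌊s⌋ = j ∧ ∃ s', Over K f s s'}.Finite := by
  refine ((Finset.range K.n).finite_toSet.image (fun l : ℕ => (j : ℝ) + xpos K f j l)).subset ?_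
  rintro s ⟨hj, s', hs'⟩
  obtain ⟨-, hx, -⟩ := (hf.over_iff s s').1 hs'
  rw [hj] at hx
  have hn : (0 : ℤ) < K.n := by have := K.three; omega
  have hmod := Int.emod_nonneg ⌊s'⌋ hn.ne'
  have hmod' := Int.emod_lt_of_pos ⌊s'⌋ hn
  refine ⟨(⌊s'⌋ % K.n).toNat, ?_, ?_⟩
  · simp only [Finset.coe_range, Set.mem_Iio]
    omega
  · have h1 : (((⌊s'⌋ % K.n).toNat : ℕ) : ℤ) = ⌊s'⌋ % K.n := Int.toNat_of_nonneg hmod
    show (j : ℝ) + xpos K f j (((⌊s'⌋ % K.n).toNat : ℕ) : ℤ) = s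
    rw [h1]
    have h2 := xpos_shift K f j (⌊s'⌋ % K.n) 0 (⌊s'⌋ / K.n)
    have h3 : ⌊s'⌋ % (K.n : ℤ) + ⌊s'⌋ / K.n * K.n = ⌊s'⌋ := by
      have := Int.emod_add_mul_ediv ⌊s'⌋ (K.n : ℤ)
      linarith [mul_comm (⌊s'⌋ / (K.n : ℤ)) (K.n : ℤ)]
    rw [h3, zero_mul, add_zero] at h2
    rw [← h2, ← hx, ← hj]
    exact Int.floor_add_fract s

end T2

variable {Y G : Type*} [Group G] [MulAction G Y]

/-- SBI-7c. [Let `φ s = C ⌊s⌋ (hgt e f (gam K s))`. By `FCol'` the function `φ` has at every `s` an eventual value on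
the left and one on the right: at `s = j + x`, `0 < x < 1`, from `cst` or `jump` at the height of `gam K s`; at integers
from `vertex`. Let `c s` be the eventual value of `φ` on `𝓝[<] s`. Then `c` has the same eventual values on both
sides (`eventually_eventually_nhdsWithin`), and `c s` is the common value if `s` is not an undercrossing in the view `f`. An
undercrossing `Over K f s s'` is an `f`-coincidence of the strands `⌊s⌋`, `⌊s'⌋` (`par_hgt`, interior by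
`Good.vertA`); the sign is computed with `det3_f_eq`: `det3 f E_j E_k = hgt E_j * hgt E_k * (sa j - sa k)`; if
`eps j = 1` the side before `s` is the side below, if `eps j = -1` it is the side above.
The last statement: choose `r < t` close to `t`, such that `C j` is constant near `r` and `par S j r` is not an
undercrossing (there are only finitely many of them on an edge: `View.over_iff`).] -/
theorem fcol_of_fcol' (Q : AQ Y G) (K : PolyKnot) (e f : E3) (he : View K e) (hf : View K f)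
    (hP : PairGen K e f) (C : ℤ → ℝ → Y) (hC : (sweepOf K e f hP).FCol' Q C) :
    ∃ c, FCol Q K f c ∧ ∀ j t x, (sweepOf K e f hP).Ins j t → (∀ᶠ r in 𝓝[<] t, C j r = x) →
      ∃ s, (∀ s', ¬ Over K f s s') ∧ c s = x := by
  have hL : ∀ s, ∃ a, ∀ᶠ r in 𝓝[<] s, T2.phi K e f C r = a := by
    intro s
    by_cases h : ∃ s', Over K f s s'
    · obtain ⟨s', hs'⟩ := h
      obtain ⟨a, y, h1, -, -⟩ := T2.side_under Q hf hP C hC s s' hs'
      exact ⟨a, h1⟩
    · push Not at h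
      obtain ⟨x, h1, -⟩ := T2.side_free Q hf hP C hC s h
      exact ⟨x, h1⟩
  choose c hc using hL
  have cL : ∀ s a, (∀ᶠ r in 𝓝[<] s, T2.phi K e f C r = a) → c s = a := by
    intro s a h
    obtain ⟨r, h1, h2⟩ := ((hc s).and h).exists
    rw [← h1, h2]
  have cl : ∀ s a, (∀ᶠ r in 𝓝[<] s, T2.phi K e f C r = a) → ∀ᶠ r in 𝓝[<] s, c r = a := by
    intro s a h
    have h1 := eventually_eventually_nhdsWithin.2 h
    filter_upwards [h1, self_mem_nhdsWithin] with r hr hrs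
    rw [isOpen_Iio.nhdsWithin_eq hrs] at hr
    exact cL r a (hr.filter_mono nhdsWithin_le_nhds)
  have cr : ∀ s a, (∀ᶠ r in 𝓝[>] s, T2.phi K e f C r = a) → ∀ᶠ r in 𝓝[>] s, c r = a := by
    intro s a h
    have h1 := eventually_eventually_nhdsWithin.2 h
    filter_upwards [h1, self_mem_nhdsWithin] with r hr hrs
    rw [isOpen_Ioi.nhdsWithin_eq hrs] at hr
    exact cL r a (hr.filter_mono nhdsWithin_le_nhds)
  refine ⟨c, ⟨?_, ?_, ?_⟩, ?_⟩
  · intro s
    apply cL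
    have hper : ∀ r, T2.phi K e f C (r + K.n) = Q.tau (T2.phi K e f C r) := by
      intro r
      unfold T2.phi
      rw [gam_per, show ⌊r + (K.n : ℝ)⌋ = ⌊r⌋ + (K.n : ℤ) by exact_mod_cast Int.floor_add_natCast r K.n]
      exact hC.per _ _
    have hmap : Tendsto (fun r : ℝ => r - K.n) (𝓝[<] (s + K.n)) (𝓝[<] s) := by
      refine tendsto_nhdsWithin_iff.2 ⟨?_, ?_⟩
      · have h1 : Continuous (fun r : ℝ => r - K.n) := by fun_prop
        have h2 := (h1.tendsto (s + K.n)).mono_left (nhdsWithin_le_nhds (s := Set.Iio (s + (K.n : ℝ))))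
        simpa using h2
      · filter_upwards [self_mem_nhdsWithin] with r hr
        have hr' : r < s + K.n := hr
        show r - K.n < s
        linarith
    filter_upwards [hmap.eventually (hc s)] with r hr
    have h1 := hper (r - K.n)
    rw [sub_add_cancel, hr] at h1
    exact h1
  · intro s hs
    obtain ⟨x, h1, h2⟩ := T2.side_free Q hf hP C hC s hs
    have h3 := cL s x h1
    have h4 : ∀ᶠ r in 𝓝[≠] s, c r = x := by
      rw [← nhdsLT_sup_nhdsGT, eventually_sup]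
      exact ⟨cl s x h1, cr s x h2⟩
    rw [eventually_nhdsWithin_iff] at h4
    filter_upwards [h4] with r hr
    by_cases hrs : r = s
    · rw [hrs]
    · rw [hr hrs, h3]
  · intro s s' hs
    obtain ⟨a, y, h1, h2, h3⟩ := T2.side_under Q hf hP C hC s s' hs
    refine ⟨a, cl s a h1, ?_⟩
    rw [cL s' y h3]
    exact cr s _ h2
  · intro j t x hj hx
    set S := sweepOf K e f hP with hS
    set s0 := par S j t with hs0
    have hmem := par_mem_Ioo S j t hj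
    rw [← hs0] at hmem
    have hh0 : hgt e f (gam K s0) = t := (gam_par K e f hP j t ⟨hj.1.le, hj.2.le⟩).1
    have hU := T2.finite_under (K := K) (f := f) hf j
    have hU' : ∀ᶠ r in 𝓝[≠] s0, r ∉ {s : ℝ | ⌊s⌋ = j ∧ ∃ s', Over K f s s'} := by
      have h1 : ({s : ℝ | ⌊s⌋ = j ∧ ∃ s', Over K f s s'} \ {s0}).Finite := hU.subset Set.sdiff_subset
      have h2 : ({s : ℝ | ⌊s⌋ = j ∧ ∃ s', Over K f s s'} \ {s0})ᶜ ∈ 𝓝 s0 :=
        h1.isClosed.isOpen_compl.mem_nhds (fun h => h.2 rfl)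
      filter_upwards [nhdsWithin_le_nhds h2, self_mem_nhdsWithin] with r hr1 hr2 hr3
      exact hr1 ⟨hr3, hr2⟩
    have hfl : ∀ᶠ r in 𝓝 s0, ⌊r⌋ = j := by
      filter_upwards [Ioo_mem_nhds hmem.1 hmem.2] with r hr
      exact Int.floor_eq_iff.2 ⟨hr.1.le, hr.2⟩
    have hfin : ∀ F : Filter ℝ, F.NeBot → F ≤ 𝓝[≠] s0 → (∀ᶠ r in F, c r = x) →
        ∃ s, (∀ s', ¬ Over K f s s') ∧ c s = x := by
      intro F hF hle hcx
      have h1 : ∀ᶠ r in F, r ∉ {s : ℝ | ⌊s⌋ = j ∧ ∃ s', Over K f s s'} := hU'.filter_mono hle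
      have h2 : ∀ᶠ r in F, ⌊r⌋ = j := hfl.filter_mono (hle.trans nhdsWithin_le_nhds)
      obtain ⟨r, hr1, hr2, hr3⟩ := (hcx.and (h1.and h2)).exists
      exact ⟨r, fun s' hs' => hr2 ⟨hr3, s', hs'⟩, hr1⟩
    rw [← hh0] at hx
    rcases lt_or_gt_of_ne (S.hne j) with hd | hd
    · exact hfin (𝓝[<] s0) inferInstance (nhdsLT_le_nhdsNE _)
        (cl s0 x (T2.up_lt hP C hmem.1 hmem.2 hd hx))
    · exact hfin (𝓝[>] s0) inferInstance (nhdsGT_le_nhdsNE _)
        (cr s0 x (T2.down_gt hP C hmem.1 hmem.2 hd hx))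

end Pool.Agent.helper43.SBI
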