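import Pool.Agent.helper43.SBI.NewCol
import Pool.Agent.helper43.SBI.Transl1
import Pool.Agent.helper43.SBI.Transl2
import Pool.Agent.helper43.SBI.Generic
import Pool.Agent.helper43.SBI.TForm1
import Pool.Agent.helper43.SBI.TForm2

set_option autoImplicit false

/-!
# Change of the view
-/

namespace Pool.Agent.helper43.SBI

open Pool.Agent.helper82.SB Filter Topology

variable {Y G : Type*} [Group G] [MulAction G Y]

theorem HasFull.change {Q : AQ Y G} {F : Set (Set Y)} (hF : ClosedFam Q F) {K : PolyKnot} {e f : E3}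
    (h : HasFull Q F K e) (hf : View K f) (hP : PairGen K e f) : HasFull Q F K f := by
  obtain ⟨he, c, hc, hfull⟩ := h
  have hgood := good_sweepOf K e f he hf hP
  have hE := ecol_of_fcol Q K e f he hf hP c hc
  obtain ⟨c', hc', hval⟩ := fcol_of_fcol' Q K e f he hf hP _ (Sweep.fcol'_newC hgood Q _ hE)
  refine ⟨hf, c', hc', ?_⟩
  intro A hA
  obtain ⟨j, t, x, h1, h2, h3⟩ := Sweep.full_newC hgood Q _ hE A (hF A hA)
    (efull_of_ffull Q K e f he hf hP c hc F hfull A hA)
  obtain ⟨s, hs, hx⟩ := hval j t x h1 h3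
  exact ⟨s, hs, hx ▸ h2⟩

/-- The existence of a full colouring does not depend on the view. -/
theorem HasFull.all_views {Q : AQ Y G} {F : Set (Set Y)} (hF : ClosedFam Q F) {K : PolyKnot}
    {e f : E3} (h : HasFull Q F K e) (hf : View K f) : HasFull Q F K f := by
  classical
  obtain ⟨g, hg, hg'⟩ := (dense_pairGen K {e, f} (by
    intro v hv
    simp only [Finset.mem_insert, Finset.mem_singleton] at hv
    rcases hv with rfl | rfl
    · exact h.1
    · exact hf)).nonempty
  exact (h.change hF hg (hg' e (by simp))).change hF hf (hg' f (by simp)).symm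

theorem hasFull_iff {Q : AQ Y G} {F : Set (Set Y)} {K : PolyKnot} {e : E3} (hV : View K e) :
    HasFull Q F K e ↔ ∃ T, IsColoring Q K e T ∧ Full F K e T := by
  constructor
  · rintro ⟨-, c, hc, hfull⟩
    obtain ⟨T, h1, h2⟩ := isColoring_of_fcol Q K e hV c hc
    exact ⟨T, h1, h2 F hfull⟩
  · rintro ⟨T, h1, h2⟩
    exact ⟨hV, _, fcol_of_isColoring Q K e hV T h1, ffull_of_full K e hV T F h2⟩

end Pool.Agent.helper43.SBI
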